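import Mathlib

set_option autoImplicit false

/-! Two-sided search, and decidability of the existence of a nonempty accepted word for automata
given by a transition table. -/

namespace Pool.Agent.Lib.helper21.Dfa

open Primrec

theorem re_exists {α β : Type} [Primcodable α] [Denumerable β] {P : α → β → Prop}
    (hP : PrimrecRel P) : REPred fun a => ∃ b, P a b := by
  classical
  have h : Partrec fun a => Nat.rfind fun n => (Part.some (decide (P a (Denumerable.ofNat β n)))) :=
    Partrec.rfind (hP.decide.comp fst ((Primrec.ofNat β).comp snd)).to_comp.partrec.to₂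
  refine h.dom_re.of_eq fun a => ?_
  rw [Nat.rfind_dom]
  constructor
  · rintro ⟨n, h1, -⟩
    exact ⟨_, by simpa using h1⟩
  · rintro ⟨b, hb⟩
    exact ⟨Encodable.encode b, by simpa using hb, fun _ => trivial⟩

theorem dec_of_two {α β γ : Type} [Primcodable α] [Denumerable β] [Denumerable γ] {p : α → Prop}
    {P : α → β → Prop} {N : α → γ → Prop} (hP : PrimrecRel P) (hN : PrimrecRel N)
    (h1 : ∀ a, p a ↔ ∃ b, P a b) (h2 : ∀ a, ¬ p a ↔ ∃ b, N a b) : ComputablePred p :=
  ComputablePred.computable_iff_re_compl_re'.2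
    ⟨(re_exists hP).of_eq fun a => (h1 a).symm, (re_exists hN).of_eq fun a => (h2 a).symm⟩

theorem prim_mem : PrimrecRel fun (a : ℕ) (l : List ℕ) => a ∈ l :=
  ((PrimrecRel.exists_mem_list (R := fun (x y : ℕ) => x = y) Primrec.eq).comp snd fst).of_eq
    (by simp)

def dl (T : List (List ℕ)) (q a : ℕ) : ℕ := (T.getD q []).getD a 0

theorem prim_dl {α : Type} [Primcodable α] {T : α → List (List ℕ)} {q a : α → ℕ} (hT : Primrec T)
    (hq : Primrec q) (ha : Primrec a) : Primrec fun x => dl (T x) (q x) (a x) :=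
  (list_getD 0).comp ((list_getD []).comp hT hq) ha

theorem dfa_nonempty : ComputablePred fun z : (List (List ℕ) × List ℕ) × ℕ =>
    ∃ w : List ℕ, w ≠ [] ∧ (∀ a ∈ w, a < z.2) ∧ w.foldl (dl z.1.1) 0 ∈ z.1.2 := by
  refine dec_of_two (N := fun z (R : List ℕ) => (∀ a ∈ List.range z.2, dl z.1.1 0 a ∈ R) ∧
    (∀ q ∈ R, ∀ a ∈ List.range z.2, dl z.1.1 q a ∈ R) ∧ ∀ q ∈ R, q ∉ z.1.2) ?_ ?_
    (fun _ => Iff.rfl) ?_
  · refine PrimrecPred.and (.not (Primrec.eq.comp snd (const []))) (.and ?_ ?_)
    · exact (PrimrecRel.forall_mem_list (R := fun (x y : ℕ) => x < y) nat_lt).comp snd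
        (snd.comp fst)
    · exact prim_mem.comp (list_foldl snd (const 0) (prim_dl (fst.comp (fst.comp (fst.comp fst)))
        (fst.comp snd) (snd.comp snd)).to₂) (snd.comp (fst.comp fst))
  · refine PrimrecPred.and ?_ (.and ?_ ?_)
    · exact (PrimrecRel.forall_mem_list
        (R := fun (a : ℕ) (y : ((List (List ℕ) × List ℕ) × ℕ) × List ℕ) => dl y.1.1.1 0 a ∈ y.2)
        (prim_mem.comp (prim_dl (fst.comp (fst.comp (fst.comp snd))) (const 0) fst)
          (snd.comp snd))).comp (list_range.comp (snd.comp fst)) Primrec.id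
    · refine (PrimrecRel.forall_mem_list
        (R := fun (q : ℕ) (y : ((List (List ℕ) × List ℕ) × ℕ) × List ℕ) =>
          ∀ a ∈ List.range y.1.2, dl y.1.1.1 q a ∈ y.2) ?_).comp snd Primrec.id
      exact (PrimrecRel.forall_mem_list
        (R := fun (a : ℕ) (y : ℕ × ((List (List ℕ) × List ℕ) × ℕ) × List ℕ) =>
          dl y.2.1.1.1 y.1 a ∈ y.2.2)
        (prim_mem.comp (prim_dl (fst.comp (fst.comp (fst.comp (snd.comp snd)))) (fst.comp snd) fst)
          (snd.comp (snd.comp snd)))).comp (list_range.comp (snd.comp (fst.comp snd))) Primrec.id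
    · exact (PrimrecRel.forall_mem_list
        (R := fun (q : ℕ) (y : ((List (List ℕ) × List ℕ) × ℕ) × List ℕ) => q ∉ y.1.1.2)
        (PrimrecPred.not (prim_mem.comp fst (snd.comp (fst.comp (fst.comp snd)))))).comp snd
        Primrec.id
  · rintro ⟨⟨T, F⟩, k⟩
    simp only [List.mem_range]
    constructor
    · intro h
      have hfin : {q | ∃ w : List ℕ, w ≠ [] ∧ (∀ a ∈ w, a < k) ∧ w.foldl (dl T) 0 = q}.Finite := by
        refine ((0 :: T.flatten).finite_toSet).subset ?_
        rintro _ ⟨w, h1, -, rfl⟩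
        obtain ⟨w, a, rfl⟩ := (List.eq_nil_or_concat' w).resolve_left h1
        rw [List.foldl_append, List.foldl_cons, List.foldl_nil]
        generalize w.foldl (dl T) 0 = q
        simp only [dl, List.getD_eq_getElem?_getD, Set.mem_ofPred_eq, List.mem_cons,
          List.mem_flatten]
        rcases e : T[q]? with _ | row
        · simp
        · rcases e' : row[a]? with _ | y
          · simp [e']
          · exact Or.inr ⟨row, List.mem_of_getElem? e, by simpa [e'] using List.mem_of_getElem? e'⟩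
      refine ⟨hfin.toFinset.toList, ?_⟩
      simp only [Finset.mem_toList, Set.Finite.mem_toFinset, Set.mem_ofPred_eq]
      refine ⟨fun a ha => ⟨[a], by simp, by simpa using ha, rfl⟩, ?_, ?_⟩
      · rintro _ ⟨w, h1, h2, rfl⟩ a ha
        refine ⟨w ++ [a], by simp, fun b hb => ?_, by simp⟩
        rcases List.mem_append.1 hb with hb | hb
        · exact h2 b hb
        · rw [List.mem_singleton.1 hb]; exact ha
      · rintro _ ⟨w, h1, h2, rfl⟩ h3
        exact h ⟨w, h1, h2, h3⟩
    · rintro ⟨R, h1, h2, h3⟩ ⟨w, h4, h5, h6⟩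
      obtain ⟨a, w, rfl⟩ := List.exists_cons_of_ne_nil h4
      have : ∀ (w : List ℕ) q, q ∈ R → (∀ a ∈ w, a < k) → w.foldl (dl T) q ∈ R := by
        intro w
        induction w with
        | nil => exact fun q h _ => h
        | cons b w ih =>
          exact fun q h h' => ih _ (h2 q h b (h' b List.mem_cons_self))
            fun c hc => h' c (List.mem_cons_of_mem _ hc)
      exact h3 _ (this w _ (h1 a (h5 a List.mem_cons_self))
        fun c hc => h5 c (List.mem_cons_of_mem _ hc)) h6

end Pool.Agent.Lib.helper21.Dfa
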