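import Mathlib

set_option autoImplicit false

/-! Counter programs (inc, dec, seq, loop) with a big-step relation; every primitive recursive
function is computed by one, and every r.e. set is the halting set of one. -/

namespace Pool.Agent.Lib.helper21.While

open Function

inductive Prog : Type
  | inc : ℕ → Prog
  | dec : ℕ → Prog
  | seq : Prog → Prog → Prog
  | loop : ℕ → Prog → Prog
  deriving DecidableEq

abbrev St : Type := ℕ → ℕ

inductive Run : Prog → St → St → Prop
  | inc (r : ℕ) (s : St) : Run (.inc r) s (update s r (s r + 1))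
  | dec (r : ℕ) (s : St) : Run (.dec r) s (update s r (s r - 1))
  | seq {p q : Prog} {s t u : St} : Run p s t → Run q t u → Run (.seq p q) s u
  | stop {r : ℕ} (p : Prog) {s : St} : s r = 0 → Run (.loop r p) s s
  | go {r : ℕ} {p : Prog} {s t u : St} : s r ≠ 0 → Run p s t → Run (.loop r p) t u →
      Run (.loop r p) s u

theorem Run.det {p : Prog} {s t : St} (h : Run p s t) : ∀ {u : St}, Run p s u → t = u := by
  induction h with
  | inc => intro u h; cases h; rfl
  | dec => intro u h; cases h; rfl
  | seq _ _ ih1 ih2 =>
    intro u h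
    cases h with
    | seq a b => exact ih2 (ih1 a ▸ b)
  | stop p h0 =>
    intro u h
    cases h with
    | stop => rfl
    | go a => exact absurd h0 a
  | go h0 _ _ ih1 ih2 =>
    intro u h
    cases h with
    | stop _ a => exact absurd a h0
    | go _ a b => exact ih2 (ih1 a ▸ b)

theorem Run.of_eq {p : Prog} {s t u : St} (h : Run p s t) (e : ∀ r, t r = u r) : Run p s u :=
  funext e ▸ h

theorem Run.iter (r : ℕ) (p : Prog) (n : ℕ) (f : ℕ → St) (h0 : f n r = 0)
    (h : ∀ k < n, f k r ≠ 0 ∧ Run p (f k) (f (k + 1))) : Run (.loop r p) (f 0) (f n) := by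
  induction n generalizing f with
  | zero => exact .stop p h0
  | succ n ih =>
    exact .go (h 0 n.succ_pos).1 (h 0 n.succ_pos).2
      (ih (fun k => f (k + 1)) h0 (fun k hk => h (k + 1) (by omega)))

def clr (r : ℕ) : Prog := .loop r (.dec r)

theorem run_clr (r : ℕ) (s : St) : Run (clr r) s (update s r 0) := by
  have := Run.iter r (.dec r) (s r) (fun k => update s r (s r - k)) (by simp) (fun k hk =>
    ⟨by simp; omega, (Run.dec r _).of_eq (fun x => by
      simp only [update_apply]; split_ifs <;> omega)⟩)
  simpa [clr] using this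

def mov (a b : ℕ) : Prog := .loop a (.seq (.dec a) (.inc b))

theorem run_mov {a b : ℕ} (hab : a ≠ b) (s : St) :
    Run (mov a b) s (update (update s a 0) b (s b + s a)) := by
  have := Run.iter a (.seq (.dec a) (.inc b)) (s a)
    (fun k => update (update s a (s a - k)) b (s b + k)) (by simp [hab]) (fun k hk =>
    ⟨by simp [hab]; omega, (Run.seq (Run.dec a _) (Run.inc b _)).of_eq (fun x => by
      simp only [update_apply]; split_ifs <;> omega)⟩)
  simpa [mov] using this

def cpy (a b t : ℕ) : Prog := .seq (.loop a (.seq (.dec a) (.seq (.inc b) (.inc t)))) (mov t a)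

theorem run_cpy {a b t : ℕ} (hab : a ≠ b) (hat : a ≠ t) (hbt : b ≠ t) (s : St) (ht : s t = 0) :
    Run (cpy a b t) s (update s b (s b + s a)) := by
  have := Run.iter a (.seq (.dec a) (.seq (.inc b) (.inc t))) (s a)
    (fun k => update (update (update s a (s a - k)) b (s b + k)) t k) (by simp [hab, hat])
    (fun k hk => ⟨by simp [hab, hat]; omega,
      (Run.seq (Run.dec a _) (Run.seq (Run.inc b _) (Run.inc t _))).of_eq (fun x => by
      simp only [update_apply]; split_ifs <;> omega)⟩)
  have e : (update (update (update s a (s a - 0)) b (s b + 0)) t 0) = s := by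
    simp [ht]
  rw [e] at this
  refine (Run.seq this (run_mov hat.symm _)).of_eq (fun x => ?_)
  simp only [update_apply]; split_ifs <;> subst_vars <;> omega

theorem prim_prog {n : ℕ} {f : List.Vector ℕ n → ℕ} (hf : Nat.Primrec' f) :
    ∀ (inp : Fin n → ℕ) (out N : ℕ), (∀ i, inp i < N) → out < N → (∀ i, inp i ≠ out) →
      ∃ P : Prog, ∀ s : St, (∀ r, N ≤ r → s r = 0) →
        Run P s (update s out (s out + f (List.Vector.ofFn fun i => s (inp i)))) := by
  induction hf with
  | zero =>
    intro inp out N _ _ _
    exact ⟨clr N, fun s hs => by simpa [clr] using Run.stop _ (hs N le_rfl)⟩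
  | succ =>
    intro inp out N h1 h2 h3
    refine ⟨.seq (cpy (inp 0) out N) (.inc out), fun s hs => (Run.seq (run_cpy (h3 0) (h1 0).ne h2.ne
      s (hs N le_rfl)) (Run.inc _ _)).of_eq (fun x => ?_)⟩
    simp only [update_apply, List.Vector.head_ofFn]; split_ifs <;> omega
  | get i =>
    intro inp out N h1 h2 h3
    exact ⟨cpy (inp i) out N, fun s hs => by
      simpa using run_cpy (h3 i) (h1 i).ne h2.ne s (hs N le_rfl)⟩
  | @comp m n f g _ _ ihf ihg =>
    intro inp out N h1 h2 h3
    have fill : ∀ j ≤ n, ∃ P : Prog, ∀ s : St, (∀ r, N ≤ r → s r = 0) → Run P s (fun r =>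
        if h : N ≤ r ∧ r - N < j ∧ r - N < n then
          g ⟨r - N, h.2.2⟩ (List.Vector.ofFn fun i => s (inp i)) else s r) := by
      intro j
      induction j with
      | zero => exact fun _ => ⟨clr N, fun s hs => by simpa [clr] using Run.stop _ (hs N le_rfl)⟩
      | succ j ih =>
        intro hj
        obtain ⟨P, hP⟩ := ih (by omega)
        obtain ⟨Q, hQ⟩ := ihg ⟨j, hj⟩ inp (N + j) (N + n) (fun i => by have := h1 i; omega)
          (by omega) (fun i => by have := h1 i; omega)
        refine ⟨.seq P Q, fun s hs => (Run.seq (hP s hs) (hQ _ (fun r hr => ?_))).of_eq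
          (fun x => ?_)⟩
        · rw [dif_neg (by omega)]; exact hs r (by omega)
        · have e : ∀ i, ¬ N ≤ inp i := fun i => by have := h1 i; omega
          simp only [update_apply, e, false_and, dif_neg, not_false_iff]
          split_ifs with a b c d e' <;> try omega
          · subst a
            simp [hs (N + j) (by omega)]
    have wipe : ∀ j, ∃ P : Prog, ∀ s : St, Run P s (fun r =>
        if N ≤ r ∧ r ≤ N + j then 0 else s r) := by
      intro j
      induction j with
      | zero => exact ⟨clr N, fun s => (run_clr N s).of_eq (fun x => by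
          simp only [update_apply]; split_ifs <;> omega)⟩
      | succ j ih =>
        obtain ⟨P, hP⟩ := ih
        exact ⟨.seq P (clr (N + j + 1)), fun s => (Run.seq (hP s) (run_clr _ _)).of_eq (fun x => by
          simp only [update_apply]; split_ifs <;> omega)⟩
    obtain ⟨P, hP⟩ := fill n le_rfl
    obtain ⟨Q, hQ⟩ := ihf (fun i => N + i) out (N + n) (fun i => by have := i.2; omega) (by omega)
      (fun i => by omega)
    obtain ⟨R, hR⟩ := wipe n
    refine ⟨.seq P (.seq Q R), fun s hs => (Run.seq (hP s hs) (Run.seq (hQ _ (fun r hr => ?_))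
      (hR _))).of_eq (fun x => ?_)⟩
    · rw [dif_neg (by omega)]; exact hs r (by omega)
    · have e : ¬ N ≤ out := by omega
      simp only [update_apply, e, false_and, dif_neg, not_false_iff, Nat.le_add_right,
        Nat.add_sub_cancel_left, Fin.is_lt, and_self, dif_pos, Fin.eta]
      split_ifs with a b c d <;> try omega
      · exact (hs x a.1).symm
  | @prec n f g _ _ ihf ihg =>
    intro inp out N h1 h2 h3
    obtain ⟨P, hP⟩ := ihf (fun i => inp i.succ) N (N + 4) (fun i => by have := h1 i.succ; omega)
      (by omega) (fun i => by have := h1 i.succ; omega)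
    obtain ⟨Q, hQ⟩ := ihg (Fin.cons (N + 1) (Fin.cons N (fun i => inp i.succ))) (N + 3) (N + 4)
      (Fin.cases (by simp) (Fin.cases (by simp) (fun i => by have := h1 i.succ; simp; omega)))
      (by omega)
      (Fin.cases (by simp) (Fin.cases (by simp) (fun i => by have := h1 i.succ; simp; omega)))
    refine ⟨.seq P (.seq (cpy (inp 0) (N + 2) (N + 4)) (.seq (.loop (N + 2) (.seq (.dec (N + 2))
      (.seq Q (.seq (clr N) (.seq (mov (N + 3) N) (.inc (N + 1))))))) (.seq (clr (N + 1))
      (mov N out)))), fun s hs => ?_⟩
    have i0 := h1 0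
    let tl : List.Vector ℕ n := List.Vector.ofFn fun i => s (inp i.succ)
    let F : ℕ → ℕ := fun k => Nat.rec (f tl) (fun y IH => g (y ::ᵥ IH ::ᵥ tl)) k
    let S : ℕ → St := fun k => update (update (update s N (F k)) (N + 1) k) (N + 2) (s (inp 0) - k)
    have z0 := hs N le_rfl
    have z1 := hs (N + 1) (by omega)
    have z2 := hs (N + 2) (by omega)
    have z3 := hs (N + 3) (by omega)
    have lp := Run.iter (N + 2) (.seq (.dec (N + 2))
      (.seq Q (.seq (clr N) (.seq (mov (N + 3) N) (.inc (N + 1)))))) (s (inp 0)) S (by simp [S])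
      (fun k hk => ⟨by simp [S]; omega, (Run.seq (Run.dec _ _) (Run.seq (hQ _ (fun r hr => by
        simp only [S, update_apply]; split_ifs <;> first | omega | exact hs r (by omega)))
        (Run.seq (run_clr _ _) (Run.seq (run_mov (by omega) _) (Run.inc _ _))))).of_eq (fun x => by
          have e : (List.Vector.ofFn fun i => update (S k) (N + 2) (S k (N + 2) - 1)
              ((Fin.cons (N + 1) (Fin.cons N (fun i => inp i.succ)) : Fin (n + 2) → ℕ) i)) =
              k ::ᵥ F k ::ᵥ tl := by
            refine List.Vector.ext (Fin.cases (by simp [S]) (Fin.cases (by simp [S]; rfl) (fun i => ?_)))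
            have := h1 i.succ
            simp only [List.Vector.get_ofFn, Fin.cons_succ, List.Vector.get_cons_succ, tl, S,
              update_apply]
            split_ifs <;> omega
          rw [e]
          have e2 : g (k ::ᵥ F k ::ᵥ tl) = F (k + 1) := rfl
          rw [e2]
          simp only [S, update_apply]; split_ifs <;> subst_vars <;> omega)⟩)
    have e0 : ∀ x, update (update s N (s N + f tl)) (N + 2) (update s N (s N + f tl) (N + 2) +
        update s N (s N + f tl) (inp 0)) x = S 0 x := by
      intro x
      have : F 0 = f tl := rfl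
      simp only [S, update_apply]; split_ifs <;> subst_vars <;> omega
    refine (Run.seq (hP s (fun r hr => hs r (by omega))) (Run.seq ((run_cpy (by omega) (by omega)
      (by omega) _ (by simp [hs (N + 4) (by omega)])).of_eq e0) (Run.seq lp (Run.seq (run_clr _ _)
      (run_mov (by omega) _))))).of_eq (fun x => ?_)
    have e1 : (List.Vector.ofFn fun i => s (inp i)).tail = tl := by simp [tl]
    have e2 : Nat.rec (f tl) (fun y IH => g (y ::ᵥ IH ::ᵥ tl)) (s (inp 0)) = F (s (inp 0)) := rfl
    simp only [List.Vector.head_ofFn, e1, e2, S, update_apply]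
    split_ifs <;> subst_vars <;> omega

/-- The start state: n in register 0. -/
def init (n : ℕ) : St := update (fun _ => 0) 0 n

theorem search_prog {g : ℕ → ℕ → ℕ} (hg : Primrec₂ g) :
    ∃ P : Prog, ∀ n, (∃ t, Run P (init n) t) ↔ ∃ k, g n k = 0 := by
  obtain ⟨Q, hQ⟩ := prim_prog (Nat.Primrec'.prim_iff₂.2 hg) ![0, 1] 2 3 (by decide) (by decide)
    (by decide)
  let B : Prog := .seq (clr 2) (.seq Q (.inc 1))
  let S : ℕ → ℕ → ℕ → St := fun n k v => update (update (init n) 1 k) 2 v
  have hB : ∀ n k v, Run B (S n k v) (S n (k + 1) (g n k)) := fun n k v =>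
    (Run.seq (run_clr _ _) (Run.seq (hQ _ (fun r hr => by
      simp only [S, init, update_apply]; split_ifs <;> omega)) (Run.inc _ _))).of_eq (fun x => by
        have e : (List.Vector.ofFn fun i => update (S n k v) 2 0 (![0, 1] i)).tail.head = k := by
          simp [S]
        have e' : (List.Vector.ofFn fun i => update (S n k v) 2 0 (![0, 1] i)).head = n := by
          simp [S, init]
        rw [e, e']
        simp only [S, init, update_apply]
        split_ifs <;> omega)
  have e0 : ∀ n x, update (init n) 2 (init n 2 + 1) x = S n 0 1 x := by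
    intro n x
    have : init n 2 = 0 := rfl
    rw [this]
    simp only [S, init, update_apply]; split_ifs <;> omega
  refine ⟨.seq (.inc 2) (.loop 2 B), fun n => ⟨?_, fun h => ?_⟩⟩
  · rintro ⟨t, h⟩
    cases h with
    | seq h1 h2 =>
      rw [h1.det ((Run.inc 2 _).of_eq (e0 n))] at h2
      have key : ∀ (p : Prog) (s t : St), Run p s t → p = .loop 2 B → ∀ k v, s = S n k v → v ≠ 0 →
          ∃ k, g n k = 0 := by
        intro p s t h
        induction h with
        | inc => intro e; cases e
        | dec => intro e; cases e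
        | seq => intro e; cases e
        | stop p h0 =>
          intro e k v e' hv
          cases e
          subst e'
          simp [S, hv] at h0
        | go _ a _ _ ih =>
          intro e k v e' _
          cases e
          subst e'
          by_cases h0 : g n k = 0
          · exact ⟨k, h0⟩
          · exact ih rfl _ _ (a.det (hB n k v)) h0
      exact key _ _ _ h2 rfl 0 1 rfl one_ne_zero
  · classical
    refine ⟨_, Run.seq ((Run.inc 2 _).of_eq (e0 n)) (Run.iter 2 B (Nat.find h + 1)
      (fun k => S n k (Nat.casesOn k 1 (g n))) (by simpa [S] using Nat.find_spec h) ?_)⟩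
    intro k hk
    refine ⟨?_, hB _ _ _⟩
    cases k with
    | zero => simp [S]
    | succ k => simpa [S] using Nat.find_min h (by omega : k < Nat.find h)

theorem exists_undec : ∃ P : Prog, ¬ ComputablePred (fun n => ∃ t, Run P (init n) t) := by
  obtain ⟨P, hP⟩ := search_prog (g := fun n k => Encodable.encode
    (Nat.Partrec.Code.evaln k (Denumerable.ofNat _ n) 0).isNone)
    (Primrec.encode.comp (Primrec.not.comp (Primrec.option_isSome.comp
      (Nat.Partrec.Code.primrec_evaln.comp ((Primrec.snd.pair ((Primrec.ofNat _).comp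
        Primrec.fst)).pair (Primrec.const 0))))) |>.of_eq (fun x => by simp))
  refine ⟨P, fun h => ComputablePred.halting_problem 0 ?_⟩
  refine ComputablePred.of_eq (ComputablePred.computable_of_manyOneReducible
    (ManyOneReducible.mk _ Computable.encode) h) (fun c => ?_)
  rw [hP, Part.dom_iff_mem]
  simp only [Denumerable.ofNat_encode, Nat.Partrec.Code.evaln_complete]
  constructor
  · rintro ⟨k, hk⟩
    cases e : Nat.Partrec.Code.evaln k c 0 with
    | none => rw [e] at hk; exact absurd hk (by decide)
    | some x => exact ⟨x, k, e⟩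
  · rintro ⟨x, k, hk⟩
    exact ⟨k, by rw [show Nat.Partrec.Code.evaln k c 0 = some x from hk]; rfl⟩

end Pool.Agent.Lib.helper21.While
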