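import Mathlib
import Pool.Agent.Lib.helper21.While

set_option autoImplicit false

/-! Finite-state counter machines started on empty counters, with thresholds depending on an
input `n`; one of them has a non-computable halting set. -/

namespace Pool.Agent.Lib.helper21.Mach

open Function Pool.Agent.Lib.helper21.While

structure CM (Q : Type) where
  reg : Q → ℕ
  ld : Q → Bool
  nxt : Q → Bool → Option Q
  eff : Q → Bool → Option Bool
  nodec : ∀ q, eff q true ≠ some false
  start : Q

def app (e : Option Bool) (r : ℕ) (s : St) : St :=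
  match e with
  | none => s
  | some true => update s r (s r + 1)
  | some false => update s r (s r - 1)

variable {Q : Type}

def CM.thr (M : CM Q) (n : ℕ) (q : Q) : ℕ := if M.ld q then n else 0

def CM.tst (M : CM Q) (n : ℕ) (c : Q × St) : Bool := decide (c.2 (M.reg c.1) ≤ M.thr n c.1)

def CM.step (M : CM Q) (n : ℕ) (c : Q × St) : Option (Q × St) :=
  (M.nxt c.1 (M.tst n c)).map fun q => (q, app (M.eff c.1 (M.tst n c)) (M.reg c.1) c.2)

def CM.it (M : CM Q) (n j : ℕ) : Option (Q × St) :=
  (fun o => o.bind (M.step n))^[j] (some (M.start, fun _ => 0))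

theorem CM.it_succ (M : CM Q) (n j : ℕ) : M.it n (j + 1) = (M.it n j).bind (M.step n) :=
  iterate_succ_apply' _ _ _

inductive Halts {C : Type} (f : C → Option C) : C → Prop
  | stop {c : C} : f c = none → Halts f c
  | go {c c' : C} : f c = some c' → Halts f c' → Halts f c

theorem halts_iff {C : Type} (f : C → Option C) (c : C) :
    Halts f c ↔ ∃ j, (fun o => o.bind f)^[j] (some c) = none := by
  constructor
  · intro h
    induction h with
    | stop h => exact ⟨1, h⟩
    | go h _ ih =>
      obtain ⟨j, hj⟩ := ih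
      exact ⟨j + 1, by rw [iterate_succ_apply, Option.bind_some, h, hj]⟩
  · rintro ⟨j, hj⟩
    induction j generalizing c with
    | zero => cases hj
    | succ j ih =>
      rw [iterate_succ_apply, Option.bind_some] at hj
      cases h : f c with
      | none => exact .stop h
      | some c' => exact .go h (ih c' (h ▸ hj))

theorem Halts.next {C : Type} {f : C → Option C} {c c' : C} (h : Halts f c) (e : f c = some c') :
    Halts f c' := by
  cases h with
  | stop h => rw [h] at e; cases e
  | go h h' => rw [h] at e; cases e; exact h'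

open Classical in
noncomputable def CM.res (M : CM Q) (S : Set Q) (h : M.start ∈ S) : CM S where
  reg q := M.reg q
  ld q := M.ld q
  nxt q b := (M.nxt q b).bind fun y => if h : y ∈ S then some ⟨y, h⟩ else none
  eff q := M.eff q
  nodec q := M.nodec q
  start := ⟨_, h⟩

theorem CM.res_it (M : CM Q) (S : Set Q) (h : M.start ∈ S)
    (hS : ∀ q ∈ S, ∀ b y, M.nxt q b = some y → y ∈ S) (n j : ℕ) :
    ((M.res S h).it n j).map (Prod.map Subtype.val id) = M.it n j := by
  induction j with
  | zero => rfl
  | succ j ih =>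
    rw [it_succ, it_succ, ← ih]
    cases (M.res S h).it n j with
    | none => rfl
    | some c =>
      have e : (M.res S h).tst n c = M.tst n (c.1.1, c.2) := rfl
      simp only [Option.bind_some, Option.map_some, CM.step, Prod.map, id, e]
      cases h2 : M.nxt c.1.1 (M.tst n (c.1.1, c.2)) with
      | none => simp [CM.res, h2]
      | some y => simp [CM.res, h2, hS _ c.1.2 _ _ h2]

def M0 (P : Prog) : CM (Option (List Prog)) where
  reg
    | some (.inc r :: _) => r
    | some (.dec r :: _) => r
    | some (.loop r _ :: _) => r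
    | _ => 0
  ld q := q.isNone
  nxt
    | none, true => some none
    | none, false => some (some [P])
    | some [], _ => none
    | some (.inc _ :: k), _ => some (some k)
    | some (.dec _ :: k), _ => some (some k)
    | some (.seq p q :: k), _ => some (some (p :: q :: k))
    | some (.loop _ _ :: k), true => some (some k)
    | some (.loop r p :: k), false => some (some (p :: .loop r p :: k))
  eff
    | none, b => some b
    | some (.inc _ :: _), _ => some true
    | some (.dec _ :: _), false => some false
    | _, _ => none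
  nodec := by rintro (_ | _ | ⟨_ | _ | _ | _, _⟩) <;> simp
  start := none

theorem st_inc (P : Prog) (n r : ℕ) (k : List Prog) (s : St) :
    (M0 P).step n (some (.inc r :: k), s) = some (some k, update s r (s r + 1)) := rfl

theorem st_dec (P : Prog) (n r : ℕ) (k : List Prog) (s : St) :
    (M0 P).step n (some (.dec r :: k), s) = some (some k, update s r (s r - 1)) := by
  by_cases h : s r = 0
  · have : update s r 0 = s := update_eq_self_iff.2 h.symm
    simp [CM.step, CM.tst, CM.thr, M0, h, app, this]
  · simp [CM.step, CM.tst, CM.thr, M0, h, app]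

theorem st_seq (P : Prog) (n : ℕ) (p q : Prog) (k : List Prog) (s : St) :
    (M0 P).step n (some (.seq p q :: k), s) = some (some (p :: q :: k), s) := by
  simp [CM.step, M0, app]

theorem st_stop (P : Prog) (n r : ℕ) (p : Prog) (k : List Prog) (s : St) (h : s r = 0) :
    (M0 P).step n (some (.loop r p :: k), s) = some (some k, s) := by
  simp [CM.step, CM.tst, CM.thr, M0, h, app]

theorem st_go (P : Prog) (n r : ℕ) (p : Prog) (k : List Prog) (s : St) (h : s r ≠ 0) :
    (M0 P).step n (some (.loop r p :: k), s) = some (some (p :: .loop r p :: k), s) := by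
  simp [CM.step, CM.tst, CM.thr, M0, h, app]

theorem halts_of_run (P : Prog) (n : ℕ) {p : Prog} {s t : St} (h : Run p s t) :
    ∀ k, Halts ((M0 P).step n) (some k, t) → Halts ((M0 P).step n) (some (p :: k), s) := by
  induction h with
  | inc r s => exact fun k h => .go (st_inc ..) h
  | dec r s => exact fun k h => .go (st_dec ..) h
  | seq _ _ ih1 ih2 => exact fun k h => .go (st_seq ..) (ih1 _ (ih2 _ h))
  | stop p h0 => exact fun k h => .go (st_stop _ _ _ _ _ _ h0) h
  | go h0 _ _ ih1 ih2 => exact fun k h => .go (st_go _ _ _ _ _ _ h0) (ih1 _ (ih2 _ h))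

def RunL : List Prog → St → Prop
  | [], _ => True
  | p :: k, s => ∃ t, Run p s t ∧ RunL k t

theorem run_of_halts (P : Prog) (n : ℕ) {c : Option (List Prog) × St}
    (h : Halts ((M0 P).step n) c) : ∀ k s, c = (some k, s) → RunL k s := by
  induction h with
  | stop h =>
    rintro (_ | ⟨r | r | ⟨p, q⟩ | ⟨r, p⟩, k⟩) s rfl
    · trivial
    · rw [st_inc] at h; cases h
    · rw [st_dec] at h; cases h
    · rw [st_seq] at h; cases h
    · by_cases h0 : s r = 0
      · rw [st_stop _ _ _ _ _ _ h0] at h; cases h
      · rw [st_go _ _ _ _ _ _ h0] at h; cases h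
  | go h _ ih =>
    rintro (_ | ⟨r | r | ⟨p, q⟩ | ⟨r, p⟩, k⟩) s rfl
    · trivial
    · rw [st_inc] at h; exact ⟨_, .inc .., ih _ _ (Option.some.inj h).symm⟩
    · rw [st_dec] at h; exact ⟨_, .dec .., ih _ _ (Option.some.inj h).symm⟩
    · rw [st_seq] at h
      obtain ⟨t, h1, u, h2, h3⟩ := ih _ _ (Option.some.inj h).symm
      exact ⟨u, .seq h1 h2, h3⟩
    · by_cases h0 : s r = 0
      · rw [st_stop _ _ _ _ _ _ h0] at h
        exact ⟨s, .stop p h0, ih _ _ (Option.some.inj h).symm⟩
      · rw [st_go _ _ _ _ _ _ h0] at h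
        obtain ⟨t, h1, u, h2, h3⟩ := ih _ _ (Option.some.inj h).symm
        exact ⟨u, .go h0 h1 h2, h3⟩

theorem load (P : Prog) (n : ℕ) (d : ℕ) : ∀ i, i + d = n + 1 →
    (Halts ((M0 P).step n) (none, init i) ↔ Halts ((M0 P).step n) (some [P], init n)) := by
  induction d with
  | zero =>
    intro i hi
    have : (M0 P).step n (none, init i) = some (some [P], init n) := by
      have h1 : ¬ i ≤ n := by omega
      have h2 : i - 1 = n := by omega
      simp [CM.step, CM.tst, CM.thr, M0, init, h1, app, h2]
    exact ⟨fun h => h.next this, fun h => .go this h⟩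
  | succ d ih =>
    intro i hi
    have : (M0 P).step n (none, init i) = some (none, init (i + 1)) := by
      have h1 : i ≤ n := by omega
      simp [CM.step, CM.tst, CM.thr, M0, init, h1, app]
    exact Iff.trans ⟨fun h => h.next this, fun h => .go this h⟩ (ih (i + 1) (by omega))

theorem M0_halts (P : Prog) (n : ℕ) : (∃ j, (M0 P).it n j = none) ↔ ∃ t, Run P (init n) t := by
  have e : (fun _ => 0 : St) = init 0 := by simp [init]
  unfold CM.it
  rw [← halts_iff, e]
  refine (load P n (n + 1) 0 (by omega)).trans ⟨fun h => ?_, fun ⟨t, h⟩ => ?_⟩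
  · obtain ⟨t, h, -⟩ := run_of_halts P n h _ _ rfl
    exact ⟨t, h⟩
  · exact halts_of_run P n h [] (.stop rfl)

def cl : Prog → List Prog → List (List Prog)
  | .inc r, k => [.inc r :: k]
  | .dec r, k => [.dec r :: k]
  | .seq p q, k => (.seq p q :: k) :: (cl p (q :: k) ++ cl q k)
  | .loop r p, k => (.loop r p :: k) :: cl p (.loop r p :: k)

theorem self_mem (p : Prog) (k : List Prog) : p :: k ∈ cl p k := by cases p <;> simp [cl]

theorem closed (P p : Prog) : ∀ k, ∀ x ∈ cl p k, ∀ b y, (M0 P).nxt (some x) b = some y →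
    ∃ z, y = some z ∧ (z ∈ cl p k ∨ z = k) := by
  induction p with
  | inc r => intro k x hx b y h; simp only [cl, List.mem_singleton] at hx; subst hx
             exact ⟨k, (Option.some.inj h).symm, Or.inr rfl⟩
  | dec r => intro k x hx b y h; simp only [cl, List.mem_singleton] at hx; subst hx
             exact ⟨k, (Option.some.inj h).symm, Or.inr rfl⟩
  | seq p q ih1 ih2 =>
    intro k x hx b y h
    simp only [cl, List.mem_cons, List.mem_append] at hx ⊢
    rcases hx with rfl | hx | hx
    · exact ⟨_, (Option.some.inj h).symm, Or.inl (Or.inr (Or.inl (self_mem _ _)))⟩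
    · obtain ⟨z, hz, h' | rfl⟩ := ih1 _ x hx b y h
      · exact ⟨z, hz, Or.inl (Or.inr (Or.inl h'))⟩
      · exact ⟨_, hz, Or.inl (Or.inr (Or.inr (self_mem _ _)))⟩
    · obtain ⟨z, hz, h' | rfl⟩ := ih2 _ x hx b y h
      · exact ⟨z, hz, Or.inl (Or.inr (Or.inr h'))⟩
      · exact ⟨_, hz, Or.inr rfl⟩
  | loop r p ih =>
    intro k x hx b y h
    simp only [cl, List.mem_cons] at hx ⊢
    rcases hx with rfl | hx
    · cases b
      · exact ⟨_, (Option.some.inj h).symm, Or.inl (Or.inr (self_mem _ _))⟩
      · exact ⟨_, (Option.some.inj h).symm, Or.inr rfl⟩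
    · obtain ⟨z, hz, h' | rfl⟩ := ih _ x hx b y h
      · exact ⟨z, hz, Or.inl (Or.inr h')⟩
      · exact ⟨_, hz, Or.inl (Or.inl rfl)⟩

theorem exists_cm : ∃ (Q : Type) (_ : Finite Q) (M : CM Q),
    ¬ ComputablePred (fun n => ∃ j, M.it n j = none) := by
  obtain ⟨P, hP⟩ := exists_undec
  let S : Set (Option (List Prog)) := {x | x ∈ none :: some [] :: (cl P []).map some}
  have h0 : (M0 P).start ∈ S := List.mem_cons_self
  refine ⟨S, (List.finite_toSet _).to_subtype, (M0 P).res S h0, fun h => hP (h.of_eq fun n => ?_)⟩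
  rw [← M0_halts]
  refine exists_congr fun j => ?_
  rw [← (M0 P).res_it S h0 ?_ n j, Option.map_eq_none_iff]
  intro q hq b y h
  simp only [S, List.mem_cons, List.mem_map, Set.mem_ofPred_eq] at hq ⊢
  rcases hq with rfl | rfl | ⟨x, hx, rfl⟩
  · cases b
    · exact Or.inr (Or.inr ⟨_, self_mem _ _, Option.some.inj h⟩)
    · exact Or.inl (Option.some.inj h).symm
  · cases h
  · obtain ⟨z, rfl, h' | rfl⟩ := closed P P _ x hx b y h
    · exact Or.inr (Or.inr ⟨z, h', rfl⟩)
    · exact Or.inr (Or.inl rfl)

end Pool.Agent.Lib.helper21.Mach
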