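import Mathlib
import Pool.Agent.Lib.helper21.Mach

set_option autoImplicit false

/-! Deterministic queue automata that halt exactly on the empty queue; one of them has a
non-computable halting set on the inputs `a ^ n e`. -/

namespace Pool.Agent.Lib.helper21.Queue

open Function Relation Pool.Agent.Lib.helper21.While Pool.Agent.Lib.helper21.Mach

theorem sim {C D : Type} (f : C → Option C) (g : D → Option D) (R : C → D → Prop)
    (h1 : ∀ c d c', R c d → f c = some c' →
      ∃ d', R c' d' ∧ TransGen (fun a b => g a = some b) d d')
    (h2 : ∀ c d, R c d → f c = none → Halts g d) {c : C} {d : D} (h : R c d) :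
    Halts f c ↔ Halts g d := by
  constructor
  · intro hc
    induction hc generalizing d with
    | stop e => exact h2 _ _ h e
    | go e _ ih =>
      obtain ⟨d', r, t⟩ := h1 _ _ _ h e
      have := ih r
      clear ih r h
      induction t with
      | single e => exact .go e this
      | tail _ e ih => exact ih (.go e this)
  · intro hd
    have : Acc (fun b a => g a = some b) d := by
      clear h
      induction hd with
      | stop e => exact ⟨_, fun y hy => by rw [e] at hy; cases hy⟩
      | go e _ ih => exact ⟨_, fun y hy => by rw [e] at hy; cases hy; exact ih⟩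
    have h3 := this.transGen
    clear this hd
    induction h3 generalizing c with
    | intro d _ ih =>
      cases e : f c with
      | none => exact .stop e
      | some c' =>
        obtain ⟨d', r, t⟩ := h1 _ _ _ h e
        exact .go e (ih d' (transGen_swap.1 t) r)

theorem halts_of_reach {D : Type} {g : D → Option D} {d d' : D}
    (t : ReflTransGen (fun a b => g a = some b) d d') (h : Halts g d') : Halts g d := by
  induction t with
  | refl => exact h
  | tail _ e ih => exact ih (.go e h)

theorem reach_of_halts {D : Type} {g : D → Option D} {d : D} (h : Halts g d) :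
    ∃ d', ReflTransGen (fun a b => g a = some b) d d' ∧ g d' = none := by
  induction h with
  | stop e => exact ⟨_, .refl, e⟩
  | go e _ ih =>
    obtain ⟨d', t, h⟩ := ih
    exact ⟨d', .head e t, h⟩

theorem exists_cm0 : ∃ (Q : Type) (_ : Finite Q) (M : CM Q) (q : Q),
    ¬ ComputablePred (fun n => Halts (M.step 0) (q, init n)) := by
  obtain ⟨P, hP⟩ := exists_undec
  let S : Set (Option (List Prog)) := {x | x ∈ none :: some [] :: (cl P []).map some}
  have h0 : (M0 P).start ∈ S := List.mem_cons_self
  have h1 : some [P] ∈ S := by
    simp only [S, List.mem_cons, List.mem_map, Set.mem_ofPred_eq]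
    exact Or.inr (Or.inr ⟨_, self_mem _ _, rfl⟩)
  have hS : ∀ q ∈ S, ∀ b y, (M0 P).nxt q b = some y → y ∈ S := by
    intro q hq b y h
    simp only [S, List.mem_cons, List.mem_map, Set.mem_ofPred_eq] at hq ⊢
    rcases hq with rfl | rfl | ⟨x, hx, rfl⟩
    · cases b
      · exact Or.inr (Or.inr ⟨_, self_mem _ _, Option.some.inj h⟩)
      · exact Or.inl (Option.some.inj h).symm
    · cases h
    · obtain ⟨z, rfl, h' | rfl⟩ := closed P P _ x hx b y h
      · exact Or.inr (Or.inr ⟨z, h', rfl⟩)
      · exact Or.inr (Or.inl rfl)
  have hst : ∀ c : S × St, (((M0 P).res S h0).step 0 c).map (Prod.map Subtype.val id) =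
      (M0 P).step 0 (c.1.1, c.2) := by
    intro c
    have e : ((M0 P).res S h0).tst 0 c = (M0 P).tst 0 (c.1.1, c.2) := rfl
    simp only [CM.step, e]
    cases h2 : (M0 P).nxt c.1.1 ((M0 P).tst 0 (c.1.1, c.2)) with
    | none => simp [CM.res, h2]
    | some y => simp [CM.res, h2, hS _ c.1.2 _ _ h2]
  refine ⟨S, (List.finite_toSet _).to_subtype, (M0 P).res S h0, ⟨_, h1⟩,
    fun h => hP (h.of_eq fun n => ?_)⟩
  refine (sim _ ((M0 P).step 0) (fun c d => d = (c.1.1, c.2)) ?_ ?_ rfl).trans ⟨fun h => ?_,
    fun ⟨t, h⟩ => halts_of_run P 0 h [] (.stop rfl)⟩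
  · rintro c _ c' rfl e
    exact ⟨_, rfl, .single (by rw [← hst, e]; rfl)⟩
  · rintro c _ rfl e
    exact .stop (by rw [← hst, e]; rfl)
  · obtain ⟨t, h, -⟩ := run_of_halts P 0 h _ _ rfl
    exact ⟨t, h⟩

/-- One step of the queue automaton `δ`; the state `none` is the halting state. -/
def qstep {Q S : Type} (δ : Q → S → Option Q × List S) :
    Option Q × List S → Option (Option Q × List S)
  | (some q, x :: t) => some ((δ q x).1, t ++ (δ q x).2)
  | _ => none

abbrev Reach {Q S : Type} (δ : Q → S → Option Q × List S) :
    Option Q × List S → Option Q × List S → Prop :=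
  ReflTransGen fun a b => qstep δ a = some b

section
variable {Q : Type} (M : CM Q) {K : ℕ} (ρ : Q → Fin K)

def dl : Option (Q × Bool) → Option (Fin K) → Option (Option (Q × Bool)) × List (Option (Fin K))
  | some (q, b), some r =>
    if r = ρ q ∧ b = false then
      (some (some (q, true)), if M.eff q false = some false then [] else [some r])
    else (some (some (q, b)), [some r])
  | some (q, b), none =>
    match M.nxt q (!b) with
    | some q' => (some (some (q', false)),
        (if M.eff q (!b) = some true then [some (ρ q)] else []) ++ [none])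
    | none => (some none, [none])
  | none, some _ => (some none, [])
  | none, none => (none, [])

def Inv : Option (Option (Q × Bool)) × List (Option (Fin K)) → Prop
  | (some (some _), t) => t.count none = 1
  | (some none, t) => ∃ t' : List (Fin K), t = t'.map some ++ [none]
  | (none, t) => t = []

theorem Inv.step {c d} (h : Inv c) (e : qstep (dl M ρ) c = some d) : Inv d := by
  rcases c with ⟨_ | _ | ⟨q, b⟩, _ | ⟨_ | r, t⟩⟩ <;> cases e
  · obtain ⟨_ | ⟨x, t'⟩, h⟩ := h
    · simp only [List.map_nil, List.nil_append, List.cons.injEq, true_and] at h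
      simp [dl, Inv, h]
    · simp at h
  · obtain ⟨_ | ⟨x, t'⟩, h⟩ := h
    · simp at h
    · simp only [List.map_cons, List.cons_append, List.cons.injEq] at h
      exact ⟨t', by simp [dl, h.2]⟩
  · have h : t.count none = 0 := by simpa [Inv] using h
    simp only [dl]
    cases M.nxt q (!b) with
    | none =>
      refine ⟨t.reduceOption, ?_⟩
      simp only [List.append_cancel_right_eq]
      clear * - h
      induction t with
      | nil => rfl
      | cons x t ih =>
        cases x with
        | none => simp at h
        | some x => simp only [List.reduceOption_cons_of_some, List.map_cons, List.cons.injEq,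
            true_and]; exact ih (by simpa using h)
    | some q' => simp only [Inv]; split_ifs <;> simp [h]
  · have h : t.count none = 1 := by simpa [Inv] using h
    simp only [dl]
    split_ifs <;> simp [Inv, h]

theorem pass (q : Q) (t : List (Fin K)) : ∀ (b : Bool) (rest : List (Option (Fin K))),
    Reach (dl M ρ) (some (some (q, b)), t.map some ++ rest)
      (some (some (q, b || decide (ρ q ∈ t))), rest ++
        (if b = false ∧ M.eff q false = some false then t.erase (ρ q) else t).map some) := by
  induction t with
  | nil => intro b rest; simpa using ReflTransGen.refl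
  | cons r t ih =>
    intro b rest
    by_cases h : r = ρ q ∧ b = false
    · obtain ⟨rfl, rfl⟩ := h
      refine .head (b := (some (some (q, true)), t.map some ++ (rest ++
        if M.eff q false = some false then [] else [some (ρ q)]))) (by simp [qstep, dl]) ?_
      have := ih true (rest ++ if M.eff q false = some false then [] else [some (ρ q)])
      by_cases he : M.eff q false = some false <;> simpa [he] using this
    · refine .head (b := (some (some (q, b)), t.map some ++ (rest ++ [some r])))
        (by simp only [qstep, dl, List.map_cons, List.cons_append, if_neg h, List.append_assoc]) ?_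
      have := ih b (rest ++ [some r])
      cases b
      · have h1 : ¬ ρ q = r := fun e => h ⟨e.symm, rfl⟩
        have h2 : ¬ r = ρ q := fun e => h ⟨e, rfl⟩
        by_cases he : M.eff q false = some false <;> simpa [he, h1, h2] using this
      · simpa using this

theorem wipe (t : List (Fin K)) : Halts (qstep (dl M ρ)) (some none, t.map some ++ [none]) := by
  induction t with
  | nil => exact .go (c' := (none, [])) rfl (.stop rfl)
  | cons r t ih => exact .go (by simp [qstep, dl]) ih

theorem cm_sim (hρ : ∀ q, (ρ q).val = M.reg q) (q : Q) (s : St) (t : List (Fin K))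
    (h : ∀ r : Fin K, t.count r = s r) :
    Halts (M.step 0) (q, s) ↔
      Halts (qstep (dl M ρ)) (some (some (q, false)), t.map some ++ [none]) := by
  have tst : ∀ (q : Q) (s : St) (t : List (Fin K)), (∀ r : Fin K, t.count r = s r) →
      M.tst 0 (q, s) = !decide (ρ q ∈ t) := by
    intro q s t h
    have := h (ρ q)
    rw [hρ] at this
    simp only [CM.tst, CM.thr, ite_self, ← this, nonpos_iff_eq_zero, List.count_eq_zero]
    simp
  refine sim _ _ (fun c d => ∃ t : List (Fin K), (∀ r : Fin K, t.count r = c.2 r) ∧
    d = (some (some (c.1, false)), t.map some ++ [none])) ?_ ?_ ⟨t, h, rfl⟩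
  · rintro ⟨q, s⟩ _ c' ⟨t, h, rfl⟩ e
    simp only [CM.step, tst q s t h, Option.map_eq_some_iff] at e
    obtain ⟨q', e, rfl⟩ := e
    refine ⟨_, ⟨(if M.eff q false = some false then t.erase (ρ q) else t) ++
      (if M.eff q (!decide (ρ q ∈ t)) = some true then [ρ q] else []), fun r => ?_, rfl⟩, ?_⟩
    · have h1 := h r
      have h2 := M.nodec q
      have h3 : (r.val = M.reg q) ↔ r = ρ q := by rw [← hρ, Fin.val_inj]
      simp only at h1 ⊢
      by_cases hm : ρ q ∈ t
      · simp only [hm, decide_true, Bool.not_true]
        rcases he : M.eff q false with _ | _ | _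
        · simp [app, h1]
        · by_cases hr : r = ρ q
          · subst hr; simp [app, ← h1, ← hρ]
          · simp [app, h1, List.count_erase_of_ne hr, h3, hr]
        · by_cases hr : r = ρ q
          · subst hr; simp [app, ← h1, ← hρ]
          · simp [app, h1, h3, hr, Ne.symm hr]
      · simp only [hm, decide_false, Bool.not_false, List.erase_of_not_mem hm, ite_self]
        rcases he : M.eff q true with _ | _ | _
        · simp [app, h1]
        · exact (h2 he).elim
        · by_cases hr : r = ρ q
          · subst hr; simp [app, ← h1, ← hρ]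
          · simp [app, h1, h3, hr, Ne.symm hr]
    · refine TransGen.tail' (pass M ρ q t false [none]) ?_
      simp only [qstep, dl, Bool.false_or, e, true_and, List.cons_append, List.nil_append,
        List.map_append, List.append_assoc]
      split_ifs <;> rfl
  · rintro ⟨q, s⟩ _ ⟨t, h, rfl⟩ e
    simp only [CM.step, tst q s t h, Option.map_eq_none_iff] at e
    refine halts_of_reach (pass M ρ q t false [none]) (.go ?_ (wipe M ρ
      (if M.eff q false = some false then t.erase (ρ q) else t)))
    simp only [qstep, dl, Bool.false_or, e, true_and, List.cons_append, List.nil_append]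

end

theorem exists_qa : ∃ (Q S : Type) (_ : Finite Q) (_ : Finite S) (δ : Q → S → Option Q × List S)
    (q₀ : Q) (a e : S),
    (∀ n c, Reach δ (some q₀, List.replicate n a ++ [e]) c →
      (∃ q x t, c = (some q, x :: t)) ∨ c = (none, [])) ∧
    ¬ ComputablePred fun n => Reach δ (some q₀, List.replicate n a ++ [e]) (none, []) := by
  obtain ⟨Q, _, M, q₀, hM⟩ := exists_cm0
  obtain ⟨K, hK⟩ := (Set.finite_range M.reg).bddAbove
  let ρ : Q → Fin (K + 1) := fun q => ⟨M.reg q, Nat.lt_succ_of_le (hK ⟨q, rfl⟩)⟩
  have inv : ∀ n c, Reach (dl M ρ) (some (some (q₀, false)),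
      List.replicate n (some 0) ++ [none]) c → Inv c := by
    intro n c h
    induction h with
    | refl => simp [Inv, List.count_replicate]
    | tail _ e ih => exact ih.step M ρ e
  have good : ∀ c : Option (Option (Q × Bool)) × List (Option (Fin (K + 1))), Inv c →
      (∃ q x t, c = (some q, x :: t)) ∨ c = (none, []) := by
    rintro ⟨_ | _ | q, _ | ⟨x, t⟩⟩ h
    · exact Or.inr rfl
    · cases h
    · obtain ⟨t, h⟩ := h; simp at h
    · exact Or.inl ⟨_, _, _, rfl⟩
    · cases h
    · exact Or.inl ⟨_, _, _, rfl⟩
  refine ⟨Option (Q × Bool), Option (Fin (K + 1)), inferInstance, inferInstance, dl M ρ,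
    some (q₀, false), some 0, none, fun n c h => good c (inv n c h),
    fun h => hM (h.of_eq fun n => ?_)⟩
  rw [cm_sim M ρ (fun _ => rfl) q₀ (init n) (List.replicate n 0) (fun r => ?_),
    List.map_replicate]
  · refine ⟨fun h => halts_of_reach h (.stop rfl), fun h => ?_⟩
    obtain ⟨d, h1, h2⟩ := reach_of_halts h
    rcases good d (inv n d h1) with ⟨q, x, t, rfl⟩ | rfl
    · cases h2
    · exact h1
  · by_cases hr : r = 0
    · subst hr; simp [init]
    · have : r.val ≠ 0 := fun e => hr (Fin.ext e)
      simp [init, List.count_replicate, this, Ne.symm hr]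

end Pool.Agent.Lib.helper21.Queue
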