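import Mathlib

set_option autoImplicit false

/-! Parse-tree style generation for context-free grammars, and a soundness principle. -/

namespace Pool.Agent.Lib.helper21.CFG

variable {T N : Type}

inductive Gen (R : Set (ContextFreeRule T N)) : List (Symbol T N) → List T → Prop
  | nil : Gen R [] []
  | ter (t : T) {l : List (Symbol T N)} {w : List T} : Gen R l w → Gen R (.terminal t :: l) (t :: w)
  | nt {r : ContextFreeRule T N} {l : List (Symbol T N)} {w w' : List T} : r ∈ R →
      Gen R r.output w → Gen R l w' → Gen R (.nonterminal r.input :: l) (w ++ w')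

theorem Gen.append {R : Set (ContextFreeRule T N)} {l l' : List (Symbol T N)} {w w' : List T}
    (h : Gen R l w) (h' : Gen R l' w') : Gen R (l ++ l') (w ++ w') := by
  induction h with
  | nil => exact h'
  | ter t _ ih => exact .ter t ih
  | nt hr h1 _ _ ih => rw [List.append_assoc]; exact .nt hr h1 ih

theorem Gen.split {R : Set (ContextFreeRule T N)} {l l' : List (Symbol T N)} {w : List T}
    (h : Gen R (l ++ l') w) : ∃ u v, w = u ++ v ∧ Gen R l u ∧ Gen R l' v := by
  induction l generalizing w with
  | nil => exact ⟨[], w, rfl, .nil, h⟩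
  | cons x l ih =>
    rw [List.cons_append] at h
    cases h with
    | ter t h =>
      obtain ⟨u, v, rfl, h1, h2⟩ := ih h
      exact ⟨t :: u, v, rfl, .ter t h1, h2⟩
    | nt hr h0 h =>
      obtain ⟨u, v, rfl, h1, h2⟩ := ih h
      exact ⟨_, v, (List.append_assoc _ _ _).symm, .nt hr h0 h1, h2⟩

theorem Gen.terminals (R : Set (ContextFreeRule T N)) (w : List T) :
    Gen R (w.map .terminal) w := by
  induction w with
  | nil => exact .nil
  | cons t w ih => exact .ter t ih

theorem Gen.one {R : Set (ContextFreeRule T N)} {X : N} {l : List (Symbol T N)} {w : List T}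
    (hr : (⟨X, l⟩ : ContextFreeRule T N) ∈ R) (h : Gen R l w) : Gen R [.nonterminal X] w := by
  simpa using Gen.nt hr h .nil

theorem mem_language_iff_gen (g : ContextFreeGrammar T) (w : List T) :
    w ∈ g.language ↔ Gen (g.rules : Set _) [.nonterminal g.initial] w := by
  rw [ContextFreeGrammar.mem_language_iff]
  generalize [Symbol.nonterminal g.initial] = l
  constructor
  · intro h
    induction h using Relation.ReflTransGen.head_induction_on with
    | refl => exact Gen.terminals _ _
    | head h _ ih =>
      obtain ⟨r, hr, h⟩ := h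
      obtain ⟨p, q, rfl, rfl⟩ := h.exists_parts
      obtain ⟨u, v, rfl, h1, h2⟩ := ih.split
      obtain ⟨u, u', rfl, h3, h4⟩ := h1.split
      exact (h3.append (Gen.one hr h4)).append h2
  · intro h
    induction h with
    | nil => rfl
    | ter t _ ih => exact ih.append_left [.terminal t]
    | nt hr _ _ ih1 ih2 =>
      rw [List.map_append]
      exact ContextFreeGrammar.Produces.trans_derives ⟨_, hr, .head _⟩
        ((ih1.append_right _).trans (ih2.append_left _))

inductive Sem (I : N → List T → Prop) : List (Symbol T N) → List T → Prop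
  | nil : Sem I [] []
  | ter (t : T) {l : List (Symbol T N)} {w : List T} : Sem I l w → Sem I (.terminal t :: l) (t :: w)
  | nt {X : N} {l : List (Symbol T N)} {w w' : List T} : I X w → Sem I l w' →
      Sem I (.nonterminal X :: l) (w ++ w')

theorem Gen.sound {R : Set (ContextFreeRule T N)} {I : N → List T → Prop}
    (hI : ∀ r ∈ R, ∀ w, Sem I r.output w → I r.input w) {l : List (Symbol T N)} {w : List T}
    (h : Gen R l w) : Sem I l w := by
  induction h with
  | nil => exact .nil
  | ter t _ ih => exact .ter t ih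
  | nt hr _ _ ih1 ih2 => exact .nt (hI _ hr _ ih1) ih2

variable {I : N → List T → Prop}

theorem sem_nil {w : List T} : Sem I [] w ↔ w = [] :=
  ⟨fun h => by cases h; rfl, fun h => h ▸ .nil⟩

theorem sem_ter {t : T} {l : List (Symbol T N)} {w : List T} :
    Sem I (.terminal t :: l) w ↔ ∃ u, Sem I l u ∧ w = t :: u :=
  ⟨fun h => by cases h; exact ⟨_, ‹_›, rfl⟩, fun ⟨_, h, e⟩ => e ▸ .ter t h⟩

theorem sem_nt {X : N} {l : List (Symbol T N)} {w : List T} :
    Sem I (.nonterminal X :: l) w ↔ ∃ u v, I X u ∧ Sem I l v ∧ w = u ++ v :=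
  ⟨fun h => by cases h; exact ⟨_, _, ‹_›, ‹_›, rfl⟩, fun ⟨_, _, h, h', e⟩ => e ▸ .nt h h'⟩

theorem sem_ters {x : List T} {l : List (Symbol T N)} {w : List T} :
    Sem I (x.map .terminal ++ l) w ↔ ∃ u, Sem I l u ∧ w = x ++ u := by
  induction x generalizing w with
  | nil => simp
  | cons t x ih =>
    simp only [List.map_cons, List.cons_append, sem_ter, ih]
    exact ⟨fun ⟨_, ⟨u, h, e⟩, e'⟩ => ⟨u, h, e ▸ e'⟩, fun ⟨u, h, e⟩ => ⟨_, ⟨u, h, rfl⟩, e⟩⟩

end Pool.Agent.Lib.helper21.CFG
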