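import Pool.Agent.Lib.helper21.PR

set_option autoImplicit false

/-! Closure rules for semidecidable predicates, usable by `fun_prop`. -/

namespace Pool.Agent.Lib.helper21.PR

attribute [local irreducible] Primrec Computable

variable {α β : Type} [Primcodable α] [Primcodable β]

@[fun_prop, irreducible] def PP (p : α → Prop) : Prop := PrimrecPred p

theorem PP.mk {p : α → Prop} (h : Primrec fun a => cd (p a)) : PP p := by
  rw [PP]; exact pred h

@[fun_prop] theorem pp_comp {p : β → Prop} {f : α → β} (hp : PP p) (hf : Primrec f) :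
    PP fun a => p (f a) := by
  rw [PP] at hp ⊢; exact hp.comp hf

@[fun_prop] theorem pp_cd {p : α → Prop} (hp : PP p) : Primrec fun a => cd (p a) := by
  rw [PP] at hp; exact dec hp

theorem re_ex {R : α → β → Prop} (h : Primrec fun p : α × β => cd (R p.1 p.2)) :
    REPred fun a => ∃ w, R a w := by
  replace h := PP.mk h
  have h1 : Primrec fun z : α × ℕ =>
      ((Encodable.decode (α := β) z.2).map fun w => cd (R z.1 w)).getD false := by fun_prop
  refine (Partrec.rfind (p := fun a n => Part.some (((Encodable.decode (α := β) n).map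
    fun w => cd (R a w)).getD false)) h1.to_comp.partrec.to₂).dom_re.of_eq fun a => ?_
  simp only [Nat.rfind_dom, Part.mem_some_iff, Part.some_dom, implies_true, and_true]
  refine ⟨fun ⟨n, hn⟩ => ?_, fun ⟨w, hw⟩ => ⟨Encodable.encode w, by simp [hw]⟩⟩
  cases e : Encodable.decode (α := β) n with
  | none => simp [e] at hn
  | some w => exact ⟨w, by simpa [e] using hn⟩

/-- wrapper; all rules for semidecidable propositions go through it -/
@[irreducible] def pw (p : Prop) : Prop := p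

@[simp] theorem pw_iff {p : Prop} : pw p ↔ p := by rw [pw]

@[fun_prop, irreducible] def RE (p : α → Prop) : Prop := REPred p

theorem RE.re {p : α → Prop} (h : RE fun a => pw (p a)) : REPred p := by
  rw [RE] at h; exact h.of_eq fun _ => pw_iff
theorem RE.mk {p : α → Prop} (h : REPred p) : RE fun a => pw (p a) := by
  rw [RE]; exact h.of_eq fun _ => pw_iff.symm
theorem RE.of_eq {p q : α → Prop} (h : RE fun a => pw (p a)) (e : ∀ a, p a ↔ q a) :
    RE fun a => pw (q a) := RE.mk (h.re.of_eq e)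

@[fun_prop] theorem r_comp {p : β → Prop} {f : α → β} (hp : RE p) (hf : Computable f) :
    RE fun a => p (f a) := by
  rw [RE] at hp ⊢; exact Partrec.comp hp hf

@[fun_prop] theorem r_pw {p : α → Prop} (hp : RE p) : RE fun a => pw (p a) := by
  rw [RE] at hp; exact RE.mk hp

theorem RE.un {p : α → Prop} (h : REPred p) : RE p := by rwa [RE]

@[fun_prop] theorem r_prim {p : α → Prop} (h : Primrec fun a => cd (p a)) :
    RE fun a => pw (p a) := RE.mk (ComputablePred.to_re (PrimrecPred.computablePred (pred h)))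

@[fun_prop] theorem r_exists {R : α → β → Prop} (h : RE fun p : α × β => pw (R p.1 p.2)) :
    RE fun a => pw (∃ w, R a w) := by
  obtain ⟨N, h1, h2, -, h3⟩ := re_bool h.re
  exact RE.mk ((re_ex (R := fun a (w : β × ℕ) => N (a, w.1) w.2 = true) (by fun_prop)).of_eq
    fun a => ⟨fun ⟨w, hw⟩ => ⟨w.1, h2 _ _ hw⟩,
      fun ⟨w, hw⟩ => (h3 (a, w) hw).elim fun t ht => ⟨(w, t), ht⟩⟩)

@[fun_prop] theorem r_and {p q : α → Prop} (hp : RE fun a => pw (p a))
    (hq : RE fun a => pw (q a)) : RE fun a => pw (p a ∧ q a) := by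
  obtain ⟨N, h1, h2, -, h3⟩ := re_bool hp.re
  obtain ⟨M, g1, g2, -, g3⟩ := re_bool hq.re
  exact RE.mk ((re_ex (R := fun a (w : ℕ × ℕ) => N a w.1 = true ∧ M a w.2 = true)
    (by fun_prop)).of_eq fun a => ⟨fun ⟨w, hw⟩ => ⟨h2 _ _ hw.1, g2 _ _ hw.2⟩,
      fun h => (h3 a h.1).elim fun t ht => (g3 a h.2).elim fun s hs => ⟨(t, s), ht, hs⟩⟩)

@[fun_prop] theorem r_or {p q : α → Prop} (hp : RE fun a => pw (p a))
    (hq : RE fun a => pw (q a)) : RE fun a => pw (p a ∨ q a) := by
  obtain ⟨N, h1, h2, -, h3⟩ := re_bool hp.re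
  obtain ⟨M, g1, g2, -, g3⟩ := re_bool hq.re
  exact RE.mk ((re_ex (R := fun a (w : ℕ) => N a w = true ∨ M a w = true) (by fun_prop)).of_eq
    fun a => ⟨fun ⟨w, hw⟩ => hw.imp (h2 _ _) (g2 _ _), fun h => h.elim
      (fun h => (h3 a h).imp fun _ => Or.inl) fun h => (g3 a h).imp fun _ => Or.inr⟩)

@[fun_prop] theorem r_ball {R : α → β → Prop} {l : α → List β}
    (h : RE fun p : α × β => pw (R p.1 p.2)) (hl : Primrec l) :
    RE fun a => pw (∀ x ∈ l a, R a x) := by
  obtain ⟨N, h1, h2, h4, h3⟩ := re_bool h.re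
  refine RE.mk ((re_ex (R := fun a (t : ℕ) => ∀ x ∈ l a, N (a, x) t = true) (by fun_prop)).of_eq
    fun a => ⟨fun ⟨t, ht⟩ x hx => h2 _ _ (ht x hx), fun h => ?_⟩)
  choose! t ht using fun x hx => h3 (a, x) (h x hx)
  exact ⟨((l a).map t).sum, fun x hx => h4 _ _ _ (List.single_le_sum (by simp) _
    (List.mem_map_of_mem hx)) (ht x hx)⟩

@[fun_prop] theorem r_ball_lt {R : α → ℕ → Prop} {m : α → ℕ}
    (h : RE fun p : α × ℕ => pw (R p.1 p.2)) (hm : Primrec m) :
    RE fun a => pw (∀ x < m a, R a x) :=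
  (r_ball h (p_range hm)).of_eq fun a => by simp

theorem r_graph {M : α →. β} (h : Partrec M) : RE fun p : α × β => pw (p.2 ∈ M p.1) := by
  obtain ⟨N, h1, h2, -, h3⟩ := graph_bool h
  exact RE.mk ((re_ex (R := fun (p : α × β) (t : ℕ) => N p.1 p.2 t = true) (by fun_prop)).of_eq
    fun a => ⟨fun ⟨w, hw⟩ => h2 _ _ _ hw, h3 _ _⟩)

example {W : ℕ → List Bool → Prop} (h : RE fun z : ℕ × List Bool => W z.1 z.2) :
    RE fun z : ℕ × ℕ => pw (∃ σ : List Bool, σ.length = z.2 ∧ (W (z.1 + 1) σ ∨ z.1 = 3) ∧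
      ∀ i < z.1, W i (σ ++ [true])) := by fun_prop

end Pool.Agent.Lib.helper21.PR
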