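import Pool.Agent.Lib.helper21.ML

set_option autoImplicit false

/-! Closure rules for predicates semidecidable in an oracle, usable by `fun_prop`. -/

namespace Pool.Agent.Lib.helper21.PR

open Pool.Agent.H.MP_d04dff_lc Pool.Agent.H.MP_fa2eca_lc Pool.Agent.Lib.helper21.ML Filter
open Encodable

attribute [local irreducible] Primrec Computable

variable {α β γ : Type} [Primcodable α] [Primcodable β] [Primcodable γ] {Y : ℕ → Bool}

@[fun_prop, irreducible] def RI (Y : Fn.Om) (p : α → Prop) : Prop :=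
  ∃ W : α × Str → Prop, RE W ∧ (∀ a n, W (a, pre Y n) → p a) ∧
    ∀ a, p a → ∀ᶠ n in atTop, W (a, pre Y n)

@[fun_prop, irreducible] def CI (Y : Fn.Om) (f : α → β) : Prop :=
  RI Y fun z : α × β => f z.1 = z.2

section
variable {p q : α → Prop}

theorem RI.of_eq (h : RI Y p) (e : ∀ a, p a ↔ q a) : RI Y q := (funext fun a => propext (e a)) ▸ h
theorem RI.un (h : RI Y fun a => pw (p a)) : RI Y p := h.of_eq fun _ => pw_iff
@[fun_prop] theorem i_pw (h : RI Y p) : RI Y fun a => pw (p a) := h.of_eq fun _ => pw_iff.symm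

@[fun_prop] theorem i_re (h : RE fun a => pw (p a)) : RI Y fun a => pw (p a) := by
  rw [RI]
  exact ⟨fun z => pw (p z.1), r_comp (p := fun a => pw (p a)) h .fst, fun _ _ h => h,
    fun _ h => .of_forall fun _ => h⟩

theorem RI.comp {p : β → Prop} {f : α → β} (hp : RI Y p) (hf : Computable f) :
    RI Y fun a => p (f a) := by
  rw [RI] at hp ⊢
  obtain ⟨W, h1, h2, h3⟩ := hp
  exact ⟨fun z => W (f z.1, z.2), by fun_prop, fun a => h2 (f a), fun a => h3 (f a)⟩

@[fun_prop] theorem i_and (hp : RI Y fun a => pw (p a)) (hq : RI Y fun a => pw (q a)) :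
    RI Y fun a => pw (p a ∧ q a) := by
  rw [RI] at hp hq ⊢
  obtain ⟨W, h1, h2, h3⟩ := hp
  obtain ⟨V, g1, g2, g3⟩ := hq
  simp only [pw_iff] at *
  exact ⟨fun z => W z ∧ V z, RE.un (RE.re (by fun_prop)), fun a n h => ⟨h2 a n h.1, g2 a n h.2⟩,
    fun a h => (h3 a h.1).and (g3 a h.2)⟩

@[fun_prop] theorem i_or (hp : RI Y fun a => pw (p a)) (hq : RI Y fun a => pw (q a)) :
    RI Y fun a => pw (p a ∨ q a) := by
  rw [RI] at hp hq ⊢
  obtain ⟨W, h1, h2, h3⟩ := hp
  obtain ⟨V, g1, g2, g3⟩ := hq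
  simp only [pw_iff] at *
  exact ⟨fun z => W z ∨ V z, RE.un (RE.re (by fun_prop)), fun a n h => h.imp (h2 a n) (g2 a n),
    fun a h => h.elim (fun h => (h3 a h).mono fun _ => .inl) fun h => (g3 a h).mono fun _ => .inr⟩

@[fun_prop] theorem i_exists {R : α → β → Prop} (h : RI Y fun z : α × β => pw (R z.1 z.2)) :
    RI Y fun a => pw (∃ w, R a w) := by
  rw [RI] at h ⊢
  obtain ⟨W, h1, h2, h3⟩ := h
  simp only [pw_iff] at *
  exact ⟨fun z => ∃ w, W ((z.1, w), z.2), RE.un (RE.re (by fun_prop)),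
    fun a n ⟨w, h⟩ => ⟨w, h2 _ n h⟩, fun a ⟨w, h⟩ => (h3 (a, w) h).mono fun _ h => ⟨w, h⟩⟩

theorem ball {R : α → ℕ → Prop} {m : α → ℕ} (h : RI Y fun z : α × ℕ => pw (R z.1 z.2))
    (hm : Primrec m) : RI Y fun a => pw (∀ x < m a, R a x) := by
  rw [RI] at h ⊢
  obtain ⟨W, h1, h2, h3⟩ := h
  simp only [pw_iff] at *
  exact ⟨fun z => ∀ x < m z.1, W ((z.1, x), z.2), RE.un (RE.re (by fun_prop)),
    fun a n h x hx => h2 _ n (h x hx), fun a h =>
      (eventually_all_finite (Set.finite_Iio _)).2 fun x hx => h3 (a, x) (h x hx)⟩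

theorem CI.ri {f : α → β} (h : CI Y f) : RI Y fun z : α × β => f z.1 = z.2 := by rwa [CI] at h
theorem CI.mk {f : α → β} {R : α → β → Prop} (h : RI Y fun z : α × β => pw (R z.1 z.2))
    (e : ∀ a b, R a b ↔ f a = b) : CI Y f := by rw [CI]; exact h.un.of_eq fun z => e _ _
theorem CI.of_eq {f g : α → β} (h : CI Y f) (e : ∀ a, f a = g a) : CI Y g := funext e ▸ h

@[fun_prop] theorem i_comp {p : β → Prop} {f : α → β} (hp : RI Y p) (hf : CI Y f) :
    RI Y fun a => p (f a) :=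
  (i_exists (R := fun a b => f a = b ∧ p b) (i_and (i_pw hf.ri)
    (i_pw (p := fun z : α × β => p z.2) (hp.comp .snd)))).of_eq fun a => by simp

@[fun_prop] theorem i_ci (h : CI Y fun a => cd (p a)) : RI Y fun a => pw (p a) :=
  (h.ri.comp (f := fun a => (a, true)) (by fun_prop)).of_eq fun a => by simp

theorem Computable.ci {f : α → β} (h : Computable f) : CI Y f :=
  CI.mk (R := fun a b => b ∈ (f : α →. β) a) (i_re (r_graph h.partrec)) fun a b => by
    simp [eq_comm]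

@[fun_prop] theorem ci_prim {f : α → β} (h : Primrec f) : CI Y f := Computable.ci h.to_comp
@[fun_prop] theorem ci_id : CI Y fun a : α => a := ci_prim .id
@[fun_prop] theorem ci_const (b : β) : CI Y fun _ : α => b := ci_prim (.const b)

@[fun_prop] theorem ci_pair {f : α → β} {g : α → γ} (hf : CI Y f) (hg : CI Y g) :
    CI Y fun a => (f a, g a) :=
  CI.mk (i_and (i_pw (hf.ri.comp (f := fun z : α × β × γ => (z.1, z.2.1)) (by fun_prop)))
    (i_pw (hg.ri.comp (f := fun z : α × β × γ => (z.1, z.2.2)) (by fun_prop))))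
    fun a b => Prod.ext_iff.symm

@[fun_prop] theorem ci_comp {f : β → γ} {g : α → β} (hf : CI Y f) (hg : CI Y g) :
    CI Y fun a => f (g a) :=
  CI.mk (R := fun a c => ∃ b, g a = b ∧ f b = c) (i_exists (i_and
    (i_pw (hg.ri.comp (f := fun z : (α × γ) × β => (z.1.1, z.2)) (by fun_prop)))
    (i_pw (hf.ri.comp (f := fun z : (α × γ) × β => (z.2, z.1.2)) (by fun_prop)))))
    fun a b => by simp

@[fun_prop] theorem ci_fst {f : α → β × γ} (hf : CI Y f) : CI Y fun a => (f a).1 :=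
  ci_comp (ci_prim .fst) hf
@[fun_prop] theorem ci_snd {f : α → β × γ} (hf : CI Y f) : CI Y fun a => (f a).2 :=
  ci_comp (ci_prim .snd) hf

@[fun_prop] theorem i_ball_lt {R : α → ℕ → Prop} {m : α → ℕ}
    (h : RI Y fun z : α × ℕ => pw (R z.1 z.2)) (hm : CI Y m) :
    RI Y fun a => pw (∀ x < m a, R a x) :=
  i_comp (f := fun a => (a, m a)) (ball (R := fun z : α × ℕ => R z.1) (m := Prod.snd)
    (h.comp (f := fun z : (α × ℕ) × ℕ => (z.1.1, z.2)) (by fun_prop)) .snd) (by fun_prop)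

theorem ci_dec (hp : RI Y fun a => pw (p a)) (hq : RI Y fun a => pw (q a))
    (e : ∀ a, q a ↔ ¬ p a) : CI Y fun a => cd (p a) := by
  have h1 := hp.un
  have h2 := hq.un
  exact CI.mk (R := fun a b => b = true ∧ p a ∨ b = false ∧ q a) (by fun_prop) fun a b => by
    rw [e, Bool.eq_iff_iff (a := cd _), cd_true]; cases b <;> simp

@[fun_prop] theorem ci_eq {f g : α → β} (hf : CI Y f) (hg : CI Y g) :
    CI Y fun a => cd (f a = g a) :=
  ci_comp (f := fun z : β × β => cd (z.1 = z.2)) (ci_prim (by fun_prop)) (ci_pair hf hg)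
@[fun_prop] theorem ci_le {f g : α → ℕ} (hf : CI Y f) (hg : CI Y g) :
    CI Y fun a => cd (f a ≤ g a) :=
  ci_comp (f := fun z : ℕ × ℕ => cd (z.1 ≤ z.2)) (ci_prim (by fun_prop)) (ci_pair hf hg)
@[fun_prop] theorem ci_lt {f g : α → ℕ} (hf : CI Y f) (hg : CI Y g) :
    CI Y fun a => cd (f a < g a) :=
  ci_comp (f := fun z : ℕ × ℕ => cd (z.1 < z.2)) (ci_prim (by fun_prop)) (ci_pair hf hg)
@[fun_prop] theorem ci_not (hp : CI Y fun a => cd (p a)) : CI Y fun a => cd (¬ p a) :=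
  (ci_comp (ci_prim Primrec.not) hp).of_eq fun a => by
    rw [Bool.eq_iff_iff, Bool.not_eq_true', Bool.eq_false_iff, Ne, cd_true, cd_true]
@[fun_prop] theorem ci_ne {f g : α → β} (hf : CI Y f) (hg : CI Y g) :
    CI Y fun a => cd (f a ≠ g a) := ci_not (ci_eq hf hg)
@[fun_prop] theorem ci_and (hp : CI Y fun a => cd (p a)) (hq : CI Y fun a => cd (q a)) :
    CI Y fun a => cd (p a ∧ q a) :=
  (ci_comp (ci_prim Primrec.and) (ci_pair hp hq)).of_eq fun a => by rw [Bool.eq_iff_iff]; simp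
@[fun_prop] theorem ci_or (hp : CI Y fun a => cd (p a)) (hq : CI Y fun a => cd (q a)) :
    CI Y fun a => cd (p a ∨ q a) :=
  (ci_comp (ci_prim Primrec.or) (ci_pair hp hq)).of_eq fun a => by rw [Bool.eq_iff_iff]; simp
@[fun_prop] theorem ci_imp (hp : CI Y fun a => cd (p a)) (hq : CI Y fun a => cd (q a)) :
    CI Y fun a => cd (p a → q a) :=
  (ci_or (ci_not hp) hq).of_eq fun a => by rw [imp_iff_not_or]
@[fun_prop] theorem ci_decide {k : ∀ a, Decidable (p a)} (h : CI Y fun a => cd (p a)) :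
    CI Y fun a => @decide (p a) (k a) := h.of_eq fun a => by rw [Bool.eq_iff_iff]; simp
@[fun_prop] theorem ci_ite {k : ∀ a, Decidable (p a)} {f g : α → β}
    (h : CI Y fun a => cd (p a)) (hf : CI Y f) (hg : CI Y g) :
    CI Y fun a => @ite _ (p a) (k a) (f a) (g a) :=
  (ci_comp (f := fun z : Bool × β × β => cond z.1 z.2.1 z.2.2) (ci_prim (by fun_prop))
    (ci_pair h (ci_pair hf hg))).of_eq fun a => by
      by_cases c : p a
      · rw [if_pos c, cd_true.2 c, cond_true]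
      · rw [if_neg c, Bool.eq_false_iff.2 (mt cd_true.1 c), cond_false]

@[fun_prop] theorem ci_forall_lt {R : α → ℕ → Prop} {m : α → ℕ}
    (h : CI Y fun z : α × ℕ => cd (R z.1 z.2)) (hm : CI Y m) :
    CI Y fun a => cd (∀ x < m a, R a x) :=
  ci_dec (q := fun a => ∃ x, x < m a ∧ ¬ R a x) (i_ball_lt (i_ci h) hm)
    (i_exists (i_and (by fun_prop) (i_ci (ci_not h)))) fun a => by simp
@[fun_prop] theorem ci_exists_lt {R : α → ℕ → Prop} {m : α → ℕ}
    (h : CI Y fun z : α × ℕ => cd (R z.1 z.2)) (hm : CI Y m) :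
    CI Y fun a => cd (∃ x < m a, R a x) :=
  (ci_not (ci_forall_lt (R := fun a x => ¬ R a x) (ci_not h) hm)).of_eq fun a => by simp

@[fun_prop] theorem ci_map {f : α → ℕ → β} {m : α → ℕ} (h : CI Y fun z : α × ℕ => f z.1 z.2)
    (hm : CI Y m) : CI Y fun a => (List.range (m a)).map (f a) :=
  CI.mk (R := fun a l => l.length = m a ∧ ∀ i < m a, l[i]? = some (f a i)) (by fun_prop)
    fun a l => ⟨fun ⟨h1, h2⟩ => List.ext_getElem (by simp [h1]) fun i _ hi => by
      simpa [hi] using (h2 i (h1 ▸ hi)).symm, by rintro rfl; simp +contextual⟩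

@[fun_prop] theorem ci_pre {X : α → ℕ → Bool} {m : α → ℕ} (h : CI Y fun z : α × ℕ => X z.1 z.2)
    (hm : CI Y m) : CI Y fun a => pre (X a) (m a) := ci_map h hm

@[fun_prop] theorem ci_rec {g : α → β} {h : α → ℕ → β → β} {m : α → ℕ} (hm : CI Y m) (hg : CI Y g)
    (hh : CI Y fun z : α × ℕ × β => h z.1 z.2.1 z.2.2) :
    CI Y fun a => Nat.rec (motive := fun _ => β) (g a) (h a) (m a) := by
  refine CI.mk (R := fun a b => ∃ L : List β, L.getD 0 b = g a ∧ L.getD (m a) (g a) = b ∧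
    m a < L.length ∧ ∀ i < m a, L.getD (i + 1) b = h a i (L.getD i b)) (by fun_prop) fun a b =>
      ⟨fun ⟨L, h1, h2, h3, h4⟩ => ?_, fun e => ⟨(List.range (m a + 1)).map fun i =>
        Nat.rec (motive := fun _ => β) (g a) (h a) i, by simp, by simpa, by simp, fun i hi => by
          simp [hi, hi.le, Nat.lt_succ_iff]⟩⟩
  have : ∀ i ≤ m a, Nat.rec (motive := fun _ => β) (g a) (h a) i = L.getD i b := fun i => by
    induction i with
    | zero => exact fun _ => h1.symm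
    | succ i ih => exact fun hi => by rw [h4 i hi, ← ih (by omega)]
  rw [this _ le_rfl, ← h2, List.getD_eq_getElem _ _ h3, List.getD_eq_getElem _ _ h3]

@[fun_prop] theorem ci_sum {f : α → ℕ → ℕ} {m : α → ℕ} (h : CI Y fun z : α × ℕ => f z.1 z.2)
    (hm : CI Y m) : CI Y fun a => ∑ v ∈ Finset.range (m a), f a v :=
  (ci_comp (ci_prim (p_lsum .id)) (ci_map h hm)).of_eq fun a => rfl

@[fun_prop] theorem ci_card {P : α → ℕ → Prop} {i : ∀ a, DecidablePred (P a)} {m : α → ℕ}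
    (h : CI Y fun z : α × ℕ => cd (P z.1 z.2)) (hm : CI Y m) :
    CI Y fun a => (@Finset.filter _ (P a) (i a) (Finset.range (m a))).card :=
  (ci_sum (f := fun a x => @ite _ (P a x) (i a x) 1 0) (ci_ite h (ci_const 1) (ci_const 0))
    hm).of_eq fun a => (Finset.card_filter _ _).symm

end

theorem ci_self (Y : ℕ → Bool) : CI Y Y := by
  rw [CI, RI]
  refine ⟨fun z => z.2[z.1.1]? = some z.1.2, RE.un (RE.re (by fun_prop)), fun a n h => ?_,
    fun a h => (eventually_gt_atTop a.1).mono fun n hn => by simp [pre, hn, h]⟩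
  by_cases c : a.1 < n <;> simp_all [pre]

theorem RI.trans {X : ℕ → Bool} {p : α → Prop} (hp : RI X p) (hX : CI Y X) : RI Y p := by
  rw [RI] at hp
  obtain ⟨W, h1, h2, h3⟩ := hp
  have h4 : RI Y W := (i_re (r_pw h1)).un
  exact (RI.un (p := fun a => ∃ n, W (a, pre X n)) (by fun_prop)).of_eq fun a =>
    ⟨fun ⟨n, h⟩ => h2 a n h, fun h => (h3 a h).exists⟩

theorem CI.trans {X : ℕ → Bool} {f : α → β} (hf : CI X f) (hX : CI Y X) : CI Y f := by
  rw [CI]; exact hf.ri.trans hX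

/-- decidable normal form -/
theorem RI.norm {p : α → Prop} (hp : RI Y p) : ∃ N : α × Str → ℕ → Bool,
    Primrec (fun z : (α × Str) × ℕ => N z.1 z.2) ∧ (∀ a n t, N (a, pre Y n) t = true → p a) ∧
      (∀ z t t', t ≤ t' → N z t = true → N z t' = true) ∧
      ∀ a, p a → ∃ n t, N (a, pre Y n) t = true := by
  rw [RI] at hp
  obtain ⟨W, h1, h2, h3⟩ := hp
  obtain ⟨N, g1, g2, g3, g4⟩ := re_bool (r_pw h1).re
  exact ⟨N, g1, fun a n t h => h2 a n (g2 _ _ h), g3, fun a h =>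
    (h3 a h).exists.imp fun n h => g4 _ h⟩

theorem RI.choice {R : α → β → Prop} (h : RI Y fun z : α × β => pw (R z.1 z.2))
    (h' : ∀ a, ∃ b, R a b) : ∃ f : α → β, CI Y f ∧ ∀ a, R a (f a) := by
  classical
  obtain ⟨N, h1, h2, -, h3⟩ := h.un.norm
  have := ci_self Y
  let P : α → ℕ → Prop := fun a u => ((decode (α := β × ℕ × ℕ) u).map fun w =>
    N ((a, w.1), (pre Y u).take w.2.1) w.2.2 && decide (w.2.1 ≤ u)) = some true
  have hP : CI Y fun z : α × ℕ => cd (P z.1 z.2) := by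
    have h4 : Primrec fun z : (α × ℕ) × Str => (decode (α := β × ℕ × ℕ) z.1.2).map fun w =>
      N ((z.1.1, w.1), z.2.take w.2.1) w.2.2 && decide (w.2.1 ≤ z.1.2) := by fun_prop
    exact ci_eq (ci_comp (g := fun z : α × ℕ => (z, pre Y z.2)) (ci_prim h4) (by fun_prop))
      (ci_const _)
  have h4 : ∀ a, ∃ u, P a u := fun a => by
    obtain ⟨b, hb⟩ := h' a
    obtain ⟨n, t, h⟩ := h3 (a, b) hb
    have : n ≤ encode (b, n, t) := (Nat.left_le_pair _ _).trans (Nat.right_le_pair _ _)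
    exact ⟨encode (b, n, t), by simp only [P, encodek, Option.map_some, pre_take Y this, h, this]; rfl⟩
  have h5 : ∀ a, ∃ b, (∃ w, decode (Nat.find (h4 a)) = some (b, w)) ∧ R a b := fun a => by
    obtain ⟨w, h5, h6⟩ := Option.map_eq_some_iff.1 (Nat.find_spec (h4 a))
    simp only [Bool.and_eq_true, decide_eq_true_eq] at h6
    exact ⟨w.1, ⟨w.2, h5⟩, h2 (a, w.1) _ _ (pre_take Y h6.2 ▸ h6.1)⟩
  choose f h5 h6 using h5
  refine ⟨f, CI.mk (R := fun a b => ∃ u, (P a u ∧ ∀ v < u, ¬ P a v) ∧ ∃ w : ℕ × ℕ,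
    decode u = some (b, w)) (i_exists (i_and (i_ci (ci_and (ci_comp
      (g := fun z : (α × β) × ℕ => (z.1.1, z.2)) hP (by fun_prop)) (ci_forall_lt (ci_not (ci_comp
      (g := fun z : ((α × β) × ℕ) × ℕ => (z.1.1.1, z.2)) hP (by fun_prop))) (by fun_prop))))
      (by fun_prop))) fun a b => ⟨fun ⟨u, h7, w, h8⟩ => ?_, fun e =>
        ⟨_, (Nat.find_eq_iff _).1 rfl, e ▸ h5 a⟩⟩, h6⟩
  obtain ⟨w', h9⟩ := h5 a
  rw [(Nat.find_eq_iff _).2 h7, h8] at h9
  exact (Prod.mk.inj (Option.some.inj h9)).1.symm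

theorem CI.of_red {f : ℕ → ℕ} (h : TuringReducible (fun n => Part.some (f n)) (Fn.orc Y)) :
    CI Y f := by
  obtain ⟨e, he⟩ := Fn.complete Y f h
  have h1 : Computable fun z : (ℕ × ℕ) × Str => Fn.att e (fun i => z.2.getD i false) z.1.1 z.1.2 :=
    Fn.att_comp (.const e) (Primrec.to_comp (by fun_prop)) (by fun_prop) (by fun_prop)
  have := ci_self Y
  have h2 : CI Y fun z : ℕ × ℕ => Fn.att e Y z.1 z.2 :=
    (ci_comp (g := fun z : ℕ × ℕ => (z, pre Y z.1)) (Computable.ci h1) (by fun_prop)).of_eq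
      fun z => Fn.att_congr e (fun i hi => by simp [pre, hi]) le_rfl _
  generalize Fn.att e Y = F at h2 he
  refine CI.mk (R := fun a b => ∃ u, F u a = b + 1) (by fun_prop) fun a b =>
    ⟨fun ⟨u, h⟩ => by have := (he a).2 u; omega, fun h => (he a).1.imp fun u hu => ?_⟩
  rw [(he a).2 u hu, h]

theorem CI.red {f : ℕ → ℕ} (h : CI Y f) :
    TuringReducible (fun n => Part.some (f n)) (Fn.orc Y) := by
  classical
  obtain ⟨N, h1, h2, -, h3⟩ := h.ri.norm
  let P : ℕ → ℕ → Prop := fun q m => N ((q.unpair.1, q.unpair.2.unpair.1),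
    pre (Fn.tb m) q.unpair.2.unpair.2.unpair.1) q.unpair.2.unpair.2.unpair.2 = true
  have h4 : Primrec fun z : ℕ × ℕ => if P z.1 z.2 then 0 else 1 := by unfold P; fun_prop
  have h5 := RecursiveIn.iff_nat.1 (Fn.red Y (ψ := fun n m => Part.some (if P n m then 0 else 1))
    h4.to_comp.partrec (h := fun q => q.unpair.2.unpair.2.unpair.1) (by fun_prop) fun _ => rfl)
  simp only [P, pre_congr (Fn.tb_cd Y _)] at h5
  have h6 : ∀ n, ∃ u : ℕ, N ((n, u.unpair.1), pre Y u.unpair.2.unpair.1) u.unpair.2.unpair.2 = true :=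
    fun n => let ⟨k, t, h⟩ := h3 (n, f n) rfl; ⟨Nat.pair (f n) (Nat.pair k t), by simpa using h⟩
  refine RecursiveIn.iff_nat.2 ((Nat.RecursiveIn.left.comp h5.rfind).of_eq_tot fun n => ?_)
  simp only [Part.bind_eq_bind, Part.mem_bind_iff, Nat.mem_rfind, Nat.unpair_pair, Part.map_eq_map,
    Part.map_some, Part.mem_some_iff]
  exact ⟨Nat.find (h6 n), ⟨by simp [Nat.find_spec (h6 n)], fun hm => by
    simpa using Nat.find_min (h6 n) hm⟩, by simpa using h2 _ _ _ (Nat.find_spec (h6 n))⟩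

theorem CI.of_orc {X : ℕ → Bool} (h : TuringReducible (Fn.orc X) (Fn.orc Y)) : CI Y X := by
  have := CI.of_red (f := fun n => (X n).toNat) h
  exact (ci_decide (k := fun _ => inferInstance) (ci_eq this (ci_const 1))).of_eq fun a => by
    cases X a <;> rfl

theorem CI.orc {X : ℕ → Bool} (h : CI Y X) : TuringReducible (Fn.orc X) (Fn.orc Y) :=
  CI.red (f := fun n => (X n).toNat) (by fun_prop)

end Pool.Agent.Lib.helper21.PR
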