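import Mathlib

set_option autoImplicit false

/-! Closure properties of computable predicates. -/

namespace Pool.Agent.Lib.helper21.CPred

open Computable

variable {α β : Type} [Primcodable α] [Primcodable β]

theorem ccomp {p : β → Prop} (hp : ComputablePred p) {f : α → β} (hf : Computable f) :
    ComputablePred fun a => p (f a) := by
  obtain ⟨g, hg, rfl⟩ := ComputablePred.computable_iff.1 hp
  exact ComputablePred.computable_iff.2 ⟨_, hg.comp hf, rfl⟩

theorem cprim {p : α → Prop} (hp : PrimrecPred p) : ComputablePred p :=
  let ⟨i, h⟩ := hp; ⟨i, h.to_comp⟩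

theorem cand {p q : α → Prop} (hp : ComputablePred p) (hq : ComputablePred q) :
    ComputablePred fun a => p a ∧ q a := by
  obtain ⟨g, hg, rfl⟩ := ComputablePred.computable_iff.1 hp
  obtain ⟨g', hg', rfl⟩ := ComputablePred.computable_iff.1 hq
  exact ComputablePred.computable_iff.2 ⟨fun a => g a && g' a,
    Primrec.and.to_comp.comp hg hg', by simp⟩

theorem cor {p q : α → Prop} (hp : ComputablePred p) (hq : ComputablePred q) :
    ComputablePred fun a => p a ∨ q a :=
  (cand hp.not hq.not).not.of_eq fun a => by tauto

theorem ceq {f g : α → β} (hf : Computable f) (hg : Computable g) :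
    ComputablePred fun a => f a = g a :=
  ccomp (p := fun z : β × β => z.1 = z.2) (cprim Primrec.eq) (hf.pair hg)

theorem clt {f g : α → ℕ} (hf : Computable f) (hg : Computable g) :
    ComputablePred fun a => f a < g a :=
  ccomp (p := fun z : ℕ × ℕ => z.1 < z.2) (cprim Primrec.nat_lt) (hf.pair hg)

theorem cite {p : α → Prop} [DecidablePred p] (hp : ComputablePred p) {f g : α → β}
    (hf : Computable f) (hg : Computable g) : Computable fun a => if p a then f a else g a := by
  obtain ⟨c, hc, rfl⟩ := ComputablePred.computable_iff.1 hp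
  exact (Computable.cond hc hf hg).of_eq fun a => by cases h : c a <;> simp [h]

theorem call {p : α → ℕ → Prop} (hp : ComputablePred fun z : α × ℕ => p z.1 z.2) {n : α → ℕ}
    (hn : Computable n) : ComputablePred fun a => ∀ y < n a, p a y := by
  obtain ⟨g, hg, e⟩ := ComputablePred.computable_iff.1 hp
  refine ComputablePred.computable_iff.2 ⟨_, nat_rec hn (const true)
    (h := fun a z => z.2 && g (a, z.1)) (Primrec.and.to_comp.comp (snd.comp snd)
      (hg.comp (fst.pair (fst.comp snd)))).to₂, funext fun a => propext ?_⟩
  induction n a with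
  | zero => simp
  | succ m ih => rw [Nat.forall_lt_succ_right, ih, show p a m = _ from congrFun e (a, m)]; simp

theorem cex {p : α → ℕ → Prop} (hp : ComputablePred fun z : α × ℕ => p z.1 z.2) {n : α → ℕ}
    (hn : Computable n) : ComputablePred fun a => ∃ y < n a, p a y :=
  (call (p := fun a y => ¬ p a y) hp.not hn).not.of_eq fun a => by simp

theorem cre {p : α → ℕ → Prop} (hp : ComputablePred fun z : α × ℕ => p z.1 z.2) :
    REPred fun a => ∃ y, p a y := by
  obtain ⟨g, hg, e⟩ := ComputablePred.computable_iff.1 hp
  refine (Partrec.rfind (p := fun a n => Part.some (g (a, n))) hg.partrec.to₂).dom_re.of_eq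
    fun a => ?_
  simp [Nat.rfind_dom, fun y => congrFun e (a, y)]

end Pool.Agent.Lib.helper21.CPred
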