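import Pool.Agent.Lib.helper22.Oracle
import Pool.Agent.Lib.helper21.CPred

set_option autoImplicit false

/-! Step-bounded Turing functionals on Cantor space and the hyperimmune-free basis theorem. -/

namespace Pool.Agent.Lib.helper21.Fn

open Filter Encodable Denumerable Pool.Agent.Lib.helper22 Pool.Agent.Lib.helper21.CPred
open Nat.Partrec (Code)
open Nat.Partrec.Code

abbrev Om := ℕ → Bool

def tb (m : ℕ) : Om := fun i => m.testBit i

def cd (Z : Om) : ℕ → ℕ
  | 0 => 0
  | s + 1 => 2 ^ s * (Z s).toNat + cd Z s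

theorem cd_lt (Z : Om) : ∀ s, cd Z s < 2 ^ s
  | 0 => by simp [cd]
  | s + 1 => by
    have := cd_lt Z s
    rw [cd, pow_succ]
    cases Z s <;> simp <;> omega

theorem tb_cd (Z : Om) : ∀ s i, i < s → tb (cd Z s) i = Z i
  | 0, _, h => by omega
  | s + 1, i, h => by
    rw [cd, tb, Nat.testBit_two_pow_mul_add _ (cd_lt Z s)]
    split_ifs with h1
    · exact tb_cd Z s i h1
    · obtain rfl : i = s := by omega
      cases Z i <;> simp

theorem cd_congr {Z Z' : Om} : ∀ {s}, (∀ i < s, Z i = Z' i) → cd Z s = cd Z' s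
  | 0, _ => rfl
  | s + 1, h => by
    rw [cd, cd, h s (by omega), cd_congr fun i hi => h i (by omega)]

theorem cd_tb {m s : ℕ} (h : m < 2 ^ s) : cd (tb m) s = m := by
  refine Nat.eq_of_testBit_eq fun i => ?_
  by_cases hi : i < s
  · exact tb_cd _ s i hi
  · have : 2 ^ s ≤ 2 ^ i := Nat.pow_le_pow_right (by norm_num) (by omega)
    rw [Nat.testBit_lt_two_pow (h.trans_le this),
      Nat.testBit_lt_two_pow ((cd_lt _ s).trans_le this)]

/-- The predicate depends on the first `s` bits only. -/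
def Loc (s : ℕ) (S : Om → Prop) : Prop := ∀ Z Z' : Om, (∀ i < s, Z i = Z' i) → S Z → S Z'

theorem Loc.iff {s : ℕ} {S : Om → Prop} (h : Loc s S) (Z : Om) : S (tb (cd Z s)) ↔ S Z :=
  ⟨h _ _ (tb_cd Z s), h _ _ fun i hi => (tb_cd Z s i hi).symm⟩

theorem cd_cont : ∀ s, Continuous fun Z : Om => cd Z s
  | 0 => continuous_const
  | s + 1 => (continuous_const.mul ((continuous_of_discreteTopology (f := Bool.toNat)).comp
      (continuous_apply s))).add (cd_cont s)

theorem Loc.closed {s : ℕ} {S : Om → Prop} (h : Loc s S) : IsClosed {Z | S Z} := by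
  have : {Z | S Z} = (fun Z => cd Z s) ⁻¹' {m | S (tb m)} := Set.ext fun Z => (h.iff Z).symm
  rw [this]
  exact (isClosed_discrete _).preimage (cd_cont s)

theorem compact' (K : ℕ → Set Om) (hc : ∀ s, IsClosed (K s)) (hm : ∀ s, K (s + 1) ⊆ K s)
    (h : ∀ s, (K s).Nonempty) : ∃ Z, ∀ s, Z ∈ K s := by
  obtain ⟨Z, hZ⟩ := IsCompact.nonempty_iInter_of_sequence_nonempty_isCompact_isClosed K hm h
    (hc 0).isCompact hc
  exact ⟨Z, Set.mem_iInter.1 hZ⟩

theorem compact (K : ℕ → Om → Prop) (hl : ∀ s, Loc s (K s)) (h : ∀ s, ∃ Z, ∀ u ≤ s, K u Z) :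
    ∃ Z, ∀ s, K s Z := by
  obtain ⟨Z, hZ⟩ := compact' (fun s => {Z | ∀ u ≤ s, K u Z})
    (fun s => Loc.closed (s := s) fun Z Z' e hZ u hu =>
      hl u Z Z' (fun i hi => e i (hi.trans_le hu)) (hZ u hu))
    (fun s Z hZ u hu => hZ u (by omega)) h
  exact ⟨Z, fun s => hZ s s le_rfl⟩

theorem pow2 : Primrec fun n : ℕ => 2 ^ n :=
  (Primrec₂.unpaired'.1 Nat.Primrec.pow).comp (Primrec.const 2) Primrec.id

theorem tb_prim : Primrec₂ tb := by
  have : Primrec fun a : ℕ × ℕ => decide (a.1 / 2 ^ a.2 % 2 = 1) :=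
    (Primrec.eq.comp (Primrec.nat_mod.comp (Primrec.nat_div.comp Primrec.fst
      (pow2.comp Primrec.snd)) (Primrec.const 2)) (Primrec.const 1)).decide
  exact this.of_eq fun a => (Nat.testBit_eq_decide_div_mod_eq).symm

theorem toNat_prim : Primrec Bool.toNat := Primrec.dom_bool _

variable {α : Type} [Primcodable α]

theorem cd_comp {Z : α → Om} (hZ : Computable₂ Z) {s : α → ℕ} (hs : Computable s) :
    Computable fun a => cd (Z a) (s a) := by
  refine (Computable.nat_rec hs (Computable.const 0)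
    (h := fun a z => 2 ^ z.1 * (Z a z.1).toNat + z.2)
    (Primrec.nat_add.to_comp.comp (Primrec.nat_mul.to_comp.comp
      (pow2.to_comp.comp (Computable.fst.comp Computable.snd))
      (toNat_prim.to_comp.comp (hZ.comp Computable.fst (Computable.fst.comp Computable.snd))))
      (Computable.snd.comp Computable.snd)).to₂).of_eq fun a => ?_
  induction s a with
  | zero => rfl
  | succ n ih => simp only [cd, ← ih]

theorem ccount {p : α → ℕ → Prop} [∀ a, DecidablePred (p a)]
    (hp : ComputablePred fun z : α × ℕ => p z.1 z.2) {n : α → ℕ} (hn : Computable n) :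
    Computable fun a => ((Finset.range (n a)).filter (p a)).card := by
  classical
  refine (Computable.nat_rec hn (Computable.const 0)
    (h := fun a z => if p a z.1 then z.2 + 1 else z.2)
    (cite (ccomp hp (Computable.fst.pair (Computable.fst.comp Computable.snd)))
      (Computable.succ.comp (Computable.snd.comp Computable.snd))
      (Computable.snd.comp Computable.snd)).to₂).of_eq fun a => ?_
  induction n a with
  | zero => rfl
  | succ n ih =>
    rw [Finset.range_add_one, Finset.filter_insert]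
    split_ifs with h
    · rw [Finset.card_insert_of_notMem (by simp), ← ih]; simp [h]
    · rw [← ih]; simp [h]

theorem cfind {p : α → ℕ → Prop} (hp : ComputablePred fun z : α × ℕ => p z.1 z.2)
    (h : ∀ a, ∃ n, p a n) : ∃ g : α → ℕ, Computable g ∧ ∀ a, p a (g a) := by
  classical
  obtain ⟨g, hg, e⟩ := ComputablePred.computable_iff.1 hp
  have e' : ∀ a n, p a n ↔ g (a, n) = true := fun a n => by rw [← congrFun e (a, n)]
  refine ⟨fun a => Nat.find (h a), (Partrec.rfind (p := fun a n => Part.some (g (a, n)))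
    hg.partrec.to₂).of_eq_tot fun a => ?_, fun a => Nat.find_spec (h a)⟩
  simp only [Nat.mem_rfind, Part.mem_some_iff]
  refine ⟨((e' _ _).1 (Nat.find_spec (h a))).symm, fun {m} hm => ?_⟩
  have := Nat.find_min (h a) hm
  rw [e'] at this
  simpa using this

theorem ev_partrec {o : α → ℕ →. ℕ} (ho : Partrec₂ o) (c : OC) :
    Partrec₂ fun a n => ev (o a) c n := by
  induction c with
  | zero => exact (Computable.const 0).partrec
  | succ => exact (Computable.succ.comp Computable.snd).partrec
  | left => exact (Computable.fst.comp (Computable.unpair.comp Computable.snd)).partrec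
  | right => exact (Computable.snd.comp (Computable.unpair.comp Computable.snd)).partrec
  | oracle => exact ho
  | pair a b iha ihb =>
    have h1 : Partrec fun z : (α × ℕ) × ℕ => ev (o z.1.1) b z.1.2 :=
      ihb.comp (Computable.fst.comp Computable.fst) (Computable.snd.comp Computable.fst)
    have h2 : Computable₂ fun (z : (α × ℕ) × ℕ) (y : ℕ) => Nat.pair z.2 y :=
      (Primrec₂.natPair.to_comp.comp (Computable.snd.comp Computable.fst) Computable.snd).to₂
    have h3 : Partrec₂ fun (z : α × ℕ) (x : ℕ) => (ev (o z.1) b z.2).map (Nat.pair x) :=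
      Partrec.map h1 h2
    exact (Partrec.bind iha h3).of_eq fun z => by simp [ev, Seq.seq]
  | comp a b iha ihb =>
    exact (Partrec.bind ihb (iha.comp (Computable.fst.comp Computable.fst)
      Computable.snd).to₂).of_eq fun z => by simp [ev]
  | prec a b iha ihb =>
    refine (Partrec.nat_rec (Computable.snd.comp (Computable.unpair.comp Computable.snd))
      (iha.comp Computable.fst (Computable.fst.comp (Computable.unpair.comp Computable.snd)))
      (h := fun z y => ev (o z.1) b (Nat.pair z.2.unpair.1 (Nat.pair y.1 y.2)))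
      (ihb.comp (Computable.fst.comp Computable.fst) (Primrec₂.natPair.to_comp.comp
        (Computable.fst.comp (Computable.unpair.comp (Computable.snd.comp Computable.fst)))
        (Primrec₂.natPair.to_comp.comp (Computable.fst.comp Computable.snd)
          (Computable.snd.comp Computable.snd)))).to₂).of_eq fun z => ?_
    simp [ev]
  | rfind a ih =>
    refine (Partrec.rfind (p := fun (z : α × ℕ) n =>
      (ev (o z.1) a (Nat.pair z.2 n)).map fun m => decide (m = 0)) (Partrec.map
      (ih.comp (Computable.fst.comp Computable.fst) (Primrec₂.natPair.to_comp.comp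
        (Computable.snd.comp Computable.fst) Computable.snd))
      (Primrec.eq.comp Primrec.snd (Primrec.const 0)).decide.to_comp.to₂).to₂).of_eq fun z => ?_
    simp [ev]

def orc (X : Om) : ℕ →. ℕ := fun n => Part.some (X n).toNat

def raw (e a t j : ℕ) : ℕ := encode (evaln t (ofNat Code e) (Nat.pair a j))

/-- Attempt number `u` of functional `e` with oracle `Y` on input `j`; `0` means no answer. -/
def att (e : ℕ) (Y : Om) (u j : ℕ) : ℕ :=
  if raw e (Nat.pair u.unpair.1 (cd Y u.unpair.1)) u.unpair.2 j ≤ u then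
    raw e (Nat.pair u.unpair.1 (cd Y u.unpair.1)) u.unpair.2 j else 0

theorem att_le (e : ℕ) (Y : Om) (u j : ℕ) : att e Y u j ≤ u := by
  unfold att; split_ifs <;> omega

theorem att_congr (e : ℕ) {Y Y' : Om} {s u : ℕ} (h : ∀ i < s, Y i = Y' i) (hu : u ≤ s) (j : ℕ) :
    att e Y u j = att e Y' u j := by
  unfold att
  rw [cd_congr fun i hi => h i (hi.trans_le (u.unpair_left_le.trans hu))]

theorem raw_prim : Primrec fun z : (ℕ × ℕ) × ℕ × ℕ => raw z.1.1 z.1.2 z.2.1 z.2.2 :=
  Primrec.encode.comp (primrec_evaln.comp (((Primrec.fst.comp Primrec.snd).pair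
    ((Primrec.ofNat Code).comp (Primrec.fst.comp Primrec.fst))).pair (Primrec₂.natPair.comp
      (Primrec.snd.comp Primrec.fst) (Primrec.snd.comp Primrec.snd))))

theorem att_comp {e u j : α → ℕ} {Z : α → Om} (he : Computable e) (hZ : Computable₂ Z)
    (hu : Computable u) (hj : Computable j) : Computable fun a => att (e a) (Z a) (u a) (j a) := by
  have h1 : Computable fun a => (u a).unpair.1 := Computable.fst.comp (Computable.unpair.comp hu)
  have h2 : Computable fun a => (u a).unpair.2 := Computable.snd.comp (Computable.unpair.comp hu)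
  have h3 : Computable fun a => raw (e a) (Nat.pair (u a).unpair.1 (cd (Z a) (u a).unpair.1))
      (u a).unpair.2 (j a) := raw_prim.to_comp.comp ((he.pair
        (Primrec₂.natPair.to_comp.comp h1 (cd_comp hZ h1))).pair (h2.pair hj))
  exact cite ((clt hu h3).not.of_eq fun a => not_lt) h3 (Computable.const 0)

theorem complete (Y : Om) (f : ℕ → ℕ) (hf : TuringReducible (fun n => Part.some (f n)) (orc Y)) :
    ∃ e, ∀ j, (∃ u, att e Y u j ≠ 0) ∧ ∀ u, att e Y u j ≠ 0 → att e Y u j = f j + 1 := by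
  obtain ⟨c, hc⟩ := turingReducible_iff.1 hf
  let o : ℕ → ℕ → Option ℕ := fun a i =>
    if i < a.unpair.1 then some (tb a.unpair.2 i).toNat else none
  have ho : Computable₂ o := (Primrec.ite (Primrec.nat_lt.comp Primrec.snd (Primrec.fst.comp
    (Primrec.unpair.comp Primrec.fst))) (Primrec.option_some.comp (toNat_prim.comp (tb_prim.comp
      (Primrec.snd.comp (Primrec.unpair.comp Primrec.fst)) Primrec.snd)))
      (Primrec.const none)).to_comp
  have h1 : Partrec₂ fun a n => ev (fun i => (o a i : Part ℕ)) c n :=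
    ev_partrec (o := fun a i => (o a i : Part ℕ)) (Computable.ofOption ho) c
  have h2 : Partrec fun z : ℕ => ev (fun i => (o z.unpair.1 i : Part ℕ)) c z.unpair.2 :=
    h1.comp (Computable.fst.comp Computable.unpair) (Computable.snd.comp Computable.unpair)
  obtain ⟨d, hd⟩ := Nat.Partrec.Code.exists_code.1 (Partrec.nat_iff.1 h2)
  have h3 : ∀ k i v, v ∈ (o (Nat.pair k (cd Y k)) i : Part ℕ) ↔ i < k ∧ v = (Y i).toNat := by
    intro k i v
    by_cases h : i < k <;> simp [o, h, tb_cd]
  have h4 : ∀ k j v, v ∈ d.eval (Nat.pair (Nat.pair k (cd Y k)) j) → v = f j := by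
    intro k j v hv
    rw [hd] at hv
    simp only [Nat.unpair_pair] at hv
    have := (ev_eventually (l := (⊤ : Filter Unit)) (G := fun _ => orc Y) (fun n v hv =>
      Eventually.of_forall fun _ => by simp [orc, ((h3 _ _ _).1 hv).2]) c j v hv).exists
    rw [hc] at this
    simpa using this
  refine ⟨encode d, fun j => ⟨?_, fun u hu => ?_⟩⟩
  · obtain ⟨k, hk⟩ := (ev_eventually (l := atTop)
      (G := fun k i => (o (Nat.pair k (cd Y k)) i : Part ℕ)) (g := orc Y) (fun n v hv => by
        filter_upwards [eventually_gt_atTop n] with k hk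
        exact (h3 _ _ _).2 ⟨hk, by simpa [orc] using hv⟩) c j (f j) (by simp [hc])).exists
    obtain ⟨t, ht⟩ := evaln_complete.1 (show f j ∈ d.eval (Nat.pair (Nat.pair k (cd Y k)) j) by
      rw [hd]; simpa using hk)
    refine ⟨Nat.pair k (max t (f j + 1)), ?_⟩
    have h5 := evaln_mono (le_max_left t (f j + 1)) ht
    have h6 := (le_max_right t (f j + 1)).trans (Nat.right_le_pair k (max t (f j + 1)))
    simp only [att, raw, Nat.unpair_pair, ofNat_encode, Option.mem_def.1 h5, encode_some]
    rw [if_pos (by simpa using h6)]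
    simp
  · unfold att at hu ⊢
    split_ifs at hu ⊢ with h
    · simp only [raw, ofNat_encode] at hu ⊢
      cases hv : evaln u.unpair.2 d (Nat.pair (Nat.pair u.unpair.1 (cd Y u.unpair.1)) j) with
      | none => simp [hv] at hu
      | some v => simp [h4 _ _ v (evaln_sound hv)]
    · simp at hu

theorem cd_red (Y : Om) : Nat.RecursiveIn {orc Y} fun n => Part.some (cd Y n) := by
  have p1 : Primrec fun q : ℕ => q.unpair.2.unpair.1 :=
    Primrec.fst.comp (Primrec.unpair.comp (Primrec.snd.comp Primrec.unpair))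
  have p2 : Primrec fun q : ℕ => q.unpair.2.unpair.2 :=
    Primrec.snd.comp (Primrec.unpair.comp (Primrec.snd.comp Primrec.unpair))
  have p3 : Primrec fun w : ℕ => 2 ^ w.unpair.1.unpair.2.unpair.1 * w.unpair.2 +
      w.unpair.1.unpair.2.unpair.2 :=
    Primrec.nat_add.comp (Primrec.nat_mul.comp (pow2.comp (p1.comp (Primrec.fst.comp
      Primrec.unpair))) (Primrec.snd.comp Primrec.unpair)) (p2.comp (Primrec.fst.comp
        Primrec.unpair))
  have h1 := Nat.RecursiveIn.comp (Primrec.nat_iff.1 p3).recursiveIn (Nat.RecursiveIn.pair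
    (Primrec.nat_iff.1 Primrec.id).recursiveIn (Nat.RecursiveIn.comp
      (Nat.RecursiveIn.oracle (O := {orc Y}) _ rfl) (Primrec.nat_iff.1 p1).recursiveIn))
  have h2 := Nat.RecursiveIn.comp (Nat.RecursiveIn.prec .zero h1) (Primrec.nat_iff.1
    (Primrec₂.natPair.comp (Primrec.const 0) Primrec.id)).recursiveIn
  refine h2.of_eq fun n => ?_
  simp only [Part.coe_some, Part.bind_eq_bind, Part.bind_some, id, Nat.unpair_pair]
  induction n with
  | zero => rfl
  | succ n ih =>
    dsimp only
    rw [ih]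
    simp [orc, Seq.seq, cd]

theorem red (Y : Om) {ψ : ℕ → ℕ →. ℕ} (hψ : Partrec₂ ψ) {h : ℕ → ℕ} (hh : Computable h)
    {f : ℕ →. ℕ} (e : ∀ n, ψ n (cd Y (h n)) = f n) : TuringReducible f (orc Y) := by
  have h1 : Partrec fun z : ℕ => ψ z.unpair.1 z.unpair.2 :=
    hψ.comp (Computable.fst.comp Computable.unpair) (Computable.snd.comp Computable.unpair)
  have h2 := Nat.RecursiveIn.comp (Partrec.nat_iff.1 h1).recursiveIn (Nat.RecursiveIn.pair
    (Primrec.nat_iff.1 Primrec.id).recursiveIn (Nat.RecursiveIn.comp (cd_red Y)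
      (Partrec.nat_iff.1 hh.partrec).recursiveIn))
  exact RecursiveIn.iff_nat.2 (h2.of_eq fun n => by simp [Seq.seq, e])

structure Tree where
  T : ℕ → Om → Prop
  loc : ∀ s, Loc s (T s)
  comp : ComputablePred fun a : ℕ × ℕ => T a.1 (tb a.2)
  ne : ∃ Z, ∀ s, T s Z

def Tree.path (τ : Tree) : Set Om := {Z | ∀ s, τ.T s Z}

theorem hif_step (e : ℕ) (τ : Tree) : ∃ τ' : Tree, τ'.path ⊆ τ.path ∧
    ((∃ n, ∀ Z ∈ τ'.path, ∀ u, att e Z u n = 0) ∨
      ∃ g : ℕ → ℕ, Computable g ∧ ∀ Z ∈ τ'.path, ∀ n, ∃ u ≤ g n, att e Z u n ≠ 0) := by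
  have hl : ∀ n s, Loc s fun Z => τ.T s Z ∧ att e Z s n = 0 := fun n s Z Z' h hZ =>
    ⟨τ.loc s Z Z' h hZ.1, att_congr e h le_rfl n ▸ hZ.2⟩
  have hc : ComputablePred fun a : (ℕ × ℕ) × ℕ =>
      τ.T a.1.1 (tb a.1.2) ∧ att e (tb a.1.2) a.1.1 a.2 = 0 :=
    cand (ccomp τ.comp Computable.fst) (ceq (att_comp (Computable.const e)
      (tb_prim.to_comp.comp (Computable.snd.comp (Computable.fst.comp Computable.fst))
        Computable.snd).to₂ (Computable.fst.comp Computable.fst) Computable.snd)
      (Computable.const 0))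
  by_cases h : ∃ n Z, ∀ s, τ.T s Z ∧ att e Z s n = 0
  · obtain ⟨n, h⟩ := h
    exact ⟨⟨_, hl n, ccomp hc (Computable.id.pair (Computable.const n)), h⟩,
      fun Z hZ s => (hZ s).1, Or.inl ⟨n, fun Z hZ s => (hZ s).2⟩⟩
  · have h1 : ∀ n, ∃ s, ∀ m < 2 ^ s, ∃ u < s + 1, ¬ (τ.T u (tb m) ∧ att e (tb m) u n = 0) := by
      intro n
      by_contra h2
      push Not at h2
      refine h ⟨n, compact _ (hl n) fun s => ?_⟩
      obtain ⟨m, -, hm⟩ := h2 s
      exact ⟨tb m, fun u hu => hm u (by omega)⟩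
    have h2 : ComputablePred fun a : ((ℕ × ℕ) × ℕ) × ℕ =>
        ¬ (τ.T a.2 (tb a.1.2) ∧ att e (tb a.1.2) a.2 a.1.1.1 = 0) :=
      (ccomp hc ((Computable.snd.pair (Computable.snd.comp Computable.fst)).pair
        (Computable.fst.comp (Computable.fst.comp Computable.fst)))).not
    obtain ⟨g, hg, h3⟩ := cfind (p := fun n s => ∀ m < 2 ^ s, ∃ u < s + 1,
      ¬ (τ.T u (tb m) ∧ att e (tb m) u n = 0)) (call (cex h2 (Computable.succ.comp
        (Computable.snd.comp Computable.fst))) (pow2.to_comp.comp Computable.snd)) h1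
    refine ⟨τ, le_rfl, Or.inr ⟨g, hg, fun Z hZ n => ?_⟩⟩
    obtain ⟨u, hu, h4⟩ := h3 n _ (cd_lt Z _)
    refine ⟨u, by omega, fun h5 => h4 (hl n u Z _ (fun i hi => ?_) ⟨hZ u, h5⟩)⟩
    exact (tb_cd Z _ i (by omega)).symm

/-- The hyperimmune-free basis theorem. -/
theorem hif (τ : Tree) : ∃ X ∈ τ.path, ∀ f : ℕ → ℕ,
    TuringReducible (fun n => Part.some (f n)) (orc X) →
      ∃ g : ℕ → ℕ, Computable g ∧ ∀ n, f n ≤ g n := by
  choose F h1 h2 using hif_step
  let σ : ℕ → Tree := fun n => Nat.rec τ F n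
  obtain ⟨X, hX⟩ := compact' (fun n => (σ n).path) (fun n => by
    simp only [Tree.path, Set.setOf_forall]
    exact isClosed_iInter fun s => ((σ n).loc s).closed) (fun n => h1 n (σ n)) fun n => (σ n).ne
  refine ⟨X, hX 0, fun f hf => ?_⟩
  obtain ⟨e, he⟩ := complete X f hf
  rcases h2 e (σ e) with ⟨n, h⟩ | ⟨g, hg, h⟩
  · obtain ⟨u, hu⟩ := (he n).1
    exact absurd (h X (hX (e + 1)) u) hu
  · refine ⟨g, hg, fun n => ?_⟩
    obtain ⟨u, hu, h3⟩ := h X (hX (e + 1)) n
    have := att_le e X u n
    rw [(he n).2 u h3] at this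
    omega

end Pool.Agent.Lib.helper21.Fn
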