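import Mathlib

set_option autoImplicit false

open Cardinal Set Filter

namespace Pool.Agent.Lib.helper21.Kunen

variable {I α : Type}

/-- boolean combination -/
def comb (A : I → Set α) (s : Finset I) (x : I → Prop) : Set α := {n | ∀ i ∈ s, (n ∈ A i ↔ x i)}

/-- independence modulo a filter -/
def Ind (A : I → Set α) (F : Filter α) (S : Set I) : Prop :=
  ∀ (s : Finset I) (x : I → Prop), ↑s ⊆ S → ∀ B ∈ F, (B ∩ comb A s x).Nonempty

variable {A : I → Set α} {F : Filter α} {S : Set I}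

lemma Ind.mono (h : Ind A F S) {T : Set I} (hT : T ⊆ S) : Ind A F T :=
  fun s x hs => h s x (hs.trans hT)

lemma Ind.neBot (h : Ind A F S) : F.NeBot := by
  refine ⟨fun he => ?_⟩
  obtain ⟨n, hn, -⟩ := h ∅ (fun _ => True) (by simp) ∅ (he ▸ mem_bot)
  exact hn

lemma ind_sInf {c : Set (Filter α)} (hc : IsChain (· ≤ ·) c) (hne : c.Nonempty)
    (h : ∀ F ∈ c, Ind A F S) : Ind A (sInf c) S := by
  intro s x hs B hB
  rw [sInf_eq_iInf, mem_biInf_of_directed (f := fun a => a) (fun a ha b hb => by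
    rcases hc.total ha hb with h | h
    · exact ⟨a, ha, le_rfl, h⟩
    · exact ⟨b, hb, h, le_rfl⟩) hne] at hB
  obtain ⟨F, hF, hB⟩ := hB
  exact h F hF s x hs B hB

lemma Ind.add (h : Ind A F S) {s : Finset I} (hs : ↑s ⊆ S) (x : I → Prop) :
    Ind A (F ⊓ 𝓟 (comb A s x)) (S \ s) := by
  classical
  intro t y ht D hD
  rw [mem_inf_principal] at hD
  obtain ⟨n, h1, h2⟩ := h (s ∪ t) (fun i => if i ∈ s then x i else y i)
    (by rw [Finset.coe_union]; exact union_subset hs (ht.trans diff_subset)) _ hD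
  refine ⟨n, h1 fun i hi => ?_, fun i hi => ?_⟩
  · simpa [hi] using h2 i (Finset.mem_union_left _ hi)
  · have : i ∉ s := (ht hi).2
    simpa [this] using h2 i (Finset.mem_union_right _ hi)

lemma Ind.maximal (h : Ind A F S) : ∃ G ≤ F, Ind A G S ∧
    ∀ B, B ∉ G → ∃ (s : Finset I) (x : I → Prop), ↑s ⊆ S ∧ (B ∩ comb A s x)ᶜ ∈ G := by
  obtain ⟨G, hGF, hG⟩ := zorn_le_nonempty₀ (α := (Filter α)ᵒᵈ) {G | Ind A G S}
    (fun c hc hch y hy => ⟨sInf (α := Filter α) c, ind_sInf hch.symm ⟨y, hy⟩ hc,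
      fun z hz => sInf_le (α := Filter α) hz⟩) F h
  refine ⟨G, hGF, hG.1, fun B hB => ?_⟩
  by_contra hc
  refine hB (le_principal_iff.1 (le_trans (α := Filter α) (hG.2 (y := (min (α := Filter α) G (𝓟 B))) ?_
    (inf_le_left (α := Filter α))) (inf_le_right (α := Filter α))))
  intro s x hs D hD
  by_contra hn
  refine hc ⟨s, x, hs, mem_of_superset (mem_inf_principal.1 hD) fun n hn' => ?_⟩
  exact fun h => hn ⟨n, hn' h.1, h.2⟩

lemma exists_ind : ∃ A : Set ℕ → Set ℕ, Ind A cofinite univ := by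
  classical
  let e : ℕ × Finset (Finset ℕ) ≃ ℕ := Denumerable.eqv _
  let tr : Set ℕ → ℕ → Finset ℕ := fun X n => (Finset.range n).filter (· ∈ X)
  refine ⟨fun X => {k | tr X (e.symm k).1 ∈ (e.symm k).2}, fun s x _ B hB => ?_⟩
  have h1 : ∀ᶠ n in cofinite, ∀ X ∈ s, ∀ Y ∈ s, tr X n = tr Y n → X = Y := by
    refine (eventually_all_finset s).2 fun X _ => (eventually_all_finset s).2 fun Y _ => ?_
    by_cases hXY : X = Y
    · exact Eventually.of_forall fun _ _ => hXY
    · obtain ⟨a, ha⟩ : ∃ a, ¬ (a ∈ X ↔ a ∈ Y) := not_forall.1 fun h => hXY (Set.ext h)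
      rw [Nat.cofinite_eq_atTop]
      filter_upwards [eventually_gt_atTop a] with n hn he
      have := congrArg (a ∈ ·) he
      exact absurd (by simpa [tr, hn] using this) ha
  let g : ℕ → ℕ := fun n => e (n, (s.filter x).image (tr · n))
  have hg : Function.Injective g := fun a b hab => congrArg Prod.fst (e.injective hab)
  obtain ⟨n, h2, h3⟩ := (h1.and (hg.tendsto_cofinite.eventually hB)).exists
  refine ⟨g n, h3, fun X hX => ?_⟩
  simp only [g, mem_setOf_eq, Equiv.symm_apply_apply, Finset.mem_image, Finset.mem_filter]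
  exact ⟨fun ⟨Y, hY, he⟩ => h2 Y hY.1 X hX he ▸ hY.2, fun h => ⟨X, ⟨hX, h⟩, rfl⟩⟩

/-- recursion of length continuum along an independent family -/
theorem kunen {A : Set ℕ → Set α} {F0 : Filter α} (h0 : Ind A F0 univ) (K : Type) (hK : #K ≤ 𝔠)
    (Good : K → Filter α → Prop)
    (step : ∀ k F S, F ≤ F0 → Ind A F S → ¬ S.Countable →
      ∃ G ≤ F, ∃ r : Set (Set ℕ), r.Countable ∧ Ind A G (S \ r) ∧ Good k G) :
    ∃ U : Ultrafilter α, (U : Filter α) ≤ F0 ∧ ∀ k, ∃ G, (U : Filter α) ≤ G ∧ Good k G := by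
  let T : Type := (#K).ord.ToType
  obtain ⟨e⟩ : Nonempty (T ≃ K) := Cardinal.eq.1 (mk_ord_toType _)
  have hT : ∀ a : T, #(Iio a) < 𝔠 := fun a => lt_of_lt_of_le (by simpa [T] using mk_Iio_lt a) hK
  let H : (Set T) → (T → Filter α × Set (Set ℕ)) → Filter α :=
    fun s p => sInf (insert F0 ((fun b => (p b).1) '' s))
  let R : (Set T) → (T → Filter α × Set (Set ℕ)) → Set (Set ℕ) :=
    fun s p => (⋃ b ∈ s, (p b).2)ᶜ
  have st : ∀ (a : T) (p : T → Filter α × Set (Set ℕ)), ∃ q : Filter α × Set (Set ℕ),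
      q.2.Countable ∧ q.1 ≤ H (Iio a) p ∧ (Ind A (H (Iio a) p) (R (Iio a) p) →
        ¬ (R (Iio a) p).Countable → Ind A q.1 (R (Iio a) p \ q.2) ∧ Good (e a) q.1) := by
    intro a p
    by_cases h : Ind A (H (Iio a) p) (R (Iio a) p) ∧ ¬ (R (Iio a) p).Countable
    · obtain ⟨G, h1, r, h2, h3⟩ := step (e a) _ _ (sInf_le (mem_insert _ _)) h.1 h.2
      exact ⟨(G, r), h2, h1, fun _ _ => h3⟩
    · exact ⟨(_, ∅), countable_empty, le_rfl, fun h1 h2 => absurd ⟨h1, h2⟩ h⟩
  choose f hf using st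
  classical
  let G : T → Filter α × Set (Set ℕ) := (wellFounded_lt (α := T)).fix fun a p =>
    f a fun b => if h : b < a then p b h else (⊤, ∅)
  have hG : ∀ a, (G a).2.Countable ∧ (G a).1 ≤ H (Iio a) G ∧ (Ind A (H (Iio a) G) (R (Iio a) G) →
      ¬ (R (Iio a) G).Countable → Ind A (G a).1 (R (Iio a) G \ (G a).2) ∧ Good (e a) (G a).1) := by
    intro a
    have h1 : G a = f a fun b => if b < a then G b else (⊤, ∅) := by
      simp only [G]
      rw [WellFounded.fix_eq]
      simp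
    have h2 := hf a fun b => if b < a then G b else (⊤, ∅)
    rw [← h1] at h2
    have e1 : H (Iio a) (fun b => if b < a then G b else (⊤, ∅)) = H (Iio a) G :=
      congrArg (fun t => sInf (insert F0 t)) (image_congr fun b hb => by
        simp [show b < a from hb])
    have e2 : R (Iio a) (fun b => if b < a then G b else (⊤, ∅)) = R (Iio a) G :=
      congrArg compl (iUnion₂_congr fun b hb => by simp [show b < a from hb])
    rwa [e1, e2] at h2
  have hch : ∀ s, IsChain (· ≤ ·) (insert F0 ((fun b => (G b).1) '' s)) := by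
    have h1 : ∀ b, (G b).1 ≤ F0 := fun b => (hG b).2.1.trans (sInf_le (mem_insert _ _))
    have h2 : ∀ b c, b < c → (G c).1 ≤ (G b).1 := fun b c h =>
      (hG c).2.1.trans (sInf_le (mem_insert_of_mem _ ⟨b, h, rfl⟩))
    rintro s _ (rfl | ⟨b, -, rfl⟩) _ (rfl | ⟨c, -, rfl⟩) hne
    · exact absurd rfl hne
    · exact Or.inr (h1 c)
    · exact Or.inl (h1 b)
    · rcases lt_trichotomy b c with h | rfl | h
      · exact Or.inr (h2 b c h)
      · exact absurd rfl hne
      · exact Or.inl (h2 c b h)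
  have hlim : ∀ s : Set T, IsLowerSet s → (∀ b ∈ s, Ind A (G b).1 (R (Iio b) G \ (G b).2)) →
      Ind A (H s G) (R s G) := by
    intro s hs h
    refine ind_sInf (hch s) (insert_nonempty _ _) ?_
    rintro _ (rfl | ⟨b, hb, rfl⟩)
    · exact h0.mono (subset_univ _)
    · refine (h b hb).mono fun i hi => ⟨fun h1 => hi ?_, fun h1 => hi (mem_biUnion hb h1)⟩
      obtain ⟨c, hc, h2⟩ := mem_iUnion₂.1 h1
      exact mem_biUnion (hs (le_of_lt hc) hb) h2
  have hunc : ∀ a, ¬ (R (Iio a) G).Countable := by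
    intro a hc
    have h1 : #(⋃ b ∈ Iio a, (G b).2 : Set (Set ℕ)) < 𝔠 := by
      refine lt_of_le_of_lt (mk_biUnion_le _ _) (mul_lt_of_lt aleph0_le_continuum (hT a) ?_)
      exact lt_of_le_of_lt (ciSup_le' fun b => (hG b).1.le_aleph0) aleph0_lt_continuum
    have h2 := add_lt_of_lt aleph0_le_continuum h1
      (lt_of_le_of_lt hc.le_aleph0 aleph0_lt_continuum)
    rw [mk_sum_compl] at h2
    simp at h2
  have hall : ∀ a, Ind A (G a).1 (R (Iio a) G \ (G a).2) ∧ Good (e a) (G a).1 := by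
    intro a
    induction a using (wellFounded_lt (α := T)).induction with | _ a ih => ?_
    exact (hG a).2.2 (hlim _ (isLowerSet_Iio a) fun b hb => (ih b hb).1) (hunc a)
  have := (hlim univ isLowerSet_univ fun b _ => (hall b).1).neBot
  refine ⟨Ultrafilter.of (H univ G), (Ultrafilter.of_le _).trans (sInf_le (mem_insert _ _)),
    fun k => ⟨(G (e.symm k)).1, (Ultrafilter.of_le _).trans
      (sInf_le (mem_insert_of_mem _ ⟨_, trivial, rfl⟩)), ?_⟩⟩
  simpa using (hall (e.symm k)).2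

end Pool.Agent.Lib.helper21.Kunen
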