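import Mathlib

set_option autoImplicit false

open Cardinal Set

namespace Pool.Agent.Lib.helper21.NS

/-- a regular uncountable well order -/
structure Reg (X : Type) [LinearOrder X] : Prop where
  unc : ℵ₀ < #X
  bdd : ∀ s : Set X, #s < #X → BddAbove s
  small : ∀ x : X, #(Iic x) < #X

variable {X : Type} [LinearOrder X]

/-- the nonstationary ideal, through regressive functions with bounded fibres -/
def J (S : Set X) : Prop :=
  ∃ f : X → X, (∀ x ∈ S, (∃ y, y < x) → f x < x) ∧ ∀ y, BddAbove {x ∈ S | f x = y}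

theorem J.mono {S T : Set X} (h : J T) (hS : S ⊆ T) : J S := by
  obtain ⟨f, h1, h2⟩ := h
  exact ⟨f, fun x hx => h1 x (hS hx), fun y => (h2 y).mono (fun x hx => And.intro (hS hx.1) hx.2)⟩

theorem Reg.bdd_iUnion (R : Reg X) {ι : Type} (hι : #ι < #X) (s : ι → Set X)
    (hs : ∀ i, BddAbove (s i)) : BddAbove (⋃ i, s i) := by
  choose b hb using hs
  obtain ⟨c, hc⟩ := R.bdd (range b) (mk_range_le.trans_lt hι)
  refine ⟨c, fun x hx => ?_⟩
  obtain ⟨i, hi⟩ := mem_iUnion.1 hx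
  exact (hb i hi).trans (hc ⟨i, rfl⟩)

theorem Reg.exists_gt (R : Reg X) (x : X) : ∃ y, x < y := by
  by_contra h
  push Not at h
  have := R.small x
  rw [show Iic x = Set.univ from eq_univ_of_forall h, mk_univ] at this
  exact lt_irrefl _ this

theorem Reg.nonempty (R : Reg X) : Nonempty X :=
  mk_ne_zero_iff.1 (aleph0_pos.trans R.unc).ne'

theorem J_bdd {S : Set X} (h : BddAbove S) : J S := by
  classical
  refine ⟨fun x => if h : ∃ y, y < x then h.choose else x, fun x _ hx => ?_,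
    fun y => h.mono (fun x hx => hx.1)⟩
  simp only [dif_pos hx]; exact hx.choose_spec

theorem J_empty (R : Reg X) : J (∅ : Set X) := by
  have := R.nonempty
  exact J_bdd bddAbove_empty

theorem J_iUnion (R : Reg X) (s : ℕ → Set X) (hs : ∀ n, J (s n)) : J (⋃ n, s n) := by
  classical
  choose f h1 h2 using hs
  refine ⟨fun x => if h : ∃ n, x ∈ s n then f h.choose x else x, fun x hx hy => ?_, fun y => ?_⟩
  · have h := mem_iUnion.1 hx
    simp only [dif_pos h]; exact h1 _ _ h.choose_spec hy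
  · refine (R.bdd_iUnion (ι := ℕ) (by simpa using R.unc) _ (fun n => h2 n y)).mono ?_
    rintro x ⟨hx, hy⟩
    have h := mem_iUnion.1 hx
    simp only [dif_pos h] at hy
    exact mem_iUnion.2 ⟨_, h.choose_spec, hy⟩

theorem J_union (R : Reg X) {S T : Set X} (hS : J S) (hT : J T) : J (S ∪ T) := by
  refine (J_iUnion R (fun n => if n = 0 then S else T) (fun n => ?_)).mono ?_
  · split_ifs <;> assumption
  · rintro x (hx | hx)
    · exact mem_iUnion.2 ⟨0, by simpa using hx⟩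
    · exact mem_iUnion.2 ⟨1, by simpa using hx⟩

/-- pressing down -/
theorem fodor (R : Reg X) {S : Set X} (g : X → X) (hg : ∀ x ∈ S, g x < x)
    (h : ∀ y, J {x ∈ S | g x = y}) : J S := by
  choose f h1 h2 using h
  refine ⟨fun x => max (g x) (f (g x) x), fun x hx hy => max_lt (hg x hx) (h1 _ x ⟨hx, rfl⟩ hy),
    fun d => ?_⟩
  have hι : #(Iic d × Iic d) < #X := by
    rw [mk_prod]; simp only [lift_id]
    exact mul_lt_of_lt R.unc.le (R.small d) (R.small d)
  refine (R.bdd_iUnion hι _ (fun p => h2 p.1.1 p.2.1)).mono ?_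
  rintro x ⟨hx, hd⟩
  exact mem_iUnion.2 ⟨(⟨g x, (le_max_left _ _).trans hd.le⟩,
    ⟨f (g x) x, (le_max_right _ _).trans hd.le⟩), ⟨hx, rfl⟩, rfl⟩

/-- points of countable cofinality -/
def E (X : Type) [LinearOrder X] : Set X :=
  {x | ∃ a : ℕ → X, (∀ n, a n < x) ∧ ∀ y, y < x → ∃ n, y ≤ a n}

theorem not_J_E [WellFoundedLT X] (R : Reg X) : ¬ J (E X) := by
  rintro ⟨f, h1, h2⟩
  have step : ∀ a : X, ∃ b, a < b ∧ ∀ x ∈ E X, f x ≤ a → x < b := by
    intro a
    obtain ⟨c, hc⟩ := R.bdd_iUnion (R.small a) _ (fun y : Iic a => h2 y.1)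
    obtain ⟨b, hb⟩ := R.exists_gt (max a c)
    refine ⟨b, (le_max_left _ _).trans_lt hb, fun x hx hx' => ?_⟩
    exact (hc (mem_iUnion.2 ⟨⟨f x, hx'⟩, hx, rfl⟩)).trans_lt ((le_max_right _ _).trans_lt hb)
  choose nx hn1 hn2 using step
  obtain ⟨a0⟩ := R.nonempty
  let a : ℕ → X := fun n => nx^[n] a0
  have ha : ∀ n, a (n + 1) = nx (a n) := fun n => Function.iterate_succ_apply' _ _ _
  have hb : (upperBounds (range a)).Nonempty :=
    R.bdd _ (lt_of_le_of_lt (by simpa using mk_range_le (f := a)) R.unc)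
  obtain ⟨x, hx, hmin⟩ := (wellFounded_lt (α := X)).has_min _ hb
  have hlt : ∀ n, a n < x := fun n => (ha n ▸ hn1 (a n) : a n < a (n + 1)).trans_le (hx ⟨_, rfl⟩)
  have hcof : ∀ y, y < x → ∃ n, y ≤ a n := by
    intro y hy
    by_contra hc
    push Not at hc
    exact hmin y (by rintro _ ⟨n, rfl⟩; exact (hc n).le) hy
  have hE : x ∈ E X := ⟨a, hlt, hcof⟩
  obtain ⟨n, hn⟩ := hcof _ (h1 x hE ⟨_, hlt 0⟩)
  exact lt_asymm (hn2 _ x hE hn) (ha n ▸ hlt (n + 1))

/-- splitting into many positive sets -/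
theorem split [WellFoundedLT X] (R : Reg X) :
    ∃ g : X → X, #X ≤ #{y | ¬ J {x | g x = y}} := by
  classical
  have := R.nonempty
  have hc : ∀ x : X, ∃ a : ℕ → X, x ∈ E X → (∀ n, a n < x) ∧ ∀ y, y < x → ∃ n, y ≤ a n := by
    intro x
    by_cases hx : x ∈ E X
    · obtain ⟨a, ha⟩ := hx
      exact ⟨a, fun _ => ha⟩
    · exact ⟨fun _ => x, fun h => absurd h hx⟩
  choose a ha using hc
  have h1 : ∃ n, ∀ b, ¬ J {x ∈ E X | b ≤ a x n} := by
    by_contra hcon
    push Not at hcon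
    choose b hb using hcon
    obtain ⟨c, hc⟩ := R.bdd (range b) (lt_of_le_of_lt (by simpa using mk_range_le (f := b)) R.unc)
    refine not_J_E R ((J_union R (J_bdd (bddAbove_Iic (a := c))) (J_iUnion R _ hb)).mono ?_)
    intro x hx
    by_cases hxc : x ≤ c
    · exact Or.inl hxc
    · obtain ⟨n, hn⟩ := (ha x hx).2 c (not_le.1 hxc)
      exact Or.inr (mem_iUnion.2 ⟨n, hx, (hc ⟨n, rfl⟩).trans hn⟩)
  obtain ⟨n, hn⟩ := h1
  refine ⟨fun x => a x n, ?_⟩
  by_contra hlt
  obtain ⟨c, hc⟩ := R.bdd _ (not_le.1 hlt)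
  obtain ⟨b, hb⟩ := R.exists_gt c
  refine hn b (fodor R (fun x => a x n) (fun x hx => (ha x hx.1).1 n) (fun y => ?_))
  by_cases hy : J {x | a x n = y}
  · exact hy.mono (fun x hx => hx.2)
  · refine (J_empty R).mono ?_
    rintro x ⟨⟨-, h1⟩, h2⟩
    exact absurd ((h1.trans h2.le).trans (hc hy)) (not_le.2 hb)

theorem reg_of_isRegular {c : Cardinal.{0}} (hc : c.IsRegular) (h : ℵ₀ < c) :
    Reg c.ord.ToType := by
  have e : #c.ord.ToType = c := mk_ord_toType c
  refine ⟨by rwa [e], fun s hs => ?_, fun x => ?_⟩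
  · refine BddAbove.of_not_isCofinal (fun h' => ?_)
    have := Order.cof_le h'
    rw [Ordinal.cof_toType, hc.cof_ord] at this
    rw [e] at hs
    exact absurd this (not_le.2 hs)
  · exact mk_Iic_lt x (by simp) (by rw [e]; exact h.le)

end Pool.Agent.Lib.helper21.NS
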