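import Pool.Agent.Lib.helper9.BorsukUlam

set_option autoImplicit false

/-! Mod 2 degree: an odd map of the sphere is not homotopic, through nonvanishing maps, to a map
invariant under the half turn in the first two coordinates. -/

namespace Pool.Agent.Lib.helper21.Deg2

open Pool.Agent.Lib.helper9.BorsukUlam

theorem pr_map {P : Type} (f g s : P → P) (hf : ∀ x, f (s x) = s (f x))
    (hg : ∀ x, g (s x) = s (g x)) (l : List P) : ∀ φ : List P → ZMod 2,
    pr f g φ (l.map s) = pr f g (fun m => φ (m.map s)) l := by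
  induction l with
  | nil => intro φ; rfl
  | cons a l ih =>
    intro φ
    simp only [pr, List.map_cons, ih, hf, hg, List.map_map]
    congr 5
    funext x
    exact hg x

def sg {n : ℕ} (x : Fin (n + 1) → ℝ) : Fin (n + 1) → ℝ := fun i => if (i : ℕ) < 2 then -x i else x i

def Inv {n : ℕ} (φ : List (Fin (n + 1) → ℝ) → ZMod 2) : Prop := ∀ l, φ (l.map sg) = φ l

theorem extend' {n k : ℕ} (hk : k + 1 < n + 1) {δ : ℝ} (hδ : 0 < δ)
    (Z : (List (Fin (n + 1) → ℝ) → ZMod 2) → ZMod 2)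
    (z1 : ∀ φ ψ, Z (fun m => φ m + ψ m) = Z φ + Z ψ)
    (z2 : ∀ φ, (∀ l, Good n k (δ / 2) l → φ l = 0) → Z φ = 0) (z3 : ∀ φ, Z (d φ) = 0) :
    ∃ T : (List (Fin (n + 1) → ℝ) → ZMod 2) → ZMod 2,
      (∀ φ ψ, T (fun m => φ m + ψ m) = T φ + T ψ) ∧
      (∀ φ, (∀ l, Good n (k + 1) δ l → φ l = 0) → T φ = 0) ∧ (∀ φ, T (d φ) = Z φ) ∧
      (1 ≤ k → (∀ φ, Inv φ → Z φ = 0) → ∀ φ, Inv φ → T φ = 0) := by
  obtain ⟨N, hN⟩ := exists_nat_gt (4 / δ)
  have N0 : (0 : ℝ) < N := lt_trans (by positivity) hN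
  have he := S_single (⟨k + 1, hk⟩ : Fin (n + 1))
  have hs := fun x (h : x ∈ S n k) t h0 h1 => S_step hk (x := x) h (t := t) h0 h1
  set e : Fin (n + 1) → ℝ := Pi.single (⟨k + 1, hk⟩ : Fin (n + 1)) (1 : ℝ) with hee
  let H : ℕ → (Fin (n + 1) → ℝ) → (Fin (n + 1) → ℝ) := fun j x =>
    (1 - (j : ℝ) / N) • x + ((j : ℝ) / N) • e
  have H0 : H 0 = id := by funext x; simp [H]
  have HN : ∀ x, H N x = e := by intro x; simp [H, N0.ne']
  have HS : ∀ j ≤ N, ∀ x ∈ S n k, H j x ∈ S n (k + 1) := fun j hj x hx =>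
    hs x hx _ (by positivity) (by rw [div_le_one N0]; exact_mod_cast hj)
  have HD : ∀ i ≤ N, ∀ j : ℕ, |(j : ℝ) - i| ≤ 1 → ∀ x, ∀ y ∈ S n k, dist x y ≤ δ / 2 →
      dist (H i x) (H j y) ≤ δ := by
    intro i hi j hj x y hy hxy
    have : H i x - H j y = (1 - (i : ℝ) / N) • (x - y) + (((j : ℝ) - i) / N) • (y - e) := by
      simp only [H, sub_div]
      module
    rw [dist_eq_norm, this]
    refine (norm_add_le _ _).trans ?_
    rw [norm_smul, norm_smul, ← dist_eq_norm x y, Real.norm_eq_abs, Real.norm_eq_abs, abs_div,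
      abs_of_pos N0]
    have a1 : (i : ℝ) / N ≤ 1 := by rw [div_le_one N0]; exact_mod_cast hi
    have a2 : 0 ≤ (i : ℝ) / N := by positivity
    rw [abs_of_nonneg (sub_nonneg.2 a1)]
    have a3 : ‖y - e‖ ≤ 2 := (norm_sub_le _ _).trans (by linarith [S_norm hy, S_norm he])
    have a4 : |(j : ℝ) - i| / N * ‖y - e‖ ≤ 1 / N * 2 := by gcongr
    have a5 : 1 / N * 2 ≤ δ / 2 := by
      rw [div_lt_iff₀ hδ] at hN
      rw [div_mul_eq_mul_div, div_le_iff₀ N0]
      linarith
    nlinarith [mul_nonneg a2 (dist_nonneg (x := x) (y := y))]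
  refine ⟨fun φ => ∑ j ∈ Finset.range N, Z (pr (H j) (H (j + 1)) φ) +
    Z (fun l => φ (e :: l.map (H N))), ?_, ?_, ?_, ?_⟩
  · intro φ ψ
    have : ∀ j, pr (H j) (H (j + 1)) (fun m => φ m + ψ m) =
        fun l => pr (H j) (H (j + 1)) φ l + pr (H j) (H (j + 1)) ψ l :=
      fun j => funext fun l => pr_add _ _ l _ _
    simp only [this, z1, Finset.sum_add_distrib]
    ring
  · intro φ hφ
    beta_reduce
    rw [Finset.sum_eq_zero, z2, add_zero]
    · intro l hl
      have : ∀ x ∈ e :: l.map (H N), x = e := by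
        intro x hx
        simp only [List.mem_cons, List.mem_map] at hx
        rcases hx with rfl | ⟨y, _, rfl⟩
        · rfl
        · exact HN y
      refine hφ _ ⟨by simp [hl.1], fun x hx => ?_, fun x hx y hy => ?_⟩
      · rw [this x hx]; exact he
      · rw [this x hx, this y hy, dist_self]; exact hδ.le
    · intro j hj
      have hj := Finset.mem_range.1 hj
      refine z2 _ fun l hl => pr_zero _ _ l φ fun m hm hx => hφ m ⟨by rw [hm, hl.1], ?_, ?_⟩
      · intro x hx'
        obtain ⟨y, hy, rfl | rfl⟩ := hx x hx'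
        · exact HS _ (by omega) _ (hl.2.1 y hy)
        · exact HS _ (by omega) _ (hl.2.1 y hy)
      · intro x hx' y hy'
        obtain ⟨x, hx1, rfl | rfl⟩ := hx x hx' <;> obtain ⟨y, hy1, rfl | rfl⟩ := hx y hy' <;>
          exact HD _ (by omega) _ (by simp) _ _ (hl.2.1 y hy1) (hl.2.2 x hx1 y hy1)
  · intro φ
    have e1 : ∀ j, Z (pr (H j) (H (j + 1)) (d φ)) =
        Z (fun l => φ (l.map (H j))) + Z (fun l => φ (l.map (H (j + 1)))) := by
      intro j
      have : pr (H j) (H (j + 1)) (d φ) = _ := funext fun l => prism (H j) (H (j + 1)) l φ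
      rw [this, z1, z1, z3, zero_add]
    have e2 : Z (fun l => d φ (e :: l.map (H N))) = Z (fun l => φ (l.map (H N))) := by
      simp only [d]
      rw [z1, funext fun l => (d_map (H N) l fun m => φ (e :: m)).symm, z3, add_zero]
    have e3 : ∀ (a : ℕ → ZMod 2) (M : ℕ), ∑ j ∈ Finset.range M, (a j + a (j + 1)) + a M = a 0 := by
      intro a M
      induction M with
      | zero => simp
      | succ M ih =>
        rw [Finset.sum_range_succ, ← ih]
        have := two (a (M + 1))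
        linear_combination this
    simp only [e1, e2]
    rw [e3 (fun j => Z (fun l => φ (l.map (H j))))]
    simp [H0]
  · intro hk1 hZ φ hφ
    have se : sg e = e := by
      funext i
      simp only [sg]
      split_ifs with h
      · have : e i = 0 := Pi.single_eq_of_ne (fun e => by simp [e] at h; omega) _
        simp [this]
      · rfl
    have sH : ∀ j x, H j (sg x) = sg (H j x) := fun j x => by
      funext i
      have := congrFun se i
      simp only [H, sg, Pi.add_apply, Pi.smul_apply, smul_eq_mul] at this ⊢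
      split_ifs at this ⊢ with h
      · linear_combination (-(j : ℝ) / N) * this
      · rfl
    beta_reduce
    rw [Finset.sum_eq_zero, hZ, add_zero]
    · intro l
      beta_reduce
      rw [← hφ (e :: l.map (H N))]
      simp only [List.map_cons, List.map_map, se]
      congr 3
      funext x
      exact sH N x
    · intro j _
      refine hZ _ fun l => ?_
      rw [pr_map _ _ _ (sH j) (sH (j + 1)), funext hφ]

theorem cycle (n : ℕ) (hn : 1 ≤ n) {ε : ℝ} (hε : 0 < ε) (lab : (Fin (n + 1) → ℝ) → ℕ)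
    (h1 : ∀ x ∈ S n n, lab (-x) = nu (lab x))
    (h3 : ∀ x ∈ S n n, ∀ y ∈ S n n, dist x y ≤ ε → lab x ≠ nu (lab y)) :
    ∃ Z : (List (Fin (n + 1) → ℝ) → ZMod 2) → ZMod 2,
      (∀ φ ψ, Z (fun m => φ m + ψ m) = Z φ + Z ψ) ∧
      (∀ φ, (∀ l, Good n n ε l → φ l = 0) → Z φ = 0) ∧ (∀ φ, Z (d φ) = 0) ∧
      Z (fun m => A 0 (srt (m.map lab))) = 1 ∧ ∀ φ, Inv φ → Z φ = 0 := by
  have nc : ∀ k δ l, δ ≤ ε → Good n k δ l → ∀ a ∈ l.map lab, ∀ b ∈ l.map lab, a ≠ nu b := by
    intro k δ l hδ hl a ha b hb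
    obtain ⟨x, hx, rfl⟩ := List.mem_map.1 ha
    obtain ⟨y, hy, rfl⟩ := List.mem_map.1 hb
    exact h3 x (S_mono (hl.2.1 x hx)) y (S_mono (hl.2.1 y hy)) ((hl.2.2 x hx y hy).trans hδ)
  have cv : ∀ k δ, δ ≤ ε → ∀ T : (List (Fin (n + 1) → ℝ) → ZMod 2) → ZMod 2,
      (∀ φ ψ, T (fun m => φ m + ψ m) = T φ + T ψ) →
      (∀ φ, (∀ l, Good n k δ l → φ l = 0) → T φ = 0) →
      T (fun m => A 0 (srt (m.map lab))) + T (fun m => A 0 (srt ((m.map Neg.neg).map lab))) =
        T (d fun m => A 0 (srt (m.map lab))) := by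
    intro k δ hδ T t1 t2
    have := t2 (fun m => (A 0 (srt (m.map lab)) + A 0 (srt ((m.map Neg.neg).map lab))) +
      d (fun m => A 0 (srt (m.map lab))) m) fun l hl => by
        have e : (l.map Neg.neg).map lab = (l.map lab).map nu := by
          rw [List.map_map, List.map_map]
          exact List.map_congr_left fun x hx => h1 x (S_mono (hl.2.1 x hx))
        rw [d_map lab l fun m => A 0 (srt m), d_srt, e,
          srt_nu _ (nc _ _ l hδ hl), A_nu, zero_add, two]
    rw [t1, t1] at this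
    have e := two (T (d fun m => A 0 (srt (m.map lab))))
    linear_combination this - e
  have key : ∀ k, k < n + 1 → ∀ δ, 0 < δ → δ ≤ ε →
      ∃ T : (List (Fin (n + 1) → ℝ) → ZMod 2) → ZMod 2,
      (∀ φ ψ, T (fun m => φ m + ψ m) = T φ + T ψ) ∧
      (∀ φ, (∀ l, Good n k δ l → φ l = 0) → T φ = 0) ∧
      (∀ φ, T (d φ) + T (fun m => d φ (m.map Neg.neg)) = 0) ∧
      T (fun m => A 0 (srt (m.map lab))) +
        T (fun m => A 0 (srt ((m.map Neg.neg).map lab))) = 1 ∧
      (1 ≤ k → ∀ φ, Inv φ → T φ + T (fun m => φ (m.map Neg.neg)) = 0) := by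
    intro k
    induction k with
    | zero =>
      intro _ δ hδ hδ'
      have t2 : ∀ φ : List (Fin (n + 1) → ℝ) → ZMod 2, (∀ l, Good n 0 δ l → φ l = 0) →
          φ [Pi.single 0 1] = 0 := fun φ h => h _ ⟨rfl, by simpa using S_single (0 : Fin (n + 1)),
            by simpa using hδ.le⟩
      refine ⟨fun φ => φ [Pi.single 0 1], fun _ _ => rfl, t2, ?_, ?_, by omega⟩
      · intro φ; simp [d, two]
      · rw [cv 0 δ hδ' (fun φ => φ [Pi.single 0 1]) (fun _ _ => rfl) t2]; simp [d, srt, A]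
    | succ k ih =>
      intro hk δ hδ hδ'
      obtain ⟨T, t1, t2, t3, t4, t5⟩ := ih (by omega) (δ / 2) (by positivity) (by linarith)
      obtain ⟨U, u1, u2, u3, u4⟩ := extend' hk hδ (fun φ => T φ + T fun m => φ (m.map Neg.neg))
        (fun φ ψ => by simp only [t1]; ring)
        (fun φ h => by
          show T φ + T (fun m => φ (m.map Neg.neg)) = 0
          rw [t2 φ h, t2 _ fun l hl => h _ (Good_neg hl), add_zero]) t3
      refine ⟨U, u1, u2, fun φ => ?_, ?_, fun _ φ hφ => ?_⟩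
      · rw [funext fun m => (d_map Neg.neg m φ).symm, u3, u3]
        simp only [List.map_map]
        have : (Neg.neg ∘ Neg.neg : (Fin (n + 1) → ℝ) → _) = id := by funext x; simp
        simp only [this, List.map_id]
        rw [add_comm (T fun m => _), two]
      · rw [cv _ δ hδ' U u1 u2, u3, t4]
      · rcases Nat.eq_zero_or_pos k with rfl | h
        · rw [← u1]
          refine u2 _ fun l hl => ?_
          have : l.map Neg.neg = l.map sg := List.map_congr_left fun x hx => funext fun i => by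
            simp only [sg]
            split_ifs with h
            · rfl
            · simp [(hl.2.1 x hx).2 i (by omega)]
          rw [this, hφ, two]
        · rw [u4 h (t5 h) φ hφ, u4 h (t5 h), add_zero]
          intro l
          beta_reduce
          rw [← hφ (l.map Neg.neg), List.map_map, List.map_map]
          congr 2
          funext x i
          simp only [sg, Function.comp, Pi.neg_apply]
          split_ifs <;> rfl
  obtain ⟨T, t1, t2, t3, t4, t5⟩ := key n (by omega) ε hε le_rfl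
  exact ⟨fun φ => T φ + T fun m => φ (m.map Neg.neg), fun φ ψ => by simp only [t1]; ring,
    fun φ h => by
      show T φ + T (fun m => φ (m.map Neg.neg)) = 0
      rw [t2 φ h, t2 _ fun l hl => h _ (Good_neg hl), add_zero], t3, t4, t5 hn⟩

theorem exists_lab (n : ℕ) {m : ℝ} (m0 : 0 < m) : ∃ lab : (Fin n → ℝ) → ℕ,
    (∀ v, m ≤ ‖v‖ → lab (-v) = nu (lab v)) ∧ (∀ v, m ≤ ‖v‖ → lab v < 2 * n) ∧
    ∀ v w, m ≤ ‖v‖ → m ≤ ‖w‖ → dist v w < m → lab v ≠ nu (lab w) := by
  classical
  have ex : ∀ g : Fin n → ℝ, ∃ i : ℕ, m ≤ ‖g‖ → ∃ h : i < n, m ≤ ‖g ⟨i, h⟩‖ := by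
    intro g
    by_cases h : m ≤ ‖g‖
    · by_contra h'
      push Not at h'
      exact absurd ((pi_norm_lt_iff m0).2 fun i : Fin n => (h' i).2 i.2) (not_lt.2 h)
    · exact ⟨0, fun h' => absurd h' h⟩
  choose ix hix using ex
  have hx : ∀ v : Fin n → ℝ, m ≤ ‖v‖ → ∃ h : ix (fun i => |v i|) < n, m ≤ |v ⟨_, h⟩| := by
    intro v hv
    have e : ‖fun i => |v i|‖ = ‖v‖ := by simp [Pi.norm_def, Real.nnnorm_abs]
    obtain ⟨h, h'⟩ := hix (fun i => |v i|) (by rw [e]; exact hv)
    exact ⟨h, by simpa using h'⟩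
  refine ⟨fun v => 2 * ix (fun i => |v i|) +
    if ∃ h : ix (fun i => |v i|) < n, 0 < v ⟨_, h⟩ then 1 else 0, fun v hv => ?_, fun v hv => ?_,
    fun v w hv hw e1 e => ?_⟩
  · obtain ⟨h, h'⟩ := hx v hv
    simp only [Pi.neg_apply, abs_neg, h, exists_true_left, nu]
    rcases lt_trichotomy (v ⟨_, h⟩) 0 with c | c | c
    · simp [c, not_lt.2 c.le]
    · rw [c, abs_zero] at h'; linarith
    · simp [c, not_lt.2 c.le]
  · obtain ⟨h, _⟩ := hx v hv
    beta_reduce
    split_ifs <;> omega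
  · obtain ⟨h, h'⟩ := hx v hv
    obtain ⟨g, g'⟩ := hx w hw
    simp only [h, g, exists_true_left, nu] at e
    have e2 : ix (fun i => |v i|) = ix (fun i => |w i|) := by split_ifs at e <;> omega
    have e3 : (⟨_, h⟩ : Fin n) = ⟨_, g⟩ := Fin.ext e2
    have e4 := (dist_le_pi_dist v w ⟨_, g⟩).trans_lt e1
    rw [e3] at h' e
    rw [Real.dist_eq, abs_lt] at e4
    by_cases c1 : 0 < v ⟨_, g⟩ <;> by_cases c2 : 0 < w ⟨_, g⟩
    · simp only [c1, c2, if_true] at e; split_ifs at e <;> omega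
    · rw [abs_of_pos c1] at h'; rw [abs_of_nonpos (not_lt.1 c2)] at g'; linarith
    · rw [abs_of_pos c2] at g'; rw [abs_of_nonpos (not_lt.1 c1)] at h'; linarith
    · simp only [c1, c2, if_false] at e; split_ifs at e <;> omega

theorem S_compact (n : ℕ) : IsCompact (S n n) := by
  refine Metric.isCompact_of_isClosed_isBounded ?_
    ((Metric.isBounded_closedBall (x := 0) (r := 1)).subset fun x hx => by simpa using S_norm hx)
  have : S n n = {x | ∑ j, |x j| = 1} := by
    ext x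
    exact ⟨fun h => h.1, fun h => ⟨h, fun j hj => absurd j.2 (by omega)⟩⟩
  rw [this]
  exact isClosed_eq (by fun_prop) continuous_const

theorem no_inv (n : ℕ) (hn : 1 ≤ n) (F : ℝ × (Fin (n + 1) → ℝ) → (Fin (n + 1) → ℝ))
    (hc : ContinuousOn F (Set.Icc 0 1 ×ˢ S n n)) (h0 : ∀ p ∈ Set.Icc 0 1 ×ˢ S n n, F p ≠ 0)
    (hodd : ∀ x ∈ S n n, F (0, -x) = -F (0, x)) (hinv : ∀ x, F (1, sg x) = F (1, x)) : False := by
  have hK : IsCompact (Set.Icc (0 : ℝ) 1 ×ˢ S n n) := isCompact_Icc.prod (S_compact n)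
  obtain ⟨p0, hp0, hm⟩ := hK.exists_isMinOn ⟨(0, _), by simp, S_mono (S_single 0)⟩ hc.norm
  have m0 : 0 < ‖F p0‖ := norm_pos_iff.2 (h0 p0 hp0)
  obtain ⟨δ, hδ, hu⟩ := Metric.uniformContinuousOn_iff.1 (hK.uniformContinuousOn_of_continuous hc)
    _ m0
  obtain ⟨lab, l1, l2, l3⟩ := exists_lab (n + 1) m0
  have l4 : ∀ p ∈ Set.Icc 0 1 ×ˢ S n n, ∀ q ∈ Set.Icc 0 1 ×ˢ S n n, dist p q < δ →
      lab (F p) ≠ nu (lab (F q)) := fun p hp q hq h => l3 _ _ (hm hp) (hm hq) (hu p hp q hq h)
  obtain ⟨Z, z1, z2, z3, z4, z5⟩ := cycle n hn (half_pos hδ) (fun x => lab (F (0, x)))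
    (fun x hx => by rw [hodd x hx]; exact l1 _ (hm ⟨by simp, hx⟩))
    (fun x hx y hy h => l4 _ ⟨by simp, hx⟩ _ ⟨by simp, hy⟩ (by simp; linarith))
  obtain ⟨N, hN⟩ := exists_nat_gt (1 / δ)
  have N0 : (0 : ℝ) < N := lt_trans (by positivity) hN
  have hN' : (1 : ℝ) / N < δ := by rw [div_lt_iff₀ N0]; rw [div_lt_iff₀ hδ] at hN; linarith
  let c : List (Fin (n + 1) → ℝ) → ZMod 2 := fun m => A 0 (srt (m.map lab))
  let f : ℕ → (Fin (n + 1) → ℝ) → (Fin (n + 1) → ℝ) := fun j x => F ((j : ℝ) / N, x)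
  have step : ∀ j ≤ N, Z (fun l => c (l.map (f j))) = 1 := by
    intro j
    induction j with
    | zero => intro _; simpa [c, f, Function.comp_def] using z4
    | succ j ih =>
      intro hj
      have e := z2 (pr (f j) (f (j + 1)) (d c)) fun l hl => pr_zero _ _ l _ fun m hm1 hm2 => by
        have hp : ∀ v ∈ m, ∃ p ∈ Set.Icc 0 1 ×ˢ S n n, v = F p ∧ p.2 ∈ l ∧
            (p.1 = j / N ∨ p.1 = j / N + 1 / N) := by
          intro v hv
          have a1 : (j : ℝ) + 1 ≤ N := by exact_mod_cast hj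
          obtain ⟨y, hy, rfl | rfl⟩ := hm2 v hv
          · exact ⟨_, ⟨⟨by positivity, (div_le_one N0).2 (by linarith)⟩, hl.2.1 y hy⟩, rfl, hy,
              Or.inl rfl⟩
          · exact ⟨_, ⟨⟨by positivity, (div_le_one N0).2 (by exact_mod_cast hj)⟩, hl.2.1 y hy⟩, rfl,
              hy, Or.inr (by push_cast; ring)⟩
        have : ∀ t, A t (srt (m.map lab)) = 0 := by
          intro t
          by_contra h
          have p := srt_perm (m.map lab)
          have := A_len (n + 1) _ t 0 (by omega) (srt_pw _) (fun a ha b hb => by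
            obtain ⟨v, hv, rfl⟩ := List.mem_map.1 (p.subset ha)
            obtain ⟨w, hw, rfl⟩ := List.mem_map.1 (p.subset hb)
            obtain ⟨x, x1, rfl, x2, x3⟩ := hp v hv
            obtain ⟨y, y1, rfl, y2, y3⟩ := hp w hw
            refine l4 x x1 y y1 (max_lt ?_ ((hl.2.2 _ x2 _ y2).trans_lt (half_lt_self hδ)))
            have : (0 : ℝ) < 1 / N := by positivity
            rw [Real.dist_eq, abs_lt]
            rcases x3 with x3 | x3 <;> rcases y3 with y3 | y3 <;> constructor <;> linarith)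
            (fun a ha => by
              obtain ⟨v, hv, rfl⟩ := List.mem_map.1 (p.subset ha)
              obtain ⟨x, x1, rfl, -⟩ := hp v hv
              exact ⟨l2 _ (hm x1), by omega⟩) h
          rw [p.length_eq, List.length_map, hm1, hl.1] at this
          omega
        rw [d_map lab m fun m => A 0 (srt m), d_srt, this, this, add_zero]
      rw [show pr (f j) (f (j + 1)) (d c) = _ from funext fun l => prism (f j) (f (j + 1)) l c, z1,
        z1, z3, zero_add, ih (by omega)] at e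
      have := two (1 : ZMod 2)
      linear_combination e - this
  have := step N le_rfl
  rw [z5] at this
  · exact zero_ne_one this
  · intro l
    simp only [List.map_map]
    congr 2
    funext x
    simp [f, N0.ne', hinv]

end Pool.Agent.Lib.helper21.Deg2
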