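import Pool.Agent.Lib.helper21.RI

set_option autoImplicit false

/-! The Turing jump. -/

namespace Pool.Agent.Lib.helper21.PR

open Pool.Agent.H.MP_d04dff_lc Pool.Agent.H.MP_fa2eca_lc Pool.Agent.Lib.helper21.ML Filter
open Encodable Denumerable

attribute [local irreducible] Primrec Computable

variable {α β : Type} [Primcodable α] [Primcodable β] {Y : ℕ → Bool}

open Classical in
noncomputable def J (X : ℕ → Bool) (p : ℕ) : Bool := decide (∃ s : ℕ,
  ((ofNat Nat.Partrec.Code p.unpair.1).eval (encode (p.unpair.2, (List.range s).map X))).Dom)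

theorem J_iff {X : ℕ → Bool} {p : ℕ} : J X p = true ↔ ∃ s : ℕ,
    ((ofNat Nat.Partrec.Code p.unpair.1).eval (encode (p.unpair.2, pre X s))).Dom := by
  classical
  exact decide_eq_true_iff

theorem re_dom : RE fun z : ℕ × ℕ => ((ofNat Nat.Partrec.Code z.1).eval z.2).Dom :=
  RE.un (Nat.Partrec.Code.eval_part.comp ((Computable.ofNat _).comp .fst) .snd).dom_re

theorem J_ri (X : ℕ → Bool) : RI X fun p => J X p = true := by
  have h1 : RI X _ := (i_re (r_pw re_dom)).un
  have h2 := ci_self X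
  exact (i_exists (R := fun p s => ((ofNat Nat.Partrec.Code p.unpair.1).eval
    (encode (p.unpair.2, pre X s))).Dom) (i_pw (i_comp (f := fun z : ℕ × ℕ =>
    (z.1.unpair.1, encode (z.1.unpair.2, pre X z.2))) h1 (by fun_prop)))).un.of_eq fun p =>
      J_iff.symm

theorem re_code {p : α → Prop} (h : REPred p) :
    ∃ c : Nat.Partrec.Code, ∀ a, p a ↔ (c.eval (encode a)).Dom := by
  obtain ⟨c, hc⟩ := Nat.Partrec.Code.exists_code.mp h
  exact ⟨c, fun a => by simp [hc, Part.dom_iff_mem, Part.mem_assert_iff]⟩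

theorem RI.jump {p : α → Prop} (h : RI Y p) : CI (J Y) fun a => cd (p a) := by
  rw [RI] at h
  obtain ⟨W, h1, h2, h3⟩ := h
  have h4 : REPred fun z : ℕ × Str => ∃ a, decode z.1 = some a ∧ W (a, z.2) := RE.re (by fun_prop)
  obtain ⟨c, hc⟩ := re_code h4
  refine (ci_comp (g := fun a => Nat.pair (encode c) (encode a)) (ci_self _)
    (by fun_prop)).of_eq fun a => ?_
  rw [Bool.eq_iff_iff, J_iff, cd_true, Nat.unpair_pair, ofNat_encode]
  simp only [← hc, encodek, Option.some.injEq, exists_eq_left']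
  exact ⟨fun ⟨s, h⟩ => h2 a s h, fun h => (h3 a h).exists⟩

theorem ci_J (Y : ℕ → Bool) : CI (J Y) Y :=
  (RI.jump (p := fun n => Y n = true) (RI.un (i_ci (ci_eq (ci_self Y) (ci_const _))))).of_eq
    fun a => by rw [Bool.eq_iff_iff, cd_true]

theorem J_mono {X : ℕ → Bool} (h : CI Y X) : CI (J Y) (J X) :=
  ((J_ri X).trans h).jump.of_eq fun a => by rw [Bool.eq_iff_iff, cd_true]

end Pool.Agent.Lib.helper21.PR
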