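import Pool.Agent.Lib.helper21.Bushy
import Pool.Agent.H.MP_9fb7a1_lc.A

set_option autoImplicit false

/-! Relative randomness and joins. -/

namespace Pool.Agent.Lib.helper21.PR

open Pool.Agent.H.MP_d04dff_lc Pool.Agent.H.MP_fa2eca_lc Pool.Agent.Lib.helper21.ML Filter
open Encodable MeasureTheory Finset Pool.Agent.H.MP_e12961_lc Pool.Agent.H.MP_9fb7a1_lc
open scoped ENNReal

attribute [local irreducible] Primrec Computable

def jn (X Y : ℕ → Bool) (n : ℕ) : Bool := if n % 2 = 0 then X (n / 2) else Y (n / 2)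

/-- Martin-Loef randomness relative to an oracle -/
def RR (A X : ℕ → Bool) : Prop := ∀ W : ℕ → Str → Prop, (RI A fun z : ℕ × Str => W z.1 z.2) →
  (∀ n, Fn.mu {Y | ∃ m, W n (pre Y m)} ≤ 2⁻¹ ^ n) → ∃ n, ∀ m, ¬ W n (pre X m)

variable {A X Y : ℕ → Bool}

@[simp] theorem jn_ev (X Y : ℕ → Bool) (n : ℕ) : jn X Y (2 * n) = X n := by simp [jn]
@[simp] theorem jn_od (X Y : ℕ → Bool) (n : ℕ) : jn X Y (2 * n + 1) = Y n := by
  simp [jn, Nat.mul_add_div]

theorem jn_l (X Y : ℕ → Bool) : CI (jn X Y) X :=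
  (ci_comp (g := fun n => 2 * n) (ci_self _) (by fun_prop)).of_eq (jn_ev X Y)

theorem jn_r (X Y : ℕ → Bool) : CI (jn X Y) Y :=
  (ci_comp (g := fun n => 2 * n + 1) (ci_self _) (by fun_prop)).of_eq (jn_od X Y)

theorem RR.mono {B : ℕ → Bool} (h : RR A X) (k : CI A B) : RR B X :=
  fun W hW => h W (hW.trans k)

theorem RR.test (h : RR A X) {T : ℕ → ℕ → (ℕ → Bool) → Prop} (loc : ∀ n s, Fn.Loc s (T n s))
    (hT : CI A fun z : ℕ × Str => cd (T z.1 z.2.length fun i => z.2.getD i false))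
    (hm : ∀ n, Fn.mu {Y | ∃ s, T n s Y} ≤ 2⁻¹ ^ n) : ∃ n, ∀ s, ¬ T n s X := by
  have e : ∀ n s Y, T n (pre Y s).length (fun i => (pre Y s).getD i false) ↔ T n s Y := fun n s Y => by
    rw [pre_len]
    exact ⟨loc _ _ _ _ fun i hi => by simp [pre, hi], loc _ _ _ _ fun i hi => by simp [pre, hi]⟩
  simpa only [e] using h (fun n ρ => T n ρ.length fun i => ρ.getD i false) (i_ci hT).un
    (by simpa only [e] using hm)

def St (N : (ℕ × Str) × Str → ℕ → Bool) (n s : ℕ) (O Y : ℕ → Bool) : Prop :=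
  ∃ m < s, ∃ k < s, ∃ t < s, N ((n, pre Y m), pre O k) t

variable {N : (ℕ × Str) × Str → ℕ → Bool}

instance (n s : ℕ) (O Y : ℕ → Bool) : Decidable (St N n s O Y) := Nat.decidableExistsLT _

theorem St.congr {n s s' : ℕ} {O O' Y' : ℕ → Bool} (h : St N n s O Y) (e : s ≤ s')
    (h1 : ∀ i < s, O i = O' i) (h2 : ∀ i < s, Y i = Y' i) : St N n s' O' Y' :=
  let ⟨m, a, k, b, t, c, d⟩ := h
  ⟨m, a.trans_le e, k, b.trans_le e, t, c.trans_le e, by
    rwa [← pre_congr fun i hi => h1 i (hi.trans b), ← pre_congr fun i hi => h2 i (hi.trans a)]⟩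

theorem RR.of (h : ∀ N : (ℕ × Str) × Str → ℕ → Bool, (Primrec fun z : _ × ℕ => N z.1 z.2) →
    (∀ n, Fn.mu {Y | ∃ s, St N n s A Y} ≤ 2⁻¹ ^ n) → ¬ ∀ n, ∃ s, St N n s A X) : RR A X :=
  fun W hW hm => by
    obtain ⟨N, h1, h2, -, h3⟩ := hW.norm
    by_contra! c
    refine h N h1 (fun n => (hm n).trans' (measure_mono fun Y ⟨_, m, _, k, _, t, _, a⟩ =>
      ⟨m, h2 _ _ _ a⟩)) fun n => ?_
    obtain ⟨m, a⟩ := c n
    obtain ⟨k, t, b⟩ := h3 (n, _) a
    exact ⟨m + k + t + 1, m, by omega, k, by omega, t, by omega, b⟩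

theorem loc_meas {T : ℕ → (ℕ → Bool) → Prop} (loc : ∀ s, Fn.Loc s (T s)) :
    MeasurableSet {Y | ∃ s, T s Y} :=
  Set.setOf_exists _ ▸ .iUnion fun s => (loc s).closed.measurableSet

theorem RR.map (h : RR A X) {Φ : (ℕ → Bool) → ℕ → Bool} (h1 : MeasurePreserving Φ Fn.mu Fn.mu)
    (h2 : ∀ Z Z' i, (∀ j ≤ 2 * i + 1, Z j = Z' j) → Φ Z i = Φ Z' i)
    (h3 : CI A fun z : Str × ℕ => Φ (fun i => z.1.getD i false) z.2) : RR A (Φ X) :=
  .of fun N a b c => by
    have hA := ci_self A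
    obtain ⟨n, hn⟩ := h.test (T := fun n s Z => St N n (s / 2) A (Φ Z)) (fun n s Z Z' e k =>
      k.congr le_rfl (fun _ _ => rfl) fun i hi => h2 _ _ _ fun j hj => e j (by omega))
      (by
        generalize hF : (fun (ρ : Str) => Φ fun i => ρ.getD i false) = F
        simp only [congrFun hF] at h3 ⊢
        unfold St; fun_prop)
      fun n => ((h1.measure_preimage (loc_meas (T := fun s => St N n s A) fun s _ _ e k =>
        k.congr le_rfl (fun _ _ => rfl) e).nullMeasurableSet).trans_le (b n)).trans'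
          (measure_mono fun Y ⟨s, k⟩ => ⟨_, k⟩)
    obtain ⟨s, hs⟩ := c n
    exact hn (2 * s) (by simpa using hs)

theorem jn_mp : MeasurePreserving (fun z : (ℕ → Bool) × (ℕ → Bool) => jn z.1 z.2)
    (Fn.mu.prod Fn.mu) Fn.mu := by
  classical
  have m : Measurable fun z : (ℕ → Bool) × (ℕ → Bool) => jn z.1 z.2 := measurable_pi_lambda _
    fun n => by unfold jn; split_ifs <;> fun_prop
  refine ⟨m, Measure.eq_infinitePi _ fun s t ht => ?_⟩
  have i0 : Function.Injective fun n : ℕ => 2 * n := fun _ _ => by simp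
  have i1 : Function.Injective fun n : ℕ => 2 * n + 1 := fun _ _ => by simp
  rw [Measure.map_apply m (.pi s.countable_toSet fun i _ => ht i),
    show (fun z : (ℕ → Bool) × (ℕ → Bool) => jn z.1 z.2) ⁻¹' Set.pi s t =
      Set.pi (s.preimage _ i0.injOn) (fun i => t (2 * i)) ×ˢ
        Set.pi (s.preimage _ i1.injOn) fun i => t (2 * i + 1) from ?_, Measure.prod_prod, Fn.mu,
    Measure.infinitePi_pi _ fun _ _ => ht _, Measure.infinitePi_pi _ fun _ _ => ht _,
    prod_preimage' _ _ _ fun i => ProbabilityTheory.uniformOn Set.univ (t i),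
    prod_preimage' _ _ _ fun i => ProbabilityTheory.uniformOn Set.univ (t i),
    ← prod_filter_mul_prod_filter_not s (· % 2 = 0)]
  · congr 2 <;> refine filter_congr fun n _ => ⟨fun ⟨k, e⟩ => ?_, fun e => ⟨n / 2, ?_⟩⟩ <;>
      beta_reduce at * <;> omega
  · ext ⟨X, Y⟩
    simp only [Set.mem_preimage, Set.mem_pi, Set.mem_prod, mem_coe, mem_preimage]
    refine ⟨fun h => ⟨fun i a => by simpa using h _ a, fun i a => by simpa using h _ a⟩,
      fun h n a => ?_⟩
    obtain ⟨k, rfl | rfl⟩ := n.even_or_odd'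
    exacts [by simpa using h.1 k a, by simpa using h.2 k a]

theorem fub {U : Set (ℕ → Bool)} (h : MeasurableSet U) :
    (Measurable fun X => Fn.mu {Y | jn X Y ∈ U}) ∧ Fn.mu U = ∫⁻ X, Fn.mu {Y | jn X Y ∈ U} ∂Fn.mu :=
  ⟨measurable_measure_prodMk_left (jn_mp.measurable h), by
    rw [← jn_mp.measure_preimage h.nullMeasurableSet, Measure.prod_apply (jn_mp.measurable h)]; rfl⟩

theorem RR.swap (h : RR A (jn X Y)) : RR A (jn Y X) := by
  have e : ∀ X Y, jn (fun i => jn X Y (2 * i + 1)) (fun i => jn X Y (2 * i)) = jn Y X := by simp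
  have m : Measurable fun Z : ℕ → Bool => jn (fun i => Z (2 * i + 1)) fun i => Z (2 * i) :=
    jn_mp.measurable.comp (f := fun Z : ℕ → Bool => (fun i => Z (2 * i + 1), fun i => Z (2 * i)))
      (by fun_prop)
  refine e X Y ▸ h.map ⟨m, ?_⟩ (fun Z Z' i k => ?_) (by unfold jn; fun_prop)
  · rw [← jn_mp.map_eq, Measure.map_map m jn_mp.measurable, jn_mp.map_eq]
    exact (congrArg (Measure.map · _) (funext fun z : _ × _ => e z.1 z.2)).trans
      (jn_mp.comp Measure.measurePreserving_swap).map_eq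
  · unfold jn
    split_ifs <;> exact k _ (by omega)

theorem xor_mp (W : ℕ → Bool) :
    MeasurePreserving (fun (Z : ℕ → Bool) i => xor (W i) (Z i)) Fn.mu Fn.mu := by
  refine ⟨by fun_prop, (Measure.infinitePi_map_pi _ (f := fun i b => xor (W i) b)
    fun _ => .of_discrete).trans (congrArg _ (funext fun i => ?_))⟩
  refine Measure.ext_of_singleton fun b => ?_
  rw [Measure.map_apply .of_discrete (by simp), show (fun b => xor (W i) b) ⁻¹' {b} =
    {xor (W i) b} by ext c; cases W i <;> cases b <;> cases c <;> simp]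
  simp only [ProbabilityTheory.uniformOn_univ, Measure.count_singleton]

theorem up_le {T : ℕ → (ℕ → Bool) → Prop} (h : ∀ s t Y, s ≤ t → T s Y → T t Y) {p : ℕ → Prop}
    {x : ℝ≥0∞} (k : ∀ s, p s → Fn.mu {Y | T s Y} ≤ x) : Fn.mu {Y | ∃ s, p s ∧ T s Y} ≤ x := by
  rw [show {Y | ∃ s, p s ∧ T s Y} = ⋃ s : Subtype p, {Y | T s Y} by ext; simp,
    Monotone.measure_iUnion (s := fun s : Subtype p => {Y | T s Y}) fun s t e Y => h _ _ Y e]
  exact iSup_le fun s => k _ s.2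

theorem cnt_le {s n : ℕ} {S : (ℕ → Bool) → Prop} [DecidablePred S] (h : Fn.Loc s S) :
    Fn.mu {Z | S Z} ≤ 2⁻¹ ^ n ↔ 2 ^ n * ((range (2 ^ s)).filter fun m => S (Fn.tb m)).card ≤ 2 ^ s := by
  rw [← Fn.mu_loc_le h _ (by positivity), ← ENNReal.inv_pow]; norm_cast

theorem RR.right (h : RR A (jn X Y)) : RR (jn A X) Y := .of fun N a b c => by
  have hA := ci_self A
  have tb : Primrec fun z : ℕ × ℕ => Fn.tb z.1 z.2 := Fn.tb_prim
  have l : ∀ n s O, Fn.Loc s (St N n s O) := fun _ _ _ _ _ e k => k.congr le_rfl (fun _ _ => rfl) e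
  let T : ℕ → ℕ → (ℕ → Bool) → Prop := fun n s Z => 2 ^ n * ((range (2 ^ (s / 2))).filter fun m =>
    St N n (s / 2) (jn A fun i => Z (2 * i)) (Fn.tb m)).card ≤ 2 ^ (s / 2) ∧
      St N n (s / 2) (jn A fun i => Z (2 * i)) fun i => Z (2 * i + 1)
  have loc : ∀ n s, Fn.Loc s (T n s) := fun n s Z Z' e k => by
    have : ∀ i < s / 2, jn A (fun i => Z (2 * i)) i = jn A (fun i => Z' (2 * i)) i := fun i hi => by
      unfold jn; split_ifs; exacts [rfl, e _ (by omega)]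
    exact ⟨(Nat.mul_le_mul_left _ (card_le_card fun m hm => mem_filter.2 ((mem_filter.1 hm).imp_right
      fun k => k.congr le_rfl (fun i hi => (this i hi).symm) fun _ _ => rfl))).trans k.1,
      k.2.congr le_rfl this fun i hi => e _ (by omega)⟩
  obtain ⟨n, hn⟩ := h.test loc (by unfold T St jn; fun_prop) fun n => by
    refine (fub (loc_meas (loc n))).2.trans_le ((lintegral_mono (g := fun _ => 2⁻¹ ^ n)
      fun X => ?_).trans_eq (by simp))
    simp only [T, Set.mem_setOf_eq, jn_ev, jn_od]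
    exact up_le (fun s t Y e k => k.congr (by omega) (fun _ _ => rfl) fun _ _ => rfl)
      fun s k => (cnt_le (l _ _ _)).2 k
  obtain ⟨s, hs⟩ := c n
  refine hn (2 * s) ?_
  simp only [T, jn_ev, jn_od, Nat.mul_div_cancel_left _ two_pos]
  exact ⟨(cnt_le (l _ _ _)).1 ((b n).trans' (measure_mono fun Y k => ⟨s, k⟩)), hs⟩

theorem RR.join (h : RR A X) (h' : RR (jn A X) Y) : RR A (jn X Y) := .of fun N a b c => by
  have hA := ci_self A
  have tb : Primrec fun z : ℕ × ℕ => Fn.tb z.1 z.2 := Fn.tb_prim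
  have l : ∀ n s X, Fn.Loc s fun Y => St N n s A (jn X Y) := fun _ _ _ _ _ e k =>
    k.congr le_rfl (fun _ _ => rfl) fun i hi => by
      unfold jn; split_ifs; exacts [rfl, e _ (by omega)]
  obtain ⟨k, hk⟩ := h.test (T := fun k s X => ∃ n < s, ¬ 2 ^ (k + (n + 1)) * ((range (2 ^ s)).filter
    fun m => St N (2 * (k + (n + 1))) s A (jn X (Fn.tb m))).card ≤ 2 ^ s)
    (fun k s Z Z' e ⟨n, a1, a2⟩ => ⟨n, a1, fun a3 => a2 ((Nat.mul_le_mul_left _ (card_le_card
      fun m hm => mem_filter.2 ((mem_filter.1 hm).imp_right fun k => k.congr le_rfl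
        (fun _ _ => rfl) fun i hi => by
          unfold jn; split_ifs; exacts [e _ (by omega), rfl]))).trans a3)⟩)
    (by unfold St jn; fun_prop) fun k => by
    refine (measure_mono (t := ⋃ n, {X | 2⁻¹ ^ (k + (n + 1)) ≤
      Fn.mu {Y | jn X Y ∈ {Z | ∃ s, St N (2 * (k + (n + 1))) s A Z}}}) ?_).trans
        ((measure_iUnion_le _).trans ((ENNReal.tsum_le_tsum (g := fun j => 2⁻¹ ^ k * 2⁻¹ ^ (j + 1))
          fun j => ?_).trans_eq ?_))
    · rintro X ⟨s, n, -, a2⟩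
      exact Set.mem_iUnion.2 ⟨n, (not_le.1 (mt (cnt_le (l _ _ _)).1 a2)).le.trans
        (measure_mono fun Y k => ⟨s, k⟩)⟩
    · have := fub (loc_meas (T := fun s => St N (2 * (k + (j + 1))) s A) fun s _ _ e k =>
        k.congr le_rfl (fun _ _ => rfl) e)
      refine (meas_ge_le_lintegral_div this.1.aemeasurable (by simp) (by simp)).trans
        (ENNReal.div_le_of_le_mul (this.2.symm.trans_le ((b _).trans_eq ?_)))
      rw [← pow_add, ← pow_add, two_mul]
    · rw [ENNReal.tsum_mul_left, ENNReal.tsum_geometric_add_one]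
      simp [ENNReal.inv_mul_cancel]
  have h1 := jn_l A X
  have h2 := jn_r A X
  generalize jn A X = O at h' h1 h2
  obtain ⟨n, hn⟩ := h'.test (T := fun n s Y => St N (2 * (k + (n + 1))) s A (jn X Y))
    (fun _ _ => l _ _ _) (by clear hA; unfold St jn; fun_prop) fun n => by
    refine le_trans (measure_mono fun Y ⟨s, a⟩ => ?_) ((up_le (p := (n < ·)) (T := fun s Y =>
      St N (2 * (k + (n + 1))) s A (jn X Y)) (fun s t Y e k => k.congr e (fun _ _ => rfl)
        fun _ _ => rfl) fun s a => (cnt_le (l _ _ _)).2 (not_not.1 fun d => hk s ⟨n, a, d⟩)).trans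
          (pow_le_pow_of_le_one (by simp) (by simp) (by omega)))
    exact ⟨s + n + 1, by omega, a.congr (by omega) (fun _ _ => rfl) fun _ _ => rfl⟩
  exact (c _).elim (hn ·)

theorem vl : RR A (jn X Y) ↔ RR A X ∧ RR (jn A X) Y :=
  ⟨fun h => ⟨h.swap.right.mono (jn_l _ _), h.right⟩, fun h => h.1.join h.2⟩

theorem ae_RR (A : ℕ → Bool) : ∀ᵐ X ∂Fn.mu, RR A X := by
  have : ∀ᵐ X ∂Fn.mu, ∀ c : ℕ, (∀ n : ℕ, Fn.mu {Y | ∃ m, J A (c.pair (encode (n, pre Y m)))} ≤
      2⁻¹ ^ n) → ∃ n : ℕ, ∀ m, ¬ J A (c.pair (encode (n, pre X m))) := ae_all_iff.2 fun c => by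
    refine (em _).elim (fun a => ?_) fun a => .of_forall fun _ b => absurd b a
    refine measure_mono_null (t := ⋂ n : ℕ, {Y | ∃ m, J A (c.pair (encode (n, pre Y m)))})
      (fun Y => by simp +contextual) (le_zero_iff.1 (ge_of_tendsto'
        (ENNReal.tendsto_pow_atTop_nhds_zero_of_lt_one (r := 2⁻¹) (by simp))
          fun n => (measure_mono (Set.iInter_subset _ n)).trans (a n)))
  filter_upwards [this] with X h W hW hm
  obtain ⟨c, hc⟩ := hW.idx
  simpa only [hc] using h c (by simpa only [hc] using hm)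

theorem dense {U : Set (ℕ → Bool)} (h : Fn.mu U ≠ 0) :
    ∃ σ, 2⁻¹ ^ (σ.length + 1) < Fn.mu (U ∩ cyl σ) := by
  classical
  obtain ⟨O, h1, h2, h3⟩ := U.exists_isOpen_lt_of_lt (μ := Fn.mu) (Fn.mu U + Fn.mu U)
    (ENNReal.lt_add_right (measure_ne_top _ _) h)
  by_contra! c
  have h4 : Fn.mu U ≤ Fn.mu O * 2⁻¹ := by
    refine le_trans (measure_mono fun Z hZ => ?_) (up_le (p := fun _ => True)
      (T := fun s Z => Z ∈ U ∧ cyl (pre Z s) ⊆ O) (fun s t Z e k => ⟨k.1, fun Y a => k.2 (of_pre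
        (n := (pre Z t).length) (by rw [show pre Y _ = _ from a]; exact pre_pre _ e))⟩) fun s _ => ?_)
    · obtain ⟨I, u, a, b⟩ := isOpen_pi_iff.1 h2 Z (h1 hZ)
      refine ⟨I.sup id + 1, trivial, hZ, fun Y k => b fun i hi => ?_⟩
      rw [cyl, Set.mem_setOf_eq, pre_len] at k
      rw [List.map_inj_left.1 k i (List.mem_range.2 (Nat.lt_succ_of_le (le_sup (f := id) hi)))]
      exact (a i hi).2
    · have a := Fn.mu_loc (s := s) (S := fun Z => cyl (pre Z s) ⊆ O) fun Z Z' e k => by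
        simpa only [pre_congr e] using k
      refine (measure_mono (t := ⋃ m ∈ (range (2 ^ s)).filter fun m => cyl (pre (Fn.tb m) s) ⊆ O,
        U ∩ cyl (pre (Fn.tb m) s)) fun Z k => ?_).trans ((measure_biUnion_finset_le _ _).trans
          ((sum_le_card_nsmul _ _ (2⁻¹ ^ (s + 1)) fun m _ => (c _).trans_eq (by rw [pre_len])).trans ?_))
      · have := pre_congr (Fn.tb_cd Z s)
        exact Set.mem_biUnion (mem_coe.2 (mem_filter.2 ⟨mem_range.2 (Fn.cd_lt Z s), this ▸ k.2⟩))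
          ⟨k.1, by rw [cyl, Set.mem_setOf_eq, pre_len, this]⟩
      · rw [nsmul_eq_mul, pow_succ, ← mul_assoc, ← a]
        gcongr
        exact fun Z k => k (by rw [cyl, Set.mem_setOf_eq, pre_len])
  refine h3.not_ge (le_of_le_of_eq (add_le_add h4 h4) ?_)
  rw [← mul_add, ENNReal.inv_two_add_inv_two, mul_one]

theorem sacks {C : ℕ → Bool} (h : ¬ CI (fun _ => false) C) : ∀ᵐ X ∂Fn.mu, ¬ CI X C := by
  let E : ℕ → ℕ × Bool → Str → Prop := fun e z ρ =>
    (∃ u < ρ.length, Fn.att e (fun k => ρ.getD k false) u z.1 ≠ 0) ∧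
      svs e (fun k => ρ.getD k false) ρ.length z.1 = z.2
  have h0 : ∀ e z X m, E e z (pre X m) ↔ (∃ u < m, Fn.att e X u z.1 ≠ 0) ∧ sv e X z.1 = z.2 :=
    fun e z X m => by
      have h : ∀ k < m, (pre X m).getD k false = X k := fun k hk => by simp [pre, hk]
      simp only [E]
      rw [pre_len, exists_congr fun u => and_congr_right fun hu => by
        rw [Fn.att_congr _ h (le_of_lt hu)]]
      exact and_congr_right fun c => by rw [svs_congr h le_rfl c]
  have : ∀ᵐ X ∂Fn.mu, ∀ e, ¬ ∀ j, ∃ m, E e (j, C j) (pre X m) := ae_all_iff.2 fun e => by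
    by_contra c
    obtain ⟨σ, h1⟩ := dense c
    have h2 := r_comp (f := fun z : ℕ × Bool => (z, 1, σ.length + 1)) (low_mu
      (V := fun z ρ => σ <+: ρ ∧ E e z ρ) (RI.re (RI.un (i_ci (ci_and (ci_prim (by fun_prop))
        (by unfold E; fun_prop)))))) (by fun_prop)
    have h3 : ∀ j, 2⁻¹ ^ (σ.length + 1) < Fn.mu {Y | ∃ m, σ <+: pre Y m ∧ E e (j, C j) (pre Y m)} :=
      fun j => h1.trans_le (measure_mono fun Y ⟨a, b⟩ => by
        obtain ⟨m, ⟨u, a1, a2⟩, a3⟩ := (not_not.1 a j).imp fun m => (h0 _ _ _ m).1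
        exact ⟨m + σ.length, (congrArg (· <+: _) (show pre Y σ.length = σ from b)).mp (pre_pre _
          (Nat.le_add_left _ _)), (h0 _ _ _ _).2 ⟨⟨u, by omega, a2⟩, a3⟩⟩)
    refine h (CI.mk (R := fun j b => ((1 : ℕ) : ℝ) / 2 ^ (σ.length + 1) <
      Fn.mu.real {Y | ∃ m, σ <+: pre Y m ∧ E e (j, b) (pre Y m)}) (i_re (r_pw h2)) fun j b => ?_)
    rw [Measure.real, ← ENNReal.ofReal_lt_iff_lt_toReal (by positivity) (measure_ne_top _ _),
      show ENNReal.ofReal ((1 : ℕ) / 2 ^ (σ.length + 1)) = 2⁻¹ ^ (σ.length + 1) by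
        simp [ENNReal.ofReal_inv_of_pos, ENNReal.ofReal_pow, ENNReal.inv_pow]]
    refine ⟨fun a => by_contra fun d => (ENNReal.add_lt_add a (h3 j)).not_ge ?_, fun a => a ▸ h3 j⟩
    rw [← measure_union _ (opn_meas fun ρ => σ <+: ρ ∧ E e (j, C j) ρ), pow_succ, ← mul_add,
      ENNReal.inv_two_add_inv_two, mul_one, ← mu_cyl]
    · exact measure_mono (Set.union_subset (fun Y ⟨_, k, _⟩ => of_pre k) fun Y ⟨_, k, _⟩ => of_pre k)
    · exact Set.disjoint_left.2 fun Y ⟨_, _, k⟩ ⟨_, _, k'⟩ =>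
        d (((h0 _ _ _ _).1 k').2.symm.trans ((h0 _ _ _ _).1 k).2)
  filter_upwards [this] with X h1 h2
  obtain ⟨e, k1, k2⟩ := sv_spec h2.orc
  exact h1 e fun j => let ⟨u, hu⟩ := k1 j
    ⟨u + 1, (h0 _ _ _ _).2 ⟨⟨u, by omega, hu⟩, congrFun k2 j⟩⟩

end Pool.Agent.Lib.helper21.PR
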