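import Mathlib

set_option autoImplicit false

/-! Bijections that eventually commute with every function symbol eventually preserve every
formula. -/

open FirstOrder FirstOrder.Language Filter

namespace Pool.Agent.Lib.helper21.Local

variable {L : FirstOrder.Language.{0, 0}} {M N : Type} [L.Structure M] [L.Structure N]

theorem term_ev (f : ℕ → M → N)
    (hc : ∀ n (g : L.Functions n), ∀ᶠ j in atTop, ∀ v : Fin n → M,
      f j (Structure.funMap g v) = Structure.funMap g (f j ∘ v))
    {α : Type} (t : L.Term α) : ∀ᶠ j in atTop, ∀ v : α → M,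
    t.realize (f j ∘ v) = f j (t.realize v) := by
  induction t with
  | var a => exact Eventually.of_forall fun _ _ => rfl
  | func g ts ih =>
    filter_upwards [hc _ g, eventually_all.2 ih] with j h1 h2 v
    simp only [Term.realize]
    rw [h1]
    congr 1
    funext i
    exact h2 i v

theorem form_ev [L.IsAlgebraic] (f : ℕ → M → N) (hf : ∀ j, Function.Bijective (f j))
    (hc : ∀ n (g : L.Functions n), ∀ᶠ j in atTop, ∀ v : Fin n → M,
      f j (Structure.funMap g v) = Structure.funMap g (f j ∘ v))
    {α : Type} {n : ℕ} (φ : L.BoundedFormula α n) : ∀ᶠ j in atTop,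
    ∀ (v : α → M) (xs : Fin n → M), φ.Realize (f j ∘ v) (f j ∘ xs) ↔ φ.Realize v xs := by
  induction φ with
  | falsum => exact Eventually.of_forall fun _ _ _ => Iff.rfl
  | equal t1 t2 =>
    filter_upwards [term_ev f hc t1, term_ev f hc t2] with j h1 h2 v xs
    simp only [BoundedFormula.Realize]
    rw [← Sum.comp_elim, h1, h2]
    exact (hf j).1.eq_iff
  | rel r => exact isEmptyElim r
  | imp φ ψ ih1 ih2 =>
    filter_upwards [ih1, ih2] with j h1 h2 v xs
    simp only [BoundedFormula.realize_imp]
    rw [h1, h2]
  | all φ ih =>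
    filter_upwards [ih] with j h v xs
    simp only [BoundedFormula.realize_all]
    constructor
    · intro H a
      rw [← h, Fin.comp_snoc]; exact H _
    · intro H a
      obtain ⟨a, rfl⟩ := (hf j).2 a
      have := (h v _).2 (H a)
      rwa [Fin.comp_snoc] at this

theorem formula_ev [L.IsAlgebraic] (f : ℕ → M → N) (hf : ∀ j, Function.Bijective (f j))
    (hc : ∀ n (g : L.Functions n), ∀ᶠ j in atTop, ∀ v : Fin n → M,
      f j (Structure.funMap g v) = Structure.funMap g (f j ∘ v))
    {α : Type} (φ : L.Formula α) : ∀ᶠ j in atTop,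
    ∀ v : α → M, φ.Realize (f j ∘ v) ↔ φ.Realize v := by
  filter_upwards [form_ev f hf hc φ] with j h v
  have := h v default
  rw [Subsingleton.elim (f j ∘ default) default] at this
  exact this

end Pool.Agent.Lib.helper21.Local
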