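import Mathlib

set_option autoImplicit false

/-! A finitely generated structure whose generating tuple has a type realised only by generating
tuples is determined by the types it realises. -/

open FirstOrder FirstOrder.Language

namespace Pool.Agent.Lib.helper21.Separ

universe u v w

theorem separ {L : FirstOrder.Language.{u, v}} {W H : Type w} [L.Structure W] [L.Structure H]
    {r : ℕ} (e : Fin r → W)
    (hom : ∀ a : Fin r → W, (∀ φ : L.Formula (Fin r), φ.Realize e ↔ φ.Realize a) →
      ∀ w, ∃ t : L.Term (Fin r), t.realize a = w)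
    (b : Fin r → H) (hb : ∀ φ : L.Formula (Fin r), φ.Realize e ↔ φ.Realize b)
    (h2 : ∀ c : Fin (r + 1) → H, ∃ a : Fin (r + 1) → W,
      ∀ φ : L.Formula (Fin (r + 1)), φ.Realize a ↔ φ.Realize c)
    (f : W → H) (hf : ∀ t : L.Term (Fin r), f (t.realize e) = t.realize b) :
    Function.Bijective f := by
  constructor
  · intro x y h
    obtain ⟨s, rfl⟩ := hom e (fun _ => Iff.rfl) x
    obtain ⟨t, rfl⟩ := hom e (fun _ => Iff.rfl) y
    rw [hf, hf] at h
    simpa using (hb (Term.equal s t)).2 (by simpa using h)
  · intro c
    obtain ⟨a, ha⟩ := h2 (Fin.cons c b)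
    obtain ⟨t, ht⟩ := hom (a ∘ Fin.succ) (fun φ => by
      have := ha (φ.relabel Fin.succ)
      rw [Formula.realize_relabel, Formula.realize_relabel] at this
      exact (hb φ).trans this.symm) (a 0)
    refine ⟨t.realize e, (hf t).trans ?_⟩
    have := (ha (Term.equal (t.relabel Fin.succ) (Term.var 0))).1 (by simpa using ht)
    simpa using this

end Pool.Agent.Lib.helper21.Separ
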