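import Mathlib

set_option autoImplicit false

open Cardinal Set

namespace Pool.Agent.Lib.helper21.Indep

theorem card_closure (A : Type) [Field A] [CharZero A] (s : Set A) :
    #((AlgebraicIndependent.matroid ℚ A).closure s) ≤ max #s ℵ₀ := by
  rw [AlgebraicIndependent.matroid_closure_eq]
  have h1 := Algebraic.cardinalMk_le_max (Algebra.adjoin ℚ s) A
  have h2 := Algebra.cardinalMk_adjoin_le ℚ s
  refine le_trans (le_of_eq ?_) (h1.trans (max_le (h2.trans ?_) (le_max_right _ _)))
  · rfl
  · rw [mk_denumerable ℚ]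
    exact max_le (max_le (le_max_right _ _) (le_max_left _ _)) (le_max_right _ _)

/-- algebraically independent choice from `κ` many sets of size at least `κ` -/
theorem exists_indep (A : Type) [Field A] [CharZero A] (ι : Type) (P : ι → Set A) (κ : Cardinal)
    (hκ : ℵ₀ < κ) (hι : #ι ≤ κ) (hP : ∀ i, κ ≤ #(P i)) :
    ∃ f : ι → A, (∀ i, f i ∈ P i) ∧ Function.Injective f ∧
      (AlgebraicIndependent.matroid ℚ A).Indep (range f) := by
  set M := AlgebraicIndependent.matroid ℚ A
  let I : Type := (#ι).ord.ToType
  obtain ⟨e⟩ : Nonempty (I ≃ ι) := Cardinal.eq.1 (mk_ord_toType _)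
  have hI : ∀ a : I, #(Iio a) < κ := fun a => lt_of_lt_of_le (by simpa [I] using mk_Iio_lt a) hι
  have step : ∀ (a : I) (prev : ∀ c, c < a → A), ∃ r ∈ P (e a),
      r ∉ M.closure (range fun c : Iio a => prev c.1 c.2) := by
    intro a prev
    have h1 : #(M.closure (range fun c : Iio a => prev c.1 c.2)) < #(P (e a)) :=
      ((card_closure A _).trans_lt (max_lt (mk_range_le.trans_lt (hI a)) hκ)).trans_le (hP _)
    have : ¬ P (e a) ⊆ M.closure (range fun c : Iio a => prev c.1 c.2) :=
      fun h => (mk_le_mk_of_subset h).not_gt h1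
    exact not_subset.1 this
  choose F hF using step
  let x : I → A := (wellFounded_lt (α := I)).fix F
  have hx : ∀ a, x a = F a (fun c _ => x c) := fun a => WellFounded.fix_eq _ F a
  have h1 : ∀ a, x a ∈ P (e a) := fun a => by rw [hx]; exact (hF a _).1
  have h2 : ∀ a, x a ∉ M.closure (x '' Iio a) := fun a => by
    have := (hF a fun c _ => x c).2
    rw [← hx] at this
    rwa [image_eq_range]
  have hinj : Function.Injective x := by
    have : ∀ a b, a < b → x a ≠ x b := fun a b h e =>
      h2 b (e ▸ M.subset_closure _ (subset_univ _) ⟨a, h, rfl⟩)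
    intro a b hab
    rcases lt_trichotomy a b with h | h | h
    · exact absurd hab (this a b h)
    · exact h
    · exact absurd hab.symm (this b a h)
  have hfin : ∀ s : Finset I, M.Indep (x '' s) := by
    intro s
    induction s using Finset.induction_on_max with
    | empty => simp
    | insert a s ha ih =>
      rw [Finset.coe_insert, image_insert_eq, ih.insert_indep_iff]
      exact Or.inl ⟨mem_univ _, fun h => h2 a (M.closure_subset_closure (image_mono fun b hb => ha b hb) h)⟩
  have hind : M.Indep (range x) := by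
    refine Matroid.indep_of_forall_finite_subset_indep _ fun J hJ hf => ?_
    have := hfin (hf.preimage hinj.injOn).toFinset
    rwa [Finite.coe_toFinset, image_preimage_eq_of_subset hJ] at this
  refine ⟨x ∘ e.symm, fun i => by simpa using h1 (e.symm i), hinj.comp e.symm.injective, ?_⟩
  rwa [e.symm.surjective.range_comp]

theorem card_of_measurable {P : Set ℝ} (hP : MeasurableSet P) (hc : ¬ P.Countable) : #P = 𝔠 := by
  have := hP.standardBorel
  have e : P ≃ᵐ ℝ := PolishSpace.measurableEquivOfNotCountable
    (fun h => hc (countable_coe_iff.1 h)) (not_countable_iff.2 inferInstance)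
  rw [← mk_real]; exact mk_congr e.toEquiv

/-- a subfield of the reals that meets, but does not contain, every uncountable Borel set -/
theorem exists_bernstein : ∃ K : Subalgebra ℚ ℝ, ∀ P : Set ℝ, MeasurableSet P → ¬ P.Countable →
    (∃ a ∈ P, a ∈ K) ∧ ∃ a ∈ P, a ∉ K := by
  let B := {P : Set ℝ // MeasurableSet P ∧ ¬ P.Countable}
  have hB : #B ≤ 𝔠 := by
    have h1 : #{t : Set ℝ | @MeasurableSet ℝ (MeasurableSpace.generateFrom
        (⋃ a : ℚ, {Iio (a : ℝ)})) t} ≤ 𝔠 :=
      MeasurableSpace.cardinal_measurableSet_le_continuum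
        ((le_aleph0_iff_set_countable.2 (countable_iUnion fun _ => countable_singleton _)).trans
          aleph0_le_continuum)
    refine le_trans (mk_le_mk_of_subset (s := {P : Set ℝ | MeasurableSet P ∧ ¬ P.Countable}) ?_) h1
    intro P hP
    have := hP.1
    rw [mem_setOf_eq, ← Real.borel_eq_generateFrom_Iio_rat]
    exact this
  obtain ⟨f, f1, f2, f3⟩ := exists_indep ℝ (B × Bool) (fun i => i.1.1) 𝔠 aleph0_lt_continuum
    (by
      rw [mk_prod, lift_id, lift_id, mk_bool]
      calc #B * 2 ≤ 𝔠 * 2 := by gcongr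
        _ = 𝔠 := by simp)
    (fun i => (card_of_measurable i.1.2.1 i.1.2.2).ge)
  refine ⟨Subalgebra.algebraicClosure (Algebra.adjoin ℚ (range fun b : B => f (b, true))) ℝ
    |>.restrictScalars ℚ, fun P h1 h2 => ⟨⟨f (⟨P, h1, h2⟩, true), f1 (⟨P, h1, h2⟩, true), ?_⟩,
      ⟨f (⟨P, h1, h2⟩, false), f1 (⟨P, h1, h2⟩, false), ?_⟩⟩⟩
  · have : f (⟨P, h1, h2⟩, true) ∈ (AlgebraicIndependent.matroid ℚ ℝ).closure
        (range fun b : B => f (b, true)) :=
      Matroid.subset_closure _ _ (subset_univ _) ⟨_, rfl⟩
    rw [AlgebraicIndependent.matroid_closure_eq] at this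
    exact this
  · have : f (⟨P, h1, h2⟩, false) ∉ (AlgebraicIndependent.matroid ℚ ℝ).closure
        (range fun b : B => f (b, true)) := by
      intro h
      refine f3.notMem_closure_diff_of_mem (mem_range_self (⟨P, h1, h2⟩, false))
        (Matroid.closure_subset_closure _ ?_ h)
      rintro _ ⟨b, rfl⟩
      exact ⟨mem_range_self _, fun h => by simpa using congrArg Prod.snd (f2 h)⟩
    rw [AlgebraicIndependent.matroid_closure_eq] at this
    exact this

end Pool.Agent.Lib.helper21.Indep
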