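import Pool.Agent.Lib.helper21.Jump

set_option autoImplicit false

/-! Bushy trees. -/

namespace Pool.Agent.Lib.helper21.PR

open Pool.Agent.H.MP_d04dff_lc Pool.Agent.H.MP_fa2eca_lc Pool.Agent.Lib.helper21.ML Filter
open Encodable Denumerable

attribute [local irreducible] Primrec Computable

variable {α β : Type} [Primcodable α] [Primcodable β] {Y : ℕ → Bool}

theorem RI.re {p : α → Prop} (h : RI (fun _ => false) p) : RE p := by
  obtain ⟨N, h1, h2, -, h3⟩ := h.norm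
  exact RE.un ((RE.re (p := fun a => ∃ n t, N (a, pre (fun _ => false) n) t = true)
    (by unfold pre; fun_prop)).of_eq fun a => ⟨fun ⟨_, _, h⟩ => h2 _ _ _ h, h3 a⟩)

theorem RI.idx {p : α → Prop} (h : RI Y p) :
    ∃ c, ∀ a, J Y (Nat.pair c (encode a)) = true ↔ p a := by
  rw [RI] at h
  obtain ⟨W, h1, h2, h3⟩ := h
  have h4 : REPred fun z : ℕ × Str => ∃ a, decode z.1 = some a ∧ W (a, z.2) := RE.re (by fun_prop)
  obtain ⟨c, hc⟩ := re_code h4
  refine ⟨encode c, fun a => ?_⟩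
  rw [J_iff, Nat.unpair_pair, ofNat_encode]
  simp only [← hc, encodek, Option.some.injEq, exists_eq_left']
  exact ⟨fun ⟨s, h⟩ => h2 a s h, fun h => (h3 a h).exists⟩

theorem not_J (Y : ℕ → Bool) : ¬ CI Y (J Y) := fun h => by
  obtain ⟨c, hc⟩ := RI.idx (Y := Y) (p := fun e => J Y (Nat.pair e e) = false)
    (RI.un (by fun_prop))
  simpa using hc c

theorem RE.jump {p : α → Prop} (h : RE p) : CI (J Y) fun a => cd (p a) :=
  (i_re (r_pw h)).un.jump

theorem RI.dom {p : α → Prop} (h : RI Y p) : ∃ f : ℕ →. ℕ, TuringReducible f (Fn.orc Y) ∧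
    ∀ a, p a ↔ (f (encode a)).Dom := by
  classical
  obtain ⟨N, h1, h2, -, h3⟩ := (RI.un (Y := Y) (p := fun n => ∃ a, decode n = some a ∧ p a)
    (by fun_prop)).norm
  have := ci_self Y
  have h4 : CI Y fun q : ℕ => if N (q.unpair.1, pre Y q.unpair.2.unpair.1) q.unpair.2.unpair.2
    then 0 else 1 := by fun_prop
  refine ⟨_, RecursiveIn.iff_nat.2 (RecursiveIn.iff_nat.1 h4.red).rfind, fun a => ?_⟩
  simp only [Nat.rfind_dom, Nat.unpair_pair, Part.map_eq_map, Part.map_some, Part.mem_some_iff,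
    Part.some_dom, implies_true, and_true]
  refine ⟨fun h => ?_, fun ⟨u, hu⟩ => by
    obtain ⟨b, k1, k2⟩ := h2 _ _ _ (by simpa using hu)
    exact Option.some.inj ((encodek a).symm.trans k1) ▸ k2⟩
  obtain ⟨n, t, h⟩ := h3 (encode a) ⟨a, by simp, h⟩
  exact ⟨Nat.pair n t, by simp [h]⟩

/-- `S` is `p`-big above a string, inside the tree `T`. -/
inductive Big (T : List ℕ → Prop) (p : ℕ → ℕ) (S : List ℕ → Prop) : List ℕ → Prop
  | base {σ : List ℕ} : S σ → Big T p S σ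
  | step {σ : List ℕ} (F : Finset ℕ) : p σ.length ≤ F.card → (∀ a ∈ F, T (σ ++ [a])) →
      (∀ a ∈ F, Big T p S (σ ++ [a])) → Big T p S σ

variable {T T' S S' : List ℕ → Prop} {p p' : ℕ → ℕ} {σ : List ℕ}

theorem Big.mono (h : Big T p S σ) (hT : ∀ τ, T τ → T' τ) (hp : ∀ n, σ.length ≤ n → p' n ≤ p n)
    (hS : ∀ τ, σ <+: τ → S τ → S' τ) : Big T' p' S' σ := by
  induction h with
  | base h => exact .base (hS _ (List.prefix_refl _) h)
  | step F h1 h2 _ ih =>
    exact .step F ((hp _ le_rfl).trans h1) (fun a ha => hT _ (h2 a ha))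
      fun a ha => ih a ha (fun n hn => hp n (by simp at hn; omega))
        fun τ hτ => hS τ ((List.prefix_append _ _).trans hτ)

theorem Big.or (h : Big T (fun n => p n + p' n) (fun τ => S τ ∨ S' τ) σ) :
    Big T p S σ ∨ Big T p' S' σ := by
  classical
  induction h with
  | base h => exact h.imp .base .base
  | @step σ F h1 h2 _ ih =>
    have := Finset.card_filter_add_card_filter_not (s := F) fun a => Big T p S (σ ++ [a])
    by_cases c : p σ.length ≤ (F.filter fun a => Big T p S (σ ++ [a])).card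
    · exact .inl (.step _ c (fun a ha => h2 a (Finset.mem_filter.1 ha).1)
        fun a ha => (Finset.mem_filter.1 ha).2)
    · exact .inr (.step (F.filter fun a => ¬ Big T p S (σ ++ [a])) (by omega)
        (fun a ha => h2 a (Finset.mem_filter.1 ha).1) fun a ha =>
          (ih a (Finset.mem_filter.1 ha).1).resolve_left (Finset.mem_filter.1 ha).2)

theorem Big.union {R : ℕ → List ℕ → Prop} : ∀ {M : ℕ},
    Big T (fun n => (M + 1) * p n) (fun τ => S τ ∨ ∃ v < M, R v τ) σ →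
      Big T p S σ ∨ ∃ v < M, Big T p (R v) σ
  | 0, h => .inl (h.mono (fun _ h => h) (by simp) (by simp))
  | M + 1, h => by
    rcases (h.mono (fun _ h => h) (p' := fun n => (M + 1) * p n + p n)
      (S' := fun τ => (S τ ∨ ∃ v < M, R v τ) ∨ R M τ) (fun n _ => by nlinarith) fun τ _ h => by
        rcases h with h | ⟨v, h1, h2⟩
        · exact .inl (.inl h)
        · rcases Nat.lt_succ_iff_lt_or_eq.1 h1 with c | rfl
          exacts [.inl (.inr ⟨v, c, h2⟩), .inr h2]).or with h | h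
    · exact h.union.imp_right fun ⟨v, h1, h2⟩ => ⟨v, by omega, h2⟩
    · exact .inr ⟨M, by omega, h⟩

theorem Big.meet (h : Big T p S σ) (h0 : T σ) (h' : ¬ Big T p S' σ) :
    ∃ τ, σ <+: τ ∧ T τ ∧ S τ ∧ ¬ Big T p S' τ := by
  induction h with
  | base h => exact ⟨_, List.prefix_refl _, h0, h, h'⟩
  | step F h1 h2 _ ih =>
    obtain ⟨a, ha⟩ := not_forall.1 fun c => h' (.step F h1 h2 c)
    obtain ⟨ha, hb⟩ := Classical.not_imp.1 ha
    obtain ⟨τ, k1, k2⟩ := ih a ha (h2 a ha) hb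
    exact ⟨τ, (List.prefix_append _ _).trans k1, k2⟩

/-- finite certificate: the list of leaves -/
def Cert (T : List ℕ → Prop) (p : ℕ → ℕ) (σ : List ℕ) (L : List (List ℕ)) : Prop :=
  ∀ τ ∈ L, ∀ j < τ.length, j < σ.length ∨ ∃ F : List ℕ, (∀ i < F.length, ∀ k < i,
    F.getD k 0 ≠ F.getD i 0) ∧ p j ≤ F.length ∧
      ∀ a ∈ F, T (τ.take j ++ [a]) ∧ ∃ ρ, ρ ∈ L ∧ τ.take j ++ [a] <+: ρ

theorem nodup_iff {F : List ℕ} :
    (∀ i < F.length, ∀ k < i, F.getD k 0 ≠ F.getD i 0) ↔ F.Nodup := by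
  rw [List.nodup_iff_getElem?_ne_getElem?]
  refine ⟨fun h i j h1 h2 => ?_, fun h i h1 k h2 => ?_⟩
  · simpa [h2, h1.trans h2] using h j h2 i h1
  · simpa [h1, h2.trans h1] using h k i h2 h1

theorem Cert.ex {L : List (List ℕ)} (h : Cert T p σ L) {τ ρ : List ℕ} (h1 : τ ∈ L) (h2 : ρ <+: τ)
    (h3 : ρ ≠ τ) (h4 : σ.length ≤ ρ.length) : ∃ F : Finset ℕ, p ρ.length ≤ F.card ∧
      ∀ a ∈ F, T (ρ ++ [a]) ∧ ∃ τ' ∈ L, ρ ++ [a] <+: τ' := by
  obtain ⟨F, k1, k2, k3⟩ := (h τ h1 ρ.length (h2.length_le.lt_of_ne fun c =>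
    h3 (h2.eq_of_length c))).resolve_left (by omega)
  rw [← List.prefix_iff_eq_take.1 h2] at k3
  exact ⟨F.toFinset, by rwa [List.toFinset_card_of_nodup (nodup_iff.1 k1)], by simpa using k3⟩

theorem big_iff (hp : ∀ n, 0 < p n) : Big T p S σ ↔
    ∃ L : List (List ℕ), L ≠ [] ∧ (∀ τ ∈ L, σ <+: τ ∧ S τ) ∧ Cert T p σ L := by
  refine ⟨fun h => ?_, fun ⟨L, h1, h2, h3⟩ => ?_⟩
  · induction h with
    | @base σ h => exact ⟨[σ], by simp, by simpa, by simp +contextual [Cert]⟩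
    | @step σ F h1 h2 _ ih =>
      choose! L k1 k2 k3 using ih
      have k4 : ∀ a ∈ F, ∃ ρ ∈ F.toList.flatMap L, σ ++ [a] <+: ρ := fun a ha =>
        let ⟨ρ, h⟩ := List.exists_mem_of_ne_nil _ (k1 a ha)
        ⟨ρ, List.mem_flatMap.2 ⟨a, by simpa, h⟩, (k2 a ha ρ h).1⟩
      refine ⟨F.toList.flatMap L, ?_, fun τ hτ => ?_, fun τ hτ j hj => ?_⟩
      · obtain ⟨a, ha⟩ := Finset.card_pos.1 ((hp _).trans_le h1)
        exact (k4 a ha).elim fun ρ h => List.ne_nil_of_mem h.1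
      · obtain ⟨a, ha, h⟩ := List.mem_flatMap.1 hτ
        exact (k2 a (by simpa using ha) τ h).imp_left (List.prefix_append _ _).trans
      · obtain ⟨a, ha, h⟩ := List.mem_flatMap.1 hτ
        replace ha : a ∈ F := by simpa using ha
        rcases lt_trichotomy j σ.length with c | rfl | c
        · exact .inl c
        · rw [← List.prefix_iff_eq_take.1 ((List.prefix_append _ _).trans (k2 a ha τ h).1)]
          exact .inr ⟨F.toList, nodup_iff.2 F.nodup_toList, by simpa, fun b hb =>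
            ⟨h2 b (by simpa using hb), k4 b (by simpa using hb)⟩⟩
        · obtain ⟨G, g1, g2, g3⟩ := (k3 a ha τ h j hj).resolve_left (by simp; omega)
          exact .inr ⟨G, g1, g2, fun b hb => ⟨(g3 b hb).1, (g3 b hb).2.imp fun ρ h =>
            ⟨List.mem_flatMap.2 ⟨a, by simpa, h.1⟩, h.2⟩⟩⟩
  · have : ∀ d ρ, (L.map List.length).sum ≤ ρ.length + d → σ.length ≤ ρ.length →
        (∃ τ ∈ L, ρ <+: τ) → Big T p S ρ := fun d => by
      induction d with
      | zero =>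
        rintro ρ k1 - ⟨τ, k2, k3⟩
        have := List.single_le_sum (l := L.map List.length) (by simp) _ (List.mem_map_of_mem k2)
        exact .base (k3.eq_of_length_le (by omega) ▸ (h2 τ k2).2)
      | succ d ih =>
        rintro ρ k1 k4 ⟨τ, k2, k3⟩
        by_cases c : ρ = τ
        · exact .base (c ▸ (h2 τ k2).2)
        · obtain ⟨F, g1, g2⟩ := h3.ex k2 k3 c k4
          exact .step F g1 (fun a ha => (g2 a ha).1) fun a ha =>
            ih _ (by simp; omega) (by simp; omega) (g2 a ha).2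
    obtain ⟨τ, hτ⟩ := List.exists_mem_of_ne_nil _ h1
    exact this _ σ (Nat.le_add_left _ _) le_rfl ⟨τ, hτ, (h2 τ hτ).1⟩

theorem cert_re {T : α → List ℕ → Prop} {P : α → ℕ → ℕ → Prop} {p : α → ℕ → ℕ}
    (hT : RE fun z : α × List ℕ => T z.1 z.2) (hP : RE fun z : α × ℕ × ℕ => P z.1 z.2.1 z.2.2)
    (e : ∀ a j k, P a j k ↔ p a j ≤ k) :
    RE fun z : α × List ℕ × List (List ℕ) => Cert (T z.1) (p z.1) z.2.1 z.2.2 := by
  simp only [Cert, ← e]
  exact RE.un (RE.re (by fun_prop))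

theorem big_re {T S : α → List ℕ → Prop} {P : α → ℕ → ℕ → Prop} {p : α → ℕ → ℕ}
    (hT : RE fun z : α × List ℕ => T z.1 z.2) (hS : RE fun z : α × List ℕ => S z.1 z.2)
    (hP : RE fun z : α × ℕ × ℕ => P z.1 z.2.1 z.2.2) (e : ∀ a j k, P a j k ↔ p a j ≤ k)
    (hp : ∀ a n, 0 < p a n) : RE fun z : α × List ℕ => Big (T z.1) (p z.1) (S z.1) z.2 := by
  have := cert_re hT hP e
  simp only [big_iff (hp _)]
  generalize hC : (fun a σ L => Cert (T a) (p a) σ L) = C
  have h1 : ∀ a σ L, Cert (T a) (p a) σ L = C a σ L := fun _ _ _ => hC ▸ rfl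
  simp only [h1] at this ⊢
  exact RE.un (RE.re (by fun_prop))

/-- limit of a chain of strings -/
theorem chain (z : ℕ → List ℕ) (h : ∀ n, z n <+: z (n + 1)) (h' : ∀ n, n ≤ (z n).length) :
    ∃ g : ℕ → ℕ, (∀ i, g i = (z (i + 1)).getD i 0) ∧
      ∀ n, ∀ i < (z n).length, (z n).getD i 0 = g i := by
  have m : ∀ n k, z n <+: z (n + k) := fun n k => by
    induction k with
    | zero => rfl
    | succ k ih => exact ih.trans (h _)
  have e : ∀ n k i, i < (z n).length → (z n).getD i 0 = (z (n + k)).getD i 0 :=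
    fun n k i hi => by
      obtain ⟨t, ht⟩ := m n k
      simp [← ht, List.getD_eq_getElem?_getD, List.getElem?_append_left hi]
  exact ⟨_, fun _ => rfl, fun n i hi =>
    (e n (i + 1) i hi).trans (add_comm n (i + 1) ▸ e _ n i (h' (i + 1))).symm⟩

/-- graph of a function -/
def gf (g : ℕ → ℕ) (q : ℕ) : Bool := decide (g q.unpair.1 = q.unpair.2)

theorem gf_congr {g g' : ℕ → ℕ} {s : ℕ} (h : ∀ i < s, g i = g' i) : pre (gf g) s = pre (gf g') s :=
  pre_congr fun q hq => by rw [gf, gf, h _ (q.unpair_left_le.trans_lt hq)]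

theorem ci_gf (g : ℕ → ℕ) : CI (gf g) g := by
  have := ci_self (gf g)
  generalize hA : gf g = A at this
  exact CI.mk (R := fun n v => A (Nat.pair n v) = true) (by fun_prop) fun n v => by
    simp [← hA, gf]

def Uu (z : ℕ × Str) : Prop :=
  ((ofNat Nat.Partrec.Code z.1.unpair.1).eval (encode (z.1.unpair.2, z.2))).Dom

theorem Uu_re : RE Uu := r_comp (f := fun z : ℕ × Str =>
  (z.1.unpair.1, encode (z.1.unpair.2, z.2))) re_dom (by fun_prop)

/-- the finite string forces a number into the jump -/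
def V (i : ℕ) (τ : List ℕ) : Prop :=
  ∃ s, s ≤ τ.length ∧ Uu (i, pre (gf fun k => τ.getD k 0) s)

theorem V_re : RE fun z : ℕ × List ℕ => V z.1 z.2 := by
  have := Uu_re
  unfold V
  generalize Uu = U at this
  exact RE.un (RE.re (by unfold pre gf; fun_prop))

theorem V.mono {i : ℕ} {τ τ' : List ℕ} (h : V i τ) (e : τ <+: τ') : V i τ' := by
  obtain ⟨s, h1, h2⟩ := h
  obtain ⟨ρ, rfl⟩ := e
  exact ⟨s, by simp; omega, gf_congr (fun k hk =>
    (List.getD_append _ _ _ _ (hk.trans_le h1)).symm) ▸ h2⟩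

theorem V.sound {i : ℕ} {τ : List ℕ} {g : ℕ → ℕ} (h : V i τ)
    (e : ∀ k < τ.length, τ.getD k 0 = g k) : J (gf g) i = true :=
  let ⟨s, h1, h2⟩ := h
  J_iff.2 ⟨s, gf_congr (fun k hk => e k (hk.trans_le h1)) ▸ h2⟩

theorem V.complete {i : ℕ} {g : ℕ → ℕ} (h : J (gf g) i = true) : ∃ s, ∀ τ : List ℕ, s ≤ τ.length →
    (∀ k < τ.length, τ.getD k 0 = g k) → V i τ :=
  let ⟨s, hs⟩ := J_iff.1 h
  ⟨s, fun _ h1 e => ⟨s, h1, gf_congr (fun k hk => (e k (hk.trans_le h1)).symm) ▸ hs⟩⟩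

end Pool.Agent.Lib.helper21.PR
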