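import Pool.Agent.Lib.helper21.Sig

set_option autoImplicit false

/-! Clones: tuples with the same complexity profile over any element of a large simple list. -/

namespace Pool.Agent.Lib.helper21.KC

open Encodable Primrec Pool.Agent.H.MP_d04dff_lc

def lg (N : ℕ) : ℕ := Nat.log 2 N + 1

theorem lg_pos (N : ℕ) : 1 ≤ lg N := Nat.le_add_left _ _

theorem lt_lg (N : ℕ) : N < 2 ^ lg N := Nat.lt_pow_succ_log_self one_lt_two N

theorem lg_le (N : ℕ) : lg N ≤ N + 1 := Nat.succ_le_succ (Nat.log_le_self _ _)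

theorem log_le {x k : ℕ} (h : x < 2 ^ k) : Nat.log 2 x ≤ k := by
  rcases Nat.eq_zero_or_pos x with rfl | h0
  · simp
  · exact (Nat.log_lt_of_lt_pow h0.ne' h).le

theorem enc_bound (k e : ℕ) : ∃ d, ∀ N (a : List ℕ), a.length ≤ k → (∀ x ∈ a, x ≤ e * (N + 1)) →
    encode a < 2 ^ (d * lg N) := by
  induction k with
  | zero => exact ⟨0, fun N a h _ => by simp [List.length_eq_zero_iff.1 (Nat.le_zero.1 h)]⟩
  | succ k ih =>
    obtain ⟨d, hd⟩ := ih
    refine ⟨2 * (d + e + 1) + 1, fun N a h h1 => ?_⟩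
    cases a with
    | nil => simp
    | cons x a =>
      have h2 := hd N a (by simpa using h) fun y hy => h1 y (List.mem_cons_of_mem _ hy)
      have h3 := lg_pos N
      have h4 : x < 2 ^ (e + lg N) := by
        rw [pow_add]
        exact (h1 x List.mem_cons_self).trans_lt (Nat.mul_lt_mul_of_lt_of_le Nat.lt_two_pow_self
          (lt_lg N) (by positivity))
      have h5 : max x (encode a) + 1 ≤ 2 ^ ((d + e + 1) * lg N) :=
        max_lt (h4.trans_le (Nat.pow_le_pow_right (by norm_num) (by nlinarith)))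
          (h2.trans_le (Nat.pow_le_pow_right (by norm_num) (by nlinarith)))
      have h6 := Nat.pair_lt_max_add_one_sq x (encode a)
      have h7 := Nat.pow_le_pow_left h5 2
      rw [← pow_mul] at h7
      rw [encode_list_cons, encode_nat]
      exact (Nat.succ_le_of_lt (h6.trans_le h7)).trans_lt
        (Nat.pow_lt_pow_right one_lt_two (by nlinarith))

variable {U : Str →. Str}

theorem Opt.condL (hU : Opt U) {R : List ℕ → Str → Str → Prop}
    (h : Sig fun z : (List ℕ × Str) × Str => R z.1.1 z.1.2 z.2) (k e : ℕ) : ∃ c, ∀ N a u v l,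
      a.length ≤ k → (∀ x ∈ a, x ≤ e * (N + 1)) → l ≤ e * (N + 1) → R a u v →
      ¬ Many (2 ^ l + 1) (R a u) → K U v ≤ K U u + l + c * lg N := by
  obtain ⟨c, hc⟩ := hU.cond (R := fun a => R (Denumerable.ofNat (List ℕ) a))
    (h.comp ((((Primrec.ofNat (List ℕ)).comp (fst.comp fst)).pair (snd.comp fst)).pair snd))
  obtain ⟨d, hd⟩ := enc_bound k e
  refine ⟨2 * d + 2 * (e + 1) + c, fun N a u v l h1 h2 h3 h4 h5 => ?_⟩
  have h6 := hc (encode a) u v l (by simpa using h4) (by simpa using h5)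
  have h7 := log_le (hd N a h1 h2)
  have h8 : Nat.log 2 l ≤ e + lg N := log_le (by
    rw [pow_add]
    exact h3.trans_lt (Nat.mul_lt_mul_of_lt_of_le Nat.lt_two_pow_self (lt_lg N) (by positivity)))
  have h9 := lg_pos N
  nlinarith

theorem Opt.enumL (hU : Opt U) {R : List ℕ → Str → Prop}
    (h : Sig fun z : List ℕ × Str => R z.1 z.2) (k e : ℕ) : ∃ c, ∀ N a v l,
      a.length ≤ k → (∀ x ∈ a, x ≤ e * (N + 1)) → l ≤ e * (N + 1) → R a v →
      ¬ Many (2 ^ l + 1) (R a) → K U v ≤ l + c * lg N := by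
  obtain ⟨c, hc⟩ := hU.condL (R := fun a _ v => R a v) (h.comp ((fst.comp fst).pair snd)) k e
  refine ⟨K U [] + c, fun N a v l h1 h2 h3 h4 h5 => ?_⟩
  have := hc N a [] v l h1 h2 h3 h4 h5
  have h9 := lg_pos N
  nlinarith

theorem Opt.closeL (hU : Opt U) {R : List ℕ → Str → Str → Prop}
    (h : Sig fun z : (List ℕ × Str) × Str => R z.1.1 z.1.2 z.2) (k e : ℕ) : ∃ c, ∀ N a u v,
      a.length ≤ k → (∀ x ∈ a, x ≤ e * (N + 1)) → R a u v → (∀ v', R a u v' → v' = v) →
      K U v ≤ K U u + c * lg N := by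
  obtain ⟨c, hc⟩ := hU.condL h k e
  refine ⟨c, fun N a u v h1 h2 h3 h4 => hc N a u v 0 h1 h2 (Nat.zero_le _) h3 fun ⟨F, h5, h6⟩ => ?_⟩
  have := Finset.card_le_card (show F ⊆ {v} from fun b hb => by simpa using h4 b (h6 b hb))
  simp at this h5
  omega

section many

variable {β γ : Type} {p : β → Prop} {q : γ → Prop}

theorem Many.mono {n m : ℕ} {p' : β → Prop} (h : Many n p) (hn : m ≤ n) (hp : ∀ b, p b → p' b) :
    Many m p' :=
  let ⟨F, h1, h2⟩ := h; ⟨F, hn.trans h1, fun b hb => hp b (h2 b hb)⟩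

theorem Many.one {b : β} (h : p b) : Many 1 p := ⟨{b}, by simp, by simpa using h⟩

theorem Many.ex {n : ℕ} (h : Many n p) (hn : 0 < n) : ∃ b, p b :=
  let ⟨_, h1, h2⟩ := h
  let ⟨b, hb⟩ := Finset.card_pos.1 (hn.trans_le h1)
  ⟨b, h2 b hb⟩

theorem Many.rel {n : ℕ} (h : Many n p) (r : β → γ → Prop) (h1 : ∀ b, p b → ∃ c, r b c ∧ q c)
    (h2 : ∀ b b' c, p b → p b' → r b c → r b' c → b = b') : Many n q := by
  classical
  obtain ⟨F, h3, h4⟩ := h
  choose f hf using fun b : F => h1 b (h4 b b.2)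
  refine ⟨Finset.univ.image f, ?_, fun c hc => ?_⟩
  · rw [Finset.card_image_of_injective _ fun b b' (e : f b = f b') => Subtype.ext
      (h2 _ _ _ (h4 _ b.2) (h4 _ b'.2) (hf b).1 (e ▸ (hf b').1))]
    simpa using h3
  · obtain ⟨b, -, rfl⟩ := Finset.mem_image.1 hc
    exact (hf b).2

theorem Many.fiber {n m : ℕ} (f : β → γ) (h : Many n fun u => Many m fun w => p w ∧ f w = u) :
    Many (n * m) p := by
  classical
  obtain ⟨F, h1, h2⟩ := h
  choose! G hG using h2
  refine ⟨F.biUnion G, ?_, fun b hb => ?_⟩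
  · rw [Finset.card_biUnion fun u hu u' hu' e => Finset.disjoint_left.2 fun w h3 h4 =>
      e ((((hG u hu).2 w h3).2).symm.trans ((hG u' hu').2 w h4).2)]
    exact (Nat.mul_le_mul_right m h1).trans
      (Finset.card_nsmul_le_sum F _ m fun u hu => (hG u hu).1)
  · obtain ⟨u, hu, hb⟩ := Finset.mem_biUnion.1 hb
    exact ((hG u hu).2 b hb).1

theorem not_many_mul {n m : ℕ} (f : β → γ) (h1 : ¬ Many (n + 1) q) (h2 : ∀ w, p w → q (f w))
    (h3 : ∀ u, ¬ Many (m + 1) fun w => p w ∧ f w = u) : ¬ Many (n * m + 1) p := by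
  classical
  rintro ⟨F, h4, h5⟩
  have h6 := Finset.card_le_mul_card_image (f := f) F m fun u _ => not_lt.1 fun c =>
    h3 u ⟨_, c, fun w hw => ⟨h5 w (Finset.mem_filter.1 hw).1, (Finset.mem_filter.1 hw).2⟩⟩
  have h7 : (F.image f).card ≤ n := not_lt.1 fun c => h1 ⟨_, c, fun u hu => by
    obtain ⟨w, hw, rfl⟩ := Finset.mem_image.1 hu
    exact h2 w (h5 w hw)⟩
  nlinarith

theorem exlog {b : β} (h : p b) : ∀ n, ¬ Many (2 ^ (n + 1)) p →
    ∃ k ≤ n, Many (2 ^ k) p ∧ ¬ Many (2 ^ (k + 1)) p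
  | 0, h1 => ⟨0, le_rfl, Many.one h, h1⟩
  | n + 1, h1 => by
    by_cases c : Many (2 ^ (n + 1)) p
    · exact ⟨n + 1, le_rfl, c, h1⟩
    · obtain ⟨k, h2, h3⟩ := exlog h n c
      exact ⟨k, by omega, h3⟩

end many

variable {α : Type} [Primcodable α]

abbrev co (v : List Str) (i : ℕ) : Str := v.getD i []

theorem co_prim {v : α → List Str} {i : α → ℕ} (hv : Primrec v) (hi : Primrec i) :
    Primrec fun a => co (v a) (i a) := (list_getD []).comp hv hi

theorem gD {p : α → List ℕ} (hp : Primrec p) (k : ℕ) : Primrec fun a => (p a).getD k 0 :=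
  (list_getD 0).comp hp (const k)

theorem tl {p : α → List ℕ} (hp : Primrec p) : Primrec fun a => (p a).tail := list_tail.comp hp

def cnt (L : List (List Str)) (i : ℕ) (u : Str) : ℕ := (L.filter fun w => co w i == u).length

theorem cnt_prim {L : α → List (List Str)} {i : α → ℕ} {u : α → Str} (hL : Primrec L)
    (hi : Primrec i) (hu : Primrec u) : Primrec fun a => cnt (L a) (i a) (u a) :=
  list_length.comp (filt hL (beq_prim.comp (co_prim snd (hi.comp fst)) (hu.comp fst)).to₂)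

/-- Elements of the enumeration that come early in each of their sections. -/
def Early (en : List ℕ → ℕ → List (List Str)) (r : ℕ) (p : List ℕ) (v : List Str) : Prop :=
  ∃ t j, (en p.tail t)[j]? = some v ∧ ∀ i ∈ List.range r,
    cnt ((en p.tail t).take j) i (co v i) < 2 ^ (p.tail.getD 0 0 + p.getD 0 0 - p.tail.getD i 0)

variable {R : List ℕ → List Str → Prop} {en : List ℕ → ℕ → List (List Str)} {r : ℕ}

theorem early_sig (he : Enum R en) : Sig fun z : List ℕ × List Str => Early en r z.1 z.2 := by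
  have h1 : Primrec fun z : ((List ℕ × List Str) × ℕ) × ℕ => en z.1.1.1.tail z.1.2 :=
    he.prim.comp (tl (fst.comp (fst.comp fst))) (snd.comp fst)
  have h0 : Primrec fun y : ℕ × ((List ℕ × List Str) × ℕ) × ℕ => y.2.1.1.1 :=
    fst.comp (fst.comp (fst.comp snd))
  have h2 : PrimrecRel fun (i : ℕ) (z : ((List ℕ × List Str) × ℕ) × ℕ) =>
      cnt ((en z.1.1.1.tail z.1.2).take z.2) i (co z.1.1.2 i) <
        2 ^ (z.1.1.1.tail.getD 0 0 + z.1.1.1.getD 0 0 - z.1.1.1.tail.getD i 0) :=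
    nat_lt.comp (cnt_prim (list_take.comp (snd.comp snd) (h1.comp snd)) fst
      (co_prim (snd.comp (fst.comp (fst.comp snd))) fst)) (pow2.comp (nat_sub.comp
        (nat_add.comp (gD (tl h0) 0) (gD h0 0)) ((list_getD 0).comp (tl h0) fst)))
  exact Sig.ex (Sig.ex (Sig.prim ((Primrec.eq.comp (list_getElem?.comp h1 snd)
    (option_some.comp (snd.comp (fst.comp fst)))).and
      (h2.forall_mem_list.comp (const (List.range r)) .id))))

theorem early_mem (he : Enum R en) {p : List ℕ} {v : List Str} (h : Early en r p v) :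
    R p.tail v :=
  let ⟨t, _, h1, _⟩ := h
  (he.mem _ _).2 ⟨t, List.mem_of_getElem? h1⟩

theorem early_of (he : Enum R en) {L : ℕ} {a : List ℕ} {v : List Str} (h : R a v)
    (h1 : ∀ i < r, ¬ Many (2 ^ (a.getD 0 0 + L - a.getD i 0)) fun w => R a w ∧ co w i = co v i) :
    Early en r (L :: a) v := by
  obtain ⟨t, ht⟩ := (he.mem _ _).1 h
  obtain ⟨j, hj⟩ := List.getElem?_of_mem ht
  refine ⟨t, j, hj, fun i hi => not_le.1 fun c => h1 i (List.mem_range.1 hi)
    ⟨(((en a t).take j).filter fun w => co w i == co v i).toFinset, ?_, fun w hw => ?_⟩⟩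
  · rw [List.toFinset_card_of_nodup (((he.nodup _ _).sublist (List.take_sublist _ _)).filter _)]
    exact c
  · have := List.mem_filter.1 (List.mem_toFinset.1 hw)
    exact ⟨(he.mem _ _).2 ⟨t, List.mem_of_mem_take this.1⟩, by simpa using this.2⟩

theorem early_few (he : Enum R en) (L : ℕ) (a : List ℕ) {i : ℕ} (hi : i < r) (u : Str) :
    ¬ Many (2 ^ (a.getD 0 0 + L - a.getD i 0) + 1) fun w => Early en r (L :: a) w ∧ co w i = u := by
  rintro ⟨F, h1, h2⟩
  choose! t j h3 h4 using fun w hw => (h2 w hw).1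
  obtain ⟨w, hw, h5⟩ := F.exists_max_image j (Finset.card_pos.1 ((Nat.succ_pos _).trans_le h1))
  have h6 := h4 w hw i (List.mem_range.2 hi)
  have h7 : F.erase w ⊆ (((en a (t w)).take (j w)).filter fun w' => co w' i == co w i).toFinset := by
    intro w' hw'
    obtain ⟨h8, h9⟩ := Finset.mem_erase.1 hw'
    have h10 : j w' < j w := lt_of_le_of_ne (h5 w' h9) fun e =>
      h8 (he.get (h3 w' h9) (e ▸ h3 w hw)).1
    have h11 := (List.getElem?_eq_some_iff.1 (h3 w hw)).1
    have h12 := (he.get (h3 w' h9) (List.getElem?_eq_getElem (h10.trans h11))).1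
    refine List.mem_toFinset.2 (List.mem_filter.2 ⟨List.mem_take_iff_getElem.2
      ⟨j w', lt_min h10 (h10.trans h11), h12.symm⟩, ?_⟩)
    exact beq_iff_eq.2 ((h2 w' h9).2.trans (h2 w hw).2.symm)
  have h8 := (Finset.card_le_card h7).trans (List.toFinset_card_le _)
  rw [Finset.card_erase_of_mem hw] at h8
  simp only [cnt, List.tail_cons, List.getD_cons_zero] at h6
  omega

theorem clone (hU : Opt U) (hr : 2 ≤ r) {W : List Str → Prop} (hW : Sig W)
    (det : ∀ v v', W v → W v' → co v 0 = co v' 0 → v = v') :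
    ∃ (Q : List ℕ → ℕ → Str → Prop) (c : ℕ),
      (Sig fun z : (List ℕ × ℕ) × Str => Q z.1.1 z.1.2 z.2) ∧
      (∀ p j j' u u', Q p j u → Q p j' u' → (j = j' ↔ u = u')) ∧
      ∀ v N, W v → (∀ i < r, K U (co v i) ≤ N) → ∃ p γ, p.length = r + 2 ∧
        (∀ x ∈ p, x ≤ c * (N + 1)) ∧ γ ≤ K U (co v 1) ∧ K U (co v 1) ≤ γ + c * lg N ∧
        (∀ j < 2 ^ γ, ∃ u, Q p j u) ∧ ∀ j u d, Q p j u → K U (co v 1) ≤ K U u + d →
          ∃ w, W w ∧ co w 1 = u ∧ ∀ i < r, K U (co w i) ≤ K U (co v i) ∧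
            K U (co v i) ≤ K U (co w i) + d + c * lg N := by
  classical
  let R : List ℕ → List Str → Prop := fun a v =>
    W v ∧ ∀ i ∈ List.range r, K U (co v i) ≤ a.getD i 0
  have s0 : Sig fun z : List ℕ × List Str => R z.1 z.2 := (hW.comp snd).and (Sig.ball
    (hU.sig (co_prim (snd.comp fst) snd) ((list_getD 0).comp (fst.comp fst) snd)) (const _))
  obtain ⟨en, he⟩ := s0.enum
  have s1 := early_sig (r := r) he
  obtain ⟨c₀, h₀⟩ := hU.closeL (R := fun a u u' => ∃ v, W v ∧ co v 0 = u ∧ co v (a.getD 0 0) = u')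
    (Sig.ex ((hW.comp snd).and (Sig.prim ((Primrec.eq.comp (co_prim snd (const 0))
      (snd.comp (fst.comp fst))).and (Primrec.eq.comp (co_prim snd
        (gD (fst.comp (fst.comp fst)) 0)) (snd.comp fst)))))) 1 r
  obtain ⟨c₁, h₁⟩ := hU.enumL (R := fun a u => Many (2 ^ a.getD 0 0) fun w =>
      R a.tail.tail w ∧ co w (a.tail.getD 0 0) = u)
    (Sig.many ((s0.comp ((tl (tl (fst.comp fst))).pair snd)).and (Sig.prim (Primrec.eq.comp
      (co_prim snd (gD (tl (fst.comp fst)) 0)) (snd.comp fst)))) (pow2.comp (gD fst 0))) (r + 2)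
    (r + 1)
  obtain ⟨e, hed⟩ : ∃ e, e = c₀ + c₁ + r + 4 := ⟨_, rfl⟩
  obtain ⟨c₂, h₂⟩ := hU.condL (R := fun a u u' => ∃ w, Early en r a w ∧ co w 1 = u ∧ co w 0 = u')
    (Sig.ex ((s1.comp ((fst.comp (fst.comp fst)).pair snd)).and (Sig.prim ((Primrec.eq.comp
      (co_prim snd (const 1)) (snd.comp (fst.comp fst))).and (Primrec.eq.comp
        (co_prim snd (const 0)) (snd.comp fst)))))) (r + 1) e
  let P : List ℕ → Str → Prop := fun a u => Many (2 ^ a.getD 0 0) fun w =>
    Early en r a.tail w ∧ co w 1 = u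
  have s2 : Sig fun z : List ℕ × Str => P z.1 z.2 :=
    Sig.many ((s1.comp ((tl (fst.comp fst)).pair snd)).and (Sig.prim (Primrec.eq.comp
      (co_prim snd (const 1)) (snd.comp fst)))) (pow2.comp (gD fst 0))
  obtain ⟨enP, hP⟩ := s2.enum
  obtain ⟨c₃, h₃⟩ := hU.enumL s2 (r + 2) e
  have g0 : Primrec fun z : (List ℕ × Str) × List Str => z.1.1 := fst.comp fst
  obtain ⟨c₄, h₄⟩ := hU.enumL (R := fun a u => Many (2 ^ a.getD 0 0) fun w =>
      (Early en r a.tail.tail.tail w ∧ K U (co w (a.tail.getD 0 0)) ≤ a.tail.tail.getD 0 0) ∧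
        co w 1 = u)
    (Sig.many (((s1.comp ((tl (tl (tl g0))).pair snd)).and (hU.sig (co_prim snd (gD (tl g0) 0))
      (gD (tl (tl g0)) 0))).and (Sig.prim (Primrec.eq.comp (co_prim snd (const 1))
        (snd.comp fst)))) (pow2.comp (gD fst 0))) (r + 4) e
  refine ⟨fun p j u => ∃ t, (enP p t)[j]? = some u, e + c₂ + c₃ + c₄ + 3,
    hP.sig (fst.comp fst) (snd.comp fst) snd, fun p j j' u u' ⟨t, h⟩ ⟨t', h'⟩ =>
      ⟨fun e => (hP.get h (e ▸ h')).1, fun e => hP.inj h (e ▸ h')⟩, fun v N hv hN => ?_⟩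
  obtain ⟨a, ha⟩ : ∃ a, a = (List.range r).map fun i => K U (co v i) := ⟨_, rfl⟩
  have a1 : ∀ i < r, a.getD i 0 = K U (co v i) := fun i hi => by simp [ha, hi]
  have a2 : a.length = r := by simp [ha]
  have a3 : ∀ x ∈ a, x ≤ N := fun x hx => by
    rw [ha] at hx
    obtain ⟨i, hi, rfl⟩ := List.mem_map.1 hx
    exact hN i (List.mem_range.1 hi)
  have l1 := lg_pos N
  have l2 := lg_le N
  obtain ⟨L, hL⟩ : ∃ L, L = (c₀ + c₁ + 2) * lg N := ⟨_, rfl⟩
  have b0 : N + L + r + 2 ≤ e * (N + 1) := by rw [hL, hed]; nlinarith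
  have b1 : ∀ x ∈ L :: a, x ≤ e * (N + 1) := fun x hx => by
    rcases List.mem_cons.1 hx with rfl | hx
    · omega
    · have := a3 x hx; omega
  have rv : R a v := ⟨hv, fun i hi => (a1 i (List.mem_range.1 hi)).ge⟩
  have f0 : ¬ Many (2 ^ (a.getD 0 0 + 1)) (R a) := fun h => hU.few _ (h.rel (fun w u => co w 0 = u)
    (fun w hw => ⟨_, rfl, hw.2 0 (List.mem_range.2 (by omega))⟩)
    fun w w' u h1 h2 h3 h4 => det _ _ h1.1 h2.1 (h3.trans h4.symm))
  have f1 : ∀ i < r, a.getD i 0 ≤ a.getD 0 0 + c₀ * lg N := fun i hi => by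
    rw [a1 i hi, a1 0 (by omega)]
    exact h₀ N [i] _ _ le_rfl (by simp; nlinarith) ⟨v, hv, rfl, rfl⟩
      fun u ⟨w, h1, h2, h3⟩ => by rw [← h3, det _ _ h1 hv h2]; rfl
  have n0 := hN 0 (by omega)
  have n1 := hN 1 (by omega)
  rw [← a1 0 (by omega)] at n0
  have ev : Early en r (L :: a) v := early_of he rv fun i hi h => by
    have h1 := f1 i hi
    have h2 : L = c₀ * lg N + c₁ * lg N + 2 * lg N := by rw [hL]; ring
    generalize hs : a.getD 0 0 + L - a.getD i 0 = s at h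
    rcases le_or_gt s (a.getD 0 0) with c | c
    · have := h₁ N (s :: i :: a) (co v i) (a.getD 0 0 + 1 - s) (by simp [a2]) (by
        simp only [List.mem_cons, forall_eq_or_imp]
        exact ⟨by nlinarith, by nlinarith, fun x hx => by have := a3 x hx; nlinarith⟩)
        ((Nat.sub_le _ _).trans (by nlinarith)) h fun h3 => f0 ((Many.fiber _ h3).mono (by
          rw [List.getD_cons_zero, add_mul, ← pow_add, Nat.sub_add_cancel (by omega)]
          omega) fun _ h => h)
      rw [← a1 i hi] at this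
      omega
    · exact f0 (h.mono (Nat.pow_le_pow_right (by norm_num) c) fun _ h => h.1)
  obtain ⟨β, β1, β2, β3⟩ := exlog (p := fun w => Early en r (L :: a) w ∧ co w 1 = co v 1)
    ⟨ev, rfl⟩ (a.getD 0 0 + L - a.getD 1 0) fun h => early_few he L a (by omega : 1 < r) _
      (h.mono (Nat.pow_lt_pow_right one_lt_two (by omega)) fun _ h => h)
  have f2 := h₂ N (L :: a) (co v 1) (co v 0) (β + 1) (by simp [a2]) b1 (by omega) ⟨v, ev, rfl, rfl⟩
    fun h => β3 ((h.rel (fun u w => co w 0 = u) (fun u ⟨w, h1, h2, h3⟩ => ⟨w, h3, h1, h2⟩)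
      fun _ _ _ _ _ h1 h2 => h1.symm.trans h2).mono (by omega) fun _ h => h)
  have b2 : ∀ x ∈ β :: L :: a, x ≤ e * (N + 1) := fun x hx => by
    rcases List.mem_cons.1 hx with rfl | hx
    · omega
    · exact b1 x hx
  obtain ⟨γ, γ1, γ2, γ3⟩ := exlog (p := P (β :: L :: a)) β2 (K U (co v 1)) fun h =>
    hU.few _ (h.mono le_rfl fun u hu => by
      obtain ⟨w, h1, rfl⟩ := Many.ex hu (by positivity)
      rw [← a1 1 (by omega)]
      exact (early_mem he h1).2 1 (List.mem_range.2 (by omega)))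
  have f3 := h₃ N (β :: L :: a) (co v 1) (γ + 1) (by simp [a2]) b2 (by omega) β2
    fun h => γ3 (h.mono (by omega) fun _ h => h)
  refine ⟨β :: L :: a, γ, by simp [a2], fun x hx => (b2 x hx).trans (by nlinarith), γ1,
    by nlinarith, fun j hj => hP.full γ2 hj, fun j u d ⟨t, ht⟩ hd => ?_⟩
  obtain ⟨F, F1, F2⟩ : P (β :: L :: a) u := (hP.mem _ _).2 ⟨t, List.mem_of_getElem? ht⟩
  obtain ⟨D, hD⟩ : ∃ D, D = d + (e + c₂ + c₃ + c₄ + 3) * lg N := ⟨_, rfl⟩
  have f4 : ∀ i < r, (F.filter fun w => K U (co w i) + D ≤ a.getD i 0).card ≤ 2 ^ (β - r) - 1 := by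
    intro i hi
    by_contra c
    have h1 : 0 < 2 ^ (β - r) := by positivity
    obtain ⟨w, hw⟩ := Finset.card_pos.1 ((Nat.zero_le _).trans_lt (not_le.1 c))
    have h2 := (Finset.mem_filter.1 hw).2
    have h3 : Many (2 ^ (β - r)) fun w => (Early en r (L :: a) w ∧
        K U (co w i) ≤ a.getD i 0 - D) ∧ co w 1 = u :=
      ⟨F.filter fun w => K U (co w i) + D ≤ a.getD i 0, by omega, fun w hw => by
      have := Finset.mem_filter.1 hw
      exact ⟨⟨(F2 w this.1).1, by omega⟩, (F2 w this.1).2⟩⟩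
    have h4 : ¬ Many (2 ^ (a.getD i 0 - D + 1) * 2 ^ (a.getD 0 0 + L - a.getD i 0) + 1) fun w =>
        Early en r (L :: a) w ∧ K U (co w i) ≤ a.getD i 0 - D :=
      not_many_mul (fun w => co w i) (fun h => hU.few _ (h.mono (Nat.le_succ _) fun _ h => h))
        (fun _ h => h.2) fun u h => early_few he L a hi u (h.mono le_rfl fun _ h => ⟨h.1.1, h.2⟩)
    have h5 := f1 i hi
    have h6 : L = c₀ * lg N + c₁ * lg N + 2 * lg N := by rw [hL]; ring
    have h7 := hN i hi
    rw [← a1 i hi] at h7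
    rw [← pow_add] at h4
    generalize hs : a.getD i 0 - D + 1 + (a.getD 0 0 + L - a.getD i 0) = s at h4
    rcases le_or_gt (β - r) s with c2 | c2
    · have := h₄ N ((β - r) :: i :: (a.getD i 0 - D) :: L :: a) u (s - (β - r)) (by simp [a2]) (by
        intro x hx
        rcases List.mem_cons.1 hx with rfl | hx
        · omega
        rcases List.mem_cons.1 hx with rfl | hx
        · omega
        rcases List.mem_cons.1 hx with rfl | hx
        · omega
        exact b1 x hx) (by omega) h3 fun h8 => h4 ((Many.fiber _ h8).mono (by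
          rw [List.getD_cons_zero, add_mul, ← pow_add, Nat.sub_add_cancel c2]
          omega) fun _ h => h)
      rw [← a1 0 (by omega)] at f2
      have h9 : D = d + (c₀ * lg N + c₁ * lg N + r * lg N + c₂ * lg N + c₃ * lg N + c₄ * lg N +
        7 * lg N) := by rw [hD, hed]; ring
      have h10 : r ≤ r * lg N := Nat.le_mul_of_pos_right _ l1
      omega
    · exact h4 (h3.mono (Nat.pow_lt_pow_right one_lt_two c2) fun _ h => h.1)
  obtain ⟨w, w1, w2⟩ := Finset.exists_mem_notMem_of_card_lt_card (s := (Finset.range r).biUnion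
      fun i => F.filter fun w => K U (co w i) + D ≤ a.getD i 0) (t := F) (by
    refine (Finset.card_biUnion_le_card_mul _ _ _ fun i hi =>
      f4 i (Finset.mem_range.1 hi)).trans_lt (lt_of_lt_of_le ?_ F1)
    rw [Finset.card_range, List.getD_cons_zero]
    rcases le_or_gt r β with c | c
    · obtain ⟨k, rfl⟩ := Nat.exists_eq_add_of_le c
      rw [Nat.add_sub_cancel_left, pow_add]
      exact Nat.mul_lt_mul_of_lt_of_le Nat.lt_two_pow_self (Nat.sub_le _ _) (by positivity)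
    · simp [Nat.sub_eq_zero_of_le c.le])
  have w3 := early_mem he (F2 w w1).1
  refine ⟨w, w3.1, (F2 w w1).2, fun i hi => ?_⟩
  rw [← a1 i hi, add_assoc, ← hD]
  refine ⟨w3.2 i (List.mem_range.2 hi), le_of_not_ge fun c => w2 (Finset.mem_biUnion.2
    ⟨i, Finset.mem_range.2 hi, Finset.mem_filter.2 ⟨w1, c⟩⟩)⟩

end Pool.Agent.Lib.helper21.KC
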