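import Pool.Agent.H.MP_d04dff_lc.C

set_option autoImplicit false

/-! Enumerable predicates, their enumerations, and complexity bounds from counting. -/

namespace Pool.Agent.Lib.helper21.KC

open Encodable Primrec Pool.Agent.H.MP_d04dff_lc
open Nat.Partrec.Code

variable {α β γ : Type} [Primcodable α] [Primcodable β] [Primcodable γ]

def Sig (R : α → Prop) : Prop := ∃ q : α → ℕ → Prop, PrimrecRel q ∧ ∀ a, R a ↔ ∃ t, q a t

theorem Sig.of_eq {R R' : α → Prop} (h : Sig R) (e : ∀ a, R a ↔ R' a) : Sig R' :=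
  funext (fun a => propext (e a)) ▸ h

theorem Sig.prim {R : α → Prop} (h : PrimrecPred R) : Sig R :=
  ⟨fun a _ => R a, h.comp fst, fun _ => by simp⟩

theorem Sig.comp {R : β → Prop} (h : Sig R) {f : α → β} (hf : Primrec f) : Sig fun a => R (f a) :=
  let ⟨q, hq, e⟩ := h
  ⟨fun a t => q (f a) t, hq.comp (hf.comp fst) snd, fun a => e (f a)⟩

theorem Sig.and {R R' : α → Prop} (h : Sig R) (h' : Sig R') : Sig fun a => R a ∧ R' a := by
  obtain ⟨q, hq, e⟩ := h
  obtain ⟨q', hq', e'⟩ := h'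
  refine ⟨fun a t => q a t.unpair.1 ∧ q' a t.unpair.2,
    (hq.comp fst (fst.comp (unpair.comp snd))).and (hq'.comp fst (snd.comp (unpair.comp snd))),
    fun a => ⟨fun ⟨h, h'⟩ => ?_, fun ⟨t, h, h'⟩ => ⟨(e a).2 ⟨_, h⟩, (e' a).2 ⟨_, h'⟩⟩⟩⟩
  obtain ⟨t, h⟩ := (e a).1 h
  obtain ⟨t', h'⟩ := (e' a).1 h'
  exact ⟨t.pair t', by simpa using ⟨h, h'⟩⟩

theorem Sig.or {R R' : α → Prop} (h : Sig R) (h' : Sig R') : Sig fun a => R a ∨ R' a := by
  obtain ⟨q, hq, e⟩ := h
  obtain ⟨q', hq', e'⟩ := h'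
  exact ⟨fun a t => q a t ∨ q' a t, hq.or hq', fun a => by simp only [e, e', exists_or]⟩

theorem Sig.ex {R : α → β → Prop} (h : Sig fun z : α × β => R z.1 z.2) : Sig fun a => ∃ b, R a b := by
  obtain ⟨q, hq, e⟩ := h
  have h1 : Primrec fun z : α × ℕ => (decode (α := β) z.2.unpair.1).toList :=
    optionToList.comp (Primrec.decode.comp (fst.comp (unpair.comp snd)))
  have h2 : PrimrecRel fun (b : β) (z : α × ℕ) => q (z.1, b) z.2.unpair.2 :=
    hq.comp ((fst.comp snd).pair fst) (snd.comp (unpair.comp (snd.comp snd)))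
  refine ⟨fun a t => ∃ b ∈ (decode (α := β) t.unpair.1).toList, q (a, b) t.unpair.2,
    h2.exists_mem_list.comp h1 .id,
    fun a => ⟨fun ⟨b, h⟩ => ?_, fun ⟨t, b, _, h⟩ => ⟨b, (e (a, b)).2 ⟨_, h⟩⟩⟩⟩
  obtain ⟨t, h⟩ := (e (a, b)).1 h
  exact ⟨(encode b).pair t, b, by simp, by simpa using h⟩

theorem Sig.ball {R : α → β → Prop} (h : Sig fun z : α × β => R z.1 z.2) {l : α → List β}
    (hl : Primrec l) : Sig fun a => ∀ b ∈ l a, R a b := by
  obtain ⟨q, hq, e⟩ := h
  have h1 : PrimrecRel fun (u : ℕ) (z : α × β) => q z u := hq.comp snd fst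
  have h2 : PrimrecRel fun (b : β) (z : α × ℕ) => ∃ u ∈ List.range z.2, q (z.1, b) u :=
    h1.exists_mem_list.comp (list_range.comp (snd.comp snd)) ((fst.comp snd).pair fst)
  refine ⟨fun a t => ∀ b ∈ l a, ∃ u ∈ List.range t, q (a, b) u,
    h2.forall_mem_list.comp (hl.comp fst) .id,
    fun a => ⟨fun h => ?_, fun ⟨t, h⟩ b hb => let ⟨u, _, hu⟩ := h b hb; (e (a, b)).2 ⟨u, hu⟩⟩⟩
  dsimp only at h ⊢
  generalize l a = L at h ⊢
  induction L with
  | nil => simp
  | cons b L ih =>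
    obtain ⟨t, ht⟩ := ih fun c hc => h c (List.mem_cons_of_mem _ hc)
    obtain ⟨u, hu⟩ := (e (a, b)).1 (h b List.mem_cons_self)
    refine ⟨max t (u + 1), fun c hc => ?_⟩
    rcases List.mem_cons.1 hc with rfl | hc
    · exact ⟨u, List.mem_range.2 (by omega), hu⟩
    · obtain ⟨v, h1, h2⟩ := ht c hc
      exact ⟨v, List.mem_range.2 (by have := List.mem_range.1 h1; omega), h2⟩

theorem Sig.mem {f : α →. β} (hf : Partrec f) : Sig fun z : α × β => z.2 ∈ f z.1 := by
  obtain ⟨c, hc⟩ := exists_code.1 hf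
  refine ⟨fun z t => evaln t c (encode z.1) = some (encode z.2), Primrec.eq.comp
    (primrec_evaln.comp ((snd.pair (Primrec.const c)).pair (Primrec.encode.comp (fst.comp fst))))
    (option_some.comp (Primrec.encode.comp (snd.comp fst))), fun z => ?_⟩
  refine Iff.trans ?_ evaln_complete
  rw [hc]
  simp only [encodek, Part.coe_some, Part.bind_some, Part.mem_map_iff, encode_inj,
    exists_eq_right]

theorem Sig.graph {f : α → β} (hf : Computable f) {a : γ → α} {b : γ → β} (ha : Primrec a)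
    (hb : Primrec b) : Sig fun z => b z = f (a z) :=
  ((Sig.mem hf.partrec).comp (ha.pair hb)).of_eq fun z => by simp

theorem Sig.ccomp {R : α → β → Prop} (h : Sig fun z : α × β => R z.1 z.2) {f : γ → β}
    (hf : Computable f) {g : α → γ} (hg : Primrec g) : Sig fun a => R a (f (g a)) :=
  (Sig.ex (R := fun a b => b = f (g a) ∧ R a b)
    ((Sig.graph hf (hg.comp fst) snd).and h)).of_eq fun a => by simp

theorem Sig.unif {R : α → β → Prop} (h : Sig fun z : α × β => R z.1 z.2) : ∃ f : α →. β,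
    Partrec f ∧ (∀ a b, b ∈ f a → R a b) ∧ ∀ a b, R a b → ∃ b', b' ∈ f a := by
  classical
  obtain ⟨q, hq, e⟩ := h
  have h1 : Primrec fun z : α × ℕ => (decode (α := β) z.2.unpair.1).bind fun b =>
      if q (z.1, b) z.2.unpair.2 then some b else none :=
    option_bind (Primrec.decode.comp (fst.comp (unpair.comp snd))) (Primrec.ite
      (hq.comp ((fst.comp fst).pair snd) (snd.comp (unpair.comp (snd.comp fst))))
      (option_some.comp snd) (const none)).to₂
  refine ⟨fun a => Nat.rfindOpt fun t => (decode (α := β) t.unpair.1).bind fun b =>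
    if q (a, b) t.unpair.2 then some b else none, Partrec.rfindOpt h1.to_comp, fun a b hb => ?_,
    fun a b hb => ?_⟩
  · obtain ⟨t, ht⟩ := Nat.rfindOpt_spec hb
    simp only [Option.mem_def, Option.bind_eq_some_iff, Option.ite_none_right_eq_some,
      Option.some.injEq] at ht
    obtain ⟨_, _, h2, rfl⟩ := ht
    exact (e (a, _)).2 ⟨_, h2⟩
  · obtain ⟨t, ht⟩ := (e (a, b)).1 hb
    exact Part.dom_iff_mem.1 (Nat.rfindOpt_dom.2 ⟨(encode b).pair t, b, by simp [ht]⟩)

theorem Sig.choice {R : α → β → Prop} (h : Sig fun z : α × β => R z.1 z.2) (h' : ∀ a, ∃ b, R a b) :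
    ∃ f : α → β, Computable f ∧ ∀ a, R a (f a) := by
  obtain ⟨f, h1, h2, h3⟩ := h.unif
  choose g hg using fun a => let ⟨b, hb⟩ := h' a; h3 a b hb
  exact ⟨g, h1.of_eq_tot hg, fun a => h2 _ _ (hg a)⟩

theorem mem_prim : PrimrecRel fun (b : β) (L : List β) => b ∈ L :=
  ((Primrec.eq (α := β)).exists_mem_list.comp snd fst).of_eq fun z => by simp

/-- Stagewise enumeration without repetitions. -/
structure Enum (R : α → β → Prop) (en : α → ℕ → List β) : Prop where
  prim : Primrec₂ en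
  mono : ∀ a t t', t ≤ t' → en a t <+: en a t'
  nodup : ∀ a t, (en a t).Nodup
  mem : ∀ a b, R a b ↔ ∃ t, b ∈ en a t

theorem Sig.enum {R : α → β → Prop} (h : Sig fun z : α × β => R z.1 z.2) : ∃ en, Enum R en := by
  classical
  obtain ⟨q, hq, e⟩ := h
  let st : α → ℕ → List β → List β := fun a t L => L ++ ((decode (α := β) t.unpair.1).bind
    fun b => if q (a, b) t.unpair.2 ∧ b ∉ L then some b else none).toList
  have h1 : Primrec fun z : α × ℕ × List β => st z.1 z.2.1 z.2.2 :=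
    list_append.comp (snd.comp snd) (optionToList.comp (option_bind
      (Primrec.decode.comp (fst.comp (unpair.comp (fst.comp snd)))) (Primrec.ite
        ((hq.comp ((fst.comp fst).pair snd) (snd.comp (unpair.comp (fst.comp (snd.comp fst))))).and
          (mem_prim.comp snd (snd.comp (snd.comp fst))).not) (option_some.comp snd)
        (const none)).to₂))
  have h2 : ∀ a t L, st a t L = L ∨ ∃ b, q (a, b) t.unpair.2 ∧ b ∉ L ∧ st a t L = L ++ [b] := by
    intro a t L
    cases h : decode (α := β) t.unpair.1 with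
    | none => simp [st, h]
    | some b =>
      by_cases c : q (a, b) t.unpair.2 ∧ b ∉ L
      · exact Or.inr ⟨b, c.1, c.2, by simp [st, h, c]⟩
      · left
        simp only [st, h, Option.bind_some, if_neg c, Option.toList_none, List.append_nil]
  let en : α → ℕ → List β := fun a t => Nat.rec [] (st a) t
  have h3 : ∀ a t, en a (t + 1) = st a t (en a t) := fun _ _ => rfl
  refine ⟨en, Primrec.nat_rec (const []) h1.to₂, fun a t t' h => ?_, fun a t => ?_,
    fun a b => ⟨fun h => ?_, fun ⟨t, h⟩ => ?_⟩⟩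
  · induction h with
    | refl => exact List.prefix_rfl
    | step _ ih => exact ih.trans (List.prefix_append _ _)
  · induction t with
    | zero => exact List.nodup_nil
    | succ t ih =>
      rw [h3]
      rcases h2 a t (en a t) with h | ⟨b, -, h4, h⟩ <;> rw [h]
      · exact ih
      · exact List.Nodup.append ih (List.nodup_singleton _) (by simpa using h4)
  · obtain ⟨t, ht⟩ := (e (a, b)).1 h
    refine ⟨(encode b).pair t + 1, ?_⟩
    rcases em (b ∈ en a ((encode b).pair t)) with c | c <;> simp [h3, st, ht, c]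
  · induction t with
    | zero => simp [en] at h
    | succ t ih =>
      rw [h3] at h
      rcases h2 a t (en a t) with h5 | ⟨b', h4, -, h5⟩ <;> rw [h5] at h
      · exact ih h
      · rcases List.mem_append.1 h with h | h
        · exact ih h
        · rw [List.mem_singleton.1 h]
          exact (e (a, b')).2 ⟨_, h4⟩

variable {R : α → β → Prop} {en : α → ℕ → List β}

theorem Enum.get (h : Enum R en) {a : α} {t t' j : ℕ} {b b' : β} (h1 : (en a t)[j]? = some b)
    (h2 : (en a t')[j]? = some b') : b = b' ∧ (en a t).take j = (en a t').take j := by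
  have key : ∀ t t' b b', t ≤ t' → (en a t)[j]? = some b → (en a t')[j]? = some b' →
      b = b' ∧ (en a t).take j = (en a t').take j := fun t t' b b' ht h1 h2 => by
    obtain ⟨s, hs⟩ := h.mono a t t' ht
    have h3 := (List.getElem?_eq_some_iff.1 h1).1
    rw [← hs] at h2 ⊢
    rw [List.getElem?_append_left h3, h1] at h2
    exact ⟨Option.some.inj h2, (List.take_append_of_le_length h3.le).symm⟩
  rcases le_total t t' with c | c
  · exact key _ _ _ _ c h1 h2
  · exact ⟨(key _ _ _ _ c h2 h1).1.symm, (key _ _ _ _ c h2 h1).2.symm⟩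

theorem Enum.inj (h : Enum R en) {a : α} {t t' j j' : ℕ} {b : β} (h1 : (en a t)[j]? = some b)
    (h2 : (en a t')[j']? = some b) : j = j' := by
  have key : ∀ t j, t ≤ max t t' → ∀ u, t ≤ u → (en a t)[j]? = some b →
      (en a u)[j]? = some b := fun t j _ u hu h1 => by
    obtain ⟨s, hs⟩ := h.mono a t u hu
    rw [← hs, List.getElem?_append_left (List.getElem?_eq_some_iff.1 h1).1, h1]
  have h3 := key t j (le_max_left _ _) _ (le_max_left t t') h1
  have h4 := key t' j' (le_max_left _ _) _ (le_max_right t t') h2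
  exact (List.getElem?_inj (List.getElem?_eq_some_iff.1 h3).1 (h.nodup _ _)).1 (h3.trans h4.symm)

theorem Enum.all (h : Enum R en) (a : α) (F : Finset β) (hF : ∀ b ∈ F, R a b) :
    ∃ t, ∀ b ∈ F, b ∈ en a t := by
  choose! t ht using fun b hb => (h.mem a b).1 (hF b hb)
  exact ⟨F.sup t, fun b hb => (h.mono a _ _ (Finset.le_sup hb)).subset (ht b hb)⟩

theorem Enum.sig (h : Enum R en) {a : γ → α} {j : γ → ℕ} {b : γ → β} (ha : Primrec a)
    (hj : Primrec j) (hb : Primrec b) : Sig fun z => ∃ t, (en (a z) t)[j z]? = some (b z) :=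
  Sig.ex (Sig.prim (Primrec.eq.comp (list_getElem?.comp (h.prim.comp (ha.comp fst) snd)
    (hj.comp fst)) (option_some.comp (hb.comp fst))))

/-- At least `n` solutions. -/
def Many (n : ℕ) (p : β → Prop) : Prop := ∃ F : Finset β, n ≤ F.card ∧ ∀ b ∈ F, p b

theorem Sig.many (h : Sig fun z : α × β => R z.1 z.2) {n : α → ℕ} (hn : Primrec n) :
    Sig fun a => Many (n a) (R a) := by
  classical
  obtain ⟨en, he⟩ := h.enum
  refine (Sig.ex (R := fun a t => n a ≤ (en a t).length) (Sig.prim (nat_le.comp (hn.comp fst)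
    (list_length.comp he.prim)))).of_eq fun a => ⟨fun ⟨t, h⟩ => ⟨(en a t).toFinset, ?_,
      fun b hb => (he.mem _ _).2 ⟨t, List.mem_toFinset.1 hb⟩⟩, fun ⟨F, h1, h2⟩ => ?_⟩
  · rwa [List.toFinset_card_of_nodup (he.nodup _ _)]
  · obtain ⟨t, ht⟩ := he.all a F h2
    exact ⟨t, h1.trans ((Finset.card_le_card fun b hb => List.mem_toFinset.2 (ht b hb)).trans
      (List.toFinset_card_le _))⟩

theorem Enum.idx (h : Enum R en) {a : α} {b : β} (hb : R a b) {n : ℕ} (hn : ¬ Many (n + 1) (R a)) :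
    ∃ j < n, ∃ t, (en a t)[j]? = some b := by
  classical
  obtain ⟨t, ht⟩ := (h.mem a b).1 hb
  obtain ⟨j, hj, e⟩ := List.mem_iff_getElem.1 ht
  refine ⟨j, ?_, t, by rw [List.getElem?_eq_getElem hj, e]⟩
  by_contra c
  refine hn ⟨(en a t).toFinset, ?_, fun b hb => (h.mem _ _).2 ⟨t, List.mem_toFinset.1 hb⟩⟩
  rw [List.toFinset_card_of_nodup (h.nodup _ _)]
  omega

theorem Enum.full (h : Enum R en) {a : α} {n j : ℕ} (hn : Many n (R a)) (hj : j < n) :
    ∃ b t, (en a t)[j]? = some b := by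
  classical
  obtain ⟨F, h1, h2⟩ := hn
  obtain ⟨t, ht⟩ := h.all a F h2
  have := h1.trans ((Finset.card_le_card fun b hb => List.mem_toFinset.2 (ht b hb)).trans
      (List.toFinset_card_le _))
  exact ⟨_, t, List.getElem?_eq_getElem (by omega)⟩

/-- Optimal plain machine. -/
def Opt (U : List Bool →. List Bool) : Prop :=
  Partrec U ∧ ∀ V : List Bool →. List Bool, Partrec V → ∃ c, Best U V c

variable {U : Str →. Str}

theorem Opt.base (hU : Opt U) : ∃ b, ∀ s, K U s ≤ s.length + b :=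
  let ⟨b, hb⟩ := hU.2 _ Partrec.some
  ⟨b, fun s => hb.le (Part.mem_some s)⟩

theorem Opt.spec (hU : Opt U) (s : Str) : ∃ q, s ∈ U q ∧ q.length = K U s :=
  let ⟨_, hb⟩ := hU.2 _ Partrec.some
  let ⟨_, h, _⟩ := hb s s (Part.mem_some s)
  K_spec h

theorem Opt.sig (hU : Opt U) {s : α → Str} {k : α → ℕ} (hs : Primrec s) (hk : Primrec k) :
    Sig fun a => K U (s a) ≤ k a :=
  (Sig.ex (R := fun a p => s a ∈ U p ∧ List.length p ≤ k a) (((Sig.mem hU.1).comp
    (snd.pair (hs.comp fst))).and (Sig.prim (nat_le.comp (list_length.comp snd)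
      (hk.comp fst))))).of_eq fun a =>
    ⟨fun ⟨_, h1, h2⟩ => (K_le h1).trans h2, fun h => let ⟨q, h1, h2⟩ := hU.spec (s a)
      ⟨q, h1, h2.trans_le h⟩⟩

theorem Opt.few (hU : Opt U) (n : ℕ) : ¬ Many (2 ^ (n + 1)) fun s => K U s ≤ n :=
  fun ⟨F, h1, h2⟩ => (Pool.Agent.H.MP_d04dff_lc.few F fun s hs =>
    let ⟨q, h3, h4⟩ := hU.spec s; ⟨q, h3, h4.trans_le (h2 s hs)⟩).not_ge h1

/-- Describing `v` by advice, an index and a description of `u`. -/
theorem Opt.cond (hU : Opt U) {R : ℕ → Str → Str → Prop}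
    (h : Sig fun z : (ℕ × Str) × Str => R z.1.1 z.1.2 z.2) : ∃ c, ∀ a u v l, R a u v →
      ¬ Many (2 ^ l + 1) (R a u) → K U v ≤ K U u + l + 2 * Nat.log 2 a + 2 * Nat.log 2 l + c := by
  obtain ⟨en, he⟩ := Sig.enum (R := fun (z : ℕ × Str) v => R z.1 z.2 v) h
  have d1 : Primrec fun z : (Str × Str) × Str => dec z.1.1 := dec_prim.comp (fst.comp fst)
  have d2 : Primrec fun z : (Str × Str) × Str => dec (dec z.1.1).2 := dec_prim.comp (snd.comp d1)
  have h1 : Sig fun z : Str × Str => ∃ u, u ∈ U ((dec (dec z.1).2).2.drop (dec (dec z.1).2).1) ∧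
      ∃ t, (en ((dec z.1).1, u) t)[val ((dec (dec z.1).2).2.take (dec (dec z.1).2).1)]? =
        some z.2 :=
    Sig.ex (((Sig.mem hU.1).comp ((list_drop.comp (fst.comp d2) (snd.comp d2)).pair snd)).and
      (he.sig ((fst.comp d1).pair snd) (val_prim.comp (list_take.comp (fst.comp d2) (snd.comp d2)))
        (snd.comp fst)))
  obtain ⟨M, h2, h3, h4⟩ := Sig.unif (R := fun p v => ∃ u,
    u ∈ U ((dec (dec p).2).2.drop (dec (dec p).2).1) ∧ ∃ t, (en ((dec p).1, u) t)[val
      ((dec (dec p).2).2.take (dec (dec p).2).1)]? = some v) h1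
  obtain ⟨c, hc⟩ := hU.2 M h2
  refine ⟨c + 6, fun a u v l h5 h6 => ?_⟩
  obtain ⟨j, hj, t, ht⟩ := he.idx (a := (a, u)) h5 h6
  obtain ⟨w, hw, rfl⟩ := val_surj l j hj
  obtain ⟨q, hq, hq'⟩ := hU.spec u
  obtain ⟨p₂, e2, l2⟩ := dec_surj l (w ++ q)
  obtain ⟨p₁, e1, l1⟩ := dec_surj a p₂
  obtain ⟨v', hv⟩ := h4 p₁ v ⟨u, by simpa [e1, e2, ← hw] using hq, t, by
    simpa [e1, e2, ← hw] using ht⟩
  obtain ⟨u', h7, t', h8⟩ := h3 _ _ hv
  simp only [e1, e2, ← hw, List.drop_left, List.take_left] at h7 h8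
  obtain rfl := Part.mem_unique hq h7
  obtain rfl := (he.get ht h8).1
  have := hc.le hv
  rw [List.length_append] at l2
  omega

theorem Opt.enum (hU : Opt U) {R : ℕ → Str → Prop} (h : Sig fun z : ℕ × Str => R z.1 z.2) :
    ∃ c, ∀ a v l, R a v → ¬ Many (2 ^ l + 1) (R a) →
      K U v ≤ l + 2 * Nat.log 2 a + 2 * Nat.log 2 l + c := by
  obtain ⟨c, hc⟩ := hU.cond (R := fun a _ v => R a v) (h.comp ((fst.comp fst).pair snd))
  exact ⟨K U [] + c, fun a v l h1 h2 => by have := hc a [] v l h1 h2; omega⟩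

theorem Opt.close (hU : Opt U) {R : ℕ → Str → Str → Prop}
    (h : Sig fun z : (ℕ × Str) × Str => R z.1.1 z.1.2 z.2) : ∃ c, ∀ a u v, R a u v →
      (∀ v', R a u v' → v' = v) → K U v ≤ K U u + 2 * Nat.log 2 a + c := by
  obtain ⟨c, hc⟩ := hU.cond h
  refine ⟨c, fun a u v h1 h2 => ?_⟩
  have := hc a u v 0 h1 fun ⟨F, h3, h4⟩ => by
    have := Finset.card_le_card (show F ⊆ {v} from fun b hb => by simpa using h2 b (h4 b hb))
    simp at this h3
    omega
  simpa using this

end Pool.Agent.Lib.helper21.KC
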