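import Pool.Agent.Lib.helper21.ML
import Pool.Agent.Lib.helper21.Sig

set_option autoImplicit false

/-! Binary expansions: numerators, cells, their measure; left enumerable reals. -/

namespace Pool.Agent.Lib.helper21.ML

open Pool.Agent.H.MP_d04dff_lc Pool.Agent.H.MP_fa2eca_lc Pool.Agent.H.MP_c57dc8_lc Filter
open MeasureTheory Pool.Agent.Lib.helper21.PR Finset

attribute [local irreducible] Primrec Computable

theorem RE.choice {α β : Type} [Primcodable α] [Primcodable β] {R : α → β → Prop}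
    (h : RE fun z : α × β => pw (R z.1 z.2)) (h' : ∀ a, ∃ b, R a b) :
    ∃ f : α → β, Computable f ∧ ∀ a, R a (f a) := (sig_re h.re).choice h'

theorem r_eq {α β : Type} [Primcodable α] [Primcodable β] {f : α → β} (hf : Computable f) :
    RE fun z : α × β => z.2 = f z.1 :=
  RE.un ((r_graph hf.partrec).re.of_eq fun z => by simp)

def nv (σ : Str) : ℕ := σ.foldl (fun a b => 2 * a + b.toNat) 0

@[fun_prop] theorem p_nv : Primrec nv := by unfold nv; fun_prop

def num (X : ℕ → Bool) (n : ℕ) : ℕ := nv (pre X n)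

theorem num_zero (X : ℕ → Bool) : num X 0 = 0 := rfl

theorem num_succ (X : ℕ → Bool) (n : ℕ) : num X (n + 1) = 2 * num X n + (X n).toNat := by
  simp [num, nv, pre_succ]

theorem num_add (X : ℕ → Bool) (n d : ℕ) :
    num X n * 2 ^ d ≤ num X (n + d) ∧ num X (n + d) < (num X n + 1) * 2 ^ d := by
  induction d with
  | zero => simp
  | succ d ih =>
    rw [← add_assoc, num_succ, pow_succ, ← mul_assoc, ← mul_assoc]
    have := (X (n + d)).toNat_le
    omega

theorem num_lt (X : ℕ → Bool) (n : ℕ) : num X n < 2 ^ n := by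
  simpa [num_zero] using (num_add X 0 n).2

theorem num_div (X : ℕ → Bool) (n d : ℕ) : num X (n + d) / 2 ^ d = num X n :=
  Nat.div_eq_of_lt_le (num_add X n d).1 (num_add X n d).2

theorem num_div' (X : ℕ → Bool) {n s : ℕ} (h : n ≤ s) : num X s / 2 ^ (s - n) = num X n := by
  obtain ⟨d, rfl⟩ := Nat.exists_eq_add_of_le h
  rw [Nat.add_sub_cancel_left, num_div]

/-- the bits of a cell -/
def Z (s y i : ℕ) : Bool := decide (y / 2 ^ (s - 1 - i) % 2 = 1)

@[fun_prop] theorem p_Z {α : Type} [Primcodable α] {s y i : α → ℕ} (hs : Primrec s)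
    (hy : Primrec y) (hi : Primrec i) : Primrec fun a => Z (s a) (y a) (i a) := by
  unfold Z; fun_prop

theorem Z_num (X : ℕ → Bool) {s i : ℕ} (h : i < s) : Z s (num X s) i = X i := by
  rw [Z, show s - 1 - i = s - (i + 1) by omega, num_div' X h, num_succ]
  cases X i <;> simp

theorem num_Z {s y : ℕ} (h : y < 2 ^ s) {i : ℕ} (hi : i ≤ s) : num (Z s y) i = y / 2 ^ (s - i) := by
  induction i with
  | zero => exact (Nat.div_eq_of_lt h).symm
  | succ i ih =>
    rw [num_succ, ih (by omega), Z, show s - i = s - (i + 1) + 1 by omega,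
      show s - 1 - i = s - (i + 1) by omega, pow_succ, ← Nat.div_div_eq_div_mul]
    rcases Nat.mod_two_eq_zero_or_one (y / 2 ^ (s - (i + 1))) with e | e <;> simp [e] <;> omega

theorem num_congr {X Y : ℕ → Bool} {k : ℕ} (h : ∀ i < k, X i = Y i) : num X k = num Y k :=
  congrArg nv (pre_congr h)

theorem pre_Z (X : ℕ → Bool) {s m : ℕ} (h : m ≤ s) : pre (Z s (num X s)) m = pre X m :=
  pre_congr fun _ hi => Z_num X (hi.trans_le h)

theorem cell_eq {s y : ℕ} (h : y < 2 ^ s) : {Y | num Y s = y} = cyl (pre (Z s y) s) := by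
  ext Y
  simp only [cyl, Set.mem_setOf_eq, pre_len]
  exact ⟨fun e => e ▸ (pre_Z Y le_rfl).symm, fun e => by
    rw [num, e, ← num, num_Z h le_rfl, Nat.sub_self, pow_zero, Nat.div_one]⟩

theorem mu_num (s : ℕ) (p : ℕ → Prop) [DecidablePred p] :
    Fn.mu {Y | p (num Y s)} = ((range (2 ^ s)).filter p).card * 2⁻¹ ^ s := by
  have : {Y | p (num Y s)} = ⋃ y ∈ (range (2 ^ s)).filter p, {Y | num Y s = y} := by
    ext Y
    simp [num_lt]
  rw [this, measure_biUnion_finset (f := fun y => {Y | num Y s = y}) (fun a _ b _ e => Set.disjoint_left.2 fun Y h1 h2 =>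
    e (Eq.symm h1 |>.trans h2)) fun y hy => by
      rw [cell_eq (mem_range.1 (mem_filter.1 hy).1)]; exact cyl_meas _]
  rw [sum_congr rfl fun y hy => by rw [cell_eq (mem_range.1 (mem_filter.1 hy).1), mu_cyl, pre_len]]
  simp

theorem mu_le {s n : ℕ} {p : ℕ → Prop} [DecidablePred p] :
    Fn.mu {Y | p (num Y s)} ≤ 2⁻¹ ^ n ↔ ((range (2 ^ s)).filter p).card * 2 ^ n ≤ 2 ^ s := by
  rw [mu_num, ← ENNReal.inv_pow, ← ENNReal.inv_pow, ← div_eq_mul_inv,
    ENNReal.div_le_iff (by simp) (by simp), mul_comm, ← div_eq_mul_inv,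
    ENNReal.le_div_iff_mul_le (by simp) (by simp)]
  norm_cast

theorem Rand.cell {X : ℕ → Bool} (hX : Rand X) {V : ℕ → ℕ → ℕ → Prop}
    (hV : RE fun z : ℕ × ℕ × ℕ => V z.1 z.2.1 z.2.2)
    (h : ∀ n, Fn.mu (⋃ s, {Y | V n s (num Y s)}) ≤ 2⁻¹ ^ n) : ∃ n, ∀ s, ¬ V n s (num X s) := by
  simpa only [pre_len, num] using hX (fun n σ => V n σ.length (nv σ)) (RE.re (by fun_prop))
    fun n => by simpa only [pre_len, Set.setOf_exists, num] using h n

open Classical in
theorem Rand.mono {X : ℕ → Bool} (hX : Rand X) {V : ℕ → ℕ → ℕ → Prop}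
    (hV : RE fun z : ℕ × ℕ × ℕ => V z.1 z.2.1 z.2.2)
    (hm : ∀ n s y, V n s (y / 2) → V n (s + 1) y)
    (h : ∀ n s, ((range (2 ^ s)).filter (V n s)).card * 2 ^ n ≤ 2 ^ s) :
    ∃ n, ∀ s, ¬ V n s (num X s) :=
  hX.cell hV fun n => by
    rw [Monotone.measure_iUnion (s := fun s => {Y | V n s (num Y s)})
      (monotone_nat_of_le_succ fun s Y hY =>
      hm _ _ _ (by rwa [← pow_one 2, num_div]))]
    exact iSup_le fun s => mu_le.2 (h n s)

theorem Rand.run {X : ℕ → Bool} (hX : Rand X) :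
    ∃ c, ∀ m b, ∃ i, m ≤ i ∧ i < 2 * m + c ∧ X i = b := by
  obtain ⟨n, hn⟩ := hX (fun n σ => ∃ m b, σ.length = 2 * m + (n + 2) ∧
    ∀ i < σ.length, m ≤ i → σ.getD i false ≠ b) (RE.re (by fun_prop)) fun n => by
    refine le_trans (measure_mono (t := ⋃ m, ⋃ b : Bool,
      {Y | ∀ i ∈ Ico m (2 * m + (n + 2)), Y i = !b}) fun Y ⟨k, m, b, h1, h2⟩ => ?_) ?_
    · rw [pre_len] at h1 h2
      refine Set.mem_iUnion₂.2 ⟨m, b, fun i hi => ?_⟩
      obtain ⟨h3, h4⟩ := mem_Ico.1 hi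
      exact Bool.eq_not_of_ne (by simpa [pre, h1, h4] using h2 i (h1 ▸ h4) h3)
    · refine (measure_iUnion_le _).trans ((ENNReal.tsum_le_tsum fun m =>
        (measure_iUnion_le _).trans_eq (c := 2⁻¹ ^ (n + 1) * 2⁻¹ ^ m) ?_).trans_eq ?_)
      · simp only [Fn.mu_cyl _ fun _ => _, Nat.card_Ico, tsum_fintype, sum_const, card_univ,
          Fintype.card_bool, show 2 * m + (n + 2) - m = n + 1 + m + 1 by omega]
        rw [pow_succ, pow_add, nsmul_eq_mul, mul_comm, mul_assoc, Nat.cast_ofNat,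
          ENNReal.inv_mul_cancel (by simp) (by simp), mul_one]
      · rw [ENNReal.tsum_mul_left, ENNReal.tsum_geometric, ENNReal.one_sub_inv_two, inv_inv,
          pow_succ, mul_assoc, ENNReal.inv_mul_cancel (by simp) (by simp), mul_one]
  refine ⟨n + 2, fun m b => ?_⟩
  by_contra! c
  refine hn (2 * m + (n + 2)) ⟨m, b, pre_len _ _, fun i h1 h2 => ?_⟩
  rw [pre_len] at h1
  simpa [pre, h1] using c i h2 h1

theorem gap {X : ℕ → Bool} {n i d : ℕ} (h : n ≤ i) :
    (X i = true → num X n * 2 ^ (i + 1 + d - n) + 2 ^ d ≤ num X (i + 1 + d)) ∧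
    (X i = false → num X (i + 1 + d) + 2 ^ d < (num X n + 1) * 2 ^ (i + 1 + d - n)) := by
  obtain ⟨u, rfl⟩ := Nat.exists_eq_add_of_le h
  have h1 := num_add X n u
  have h2 := num_add X (n + u + 1) d
  rw [num_succ] at h2
  rw [show n + u + 1 + d - n = u + (d + 1) by omega, pow_add, pow_succ]
  have h3 := Nat.mul_le_mul_right (2 ^ d) h1.1
  have h4 := Nat.mul_le_mul_right (2 ^ d) (Nat.succ_le_of_lt h1.2)
  refine ⟨fun e => ?_, fun e => ?_⟩ <;> simp only [e, Bool.toNat_true, Bool.toNat_false] at h2 <;>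
    nlinarith [h2.1, h2.2]

/-- The real with binary expansion `X`. -/
noncomputable def val (X : ℕ → Bool) : ℝ := ∑' i, ((X i).toNat : ℝ) / 2 ^ (i + 1)

/-- Left enumerable. -/
def LeftCE (X : ℕ → Bool) : Prop := REPred fun z : ℕ × ℕ => (z.1 : ℝ) / 2 ^ z.2 < val X

theorem val_lim (X : ℕ → Bool) :
    Tendsto (fun n => (num X n : ℝ) / 2 ^ n) atTop (nhds (val X)) := by
  have h : Summable fun i => ((X i).toNat : ℝ) / 2 ^ (i + 1) :=
    .of_nonneg_of_le (fun _ => by positivity) (fun i => by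
      rw [pow_succ', ← div_div]
      gcongr
      exact_mod_cast (X i).toNat_le) (summable_geometric_two' 1)
  refine h.hasSum.tendsto_sum_nat.congr fun n => ?_
  induction n with
  | zero => simp [num_zero]
  | succ n ih =>
    rw [sum_range_succ, ih, num_succ]
    push_cast
    field_simp
    ring

theorem lt_val {X : ℕ → Bool} {a k : ℕ} :
    (a : ℝ) / 2 ^ k < val X ↔ ∃ s, a * 2 ^ s < num X s * 2 ^ k := by
  have e : ∀ s, a * 2 ^ s < num X s * 2 ^ k ↔ (a : ℝ) / 2 ^ k < num X s / 2 ^ s := fun s => by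
    rw [div_lt_div_iff₀ (by positivity) (by positivity)]; norm_cast
  simp only [e]
  refine ⟨fun h => ((tendsto_order.1 (val_lim X)).1 _ h).exists, fun ⟨s, h⟩ => h.trans_le
    (Monotone.ge_of_tendsto (monotone_nat_of_le_succ fun n => ?_) (val_lim X) s)⟩
  rw [div_le_div_iff₀ (by positivity) (by positivity), pow_succ', ← mul_assoc]
  exact_mod_cast Nat.mul_le_mul_right _ (num_add X n 1).1

structure Apx (X : ℕ → Bool) (a : ℕ → ℕ) : Prop where
  prim : Primrec a
  mono : ∀ s, 2 * a s ≤ a (s + 1)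
  le : ∀ s, a s ≤ num X s
  lim : ∀ k, ∃ d, num X k * 2 ^ d ≤ a (k + d)

theorem Apx.add {X : ℕ → Bool} {a : ℕ → ℕ} (h : Apx X a) (s d : ℕ) : a s * 2 ^ d ≤ a (s + d) := by
  induction d with
  | zero => simp
  | succ d ih => have := h.mono (s + d); rw [pow_succ, ← mul_assoc, ← add_assoc]; omega

theorem Apx.ev {X : ℕ → Bool} {a : ℕ → ℕ} (h : Apx X a) (k : ℕ) :
    ∃ t, ∀ d, t ≤ d → num X k * 2 ^ d ≤ a (k + d) ∧ a (k + d) / 2 ^ d = num X k := by
  obtain ⟨t, ht⟩ := h.lim k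
  refine ⟨t, fun d hd => ?_⟩
  obtain ⟨u, rfl⟩ := Nat.exists_eq_add_of_le hd
  have : num X k * 2 ^ (t + u) ≤ a (k + (t + u)) := by
    rw [pow_add, ← mul_assoc, ← add_assoc]
    exact (Nat.mul_le_mul_right _ ht).trans (h.add _ _)
  exact ⟨this, Nat.div_eq_of_lt_le this ((h.le _).trans_lt (num_add _ _ _).2)⟩

theorem apx {X : ℕ → Bool} (hX : Rand X) (h : LeftCE X) : ∃ a, Apx X a := by
  obtain ⟨N, h1, h2, h3, h4⟩ := re_bool h
  let P : ℕ → ℕ → Prop := fun s y => ∃ k ≤ s, ∃ x < 2 ^ k, N (x, k) s = true ∧ y < x * 2 ^ (s - k)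
  classical
  let a : ℕ → ℕ := fun s => ((range (2 ^ s)).filter (P s)).card
  have l1 : ∀ s b, (∀ y, P s y → y < b) → a s ≤ b := fun s b hb =>
    (card_le_card fun y hy => mem_range.2 (hb y (mem_filter.1 hy).2)).trans_eq (card_range b)
  have l2 : ∀ s k x, k ≤ s → x < 2 ^ k → N (x, k) s = true → x * 2 ^ (s - k) ≤ a s :=
    fun s k x b1 b2 b3 => (card_range _).symm.trans_le (card_le_card fun y hy => mem_filter.2
      ⟨mem_range.2 ((mem_range.1 hy).trans_le (by
        rw [show 2 ^ s = 2 ^ k * 2 ^ (s - k) by rw [← pow_add]; congr 1; omega]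
        exact Nat.mul_le_mul_right _ b2.le)), k, b1, x, b2, b3, mem_range.1 hy⟩)
  refine ⟨a, by unfold a P; fun_prop, fun s => ?_, fun s => l1 _ _ ?_, fun k => ?_⟩
  · have := l1 s (a (s + 1) / 2) fun y ⟨k, b1, x, b2, b3, b4⟩ => by
      have := l2 (s + 1) k x (by omega) b2 (h3 _ _ _ s.le_succ b3)
      rw [Nat.succ_sub b1, pow_succ, ← mul_assoc] at this
      omega
    omega
  · rintro y ⟨k, b1, x, b2, b3, b4⟩
    obtain ⟨d, rfl⟩ := Nat.exists_eq_add_of_le b1
    obtain ⟨t, ht⟩ := lt_val.1 (h2 _ _ b3)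
    have c1 := (num_add X t k).1
    have c2 := (num_add X k t).2
    rw [add_comm] at c1
    have c3 : x ≤ num X k := Nat.le_of_lt_succ (lt_of_mul_lt_mul_right
      (ht.trans_le (c1.trans c2.le)) (Nat.zero_le _))
    rw [Nat.add_sub_cancel_left] at b4
    exact b4.trans_le ((Nat.mul_le_mul_right _ c3).trans (num_add X k d).1)
  · obtain ⟨c, hc⟩ := hX.run
    obtain ⟨i, b1, -, b2⟩ := hc k true
    have b3 := (gap (d := 0) b1).1 b2
    obtain ⟨t, ht⟩ := h4 (num X k, k) (lt_val.2 ⟨i + 1 + 0, by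
      rw [show 2 ^ (i + 1 + 0) = 2 ^ (i + 1 + 0 - k) * 2 ^ k by rw [← pow_add]; congr 1; omega,
        ← mul_assoc]
      exact Nat.mul_lt_mul_of_pos_right b3 (by positivity)⟩)
    exact ⟨t, by simpa using l2 (k + t) k _ (by omega) (num_lt _ _) (h3 _ _ _ (by omega) ht)⟩

end Pool.Agent.Lib.helper21.ML
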