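import Mathlib

set_option autoImplicit false

/-! Transfinite bookkeeping: solving `κ` many tasks by small extensions. -/

open Cardinal Set

namespace Pool.Agent.Lib.helper21.Tasks

theorem trans_rec {W S : Type*} [LinearOrder W] [WellFoundedLT W] [Inhabited S]
    (P : W → (W → S) → S → Prop)
    (loc : ∀ ξ f g s, (∀ η < ξ, f η = g η) → P ξ f s → P ξ g s)
    (step : ∀ ξ f, (∀ η < ξ, P η f (f η)) → ∃ s, P ξ f s) : ∃ f, ∀ ξ, P ξ f (f ξ) := by
  classical
  let ext : ∀ ξ : W, (∀ η, η < ξ → S) → W → S := fun ξ g η => if h : η < ξ then g η h else default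
  let F : ∀ ξ : W, (∀ η, η < ξ → S) → S := fun ξ g =>
    if h : ∃ s, P ξ (ext ξ g) s then h.choose else default
  let f : W → S := (wellFounded_lt (α := W)).fix F
  have hf : ∀ ξ, f ξ = F ξ fun η _ => f η := fun ξ => WellFounded.fix_eq _ _ _
  refine ⟨f, fun ξ => ?_⟩
  induction ξ using (wellFounded_lt (α := W)).induction with
  | _ ξ ih =>
    have e : ∀ η < ξ, f η = ext ξ (fun η _ => f η) η := fun η h => by simp only [ext, dif_pos h]
    obtain ⟨s, hs⟩ := step ξ f ih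
    have h : ∃ s, P ξ (ext ξ fun η _ => f η) s := ⟨s, loc _ _ _ _ e hs⟩
    rw [hf ξ]
    simp only [F, dif_pos h]
    exact loc _ _ _ _ (fun η hη => (e η hη).symm) h.choose_spec

theorem exists_limit {X ι : Type} (κ : Cardinal.{0}) (hκ : ℵ₀ < κ) (hι : #ι ≤ κ)
    (Good : Set X → Prop) (Done : ι → Set X → Prop) (h0 : Good ∅)
    (hfin : ∀ S, (∀ T ⊆ S, T.Finite → Good T) → Good S) (hsub : ∀ S T, T ⊆ S → Good S → Good T)
    (mono : ∀ i S T, S ⊆ T → Done i S → Done i T)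
    (step : ∀ i S, Good S → #S < κ → ∃ T, T.Countable ∧ Good (S ∪ T) ∧ Done i (S ∪ T)) :
    ∃ S, Good S ∧ ∀ i, Done i S := by
  let I : Type := (#ι).ord.ToType
  obtain ⟨e⟩ : Nonempty (I ≃ ι) := Cardinal.eq.1 (mk_ord_toType _)
  have hI : ∀ a : I, #(Iio a) < κ := fun a => lt_of_lt_of_le (by simpa [I] using mk_Iio_lt a) hι
  have key : ∀ (f : I → Set X) (J : Set I), (∀ η ∈ J, Good ((⋃ ζ ∈ Iio η, f ζ) ∪ f η)) →
      Good (⋃ η ∈ J, f η) := by
    intro f J h
    refine hfin _ fun T hT hf => ?_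
    rcases T.eq_empty_or_nonempty with rfl | hn
    · exact h0
    simp only [subset_def, mem_iUnion] at hT
    choose g h1 h2 using fun (x : T) => hT x.1 x.2
    have := hf.to_subtype
    have := hn.to_subtype
    obtain ⟨m, hm⟩ := Finite.exists_max g
    refine hsub _ _ (fun x hx => ?_) (h _ (h1 m))
    rcases (hm ⟨x, hx⟩).lt_or_eq with l | l
    · exact Or.inl (mem_biUnion l (h2 ⟨x, hx⟩))
    · exact Or.inr (l ▸ h2 ⟨x, hx⟩)
  obtain ⟨f, hf⟩ := trans_rec (W := I) (S := Set X) (fun ξ f T => T.Countable ∧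
    Good ((⋃ ζ ∈ Iio ξ, f ζ) ∪ T) ∧ Done (e ξ) ((⋃ ζ ∈ Iio ξ, f ζ) ∪ T))
    (fun ξ f g s h => by
      rw [show (⋃ ζ ∈ Iio ξ, f ζ) = ⋃ ζ ∈ Iio ξ, g ζ from iUnion₂_congr h]; exact id) fun ξ f h =>
      step _ _ (key f _ fun η hη => (h η hη).2.1) ((mk_biUnion_le _ _).trans_lt
        (mul_lt_of_lt hκ.le (hI ξ) (lt_of_le_of_lt (ciSup_le' fun x =>
          (h x x.2).1.le_aleph0) hκ)))
  refine ⟨_, key f univ fun η _ => (hf η).2.1, fun i => ?_⟩
  obtain ⟨ξ, rfl⟩ := e.surjective i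
  exact mono _ _ _ (union_subset (biUnion_subset_biUnion_left (subset_univ _))
    (subset_biUnion_of_mem (u := f) (mem_univ ξ))) (hf ξ).2.2

theorem mk_span_lt {V : Type} [AddCommGroup V] [Module ℚ V] {κ : Cardinal.{0}} (hκ : ℵ₀ < κ)
    {A : Set V} (hA : #A < κ) : #(Submodule.span ℚ A) < κ := by
  rcases A.eq_empty_or_nonempty with rfl | hn
  · simpa using one_lt_aleph0.trans hκ
  have := hn.to_subtype
  rw [← Subtype.range_coe (s := A), ← Finsupp.range_linearCombination]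
  refine mk_range_le.trans_lt ?_
  rw [mk_finsupp_of_infinite']
  exact max_lt hA (by simpa using hκ)

end Pool.Agent.Lib.helper21.Tasks
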