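import Mathlib

set_option autoImplicit false

namespace Pool.Agent.Lib.helper21.Tens

open Filter

noncomputable def tens {α β : Type} (D : Ultrafilter α) (E : Ultrafilter β) :
    Ultrafilter (α × β) := D.bind fun i => E.map (i, ·)

lemma ev_tens {α β : Type} (D : Ultrafilter α) (E : Ultrafilter β) (p : α × β → Prop) :
    (∀ᶠ x in (tens D E : Filter (α × β)), p x) ↔ ∀ᶠ i in (D : Filter α), ∀ᶠ j in (E : Filter β), p (i, j) :=
  Filter.mem_bind'

lemma tendsto_fst {α β : Type} (D : Ultrafilter α) (E : Ultrafilter β) :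
    Tendsto Prod.fst (tens D E : Filter (α × β)) D := fun A hA =>
  (ev_tens D E (·.1 ∈ A)).2 (mem_of_superset hA fun _ hi => Eventually.of_forall fun _ => hi)

lemma tendsto_snd {α β : Type} (D : Ultrafilter α) (E : Ultrafilter β) :
    Tendsto Prod.snd (tens D E : Filter (α × β)) E := fun A hA =>
  (ev_tens D E (·.2 ∈ A)).2 (Eventually.of_forall fun _ => hA)

lemma not_regress {α : Type} [LinearOrder α] [WellFoundedLT α] (D : Ultrafilter α) (a : α → α)
    (h : ∀ᶠ i in (D : Filter α), a i < i) : ¬ Tendsto a D D := by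
  intro ht
  let c : α → Prop := (wellFounded_lt (α := α)).fix fun i r => ∀ h : a i < i, ¬ r (a i) h
  have hc : ∀ i, a i < i → (c i ↔ ¬ c (a i)) := by
    intro i hi
    have : c i ↔ ∀ _ : a i < i, ¬ c (a i) := by
      simp only [c]
      rw [WellFounded.fix_eq]
    rw [this]
    exact ⟨fun h => h hi, fun h _ => h⟩
  rcases D.em c with h1 | h1
  · obtain ⟨i, h2, h3, h4⟩ := (h.and (h1.and (ht.eventually h1))).exists
    exact (hc i h2).1 h3 h4
  · obtain ⟨i, h2, h3, h4⟩ := (h.and (h1.and (ht.eventually h1))).exists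
    exact h3 ((hc i h2).2 h4)

lemma not_tens_le {α : Type} [LinearOrder α] [WellFoundedLT α] (hf : ∀ x : α, (Set.Iic x).Finite)
    (D : Ultrafilter α) (hD : (D : Filter α) ≤ cofinite) (h : α → α × α) :
    ¬ Tendsto h D (tens D D) := by
  intro ht
  refine not_regress D (fun i => (h i).1) ?_ ((tendsto_fst D D).comp ht)
  have : ∀ᶠ x in (tens D D : Filter (α × α)), ∀ i ≤ x.1, (h i).2 ≠ x.2 := by
    refine (ev_tens _ _ _).2 (Eventually.of_forall fun x => hD ?_)
    refine mem_of_superset ((hf x).image fun i => (h i).2).compl_mem_cofinite ?_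
    intro y hy i hi he
    exact hy ⟨i, hi, he⟩
  filter_upwards [ht.eventually this] with i hi
  exact not_le.1 fun hle => hi i hle rfl

lemma const_of_finite {J β : Type} (E : Ultrafilter J) (f : J → β) {s : Set β} (hs : s.Finite)
    (h : ∀ᶠ j in (E : Filter J), f j ∈ s) : ∃ m ∈ s, ∀ᶠ j in (E : Filter J), f j = m := by
  obtain ⟨m, hm, he⟩ := Ultrafilter.eq_pure_of_finite_mem (f := E.map f) hs h
  refine ⟨m, hm, ?_⟩
  have : ({m} : Set β) ∈ E.map f := by rw [he]; rfl
  exact this

lemma exists_univ (T : Type) :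
    ∃ (J : Type) (E : Ultrafilter J), ∀ U : Ultrafilter T, ∃ f : J → T, Tendsto f E U :=
  ⟨Ultrafilter T → T, Ultrafilter.of (Filter.pi fun U : Ultrafilter T => (U : Filter T)),
    fun U => ⟨Function.eval U, (tendsto_eval_pi _ U).mono_left (Ultrafilter.of_le _)⟩⟩

end Pool.Agent.Lib.helper21.Tens
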