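import Pool.Agent.Lib.helper21.Fn

set_option autoImplicit false

/-! The fair-coin measure on Cantor space. -/

namespace Pool.Agent.Lib.helper21.Fn

open MeasureTheory ProbabilityTheory Finset
open scoped ENNReal

noncomputable def mu : Measure Om := Measure.infinitePi fun _ => uniformOn Set.univ

instance : IsProbabilityMeasure mu := by unfold mu; infer_instance

theorem mu_cyl (J : Finset ℕ) (S : Om) : mu {Z | ∀ i ∈ J, Z i = S i} = 2⁻¹ ^ J.card := by
  have : {Z : Om | ∀ i ∈ J, Z i = S i} = Set.pi J fun i => {S i} := by ext; simp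
  rw [this, mu, Measure.infinitePi_pi _ fun _ _ => measurableSet_singleton _]
  simp only [uniformOn_univ]
  simp [div_eq_mul_inv]

theorem mu_loc {s : ℕ} {S : Om → Prop} [DecidablePred S] (h : Loc s S) :
    mu {Z | S Z} = #{m ∈ range (2 ^ s) | S (tb m)} * 2⁻¹ ^ s := by
  have hl : ∀ m, Loc s fun Z => ∀ i ∈ range s, Z i = tb m i := fun m Z Z' e hZ i hi =>
    (e i (mem_range.1 hi)).symm.trans (hZ i hi)
  have : {Z | S Z} = ⋃ m ∈ ({m ∈ range (2 ^ s) | S (tb m)} : Finset ℕ),
      {Z | ∀ i ∈ range s, Z i = tb m i} := by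
    ext Z
    simp only [Set.mem_setOf_eq, Set.mem_iUnion, mem_filter, mem_range]
    exact ⟨fun hZ => ⟨cd Z s, ⟨cd_lt Z s, (h.iff Z).2 hZ⟩, fun i hi => (tb_cd Z s i hi).symm⟩,
      fun ⟨m, hm, e⟩ => h _ _ (fun i hi => (e i hi).symm) hm.2⟩
  rw [this, measure_biUnion_finset _ fun m _ => (hl m).closed.measurableSet]
  · simp only [mu_cyl, card_range, sum_const, nsmul_eq_mul]
  · intro m hm m' hm' hne
    refine Set.disjoint_left.2 fun Z h1 h2 => hne ?_
    simp only [coe_filter, mem_range, Set.mem_setOf_eq] at hm hm' h1 h2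
    rw [← cd_tb hm.1, ← cd_tb hm'.1]
    exact cd_congr fun i hi => (h1 i hi).symm.trans (h2 i hi)

theorem mu_loc_le {s : ℕ} {S : Om → Prop} [DecidablePred S] (h : Loc s S) (k : ℕ) (hk : k ≠ 0) :
    mu {Z | S Z} ≤ (k : ℝ≥0∞)⁻¹ ↔ k * #{m ∈ range (2 ^ s) | S (tb m)} ≤ 2 ^ s := by
  rw [mu_loc h, ← ENNReal.inv_pow, ← div_eq_mul_inv, ENNReal.div_le_iff (by simp) (by simp),
    mul_comm, ← div_eq_mul_inv, ENNReal.le_div_iff_mul_le (by simp [hk]) (by simp), mul_comm]
  norm_cast

theorem cheb (J : Finset ℕ) (hJ : J.card ≠ 0) (S : Om) :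
    mu {Z | 4 * #{j ∈ J | Z j = S j} < J.card} ≤ ENNReal.ofReal (4 / J.card) := by
  let X : ℕ → Om → ℝ := fun j Z => if Z j = S j then 1 else 0
  have hi : iIndepFun X mu := iIndepFun_infinitePi
    (X := fun j b => if b = S j then (1 : ℝ) else 0) fun _ => Measurable.of_discrete
  have hm : ∀ j, Measurable (X j) := fun j => (Measurable.of_discrete
    (f := fun b => if b = S j then (1 : ℝ) else 0)).comp (measurable_pi_apply j)
  have hb : ∀ j, ∀ᵐ Z ∂mu, X j Z ∈ Set.Icc (0 : ℝ) 1 := fun j =>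
    Filter.Eventually.of_forall fun Z => by simp only [X]; split_ifs <;> simp
  have hl : ∀ j, MemLp (X j) 2 mu := fun j => memLp_of_bounded (hb j) (hm j).aestronglyMeasurable 2
  have he : ∀ j, mu[X j] = 1 / 2 := by
    intro j
    have h1 : X j = Set.indicator {Z | ∀ i ∈ ({j} : Finset ℕ), Z i = S i} 1 := by
      ext Z; simp [X, Set.indicator_apply]
    rw [h1, integral_indicator_one, Measure.real, mu_cyl]
    · simp
    · simp only [mem_singleton, forall_eq]
      exact measurableSet_eq_fun (measurable_pi_apply j) measurable_const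
  have hv : Var[∑ j ∈ J, X j; mu] ≤ J.card / 4 := by
    rw [IndepFun.variance_sum (fun j _ => hl j) fun i _ j _ h => hi.indepFun h]
    refine (sum_le_card_nsmul _ _ _ fun j _ =>
      variance_le_sq_of_bounded (hb j) (hm j).aemeasurable).trans_eq ?_
    simp; ring
  have hp : (0 : ℝ) < J.card := by positivity
  have hc := meas_ge_le_variance_div_sq (memLp_finset_sum' J fun j _ => hl j)
    (c := J.card / 4) (by positivity)
  refine (measure_mono fun Z hZ => ?_).trans (hc.trans (ENNReal.ofReal_le_ofReal ?_))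
  · simp only [Set.mem_setOf_eq, Finset.sum_apply] at hZ ⊢
    rw [integral_finset_sum _ fun j _ => (hl j).integrable (by norm_num)]
    simp only [he, X, sum_boole, sum_const, nsmul_eq_mul]
    have : (4 * #{j ∈ J | Z j = S j} : ℝ) < J.card := by exact_mod_cast hZ
    rw [le_abs]; right; linarith
  · rw [div_le_div_iff₀ (by positivity) hp]
    nlinarith

/-- Number of agreements on the dyadic block number `n`. -/
def agr (Z S : Om) (n : ℕ) : ℕ := #{j ∈ range (2 ^ n) | Z (2 ^ n + j) = S (2 ^ n + j)}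

theorem mu_agr (S : Om) (n : ℕ) : mu {Z | 4 * agr Z S n < 2 ^ n} ≤ 4 * 2⁻¹ ^ n := by
  have h := cheb ((range (2 ^ n)).map (addLeftEmbedding (2 ^ n))) (by simp) S
  simp only [filter_map, card_map, card_range] at h
  refine le_of_eq_of_le rfl (h.trans_eq ?_)
  rw [ENNReal.ofReal_div_of_pos (by positivity), ← ENNReal.inv_pow, div_eq_mul_inv]
  simp [ENNReal.ofReal_pow]

theorem mu_bad (S : ℕ → Om) :
    mu {Z | ∃ e k, 4 * agr Z (S e) (e + k + 7) < 2 ^ (e + k + 7)} ≤ 8⁻¹ := by
  simp only [Set.setOf_exists]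
  refine (measure_iUnion_le _).trans ((ENNReal.tsum_le_tsum fun e => (measure_iUnion_le _).trans
    (ENNReal.tsum_le_tsum fun k => mu_agr _ _)).trans_eq ?_)
  simp only [pow_add, ENNReal.tsum_mul_left, ENNReal.tsum_mul_right, ENNReal.tsum_geometric,
    ENNReal.one_sub_inv_two, inv_inv]
  rw [← ENNReal.toReal_eq_toReal_iff' (by finiteness) (by finiteness)]
  simp; norm_num

end Pool.Agent.Lib.helper21.Fn
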