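import Mathlib

set_option autoImplicit false

/-! Right-linear grammars with word rules generate regular languages. -/

namespace Pool.Agent.Lib.helper21.RLG

variable {P A : Type}

inductive Gen (R : P → List A → Option P → Prop) : P → List A → Prop
  | stop {p u} : R p u none → Gen R p u
  | go {p u q w} : R p u (some q) → Gen R q w → Gen R p (u ++ w)

def item (R : P → List A → Option P → Prop) : List A × Option P → Set (List A)
  | (u, none) => {u}
  | (u, some q) => {z | ∃ w, Gen R q w ∧ z = u ++ w}

theorem regular [Finite P] [Finite A] (R : P → List A → Option P → Prop) (B : ℕ)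
    (hB : ∀ p u o, R p u o → u.length ≤ B) (p : P) :
    Language.IsRegular {w | Gen R p w} := by
  have key : ∀ p z, Gen R p z → ∀ x w, z = x ++ w → ∃ i : List A × Option P, i.1.length ≤ B ∧
      w ∈ item R i ∧ ∀ w' ∈ item R i, Gen R p (x ++ w') := by
    intro p z h
    induction h with
    | @stop p u h =>
      rintro x w rfl
      refine ⟨(w, none), le_trans (by simp) (hB _ _ _ h), rfl, ?_⟩
      rintro _ rfl
      exact .stop h
    | @go p u q z h hz ih =>
      intro x w e
      rcases List.append_eq_append_iff.1 e with ⟨x', rfl, rfl⟩ | ⟨u', rfl, rfl⟩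
      · obtain ⟨i, h1, h2, h3⟩ := ih x' w rfl
        exact ⟨i, h1, h2, fun w' hw => by rw [List.append_assoc]; exact .go h (h3 w' hw)⟩
      · refine ⟨(u', some q), le_trans (by simp) (hB _ _ _ h), ⟨z, hz, rfl⟩, ?_⟩
        rintro _ ⟨w', hw, rfl⟩
        rw [← List.append_assoc]
        exact .go h hw
  apply Language.IsRegular.of_finite_range_leftQuotient
  have hS : {i : List A × Option P | i.1.length ≤ B}.Finite :=
    ((List.finite_length_le A B).prod (Set.finite_univ (α := Option P))).subset
      fun i hi => ⟨hi, trivial⟩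
  refine (hS.finite_subsets.image fun T => {w | ∃ i ∈ T, w ∈ item R i}).subset ?_
  rintro _ ⟨x, rfl⟩
  refine ⟨{i | i.1.length ≤ B ∧ ∀ w' ∈ item R i, Gen R p (x ++ w')}, fun i hi => hi.1, ?_⟩
  ext w
  constructor
  · rintro ⟨i, hi, hw⟩
    exact hi.2 w hw
  · intro h
    obtain ⟨i, h1, h2, h3⟩ := key p _ h x w rfl
    exact ⟨i, ⟨h1, h3⟩, h2⟩

theorem loop {R : P → List A → Option P → Prop} {p : P} {w : List A} (h : Gen R p w)
    (y : List A) (hy : ∀ l ∈ y, R p [l] (some p)) : Gen R p (y ++ w) := by
  induction y with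
  | nil => exact h
  | cons l y ih =>
    exact Gen.go (u := [l]) (hy l List.mem_cons_self) (ih fun l hl => hy l (List.mem_cons_of_mem _ hl))

end Pool.Agent.Lib.helper21.RLG
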