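import Mathlib

set_option autoImplicit false

/-! Pigeonhole cuts in words, measured by an alphabetic morphism. -/

namespace Pool.Agent.Lib.helper21.Cuts

variable {Z X C : Type}

theorem exists_pre {f : Z → List X} (hf : ∀ z, (f z).length ≤ 1) (w : List Z) :
    ∀ i ≤ (w.flatMap f).length, ∃ a, a <+: w ∧ (a.flatMap f).length = i := by
  induction w with
  | nil => intro i hi; exact ⟨[], List.nil_prefix, by simpa using hi.antisymm' (Nat.zero_le _)⟩
  | cons z w ih =>
    intro i hi
    rcases Nat.eq_zero_or_pos i with rfl | h0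
    · exact ⟨[], List.nil_prefix, rfl⟩
    · have := hf z
      rw [List.flatMap_cons, List.length_append] at hi
      obtain ⟨a, h1, h2⟩ := ih (i - (f z).length) (by omega)
      exact ⟨z :: a, (List.prefix_cons_inj z).2 h1, by
        rw [List.flatMap_cons, List.length_append]; omega⟩

theorem split {f : Z → List X} (hf : ∀ z, (f z).length ≤ 1) {w : List Z} {u v : List X}
    (h : w.flatMap f = u ++ v) : ∃ a b, w = a ++ b ∧ a.flatMap f = u ∧ b.flatMap f = v := by
  obtain ⟨a, ⟨b, rfl⟩, h2⟩ := exists_pre hf w u.length (by simp [h])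
  rw [List.flatMap_append] at h
  exact ⟨a, b, rfl, List.append_inj h h2⟩

theorem between {f : Z → List X} {w a a' : List Z} (h : a <+: w) (h' : a' <+: w)
    (hl : (a.flatMap f).length < (a'.flatMap f).length) : ∃ c, a' = a ++ c := by
  rcases List.prefix_or_prefix_of_prefix h h' with ⟨c, e⟩ | ⟨c, rfl⟩
  · exact ⟨c, e.symm⟩
  · simp only [List.flatMap_append, List.length_append] at hl; omega

theorem two [Finite C] {f : Z → List X} (hf : ∀ z, (f z).length ≤ 1) (col : List Z → C)
    (w : List Z) (h : Nat.card C ≤ (w.flatMap f).length) :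
    ∃ a c b, w = a ++ c ++ b ∧ col a = col (a ++ c) ∧ 0 < (c.flatMap f).length ∧
      ((a ++ c).flatMap f).length ≤ Nat.card C := by
  choose p h1 h2 using fun i : Fin (Nat.card C + 1) => exists_pre hf w i (by omega)
  have key : ∀ i j, i < j → col (p i) = col (p j) → ∃ a c b, w = a ++ c ++ b ∧
      col a = col (a ++ c) ∧ 0 < (c.flatMap f).length ∧
      ((a ++ c).flatMap f).length ≤ Nat.card C := by
    intro i j hij e
    have hl : ((p i).flatMap f).length < ((p j).flatMap f).length := by rw [h2, h2]; exact hij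
    obtain ⟨c, hc⟩ := between (h1 i) (h1 j) hl
    obtain ⟨b, hb⟩ := h1 j
    refine ⟨p i, c, b, by rw [← hc, hb], hc ▸ e, ?_, by rw [← hc, h2]; omega⟩
    rw [hc, List.flatMap_append, List.length_append] at hl; omega
  have := Fintype.ofFinite C
  obtain ⟨i, j, hij, e⟩ := Fintype.exists_ne_map_eq_of_card_lt (fun i => col (p i))
    (by simp [Nat.card_eq_fintype_card])
  rcases lt_or_gt_of_ne hij with h | h
  exacts [key i j h e, key j i h e.symm]

theorem three [Finite C] {f : Z → List X} (hf : ∀ z, (f z).length ≤ 1) (col : List Z → C)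
    (w : List Z) (h : 2 * Nat.card C ≤ (w.flatMap f).length) :
    ∃ a c d b, w = a ++ c ++ d ++ b ∧ col a = col (a ++ c) ∧ col a = col (a ++ c ++ d) ∧
      0 < (c.flatMap f).length ∧ 0 < (d.flatMap f).length := by
  classical
  choose p h1 h2 using fun i : Fin (2 * Nat.card C + 1) => exists_pre hf w i (by omega)
  have key : ∀ i j k, i < j → j < k → col (p i) = col (p j) → col (p i) = col (p k) →
      ∃ a c d b, w = a ++ c ++ d ++ b ∧ col a = col (a ++ c) ∧ col a = col (a ++ c ++ d) ∧
      0 < (c.flatMap f).length ∧ 0 < (d.flatMap f).length := by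
    intro i j k hij hjk e e'
    have hl : ((p i).flatMap f).length < ((p j).flatMap f).length := by rw [h2, h2]; exact hij
    have hl' : ((p j).flatMap f).length < ((p k).flatMap f).length := by rw [h2, h2]; exact hjk
    obtain ⟨c, hc⟩ := between (h1 i) (h1 j) hl
    obtain ⟨d, hd⟩ := between (h1 j) (h1 k) hl'
    obtain ⟨b, hb⟩ := h1 k
    refine ⟨p i, c, d, b, by rw [← hc, ← hd, hb], hc ▸ e, by rw [← hc, ← hd]; exact e', ?_, ?_⟩
    · rw [hc, List.flatMap_append, List.length_append] at hl; omega
    · rw [hd, List.flatMap_append, List.length_append] at hl'; omega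
  have := Fintype.ofFinite C
  obtain ⟨y, hy⟩ := Fintype.exists_lt_card_fiber_of_mul_lt_card (fun i => col (p i)) (n := 2)
    (by simp [Nat.card_eq_fintype_card]; omega)
  obtain ⟨i, hi, j, hj, k, hk, hij, hik, hjk⟩ := Finset.two_lt_card.1 hy
  simp only [Finset.mem_filter, Finset.mem_univ, true_and] at hi hj hk
  have a1 := hi.trans hj.symm
  have a2 := hi.trans hk.symm
  have a3 := hj.trans hk.symm
  rcases lt_or_gt_of_ne hij with b1 | b1 <;> rcases lt_or_gt_of_ne hik with b2 | b2 <;>
    rcases lt_or_gt_of_ne hjk with b3 | b3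
  · exact key i j k b1 b3 a1 a2
  · exact key i k j b2 b3 a2 a1
  · exact absurd (b1.trans b3) b2.not_gt
  · exact key k i j b2 b1 a2.symm a3.symm
  · exact key j i k b1 b2 a1.symm a3
  · exact absurd (b2.trans b3) b1.not_gt
  · exact key j k i b3 b2 a3 a1.symm
  · exact key k j i b3 b1 a3.symm a2.symm

theorem shorten {σ : Type} [Finite σ] (δ : σ → Z → σ) (q : σ) (n : ℕ) :
    ∀ w : List Z, w.length ≤ n → ∃ w' : List Z, w'.foldl δ q = w.foldl δ q ∧
      w'.length < Nat.card σ := by
  induction n with
  | zero =>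
    intro w hw
    have : Nonempty σ := ⟨q⟩
    exact ⟨w, rfl, by have := Nat.card_pos (α := σ); omega⟩
  | succ n ih =>
    intro w hw
    by_cases h : w.length < Nat.card σ
    · exact ⟨w, rfl, h⟩
    · obtain ⟨a, c, b, rfl, e, h1, -⟩ := two (f := fun z => [z]) (by simp)
        (fun a => a.foldl δ q) w (by simpa using h)
      obtain ⟨w', e', h2⟩ := ih (a ++ b) (by simp at hw h1 ⊢; omega)
      exact ⟨w', by rw [e', List.foldl_append, List.foldl_append (l := a ++ c), ← e], h2⟩

theorem len_le {f : Z → List X} (hf : ∀ z, (f z).length ≤ 1) (w : List Z) :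
    (w.flatMap f).length ≤ w.length := by
  induction w with
  | nil => simp
  | cons z w ih => have := hf z; simp only [List.flatMap_cons, List.length_append, List.length_cons]; omega

/-- Shortening that keeps the measure modulo `m`. -/
theorem shorten_mod {σ : Type} [Finite σ] (δ : σ → Z → σ) (q : σ) (f : Z → List X) {m : ℕ}
    (hm : 0 < m) (w : List Z) : ∃ w' : List Z, w'.foldl δ q = w.foldl δ q ∧
      (w'.flatMap f).length % m = (w.flatMap f).length % m ∧ w'.length < Nat.card σ * m := by
  have : NeZero m := ⟨hm.ne'⟩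
  let δ' : σ × ZMod m → Z → σ × ZMod m := fun p z => (δ p.1 z, p.2 + (f z).length)
  have key : ∀ (w : List Z) p, w.foldl δ' p = (w.foldl δ p.1, p.2 + (w.flatMap f).length) := by
    intro w
    induction w with
    | nil => intro p; simp
    | cons z w ih => intro p; rw [List.foldl_cons, ih]; simp [δ', add_assoc]
  obtain ⟨w', e, h⟩ := shorten δ' (q, 0) _ w le_rfl
  rw [key, key] at e
  obtain ⟨e1, e2⟩ := Prod.mk.inj e
  rw [zero_add, zero_add, ZMod.natCast_eq_natCast_iff'] at e2
  exact ⟨w', e1, e2, by simpa [Nat.card_zmod] using h⟩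

def pw (c : List Z) (k : ℕ) : List Z := (List.replicate k c).flatten

theorem pw_fold {σ : Type} {δ : σ → Z → σ} {q : σ} {c : List Z} (h : c.foldl δ q = q) (k : ℕ) :
    (pw c k).foldl δ q = q := by
  induction k with
  | zero => rfl
  | succ k ih => rw [pw, List.replicate_succ, List.flatten_cons, List.foldl_append, h]; exact ih

theorem pw_len (f : Z → List X) (c : List Z) (k : ℕ) :
    ((pw c k).flatMap f).length = k * (c.flatMap f).length := by
  induction k with
  | zero => simp [pw]
  | succ k ih =>
    rw [pw, List.replicate_succ, List.flatten_cons, List.flatMap_append, List.length_append]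
    rw [pw] at ih; rw [ih]; ring

end Pool.Agent.Lib.helper21.Cuts
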