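import Mathlib

set_option autoImplicit false

open Cardinal Set

namespace Pool.Agent.Lib.helper21.RigidReals

/-- index type of size continuum, well ordered with all initial segments smaller -/
abbrev I : Type := (continuum : Cardinal.{0}).ord.ToType

theorem mk_I : #I = 𝔠 := mk_ord_toType _

theorem mk_Iio_I (a : I) : #(Iio a) < 𝔠 := by simpa using mk_Iio_lt a

/-- transfinite choice avoiding small bad sets -/
theorem exists_avoid (E : Set ℝ) (hE : #E = 𝔠) (G : I → ℝ → ℝ) :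
    ∃ x : I → ℝ, (∀ a, x a ∈ E) ∧ Function.Injective x ∧
      ∀ a b c, b < a → c < a → x a ≠ G b (x c) := by
  have step : ∀ (a : I) (prev : ∀ c, c < a → ℝ), ∃ r ∈ E, (∀ c (h : c < a), r ≠ prev c h) ∧
      ∀ b c (h : c < a), b < a → r ≠ G b (prev c h) := by
    intro a prev
    let B1 : Set ℝ := range (fun c : Iio a => prev c.1 c.2)
    let B2 : Set ℝ := range (fun p : Iio a × Iio a => G p.1.1 (prev p.2.1 p.2.2))
    have h1 : #B1 < 𝔠 := mk_range_le.trans_lt (mk_Iio_I a)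
    have h2 : #B2 < 𝔠 := by
      refine mk_range_le.trans_lt ?_
      rw [mk_prod]; simp only [lift_id]
      exact mul_lt_of_lt aleph0_le_continuum (mk_Iio_I a) (mk_Iio_I a)
    have h3 : #(B1 ∪ B2 : Set ℝ) < #E := by
      rw [hE]
      exact (mk_union_le _ _).trans_lt (add_lt_of_lt aleph0_le_continuum h1 h2)
    have : ¬ E ⊆ B1 ∪ B2 := fun h => (mk_le_mk_of_subset h).not_gt h3
    obtain ⟨r, hr, hr2⟩ := not_subset.1 this
    refine ⟨r, hr, fun c h e => hr2 (Or.inl ⟨⟨c, h⟩, e.symm⟩),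
      fun b c h hb e => hr2 (Or.inr ⟨(⟨b, hb⟩, ⟨c, h⟩), e.symm⟩)⟩
  choose F hF using step
  let x : I → ℝ := (wellFounded_lt (α := I)).fix F
  have hx : ∀ a, x a = F a (fun c _ => x c) := fun a => WellFounded.fix_eq _ F a
  refine ⟨x, fun a => ?_, ?_, fun a b c hb hc => ?_⟩
  · rw [hx]; exact (hF a _).1
  · intro a b hab
    rcases lt_trichotomy a b with h | h | h
    · exact absurd hab.symm (by rw [hx b]; exact (hF b _).2.1 a h)
    · exact h
    · exact absurd hab (by rw [hx a]; exact (hF a _).2.1 b h)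
  · rw [hx a]; exact (hF a _).2.2 b c hc hb

theorem sSup_rat (g : ℝ → ℝ) (hg : Monotone g) (r : ℝ) (hc : ContinuousAt g r) :
    sSup ((fun q : ℚ => g q) '' {q : ℚ | (q : ℝ) < r}) = g r := by
  have hl : IsLUB ((fun q : ℚ => (q : ℝ)) '' {q : ℚ | (q : ℝ) < r}) r := by
    constructor
    · rintro _ ⟨q, hq, rfl⟩; exact le_of_lt hq
    · intro b hb
      by_contra h
      obtain ⟨q, h1, h2⟩ := exists_rat_btwn (not_le.1 h)
      exact absurd (hb ⟨q, h2, rfl⟩) (not_le.2 h1)
  have hne : ((fun q : ℚ => (q : ℝ)) '' {q : ℚ | (q : ℝ) < r}).Nonempty := by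
    obtain ⟨q, hq⟩ := exists_rat_lt r
    exact ⟨q, q, hq, rfl⟩
  have e := hl.csSup_eq hne
  have := Monotone.map_csSup_of_continuousAt (f := g) (by rw [e]; exact hc) hg hne hl.bddAbove
  rw [e, image_image] at this
  exact this.symm

/-- A family of continuum many reals which is rigid for increasing maps. -/
theorem exists_rigid : ∃ x : I → ℝ, Function.Injective x ∧
    ∀ (Y : Set I) (f : I → I), (∀ a ∈ Y, ∀ b ∈ Y, x a < x b → x (f a) < x (f b)) →
      (∀ a ∈ Y, f a ≠ a) → #Y < 𝔠 := by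
  have hc : #(ℚ → ℝ) = #I := by
    rw [mk_I]; simp [mk_real]
  obtain ⟨e⟩ := Cardinal.eq.1 hc
  have : Nonempty I := ⟨e (fun _ => 0)⟩
  obtain ⟨x, hxE, hinj, hx⟩ := exists_avoid (Ioo 0 1) (mk_Ioo_real one_pos)
    (fun b r => sSup (e.symm b '' {q : ℚ | (q : ℝ) < r}))
  have one : ∀ (Y : Set I) (f : I → I), (∀ a ∈ Y, ∀ b ∈ Y, x a < x b → x (f a) < x (f b)) →
      (∀ a ∈ Y, a < f a) → #Y < 𝔠 := by
    intro Y f hf hlt
    let f' : ℝ → ℝ := fun r => x (f (Function.invFun x r))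
    have hf' : ∀ a, f' (x a) = x (f a) := fun a => by
      simp only [f', Function.leftInverse_invFun hinj a]
    have hm : MonotoneOn f' (x '' Y) := by
      rintro _ ⟨a, ha, rfl⟩ _ ⟨b, hb, rfl⟩ hab
      rcases hab.eq_or_lt with h | h
      · rw [h]
      · rw [hf', hf']; exact (hf a ha b hb h).le
    obtain ⟨g, hg, hfg⟩ := hm.exists_monotone_extension
      ⟨0, by rintro _ ⟨r, -, rfl⟩; exact (hxE _).1.le⟩
      ⟨1, by rintro _ ⟨r, -, rfl⟩; exact (hxE _).2.le⟩
    let b : I := e (fun q : ℚ => g q)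
    have hsub : Y ⊆ Iio b ∪ x ⁻¹' {r | ¬ ContinuousAt g r} := by
      intro a ha
      by_contra hcon
      simp only [mem_union, mem_Iio, mem_preimage, mem_ofPred_eq, not_or, not_lt, not_not] at hcon
      apply hx (f a) b a (hcon.1.trans_lt (hlt a ha)) (hlt a ha)
      simp only [b, Equiv.symm_apply_apply]
      rw [sSup_rat g hg _ hcon.2, ← hfg ⟨a, ha, rfl⟩, hf']
    refine (mk_le_mk_of_subset hsub).trans_lt ((mk_union_le _ _).trans_lt
      (add_lt_of_lt aleph0_le_continuum (mk_Iio_I b) ?_))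
    have : (x ⁻¹' {r | ¬ ContinuousAt g r}).Countable :=
      hg.countable_not_continuousAt.preimage hinj
    exact (le_aleph0_iff_set_countable.2 this).trans_lt aleph0_lt_continuum
  refine ⟨x, hinj, fun Y f hf hne => ?_⟩
  have finj : InjOn f Y := by
    intro a ha b hb hab
    rcases lt_trichotomy (x a) (x b) with h | h | h
    · exact absurd (hf a ha b hb h) (by rw [hab]; exact lt_irrefl _)
    · exact hinj h
    · exact absurd (hf b hb a ha h) (by rw [hab]; exact lt_irrefl _)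
  let Y1 := {a ∈ Y | a < f a}
  let Y2 := {a ∈ Y | f a < a}
  have h1 : #Y1 < 𝔠 := one Y1 f (fun a ha b hb => hf a ha.1 b hb.1) (fun a ha => ha.2)
  have h2 : #(f '' Y2) < 𝔠 := by
    have hi : ∀ a ∈ Y, Function.invFunOn f Y (f a) = a := fun a ha => finj.leftInvOn_invFunOn ha
    refine one _ (Function.invFunOn f Y) ?_ ?_
    · rintro _ ⟨a, ha, rfl⟩ _ ⟨b, hb, rfl⟩ h
      rw [hi a ha.1, hi b hb.1]
      rcases lt_trichotomy (x a) (x b) with h' | h' | h'
      · exact h'
      · rw [hinj h'] at h; exact absurd h (lt_irrefl _)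
      · exact absurd (hf b hb.1 a ha.1 h') h.not_gt
    · rintro _ ⟨a, ha, rfl⟩
      rw [hi a ha.1]; exact ha.2
  rw [mk_image_eq_of_injOn f Y2 (finj.mono (fun a ha => ha.1))] at h2
  have hsub : Y ⊆ Y1 ∪ Y2 := by
    intro a ha
    rcases lt_trichotomy a (f a) with h | h | h
    · exact Or.inl ⟨ha, h⟩
    · exact absurd h.symm (hne a ha)
    · exact Or.inr ⟨ha, h⟩
  exact (mk_le_mk_of_subset hsub).trans_lt ((mk_union_le _ _).trans_lt
    (add_lt_of_lt aleph0_le_continuum h1 h2))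

theorem exists_colouring (C : Type) [Countable C] [Nonempty C] :
    ∃ c : I → C, ∀ p, #(c ⁻¹' {p}) = 𝔠 := by
  have hc : #I = #(C × ℝ) := by
    rw [mk_I, mk_prod]; simp only [lift_id, mk_real]
    rw [mul_eq_right aleph0_le_continuum (mk_le_aleph0.trans aleph0_le_continuum) (mk_ne_zero C)]
  obtain ⟨e⟩ := Cardinal.eq.1 hc
  refine ⟨fun a => (e a).1, fun p => ?_⟩
  rw [← mk_real]
  refine mk_congr ⟨fun a => (e a.1).2, fun r => ⟨e.symm (p, r), by simp⟩, ?_, ?_⟩
  · rintro ⟨a, ha⟩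
    have : (e a).1 = p := ha
    apply Subtype.ext
    simp [← this]
  · intro r; simp

theorem aleph0_lt_cof_continuum : ℵ₀ < (𝔠 : Cardinal.{0}).ord.cof :=
  lt_cof_ord_power le_rfl (by norm_num : (1 : Cardinal.{0}) < 2)

end Pool.Agent.Lib.helper21.RigidReals
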