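import Pool.Agent.Lib.helper21.Clone

set_option autoImplicit false

/-! Small facts on logarithms and on complexities of encoded lists. -/

namespace Pool.Agent.Lib.helper21.KC

open Encodable Primrec Pool.Agent.H.MP_d04dff_lc

theorem lg_of_lt {x k : ℕ} (h : x < 2 ^ k) : lg x ≤ k + 1 := Nat.succ_le_succ (log_le h)

theorem lin_lt (e N : ℕ) : e * (N + 1) < 2 ^ (e + lg N) := by
  rw [pow_add]
  exact Nat.mul_lt_mul_of_lt_of_le Nat.lt_two_pow_self (lt_lg N) (by positivity)

theorem lg_lin (e N : ℕ) : lg (e * (N + 1)) ≤ (e + 2) * lg N := by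
  have := lg_of_lt (lin_lt e N)
  have := lg_pos N
  nlinarith

theorem lg_pow (k : ℕ) : lg (2 ^ k) = k + 1 := by simp [lg]

theorem lg_real (n : ℕ) : (lg n : ℝ) ≤ 2 * Real.logb 2 (2 + n) := by
  have h1 : (Nat.log 2 (2 + n) : ℝ) ≤ Real.logb 2 (2 + n) := by
    simpa using Real.natLog_le_logb (2 + n) 2
  have h2 : lg n ≤ 2 * Nat.log 2 (2 + n) := by
    have h3 := Nat.log_mono_right (b := 2) (Nat.le_add_left n 2)
    have h4 := Nat.log_pos one_lt_two (Nat.le_add_right 2 n)
    rw [lg]; omega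
  have h3 : (lg n : ℝ) ≤ 2 * Nat.log 2 (2 + n) := by exact_mod_cast h2
  linarith

theorem abs_real {a b c n : ℕ} (h1 : a ≤ b + c * lg n) (h2 : b ≤ a + c * lg n) :
    |(a : ℝ) - b| ≤ (2 * c : ℕ) * Real.logb 2 (2 + n) := by
  have h3 : (a : ℝ) ≤ b + c * lg n := by exact_mod_cast h1
  have h4 : (b : ℝ) ≤ a + c * lg n := by exact_mod_cast h2
  have h5 := mul_le_mul_of_nonneg_left (lg_real n) (Nat.cast_nonneg (α := ℝ) c)
  push_cast
  rw [abs_le]
  constructor <;> linarith

variable {U : Str →. Str} {e : List Str → Str}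

theorem short (n : ℕ) : ¬ Many (2 ^ (n + 1)) fun s : Str => s.length ≤ n := fun ⟨F, h1, h2⟩ =>
  (few (D := Part.some) F fun s hs => ⟨s, Part.mem_some s, h2 s hs⟩).not_ge h1

theorem Opt.list (hU : Opt U) (he : Computable e) (hi : Function.Injective e) (k : ℕ) :
    ∃ c, ∀ n (z : List Str), z.length ≤ k → (∀ s ∈ z, s.length ≤ n) → K U (e z) ≤ c * (n + 1) := by
  obtain ⟨c, hc⟩ := hU.condL (R := fun a u u' => ∃ z : Str × List Str,
      z.1.length ≤ a.getD 0 0 ∧ u = e z.2 ∧ u' = e (z.1 :: z.2))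
    (Sig.ex ((Sig.prim (nat_le.comp (list_length.comp (fst.comp snd))
      (gD (fst.comp (fst.comp fst)) 0))).and ((Sig.graph he (snd.comp snd)
        (snd.comp (fst.comp fst))).and (Sig.graph he (list_cons.comp (fst.comp snd) (snd.comp snd))
          (snd.comp fst))))) 1 1
  refine ⟨K U (e []) + k * (c + 1), fun n z h1 h2 => le_trans (?_ : _ ≤ K U (e []) +
    z.length * ((c + 1) * (n + 1))) (by
      have := Nat.mul_le_mul_right ((c + 1) * (n + 1)) h1
      nlinarith)⟩
  clear h1
  induction z with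
  | nil => simp
  | cons s z ih =>
    have h3 := ih fun t ht => h2 t (List.mem_cons_of_mem _ ht)
    have h4 := hc n [n] (e z) (e (s :: z)) (n + 1) le_rfl (by simp) (by simp)
      ⟨(s, z), h2 s List.mem_cons_self, rfl, rfl⟩ fun h => short n ((h.rel
        (fun u t => u = e (t :: z)) (fun u ⟨w, h5, h6, h7⟩ => ⟨w.1, by rw [h7, hi h6], h5⟩)
        fun _ _ _ _ _ h5 h6 => h5.trans h6.symm).mono (Nat.le_succ _) fun _ h => h)
    have h5 := Nat.mul_le_mul_left c (lg_le n)
    rw [List.length_cons]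
    nlinarith

theorem maps_comp {α : Type} [Primcodable α] (f : List ℕ → α → Str) (hf : ∀ S, Computable (f S)) :
    ∀ M : List (List ℕ), Computable fun z => M.map fun S => f S z
  | [] => Computable.const []
  | S :: M => Computable.list_cons.comp (hf S) (maps_comp f hf M)

theorem sel_prim (S : List ℕ) : Primrec fun z : List Str => S.map (co z) :=
  list_map (const S) (co_prim fst snd).to₂

end Pool.Agent.Lib.helper21.KC
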