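import Pool.Agent.Lib.helper21.Clone2

set_option autoImplicit false

/-! The clone lemma with a numeric parameter, and coverings by translates. -/

namespace Pool.Agent.Lib.helper21.KC

open Encodable Primrec Pool.Agent.H.MP_d04dff_lc

variable {U : Str →. Str} {r : ℕ}

theorem clone' (hU : Opt U) (hr : 2 ≤ r) {W : ℕ → List Str → Prop}
    (hW : Sig fun z : ℕ × List Str => W z.1 z.2)
    (det : ∀ m v v', W m v → W m v' → co v 0 = co v' 0 → v = v') :
    ∃ (Q : List ℕ → ℕ → Str → Prop) (c : ℕ),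
      (Sig fun z : (List ℕ × ℕ) × Str => Q z.1.1 z.1.2 z.2) ∧
      (∀ p j j' u u', Q p j u → Q p j' u' → (j = j' ↔ u = u')) ∧
      ∀ m v N, W m v → m ≤ N → (∀ i < r, K U (co v i) ≤ N) → ∃ p γ, p.length = r + 3 ∧
        (∀ x ∈ p, x ≤ c * (N + 1)) ∧ γ ≤ K U (co v 1) ∧ K U (co v 1) ≤ γ + c * lg N ∧
        (∀ j < 2 ^ γ, ∃ u, Q p j u) ∧ (∀ j u, Q p j u → ∃ w, W m w ∧ co w 1 = u) ∧
        ∀ j u d, Q p j u → K U (co v 1) ≤ K U u + d → ∃ w, W m w ∧ co w 1 = u ∧ ∀ i < r, K U (co w i) ≤ K U (co v i) ∧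
            K U (co v i) ≤ K U (co w i) + d + c * lg N := by
  classical
  let R : List ℕ → List Str → Prop := fun a v =>
    W (a.getD r 0) v ∧ ∀ i ∈ List.range r, K U (co v i) ≤ a.getD i 0
  have s0 : Sig fun z : List ℕ × List Str => R z.1 z.2 :=
    (hW.comp ((gD fst r).pair snd)).and (Sig.ball
    (hU.sig (co_prim (snd.comp fst) snd) ((list_getD 0).comp (fst.comp fst) snd)) (const _))
  obtain ⟨en, he⟩ := s0.enum
  have s1 := early_sig (r := r) he
  obtain ⟨c₀, h₀⟩ := hU.closeL (R := fun a u u' => ∃ v, W (a.getD 1 0) v ∧ co v 0 = u ∧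
      co v (a.getD 0 0) = u')
    (Sig.ex ((hW.comp ((gD (fst.comp (fst.comp fst)) 1).pair snd)).and (Sig.prim ((Primrec.eq.comp (co_prim snd (const 0))
      (snd.comp (fst.comp fst))).and (Primrec.eq.comp (co_prim snd
        (gD (fst.comp (fst.comp fst)) 0)) (snd.comp fst)))))) 2 r
  obtain ⟨c₁, h₁⟩ := hU.enumL (R := fun a u => Many (2 ^ a.getD 0 0) fun w =>
      R a.tail.tail w ∧ co w (a.tail.getD 0 0) = u)
    (Sig.many ((s0.comp ((tl (tl (fst.comp fst))).pair snd)).and (Sig.prim (Primrec.eq.comp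
      (co_prim snd (gD (tl (fst.comp fst)) 0)) (snd.comp fst)))) (pow2.comp (gD fst 0))) (r + 3)
    (r + 1)
  obtain ⟨e, hed⟩ : ∃ e, e = c₀ + c₁ + r + 4 := ⟨_, rfl⟩
  obtain ⟨c₂, h₂⟩ := hU.condL (R := fun a u u' => ∃ w, Early en r a w ∧ co w 1 = u ∧ co w 0 = u')
    (Sig.ex ((s1.comp ((fst.comp (fst.comp fst)).pair snd)).and (Sig.prim ((Primrec.eq.comp
      (co_prim snd (const 1)) (snd.comp (fst.comp fst))).and (Primrec.eq.comp
        (co_prim snd (const 0)) (snd.comp fst)))))) (r + 2) e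
  let P : List ℕ → Str → Prop := fun a u => Many (2 ^ a.getD 0 0) fun w =>
    Early en r a.tail w ∧ co w 1 = u
  have s2 : Sig fun z : List ℕ × Str => P z.1 z.2 :=
    Sig.many ((s1.comp ((tl (fst.comp fst)).pair snd)).and (Sig.prim (Primrec.eq.comp
      (co_prim snd (const 1)) (snd.comp fst)))) (pow2.comp (gD fst 0))
  obtain ⟨enP, hP⟩ := s2.enum
  obtain ⟨c₃, h₃⟩ := hU.enumL s2 (r + 3) e
  have g0 : Primrec fun z : (List ℕ × Str) × List Str => z.1.1 := fst.comp fst
  obtain ⟨c₄, h₄⟩ := hU.enumL (R := fun a u => Many (2 ^ a.getD 0 0) fun w =>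
      (Early en r a.tail.tail.tail w ∧ K U (co w (a.tail.getD 0 0)) ≤ a.tail.tail.getD 0 0) ∧
        co w 1 = u)
    (Sig.many (((s1.comp ((tl (tl (tl g0))).pair snd)).and (hU.sig (co_prim snd (gD (tl g0) 0))
      (gD (tl (tl g0)) 0))).and (Sig.prim (Primrec.eq.comp (co_prim snd (const 1))
        (snd.comp fst)))) (pow2.comp (gD fst 0))) (r + 5) e
  refine ⟨fun p j u => ∃ t, (enP p t)[j]? = some u, e + c₂ + c₃ + c₄ + 3,
    hP.sig (fst.comp fst) (snd.comp fst) snd, fun p j j' u u' ⟨t, h⟩ ⟨t', h'⟩ =>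
      ⟨fun e => (hP.get h (e ▸ h')).1, fun e => hP.inj h (e ▸ h')⟩, fun m v N hv hm hN => ?_⟩
  obtain ⟨a, ha⟩ : ∃ a, a = ((List.range r).map fun i => K U (co v i)) ++ [m] := ⟨_, rfl⟩
  have a1 : ∀ i < r, a.getD i 0 = K U (co v i) := fun i hi => by
    simp [ha, hi, List.getElem?_append_left]
  have a0 : a.getD r 0 = m := by simp [ha]
  have a2 : a.length = r + 1 := by simp [ha]
  have a3 : ∀ x ∈ a, x ≤ N := fun x hx => by
    rw [ha] at hx
    rcases List.mem_append.1 hx with hx | hx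
    · obtain ⟨i, hi, rfl⟩ := List.mem_map.1 hx
      exact hN i (List.mem_range.1 hi)
    · rwa [List.mem_singleton.1 hx]
  have l1 := lg_pos N
  have l2 := lg_le N
  obtain ⟨L, hL⟩ : ∃ L, L = (c₀ + c₁ + 2) * lg N := ⟨_, rfl⟩
  have b0 : N + L + r + 2 ≤ e * (N + 1) := by rw [hL, hed]; nlinarith
  have b1 : ∀ x ∈ L :: a, x ≤ e * (N + 1) := fun x hx => by
    rcases List.mem_cons.1 hx with rfl | hx
    · omega
    · have := a3 x hx; omega
  have rv : R a v := ⟨a0 ▸ hv, fun i hi => (a1 i (List.mem_range.1 hi)).ge⟩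
  have f0 : ¬ Many (2 ^ (a.getD 0 0 + 1)) (R a) := fun h => hU.few _ (h.rel (fun w u => co w 0 = u)
    (fun w hw => ⟨_, rfl, hw.2 0 (List.mem_range.2 (by omega))⟩)
    fun w w' u h1 h2 h3 h4 => det _ _ _ h1.1 h2.1 (h3.trans h4.symm))
  have f1 : ∀ i < r, a.getD i 0 ≤ a.getD 0 0 + c₀ * lg N := fun i hi => by
    rw [a1 i hi, a1 0 (by omega)]
    exact h₀ N [i, m] _ _ le_rfl (by simp; constructor <;> nlinarith) ⟨v, hv, rfl, rfl⟩
      fun u ⟨w, h1, h2, h3⟩ => by rw [← h3, det _ _ _ h1 hv h2]; rfl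
  have n0 := hN 0 (by omega)
  have n1 := hN 1 (by omega)
  rw [← a1 0 (by omega)] at n0
  have ev : Early en r (L :: a) v := early_of he rv fun i hi h => by
    have h1 := f1 i hi
    have h2 : L = c₀ * lg N + c₁ * lg N + 2 * lg N := by rw [hL]; ring
    generalize hs : a.getD 0 0 + L - a.getD i 0 = s at h
    rcases le_or_gt s (a.getD 0 0) with c | c
    · have := h₁ N (s :: i :: a) (co v i) (a.getD 0 0 + 1 - s) (by simp [a2]) (by
        simp only [List.mem_cons, forall_eq_or_imp]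
        exact ⟨by nlinarith, by nlinarith, fun x hx => by have := a3 x hx; nlinarith⟩)
        ((Nat.sub_le _ _).trans (by nlinarith)) h fun h3 => f0 ((Many.fiber _ h3).mono (by
          rw [List.getD_cons_zero, add_mul, ← pow_add, Nat.sub_add_cancel (by omega)]
          omega) fun _ h => h)
      rw [← a1 i hi] at this
      omega
    · exact f0 (h.mono (Nat.pow_le_pow_right (by norm_num) c) fun _ h => h.1)
  obtain ⟨β, β1, β2, β3⟩ := exlog (p := fun w => Early en r (L :: a) w ∧ co w 1 = co v 1)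
    ⟨ev, rfl⟩ (a.getD 0 0 + L - a.getD 1 0) fun h => early_few he L a (by omega : 1 < r) _
      (h.mono (Nat.pow_lt_pow_right one_lt_two (by omega)) fun _ h => h)
  have f2 := h₂ N (L :: a) (co v 1) (co v 0) (β + 1) (by simp [a2]) b1 (by omega) ⟨v, ev, rfl, rfl⟩
    fun h => β3 ((h.rel (fun u w => co w 0 = u) (fun u ⟨w, h1, h2, h3⟩ => ⟨w, h3, h1, h2⟩)
      fun _ _ _ _ _ h1 h2 => h1.symm.trans h2).mono (by omega) fun _ h => h)
  have b2 : ∀ x ∈ β :: L :: a, x ≤ e * (N + 1) := fun x hx => by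
    rcases List.mem_cons.1 hx with rfl | hx
    · omega
    · exact b1 x hx
  obtain ⟨γ, γ1, γ2, γ3⟩ := exlog (p := P (β :: L :: a)) β2 (K U (co v 1)) fun h =>
    hU.few _ (h.mono le_rfl fun u hu => by
      obtain ⟨w, h1, rfl⟩ := Many.ex hu (by positivity)
      rw [← a1 1 (by omega)]
      exact (early_mem he h1).2 1 (List.mem_range.2 (by omega)))
  have f3 := h₃ N (β :: L :: a) (co v 1) (γ + 1) (by simp [a2]) b2 (by omega) β2
    fun h => γ3 (h.mono (by omega) fun _ h => h)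
  refine ⟨β :: L :: a, γ, by simp [a2], fun x hx => (b2 x hx).trans (by nlinarith), γ1,
    by nlinarith, fun j hj => hP.full γ2 hj, fun j u ⟨t, ht⟩ => ?_, fun j u d ⟨t, ht⟩ hd => ?_⟩
  · obtain ⟨w, h1, h2⟩ := Many.ex ((hP.mem _ _).2 ⟨t, List.mem_of_getElem? ht⟩) (by positivity)
    exact ⟨w, a0 ▸ (early_mem he h1).1, h2⟩
  obtain ⟨F, F1, F2⟩ : P (β :: L :: a) u := (hP.mem _ _).2 ⟨t, List.mem_of_getElem? ht⟩
  obtain ⟨D, hD⟩ : ∃ D, D = d + (e + c₂ + c₃ + c₄ + 3) * lg N := ⟨_, rfl⟩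
  have f4 : ∀ i < r, (F.filter fun w => K U (co w i) + D ≤ a.getD i 0).card ≤ 2 ^ (β - r) - 1 := by
    intro i hi
    by_contra c
    have h1 : 0 < 2 ^ (β - r) := by positivity
    obtain ⟨w, hw⟩ := Finset.card_pos.1 ((Nat.zero_le _).trans_lt (not_le.1 c))
    have h2 := (Finset.mem_filter.1 hw).2
    have h3 : Many (2 ^ (β - r)) fun w => (Early en r (L :: a) w ∧
        K U (co w i) ≤ a.getD i 0 - D) ∧ co w 1 = u :=
      ⟨F.filter fun w => K U (co w i) + D ≤ a.getD i 0, by omega, fun w hw => by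
      have := Finset.mem_filter.1 hw
      exact ⟨⟨(F2 w this.1).1, by omega⟩, (F2 w this.1).2⟩⟩
    have h4 : ¬ Many (2 ^ (a.getD i 0 - D + 1) * 2 ^ (a.getD 0 0 + L - a.getD i 0) + 1) fun w =>
        Early en r (L :: a) w ∧ K U (co w i) ≤ a.getD i 0 - D :=
      not_many_mul (fun w => co w i) (fun h => hU.few _ (h.mono (Nat.le_succ _) fun _ h => h))
        (fun _ h => h.2) fun u h => early_few he L a hi u (h.mono le_rfl fun _ h => ⟨h.1.1, h.2⟩)
    have h5 := f1 i hi
    have h6 : L = c₀ * lg N + c₁ * lg N + 2 * lg N := by rw [hL]; ring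
    have h7 := hN i hi
    rw [← a1 i hi] at h7
    rw [← pow_add] at h4
    generalize hs : a.getD i 0 - D + 1 + (a.getD 0 0 + L - a.getD i 0) = s at h4
    rcases le_or_gt (β - r) s with c2 | c2
    · have := h₄ N ((β - r) :: i :: (a.getD i 0 - D) :: L :: a) u (s - (β - r)) (by simp [a2]) (by
        intro x hx
        rcases List.mem_cons.1 hx with rfl | hx
        · omega
        rcases List.mem_cons.1 hx with rfl | hx
        · omega
        rcases List.mem_cons.1 hx with rfl | hx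
        · omega
        exact b1 x hx) (by omega) h3 fun h8 => h4 ((Many.fiber _ h8).mono (by
          rw [List.getD_cons_zero, add_mul, ← pow_add, Nat.sub_add_cancel c2]
          omega) fun _ h => h)
      rw [← a1 0 (by omega)] at f2
      have h9 : D = d + (c₀ * lg N + c₁ * lg N + r * lg N + c₂ * lg N + c₃ * lg N + c₄ * lg N +
        7 * lg N) := by rw [hD, hed]; ring
      have h10 : r ≤ r * lg N := Nat.le_mul_of_pos_right _ l1
      omega
    · exact h4 (h3.mono (Nat.pow_lt_pow_right one_lt_two c2) fun _ h => h.1)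
  obtain ⟨w, w1, w2⟩ := Finset.exists_mem_notMem_of_card_lt_card (s := (Finset.range r).biUnion
      fun i => F.filter fun w => K U (co w i) + D ≤ a.getD i 0) (t := F) (by
    refine (Finset.card_biUnion_le_card_mul _ _ _ fun i hi =>
      f4 i (Finset.mem_range.1 hi)).trans_lt (lt_of_lt_of_le ?_ F1)
    rw [Finset.card_range, List.getD_cons_zero]
    rcases le_or_gt r β with c | c
    · obtain ⟨k, rfl⟩ := Nat.exists_eq_add_of_le c
      rw [Nat.add_sub_cancel_left, pow_add]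
      exact Nat.mul_lt_mul_of_lt_of_le Nat.lt_two_pow_self (Nat.sub_le _ _) (by positivity)
    · simp [Nat.sub_eq_zero_of_le c.le])
  have w3 := early_mem he (F2 w w1).1
  refine ⟨w, a0 ▸ w3.1, (F2 w w1).2, fun i hi => ?_⟩
  rw [← a1 i hi, add_assoc, ← hD]
  refine ⟨w3.2 i (List.mem_range.2 hi), le_of_not_ge fun c => w2 (Finset.mem_biUnion.2
    ⟨i, Finset.mem_range.2 hi, Finset.mem_filter.2 ⟨w1, c⟩⟩)⟩

section cover

open Finset

variable {G Y : Type} [Group G] [Fintype G] [MulAction G Y] [DecidableEq Y] {X A : Finset Y}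

theorem cover_step (h1 : ∀ g : G, ∀ y ∈ X, g • y ∈ X) (h2 : ∀ y ∈ X, ∀ y' ∈ X, ∃ g : G, g • y = y')
    (hA : A ⊆ X) (R : Finset Y) (hR : R ⊆ X) :
    ∃ g : G, #R * #A ≤ #(R.filter fun y => g • y ∈ A) * #X := by
  classical
  have k1 : ∀ y ∈ X, ∀ a ∈ X, #(univ.filter fun g : G => g • y = a) * #X = Fintype.card G := by
    intro y hy a ha
    rw [← card_univ, card_eq_sum_card_fiberwise (f := fun g : G => g • y) (s := univ) (t := X)
      fun g _ => h1 g y hy, mul_comm]
    refine (sum_const_nat fun b hb => Eq.symm ?_).symm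
    obtain ⟨h, rfl⟩ := h2 a ha b hb
    refine card_bij (fun g _ => h * g) (fun g hg => ?_) (fun _ _ _ _ e => mul_left_cancel e)
      fun g hg => ⟨h⁻¹ * g, ?_, by simp⟩
    · simp only [mem_filter, mem_univ, true_and] at hg ⊢
      rw [mul_smul, hg]
    · simp only [mem_filter, mem_univ, true_and] at hg ⊢
      rw [mul_smul, hg, inv_smul_smul]
  have k2 : ∑ g : G, #(R.filter fun y => g • y ∈ A) * #X = ∑ _g : G, #R * #A := by
    rw [← sum_mul, sum_const, card_univ, smul_eq_mul]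
    simp only [card_filter]
    rw [sum_comm, sum_mul, mul_comm (Fintype.card G), mul_assoc, ← smul_eq_mul (a := #R),
      ← sum_const]
    refine sum_congr rfl fun y hy => ?_
    rw [← card_filter, card_eq_sum_card_fiberwise (f := fun g : G => g • y)
      (s := univ.filter fun g : G => g • y ∈ A) (t := A)
      fun g hg => (mem_filter.1 hg).2, sum_mul, ← smul_eq_mul (a := #A), ← sum_const]
    refine sum_congr rfl fun a ha => ?_
    rw [← k1 y (hR hy) a (hA ha), filter_filter]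
    congr 2
    exact filter_congr fun g _ => ⟨fun h => h.2, fun h => ⟨h ▸ ha, h⟩⟩
  obtain ⟨g, -, hg⟩ := exists_le_of_sum_le univ_nonempty k2.ge
  exact ⟨g, hg⟩

theorem cover (h1 : ∀ g : G, ∀ y ∈ X, g • y ∈ X) (h2 : ∀ y ∈ X, ∀ y' ∈ X, ∃ g : G, g • y = y')
    (hA : A ⊆ X) {M k : ℕ} (hM : #X ≤ M * #A) (hk : #X < 2 ^ k) :
    ∃ f : ℕ → G, ∀ y ∈ X, ∃ i < M * k, f i • y ∈ A := by
  classical
  rcases X.eq_empty_or_nonempty with rfl | hX
  · simp
  have h0 := card_pos.2 hX
  have h3 : 0 < M := Nat.pos_of_mul_pos_right (h0.trans_le hM)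
  have h4 : 0 < #A := Nat.pos_of_mul_pos_left (h0.trans_le hM)
  have h5 : (0 : ℝ) < M := by exact_mod_cast h3
  have key : ∀ t, ∃ f : ℕ → G,
      (#(X.filter fun y => ∀ i < t, f i • y ∉ A) : ℝ) ≤ Real.exp (-1 / M) ^ t * #X := by
    intro t
    induction t with
    | zero => exact ⟨1, by simp⟩
    | succ t ih =>
      obtain ⟨f, hf⟩ := ih
      obtain ⟨g, hg⟩ := cover_step h1 h2 hA _ (filter_subset (fun y => ∀ i < t, f i • y ∉ A) X)
      refine ⟨Function.update f t g, ?_⟩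
      have e : (X.filter fun y => ∀ i < t + 1, Function.update f t g i • y ∉ A) =
          (X.filter fun y => ∀ i < t, f i • y ∉ A).filter fun y => ¬ g • y ∈ A := by
        rw [filter_filter]
        refine filter_congr fun y _ => ⟨fun h => ⟨fun i hi => ?_, ?_⟩, fun h i hi => ?_⟩
        · simpa [hi.ne] using h i (by omega)
        · simpa using h t (by omega)
        · rcases Nat.lt_succ_iff_lt_or_eq.1 hi with hi | rfl
          · simpa [hi.ne] using h.1 i hi
          · simpa using h.2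
      rw [e]
      generalize (X.filter fun y => ∀ i < t, f i • y ∉ A) = R at *
      have h6 := card_filter_add_card_filter_not (s := R) fun y => g • y ∈ A
      have h7 : #R ≤ #(R.filter fun y => g • y ∈ A) * M := Nat.le_of_mul_le_mul_right
        (hg.trans ((Nat.mul_le_mul_left _ hM).trans_eq (mul_assoc _ _ _).symm)) h4
      have h8 : (#R : ℝ) / M ≤ #(R.filter fun y => g • y ∈ A) := by
        rw [div_le_iff₀ h5]; exact_mod_cast h7
      have h9 : (#(R.filter fun y => g • y ∈ A) : ℝ) + #(R.filter fun y => ¬ g • y ∈ A) = #R := by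
        exact_mod_cast h6
      have h10 := mul_le_mul_of_nonneg_right (Real.add_one_le_exp (-1 / M))
        (Nat.cast_nonneg (α := ℝ) #R)
      have h11 := mul_le_mul_of_nonneg_left hf (Real.exp_pos (-1 / M)).le
      rw [pow_succ', mul_assoc]
      have h12 : (-1 / M + 1) * (#R : ℝ) = #R - #R / M := by ring
      linarith
  obtain ⟨f, hf⟩ := key (M * k)
  refine ⟨f, fun y hy => ?_⟩
  by_contra c
  push Not at c
  have h6 : (1 : ℝ) ≤ #(X.filter fun y => ∀ i < M * k, f i • y ∉ A) := by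
    exact_mod_cast card_pos.2 ⟨y, mem_filter.2 ⟨hy, c⟩⟩
  have h7 : (#X : ℝ) < Real.exp 1 ^ k := lt_of_lt_of_le (by exact_mod_cast hk)
    (pow_le_pow_left₀ (a := 2) (by norm_num) (by linarith [Real.add_one_le_exp 1]) k)
  have h8 : Real.exp (-1 / M) ^ (M * k) * Real.exp 1 ^ k = 1 := by
    rw [pow_mul, ← mul_pow, ← Real.exp_nat_mul, ← Real.exp_add, mul_div_cancel₀ _ h5.ne']
    simp
  have h9 := mul_lt_mul_of_pos_left h7 (pow_pos (Real.exp_pos (-1 / M)) (M * k))
  linarith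

end cover

end Pool.Agent.Lib.helper21.KC
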