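import Mathlib

set_option autoImplicit false

/-! Rational transductions in Nivat form, rational cones, composition and normal form. -/

namespace Pool.Agent.Lib.helper21.Cone

/-- `M = g (h⁻¹ L ∩ R)` for a finite alphabet `Z`, morphisms `h`, `g` and a regular `R`. -/
def RatImage {X Y : Type} (L : Language X) (M : Language Y) : Prop :=
  ∃ (Z : Type) (_ : Finite Z) (h : Z → List X) (g : Z → List Y) (R : Language Z), R.IsRegular ∧
    ∀ v, v ∈ M ↔ ∃ w ∈ R, w.flatMap h ∈ L ∧ w.flatMap g = v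

/-- A family of languages; only finite alphabets matter. -/
abbrev Family := (X : Type) → Language X → Prop

/-- Closure under rational transductions between finite alphabets. -/
def IsCone (F : Family) : Prop :=
  ∀ (X Y : Type) [Finite X] [Finite Y] (L : Language X) (M : Language Y),
    F X L → RatImage L M → F Y M

/-- The least rational cone containing `L`. -/
def T {X : Type} (L : Language X) : Family := fun Y M => ∀ F, IsCone F → F X L → F Y M

theorem reg_iff {Z : Type} {R : Language Z} : R.IsRegular ↔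
    ∃ (σ : Type) (_ : Finite σ) (δ : σ → Z → σ) (s : σ) (F : σ → Prop),
      ∀ w, w ∈ R ↔ F (w.foldl δ s) := by
  constructor
  · rintro ⟨σ, _, M, rfl⟩
    exact ⟨σ, inferInstance, M.step, M.start, (· ∈ M.accept), fun _ => Iff.rfl⟩
  · rintro ⟨σ, _, δ, s, F, h⟩
    exact ⟨σ, Fintype.ofFinite σ, ⟨δ, s, {q | F q}⟩, by ext w; exact (h w).symm⟩

theorem reg_inv {Z σ : Type} {R : Language Z} (δ : σ → Z → σ) (s : σ) (F : σ → Prop) (S : Set σ)
    (hS : S.Finite) (hs : s ∈ S) (hδ : ∀ q ∈ S, ∀ a, δ q a ∈ S)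
    (h : ∀ w, w ∈ R ↔ F (w.foldl δ s)) : R.IsRegular := by
  refine reg_iff.2 ⟨S, hS, fun q a => ⟨δ q a, hδ _ q.2 a⟩, ⟨s, hs⟩, fun q => F q, fun w => ?_⟩
  have : ∀ (w : List Z) (q : S), ((w.foldl (fun (q : S) a => (⟨δ q a, hδ _ q.2 a⟩ : S)) q : S) : σ)
      = w.foldl δ q := by
    intro w
    induction w with
    | nil => intro q; rfl
    | cons a w ih => intro q; exact ih _
  beta_reduce
  rw [this]; exact h w

theorem reg_univ {Z : Type} : Language.IsRegular (Set.univ : Language Z) :=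
  reg_iff.2 ⟨Unit, inferInstance, fun _ _ => (), (), fun _ => True, fun _ => ⟨fun _ => trivial, fun _ => trivial⟩⟩

theorem exists_bound {Z Y : Type} [Finite Z] (g : Z → List Y) : ∃ K, ∀ z, (g z).length ≤ K := by
  obtain ⟨K, hK⟩ := (Set.finite_range fun z => (g z).length).bddAbove
  exact ⟨K, fun z => hK ⟨z, rfl⟩⟩

section comp
variable {Z1 Z2 Y : Type}

def lefts (w : List (Z1 ⊕ Z2)) : List Z1 := w.filterMap Sum.getLeft?
def rights (w : List (Z1 ⊕ Z2)) : List Z2 := w.filterMap Sum.getRight?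

@[simp] theorem lefts_nil : lefts ([] : List (Z1 ⊕ Z2)) = [] := rfl
@[simp] theorem rights_nil : rights ([] : List (Z1 ⊕ Z2)) = [] := rfl
@[simp] theorem lefts_inl (a : Z1) (w : List (Z1 ⊕ Z2)) : lefts (.inl a :: w) = a :: lefts w := rfl
@[simp] theorem lefts_inr (a : Z2) (w : List (Z1 ⊕ Z2)) : lefts (.inr a :: w) = lefts w := rfl
@[simp] theorem rights_inl (a : Z1) (w : List (Z1 ⊕ Z2)) : rights (.inl a :: w) = rights w := rfl
@[simp] theorem rights_inr (a : Z2) (w : List (Z1 ⊕ Z2)) :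
    rights (.inr a :: w) = a :: rights w := rfl

theorem fm_left (h : Z1 → List Y) (w : List (Z1 ⊕ Z2)) :
    w.flatMap (Sum.elim h fun _ => []) = (lefts w).flatMap h := by
  induction w with
  | nil => rfl
  | cons a w ih => cases a <;> simp [ih]

theorem fm_right (h : Z2 → List Y) (w : List (Z1 ⊕ Z2)) :
    w.flatMap (Sum.elim (fun _ => []) h) = (rights w).flatMap h := by
  induction w with
  | nil => rfl
  | cons a w ih => cases a <;> simp [ih]

open Classical in
noncomputable def bs (g : Z1 → List Y) (h : Z2 → List Y) (K : ℕ) :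
    Option (List Y) → Z1 ⊕ Z2 → Option (List Y)
  | none, _ => none
  | some b, .inl z => if (b ++ g z).length ≤ K then some (b ++ g z) else none
  | some b, .inr z => if h z <+: b then some (b.drop (h z).length) else none

variable (g : Z1 → List Y) (h : Z2 → List Y) (K : ℕ)

theorem bs_none (w : List (Z1 ⊕ Z2)) : w.foldl (bs g h K) none = none := by
  induction w with
  | nil => rfl
  | cons a w ih => exact ih

theorem bs_sound (w : List (Z1 ⊕ Z2)) : ∀ b, w.foldl (bs g h K) (some b) = some [] →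
    b ++ (lefts w).flatMap g = (rights w).flatMap h := by
  induction w with
  | nil => intro b e; simpa using e
  | cons a w ih =>
    intro b e
    cases a with
    | inl z =>
      simp only [List.foldl_cons, bs] at e
      split_ifs at e
      · simpa using ih _ e
      · simp [bs_none] at e
    | inr z =>
      simp only [List.foldl_cons, bs] at e
      split_ifs at e with hp
      · obtain ⟨t, rfl⟩ := hp
        simpa using ih _ e
      · simp [bs_none] at e

theorem bs_complete {K1 K2 : ℕ} (h1 : ∀ z, (g z).length ≤ K1) (h2 : ∀ z, (h z).length ≤ K2) (n : ℕ) :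
    ∀ (w1 : List Z1) (w2 : List Z2) (b : List Y), w1.length + w2.length ≤ n →
      b ++ w1.flatMap g = w2.flatMap h →
      ∃ w, lefts w = w1 ∧ rights w = w2 ∧ w.foldl (bs g h (K1 + K2)) (some b) = some [] := by
  induction n with
  | zero =>
    intro w1 w2 b hn e
    obtain rfl : w1 = [] := List.length_eq_zero_iff.1 (by omega)
    obtain rfl : w2 = [] := List.length_eq_zero_iff.1 (by omega)
    exact ⟨[], rfl, rfl, by simpa using e⟩
  | succ n ih =>
    intro w1 w2 b hn e
    by_cases hc : ∃ z w2', w2 = z :: w2' ∧ h z <+: b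
    · obtain ⟨z, w2', rfl, t, rfl⟩ := hc
      obtain ⟨w, a1, a2, a3⟩ := ih w1 w2' t (by simp at hn; omega) (by simpa using e)
      exact ⟨.inr z :: w, by simp [a1], by simp [a2], by simpa [bs] using a3⟩
    · have hb : b.length ≤ K2 ∧ (w1 = [] → w2 = []) := by
        cases w2 with
        | nil => simp_all
        | cons z w2' =>
          have h3 : ¬ h z <+: b := fun h3 => hc ⟨z, w2', rfl, h3⟩
          rw [List.flatMap_cons] at e
          refine ⟨?_, ?_⟩
          · rcases List.append_eq_append_iff.1 e with ⟨t, e1, -⟩ | ⟨t, e1, -⟩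
            · have := h2 z; rw [e1, List.length_append] at this; omega
            · exact absurd ⟨t, e1.symm⟩ h3
          · rintro rfl
            exact absurd ⟨_, by simpa using e.symm⟩ h3
      cases w1 with
      | nil =>
        obtain rfl := hb.2 rfl
        exact ⟨[], rfl, rfl, by simpa using e⟩
      | cons z w1 =>
        obtain ⟨w, a1, a2, a3⟩ := ih w1 w2 (b ++ g z) (by simp at hn; omega) (by simpa using e)
        refine ⟨.inl z :: w, by simp [a1], by simp [a2], ?_⟩
        have := h1 z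
        rw [List.foldl_cons, bs, if_pos (by rw [List.length_append]; omega)]
        exact a3

theorem comp_core [Finite Z1] [Finite Z2] [Finite Y] {R1 : Language Z1} {R2 : Language Z2}
    (r1 : R1.IsRegular) (r2 : R2.IsRegular) : ∃ R : Language (Z1 ⊕ Z2), R.IsRegular ∧
      (∀ w ∈ R, lefts w ∈ R1 ∧ rights w ∈ R2 ∧ (lefts w).flatMap g = (rights w).flatMap h) ∧
      ∀ w1 ∈ R1, ∀ w2 ∈ R2, w1.flatMap g = w2.flatMap h →
        ∃ w ∈ R, lefts w = w1 ∧ rights w = w2 := by
  obtain ⟨K1, h1⟩ := exists_bound g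
  obtain ⟨K2, h2⟩ := exists_bound h
  obtain ⟨σ1, _, δ1, s1, F1, e1⟩ := reg_iff.1 r1
  obtain ⟨σ2, _, δ2, s2, F2, e2⟩ := reg_iff.1 r2
  refine ⟨{w | lefts w ∈ R1 ∧ rights w ∈ R2 ∧ w.foldl (bs g h (K1 + K2)) (some []) = some []},
    ?_, fun w hw => ⟨hw.1, hw.2.1, by simpa using bs_sound g h _ w [] hw.2.2⟩, ?_⟩
  · let δ : σ1 × σ2 × Option (List Y) → Z1 ⊕ Z2 → σ1 × σ2 × Option (List Y) := fun q a =>
      (Sum.elim (δ1 q.1) (fun _ => q.1) a, Sum.elim (fun _ => q.2.1) (δ2 q.2.1) a,
        bs g h (K1 + K2) q.2.2 a)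
    have key : ∀ (w : List (Z1 ⊕ Z2)) q, w.foldl δ q = ((lefts w).foldl δ1 q.1,
        (rights w).foldl δ2 q.2.1, w.foldl (bs g h (K1 + K2)) q.2.2) := by
      intro w
      induction w with
      | nil => intro q; rfl
      | cons a w ih => intro q; cases a <;> exact ih _
    refine reg_inv δ (s1, s2, some []) (fun q => F1 q.1 ∧ F2 q.2.1 ∧ q.2.2 = some [])
      (Set.univ ×ˢ Set.univ ×ˢ (insert none (some '' {l | l.length ≤ K1 + K2})))
      (Set.finite_univ.prod (Set.finite_univ.prod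
        (((List.finite_length_le Y _).image _).insert _))) (by simp) ?_ (fun w => ?_)
    · rintro ⟨q1, q2, _ | b⟩ hq a
      · simp [δ, bs]
      · have hb : b.length ≤ K1 + K2 := by simpa using hq
        cases a <;> simp only [δ, bs] <;> split_ifs <;> simp_all
        omega
    · rw [key, ← e1, ← e2]; rfl
  · intro w1 a1 w2 a2 e
    obtain ⟨w, rfl, rfl, a3⟩ := bs_complete g h h1 h2 _ w1 w2 [] le_rfl (by simpa using e)
    exact ⟨w, ⟨a1, a2, a3⟩, rfl, rfl⟩

end comp

variable {X Y W : Type}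

theorem RatImage.refl [Finite X] (L : Language X) : RatImage L L :=
  ⟨X, inferInstance, fun a => [a], fun a => [a], _, reg_univ, fun v =>
    ⟨fun h => ⟨v, trivial, by simpa using h, by simp⟩, fun ⟨_, _, h, e⟩ => by simp_all⟩⟩

theorem RatImage.trans [Finite Y] {L : Language X} {M : Language Y} {N : Language W}
    (a : RatImage L M) (b : RatImage M N) : RatImage L N := by
  obtain ⟨Z1, _, h1, g1, R1, r1, e1⟩ := a
  obtain ⟨Z2, _, h2, g2, R2, r2, e2⟩ := b
  obtain ⟨R, r, c1, c2⟩ := comp_core g1 h2 r1 r2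
  refine ⟨Z1 ⊕ Z2, inferInstance, Sum.elim h1 fun _ => [], Sum.elim (fun _ => []) g2, R, r,
    fun v => ?_⟩
  simp only [fm_left, fm_right, e2, e1]
  constructor
  · rintro ⟨w2, a2, ⟨w1, a1, a3, a4⟩, rfl⟩
    obtain ⟨w, hw, rfl, rfl⟩ := c2 w1 a1 w2 a2 a4
    exact ⟨w, hw, a3, rfl⟩
  · rintro ⟨w, hw, a3, rfl⟩
    obtain ⟨a1, a2, a4⟩ := c1 w hw
    exact ⟨_, a2, ⟨_, a1, a3, a4⟩, rfl⟩

theorem T_iff [Finite X] [Finite Y] {L : Language X} {M : Language Y} :
    T L Y M ↔ RatImage L M :=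
  ⟨fun h => h (fun _ N => RatImage L N) (fun _ _ _ _ _ _ a b => a.trans b) (RatImage.refl L),
    fun h _ hF hL => hF _ _ _ _ hL h⟩

theorem T_cone (L : Language X) : IsCone (T L) :=
  fun _ _ _ _ _ _ a b F hF hL => hF _ _ _ _ (a F hF hL) b

/-- Normal form: both morphisms alphabetic, and no letter has both an input and an output. -/
theorem RatImage.normal [Finite X] [Finite Y] {L : Language X} {M : Language Y}
    (a : RatImage L M) : ∃ (Z σ : Type) (_ : Finite Z) (_ : Finite σ) (h : Z → List X)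
      (g : Z → List Y) (δ : σ → Z → σ) (s : σ) (F : σ → Prop),
      (∀ z, (h z).length + (g z).length ≤ 1) ∧
      ∀ v, v ∈ M ↔ ∃ w : List Z, F (w.foldl δ s) ∧ w.flatMap h ∈ L ∧ w.flatMap g = v := by
  obtain ⟨Z, _, h, g, R, r, e⟩ := a
  obtain ⟨R1, r1, c1, c2⟩ := comp_core (fun a : X => [a]) h reg_univ r
  obtain ⟨R2, r2, d1, d2⟩ := comp_core (Sum.elim (fun _ : X => []) g) (fun a : Y => [a]) r1 reg_univ
  obtain ⟨σ, _, δ, s, F, e2⟩ := reg_iff.1 r2
  refine ⟨(X ⊕ Z) ⊕ Y, σ, inferInstance, inferInstance,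
    Sum.elim (Sum.elim (fun a => [a]) fun _ => []) fun _ => [],
    Sum.elim (fun _ => []) fun a => [a], δ, s, F, by rintro ((a | a) | a) <;> simp, fun v => ?_⟩
  simp only [fm_left, fm_right, e, ← e2]
  constructor
  · rintro ⟨w, a1, a2, rfl⟩
    obtain ⟨w1, b1, b2, rfl⟩ := c2 (w.flatMap h) trivial w a1 (by simp)
    obtain ⟨w2, b3, rfl, b4⟩ := d2 w1 b1 ((rights w1).flatMap g) trivial (by simp [fm_right])
    exact ⟨w2, b3, by simpa [b2] using a2, by simp [b4]⟩
  · rintro ⟨w, a1, a2, rfl⟩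
    obtain ⟨b1, -, b2⟩ := d1 w a1
    obtain ⟨-, b3, b4⟩ := c1 _ b1
    exact ⟨_, b3, b4 ▸ a2, by rw [← b2, fm_right]⟩

end Pool.Agent.Lib.helper21.Cone
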