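import Pool.Agent.Lib.helper21.Cone
import Pool.Agent.Lib.helper21.Cuts

set_option autoImplicit false

/-! Closure properties of regular languages. -/

namespace Pool.Agent.Lib.helper21.Cone

variable {X Y Z : Type}

theorem reg_of_col {C : Type} [Finite C] {R : Language Z} (φ : List Z → C)
    (h : ∀ u v, φ u = φ v → ∀ w, u ++ w ∈ R → v ++ w ∈ R) : R.IsRegular := by
  apply Language.IsRegular.of_finite_range_leftQuotient
  refine (Set.finite_range fun c : C => ({w | ∃ u, φ u = c ∧ u ++ w ∈ R} : Language Z)).subset ?_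
  rintro _ ⟨x, rfl⟩
  exact ⟨φ x, Set.ext fun w => ⟨fun ⟨u, e, hu⟩ => h u x e w hu, fun hx => ⟨x, rfl, hx⟩⟩⟩

theorem reg_mul {R1 R2 : Language Z} (r1 : R1.IsRegular) (r2 : R2.IsRegular) :
    (R1 * R2).IsRegular := by
  obtain ⟨σ1, _, δ1, s1, F1, e1⟩ := reg_iff.1 r1
  obtain ⟨σ2, _, δ2, s2, F2, e2⟩ := reg_iff.1 r2
  refine reg_of_col (fun u => (u.foldl δ1 s1,
    {q | ∃ x y, u = x ++ y ∧ x ∈ R1 ∧ y.foldl δ2 s2 = q})) fun u v e w hw => ?_
  obtain ⟨a1, a2⟩ := Prod.mk.inj e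
  obtain ⟨x, hx, y, hy, e⟩ := Language.mem_mul.1 hw
  rcases List.append_eq_append_iff.1 e with ⟨t, rfl, rfl⟩ | ⟨t, rfl, rfl⟩
  · obtain ⟨x', y', rfl, b1, b2⟩ := (Set.ext_iff.1 a2 _).1 ⟨x, t, rfl, hx, rfl⟩
    refine Language.mem_mul.2 ⟨x', b1, y' ++ w, ?_, by simp⟩
    rw [e2, List.foldl_append] at hy ⊢
    rwa [b2]
  · refine Language.mem_mul.2 ⟨v ++ t, ?_, y, hy, by simp⟩
    rw [e1, List.foldl_append] at hx ⊢
    rwa [← a1]

theorem reg_single (x : List Z) : Language.IsRegular ({x} : Set (List Z)) := by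
  refine reg_of_col (fun u => {i : Fin (x.length + 1) | u = x.take i}) fun u v e w hw => ?_
  obtain rfl : u ++ w = x := hw
  have : v = (u ++ w).take u.length :=
    (Set.ext_iff.1 e ⟨u.length, by simp [Nat.lt_succ_iff]⟩).1 (by simp)
  rw [this, List.take_left]; rfl

theorem RatImage.regular [Finite X] [Finite Y] {L : Language X} {M : Language Y}
    (a : RatImage L M) (r : L.IsRegular) : M.IsRegular := by
  obtain ⟨Z, σ, _, _, h, g, δ, s, F, hl, e⟩ := a.normal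
  obtain ⟨σ1, _, δ1, s1, F1, e1⟩ := reg_iff.1 r
  refine reg_of_col (fun u => {p : σ × σ1 | ∃ w : List Z, w.flatMap g = u ∧
    p = (w.foldl δ s, (w.flatMap h).foldl δ1 s1)}) fun u v e' t ht => ?_
  obtain ⟨w, a1, a2, a3⟩ := (e _).1 ht
  obtain ⟨w1, w2, rfl, rfl, rfl⟩ := Cuts.split (fun z => by have := hl z; omega) a3
  obtain ⟨w', rfl, b⟩ := (Set.ext_iff.1 e' _).1 ⟨w1, rfl, rfl⟩
  obtain ⟨b1, b2⟩ := Prod.mk.inj b
  refine (e _).2 ⟨w' ++ w2, ?_, ?_, by simp⟩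
  · rw [List.foldl_append] at a1 ⊢; rwa [← b1]
  · rw [e1, List.flatMap_append, List.foldl_append] at a2 ⊢; rwa [← b2]

def img (f : X → Y) (R : Language X) : Language Y := {w | ∃ u ∈ R, u.map f = w}

theorem reg_img [Finite X] [Finite Y] (f : X → Y) {R : Language X} (r : R.IsRegular) :
    (img f R).IsRegular :=
  RatImage.regular ⟨X, inferInstance, fun a => [a], fun a => [f a], _, reg_univ, fun _ =>
    ⟨fun ⟨u, hu, e⟩ => ⟨u, trivial, by simpa using hu, by rw [← e, List.map_eq_flatMap]⟩,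
      fun ⟨u, _, hu, e⟩ => ⟨u, by simpa using hu, by rw [← e, List.map_eq_flatMap]⟩⟩⟩ r

def pow (a : Y) : Language Y := {w | ∃ n, w = List.replicate n a}

theorem reg_pow [Finite Y] (a : Y) : (pow a).IsRegular := by
  convert reg_img (fun _ : Unit => a) reg_univ using 1
  ext w
  exact ⟨fun ⟨n, e⟩ => ⟨List.replicate n (), trivial, by simp [e]⟩,
    fun ⟨u, _, e⟩ => ⟨u.length, by simp [← e]⟩⟩

end Pool.Agent.Lib.helper21.Cone
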