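import Pool.Agent.Lib.helper21.RN

set_option autoImplicit false

namespace Pool.Agent.Lib.helper21.RN

open FirstOrder FirstOrder.Language Cardinal Filter Set

theorem dlo_forth {A B : Type} [LinearOrder A] [LinearOrder B] [DenselyOrdered B] [NoMinOrder B]
    [NoMaxOrder B] [Nonempty B] {p : Set (A × B)} (hp : p.Finite)
    (h : ∀ a ∈ p, ∀ b ∈ p, a.1 < b.1 ↔ a.2 < b.2) (x : A) :
    ∃ y, ∀ a ∈ insert (x, y) p, ∀ b ∈ insert (x, y) p, a.1 < b.1 ↔ a.2 < b.2 := by
  suffices ∃ y, ∀ b ∈ p, (x < b.1 ↔ y < b.2) ∧ (b.1 < x ↔ b.2 < y) by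
    obtain ⟨y, hy⟩ := this
    refine ⟨y, ?_⟩
    rintro a (rfl | ha) b (rfl | hb)
    exacts [by simp, (hy b hb).1, (hy a ha).2, h a ha b hb]
  by_cases e : ∃ a ∈ p, a.1 = x
  · obtain ⟨a, ha, rfl⟩ := e
    exact ⟨a.2, fun b hb => ⟨h a ha b hb, h b hb a ha⟩⟩
  push Not at e
  obtain ⟨q, q1, q2⟩ := Order.exists_between_finsets
    ((hp.subset (sep_subset p fun b => b.1 < x)).image Prod.snd).toFinset
    ((hp.subset (sep_subset p fun b => x < b.1)).image Prod.snd).toFinset (by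
      simp only [Finite.mem_toFinset]
      rintro _ ⟨b, ⟨hb, b1⟩, rfl⟩ _ ⟨c, ⟨hc, c1⟩, rfl⟩
      exact (h b hb c hc).1 (b1.trans c1))
  simp only [Finite.mem_toFinset, forall_mem_image, mem_setOf_eq, and_imp] at q1 q2
  refine ⟨q, fun b hb => ?_⟩
  rcases (e b hb).lt_or_gt with l | l
  exacts [⟨iff_of_false l.not_gt (q1 hb l).not_gt, iff_of_true l (q1 hb l)⟩,
    ⟨iff_of_true l (q2 hb l), iff_of_false l.not_gt (q2 hb l).not_gt⟩]

/-- Homogeneity of countable dense linear orders without endpoints. -/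
theorem dlo_homog {A : Type} [LinearOrder A] [DenselyOrdered A] [NoMinOrder A] [NoMaxOrder A]
    [Nonempty A] [Countable A] {α : Type} [Finite α] (x y : α → A)
    (h : ∀ i j, x i < x j ↔ y i < y j) : ∃ g : A ≃o A, ∀ i, g (x i) = y i := by
  obtain ⟨R, r0, r1, r2, r3⟩ := baf (A := A) (B := A)
    (fun p => p.Finite ∧ ∀ a ∈ p, ∀ b ∈ p, a.1 < b.1 ↔ a.2 < b.2) (range fun i => (x i, y i))
    ⟨finite_range _, by rintro _ ⟨i, rfl⟩ _ ⟨j, rfl⟩; exact h i j⟩
    (fun p h x => (dlo_forth h.1 h.2 x).imp fun y k => ⟨h.1.insert _, k⟩) fun p h y =>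
      (dlo_forth (h.1.image Prod.swap) (by
        rintro _ ⟨a, ha, rfl⟩ _ ⟨b, hb, rfl⟩; exact (h.2 a ha b hb).symm) y).imp fun x k =>
          ⟨h.1.insert _, fun a ha b hb => (k a.swap (by simpa [Prod.ext_iff, and_comm] using ha)
            b.swap (by simpa [Prod.ext_iff, and_comm] using hb)).symm⟩
  have r : ∀ a ∈ R, ∀ b ∈ R, a.1 < b.1 ↔ a.2 < b.2 := fun a ha b hb => by
    obtain ⟨p, k, l⟩ := r3 {a, b} (toFinite _) (pair_subset ha hb)
    exact k.2 a (l (by simp)) b (l (by simp))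
  have e : ∀ a b c, (a, b) ∈ R → (a, c) ∈ R → b = c := fun a b c h k => le_antisymm
    (not_lt.1 fun l => ((r _ k _ h).2 l).false) (not_lt.1 fun l => ((r _ h _ k).2 l).false)
  choose f hf using r1
  have m : StrictMono f := fun x y k => (r _ (hf x) _ (hf y)).1 k
  exact ⟨m.orderIsoOfSurjective f fun y => (r2 y).imp fun x k => e _ _ _ (hf x) k,
    fun i => e _ _ _ (hf _) (r0 ⟨i, rfl⟩)⟩

/-- Countably many parameters in a model of a countably categorical theory come from the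
countable model. -/
theorem down {L : FirstOrder.Language.{0, 0}} {M : Type} [L.Structure M] [Countable L.Symbols]
    [Countable M] [Infinite M] (hc : Categorical (ℵ₀ : Cardinal.{0}) (L.completeTheory M))
    {N : Type} [L.Structure N] [Nonempty N] (hN : N ⊨ L.completeTheory M) {α : Type} [Countable α]
    (x : α → N) : ∃ (e : M ↪ₑ[L] N) (y : α → M), ∀ i, e (y i) = x i := by
  have e : M ≅[L] N := elementarilyEquivalent_iff.2 fun φ =>
    (realize_iff_of_model_completeTheory M N φ).symm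
  have := e.infinite
  obtain ⟨S, h1, h2⟩ := L.exists_elementarySubstructure_card_eq (range x) ℵ₀ le_rfl
    (lift_le.2 (le_aleph0_iff_set_countable.2 (countable_range x)))
    (lift_le.2 (mk_le_aleph0 (α := L.Symbols))) (by simp)
  have h3 := S.elementarilyEquivalent.trans e.symm
  have : Nonempty S := h3.nonempty_iff.2 inferInstance
  have : S ⊨ L.completeTheory M := h3.symm.theory_model
  obtain ⟨j⟩ : Nonempty (S ≃[L] M) :=
    hc (Theory.ModelType.of _ S) (Theory.ModelType.of _ M) (by simpa using h2) (mk_eq_aleph0 M)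
  exact ⟨S.subtype.comp j.symm.toElementaryEmbedding, fun a => j ⟨x a, h1 ⟨a, rfl⟩⟩,
    fun i => by simp⟩

section Canon

variable {X : Type} (G : Subgroup (Equiv.Perm X))

/-- Invariant sets of tuples. -/
def Inv {α : Type} (S : Set (α → X)) : Prop := ∀ g ∈ G, ∀ x ∈ S, g ∘ x ∈ S

/-- The canonical language of a permutation group. -/
def CL : FirstOrder.Language.{0, 0} := ⟨fun _ => Empty, fun n => {S : Set (Fin n → X) // Inv G S}⟩

instance : (CL G).Structure X where
  funMap f := Empty.elim f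
  RelMap r x := x ∈ r.1

/-- Finitely many orbits on tuples. -/
def Olig : Prop := ∀ (α : Type) [Finite α], ∃ (κ : Type) (_ : Finite κ) (c : (α → X) → κ),
  ∀ x y, c x = c y → ∃ g ∈ G, g ∘ x = y

variable {G}

theorem Olig.countable (H : Olig G) : Countable (CL G).Symbols := by
  have : ∀ n, Finite ((CL G).Relations n) := fun n => by
    obtain ⟨κ, _, c, h⟩ := H (Fin n)
    have k : ∀ S T : (CL G).Relations n, c '' S.1 = c '' T.1 → S.1 ⊆ T.1 := fun S T e x hx => by
      obtain ⟨y, hy, l⟩ : c x ∈ c '' T.1 := e ▸ mem_image_of_mem _ hx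
      obtain ⟨g, h1, rfl⟩ := h _ _ l
      exact T.2 g h1 y hy
    exact .of_injective (fun S : (CL G).Relations n => c '' S.1) fun S T e =>
      Subtype.ext ((k S T e).antisymm (k T S e.symm))
  exact inferInstanceAs (Countable ((Σ _, Empty) ⊕ Σ n, (CL G).Relations n))

theorem aut {g : Equiv.Perm X} (h : g ∈ G) {α : Type} (φ : (CL G).Formula α) (x : α → X) :
    φ.Realize (g ∘ x) ↔ φ.Realize x :=
  StrongHomClass.realize_formula (⟨g, fun f => Empty.elim f, fun r x =>
    ⟨fun k => show x ∈ r.1 by simpa [Function.comp_def] using r.2 _ (inv_mem h) _ k,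
      r.2 _ h _⟩⟩ : X ≃[CL G] X) φ

theorem form {α : Type} [Finite α] {S : Set (α → X)} (h : Inv G S) :
    ∃ φ : (CL G).Formula α, ∀ x, φ.Realize x ↔ x ∈ S := by
  obtain ⟨n, ⟨e⟩⟩ := Finite.exists_equiv_fin α
  refine ⟨Relations.formula (n := n) ⟨{y | y ∘ e ∈ S}, fun g k y l => h g k _ l⟩
    fun i => .var (e.symm i), fun x => ?_⟩
  rw [Formula.realize_rel]
  change (fun i => x (e.symm (e i))) ∈ S ↔ _
  simp

theorem Olig.cat (H : Olig G) : Categorical (ℵ₀ : Cardinal.{0}) ((CL G).completeTheory X) :=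
  cat_of_atomic fun α _ => by
    obtain ⟨κ, _, c, h⟩ := H α
    choose θ hθ using fun k => form (G := G) (S := {x | ∃ y, c y = k ∧ ∃ g ∈ G, g ∘ y = x}) (by
      rintro g hg _ ⟨y, a, g', b, rfl⟩
      exact ⟨y, a, g * g', mul_mem hg b, rfl⟩)
    refine ⟨κ, ‹_›, θ, fun x => ⟨c x, (hθ _ _).2 ⟨x, rfl, 1, one_mem _, rfl⟩⟩,
      fun k x x' a b φ l => ?_⟩
    obtain ⟨y, a1, g, hg, rfl⟩ := (hθ _ _).1 a
    obtain ⟨y', b1, g', hg', rfl⟩ := (hθ _ _).1 b
    obtain ⟨f, hf, rfl⟩ := h _ _ (a1.trans b1.symm)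
    rw [aut hg', aut hf]
    exact (aut hg _ _).1 l

end Canon

end Pool.Agent.Lib.helper21.RN
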