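import Mathlib

set_option autoImplicit false

/-! Almost-sure derivations along ultrafilter trees of finite sequences. -/

namespace Pool.Agent.Lib.helper21.Der

open Filter

/-- The predicate `P` is reached from `t` along every path that picks each new entry from a
large set. -/
inductive DF (F : Set (Set ℕ)) (P : List ℕ → Prop) : List ℕ → Prop
  | of {t : List ℕ} : P t → DF F P t
  | step {t : List ℕ} (A : Set ℕ) : A ∈ F → (∀ h ∈ A, DF F P (h :: t)) → DF F P t

noncomputable abbrev U0 : Ultrafilter ℕ := hyperfilter ℕ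

abbrev D0 (P : List ℕ → Prop) : List ℕ → Prop := DF (U0 : Filter ℕ).sets P

theorem D0.step' {P : List ℕ → Prop} {t : List ℕ} (h : ∀ᶠ x in U0, D0 P (x :: t)) : D0 P t :=
  .step _ h fun _ h => h

theorem D0.succ {P : List ℕ → Prop} (hP : ∀ t x, P t → P (x :: t)) {t : List ℕ} (h : D0 P t) :
    ∀ᶠ x in U0, D0 P (x :: t) := by
  cases h with
  | of h => exact Eventually.of_forall fun x => .of (hP t x h)
  | step A hA h => exact mem_of_superset hA h

theorem DF.mono {F : Set (Set ℕ)} {P Q : List ℕ → Prop} (hPQ : ∀ t, P t → Q t) {t : List ℕ}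
    (h : DF F P t) : DF F Q t := by
  induction h with
  | of h => exact .of (hPQ _ h)
  | step A hA _ ih => exact .step A hA ih

theorem D0.and {P Q : List ℕ → Prop} (hP : ∀ t x, P t → P (x :: t)) (hQ : ∀ t x, Q t → Q (x :: t))
    {t : List ℕ} (h1 : D0 P t) (h2 : D0 Q t) : D0 (fun t => P t ∧ Q t) t := by
  induction h1 with
  | of h =>
    induction h2 with
    | of h' => exact .of ⟨h, h'⟩
    | step A hA _ ih => exact .step A hA fun x hx => ih x hx (hP _ x h)
  | step A hA _ ih =>
    exact D0.step' (mem_of_superset (inter_mem hA (D0.succ hQ h2)) fun x hx => ih x hx.1 hx.2)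

inductive Nm
  | leaf : Nm
  | node : (ℕ → Nm) → Nm

instance : Inhabited Nm := ⟨.leaf⟩

def V (P : List ℕ → Prop) : Nm → List ℕ → Prop
  | .leaf, t => P t
  | .node f, t => ∀ᶠ x in U0, V P (f x) (x :: t)

noncomputable def rk : Nm → Ordinal.{0}
  | .leaf => 0
  | .node f => ⨆ x, Order.succ (rk (f x))

theorem transfer (P : List ℕ → Prop) : ∃ A : List ℕ → Set ℕ, (∀ t, A t ∈ U0) ∧
    ∀ F : Set (Set ℕ), (∀ t, A t ∈ F) → ∀ t, D0 P t → DF F P t := by
  classical
  let r : List ℕ → Ordinal.{0} := fun t => sInf (rk '' {v | V P v t})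
  have h1 : ∀ t, (∃ v, V P v t) → ¬ P t →
      {x | (∃ v, V P v (x :: t)) ∧ r (x :: t) < r t} ∈ U0 := by
    rintro t ⟨v, hv⟩ hP
    obtain ⟨w, hw, e⟩ := csInf_mem (s := rk '' {v | V P v t}) ⟨_, v, hv, rfl⟩
    cases w with
    | leaf => exact absurd hw hP
    | node f =>
      refine mem_of_superset hw fun x hx => ⟨⟨_, hx⟩, ?_⟩
      refine (csInf_le' (s := rk '' {v | V P v (x :: t)}) ⟨_, hx, rfl⟩).trans_lt (lt_of_lt_of_eq ?_ e)
      exact (Order.lt_succ _).trans_le (Ordinal.le_iSup (fun x => Order.succ (rk (f x))) x)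
  refine ⟨fun t => if (∃ v, V P v t) ∧ ¬ P t then
    {x | (∃ v, V P v (x :: t)) ∧ r (x :: t) < r t} else Set.univ, fun t => ?_, fun F hF t ht => ?_⟩
  · dsimp only
    split_ifs with h
    · exact h1 t h.1 h.2
    · exact univ_mem
  · have h2 : ∃ v, V P v t := by
      induction ht with
      | of h => exact ⟨.leaf, h⟩
      | step A hA _ ih =>
        choose! f hf using ih
        exact ⟨.node f, mem_of_superset hA hf⟩
    clear ht
    induction h : r t using WellFoundedLT.induction generalizing t with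
    | ind o ih =>
      by_cases hP : P t
      · exact .of hP
      · refine .step _ (hF t) fun x hx => ?_
        simp only [if_pos (And.intro h2 hP)] at hx
        exact ih _ (h ▸ hx.2) _ hx.1 rfl

theorem pattern {K : Type} [Countable K] [Nonempty K] (G : K → Finset ℕ → Prop)
    (h : ∀ k m, ∃ Y, G k Y ∧ ∀ y ∈ Y, m < y) :
    ∃ c : ℕ → K, ∀ k, ∃ Y, G k Y ∧ ∀ y ∈ Y, c y = k := by
  obtain ⟨s, hs⟩ := exists_surjective_nat K
  choose Y h1 h2 using h
  let m : ℕ → ℕ := fun n => Nat.rec 0 (fun n m => m + (Y (s n) m).sup id + 1) n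
  have h3 : StrictMono m := strictMono_nat_of_lt_succ fun n => by simp only [m]; omega
  have h4 : ∀ y, ∃ n, y ≤ m (n + 1) := fun y => ⟨y, (Nat.le_succ y).trans (h3.id_le _)⟩
  refine ⟨fun y => s (Nat.find (h4 y)), fun k => ?_⟩
  obtain ⟨n, rfl⟩ := hs k
  refine ⟨Y (s n) (m n), h1 _ _, fun y hy => congrArg s ((Nat.find_eq_iff _).2 ⟨?_, fun j hj => ?_⟩)⟩
  · have : y ≤ (Y (s n) (m n)).sup id := Finset.le_sup (f := id) hy
    simp only [m] at this ⊢
    omega
  · exact ((h3.monotone hj).trans_lt (h2 _ _ y hy)).not_ge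

end Pool.Agent.Lib.helper21.Der
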