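import Mathlib
import Pool.Agent.Lib.helper21.Tens

set_option autoImplicit false

namespace Pool.Agent.Lib.helper21.Fix

open Filter Pool.Agent.Lib.helper21.Tens

lemma exists_col (f : ℕ → ℕ) (hf : ∀ x, x < f x) : ∃ c : ℕ → Prop, ∀ x, c x ↔ ¬ c (f x) := by
  let s : Setoid ℕ := ⟨fun x y => ∃ m n, f^[m] x = f^[n] y,
    fun x => ⟨0, 0, rfl⟩, fun ⟨m, n, h⟩ => ⟨n, m, h.symm⟩,
    fun ⟨m, n, h⟩ ⟨k, l, h'⟩ => ⟨k + m, n + l, by
      rw [Function.iterate_add_apply, h, ← Function.iterate_add_apply, add_comm,
        Function.iterate_add_apply, h', ← Function.iterate_add_apply]⟩⟩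
  have h1 : ∀ x, ∃ m n, f^[m] x = f^[n] (Quotient.mk s x).out := fun x =>
    s.symm (Quotient.mk_out (s := s) x)
  choose m n h using h1
  refine ⟨fun x => (m x + n x) % 2 = 0, fun x => ?_⟩
  have e : Quotient.mk s (f x) = Quotient.mk s x := Quotient.sound ⟨0, 1, rfl⟩
  have h2 := h (f x)
  rw [e, ← Function.iterate_succ_apply] at h2
  have h3 : StrictMono fun k => f^[k] (Quotient.mk s x).out :=
    strictMono_nat_of_lt_succ fun k => by rw [Function.iterate_succ_apply']; exact hf _
  have h4 : (m (f x)).succ + n x = m x + n (f x) := by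
    apply h3.injective
    show f^[_] _ = f^[_] _
    rw [Function.iterate_add_apply, ← h x, ← Function.iterate_add_apply, add_comm,
      Function.iterate_add_apply, h2, ← Function.iterate_add_apply]
  show _ = 0 ↔ ¬ _ = 0
  omega

theorem fix_nat (U : Ultrafilter ℕ) (f : ℕ → ℕ) (h : Tendsto f U U) :
    ∀ᶠ x in (U : Filter ℕ), f x = x := by
  by_contra hn
  rcases U.em fun x => f x < x with h1 | h1
  · exact not_regress U f h1 h
  have h2 : ∀ᶠ x in (U : Filter ℕ), x < f x := by
    filter_upwards [h1, Ultrafilter.eventually_not.2 hn] with x a b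
    omega
  obtain ⟨c, hc⟩ := exists_col (fun x => if x < f x then f x else x + 1) fun x => by
    split_ifs <;> omega
  rcases U.em c with h3 | h3
  · obtain ⟨i, a, b, d⟩ := (h2.and (h3.and (h.eventually h3))).exists
    exact (hc i).1 b (by simpa [a] using d)
  · obtain ⟨i, a, b, d⟩ := (h2.and (h3.and (h.eventually h3))).exists
    exact b ((hc i).2 (by simpa [a] using d))

theorem fix {α : Type} [Denumerable α] (U : Ultrafilter α) (f : α → α) (h : Tendsto f U U) :
    ∀ᶠ x in (U : Filter α), f x = x := by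
  let e := Denumerable.eqv α
  have h1 : Tendsto e.symm (U.map e) U := fun A hA => by
    simpa [Set.preimage_preimage] using hA
  have := fix_nat (U.map e) (e ∘ f ∘ e.symm) (tendsto_map.comp (h.comp h1))
  simpa using this

end Pool.Agent.Lib.helper21.Fix
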