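import Pool.Agent.H.MP_fc8a61_lc.E

set_option autoImplicit false
set_option linter.unusedSimpArgs false
set_option linter.unusedVariables false

/-! A Geffert-type normal form for recursively enumerable languages. -/

namespace Pool.Agent.Lib.helper21.Geff

open Pool.Agent.H.MP_fc8a61_lc List Sum Relation

variable {A : Type}

/-- Bracket words (`true` opens, `false` closes) emptying the given stack. -/
inductive Bal : List A → List (Bool × A) → Prop
  | nil : Bal [] []
  | op {z st r} : Bal (z :: st) r → Bal st ((true, z) :: r)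
  | cl {z st r} : Bal st r → Bal (z :: st) ((false, z) :: r)

/-- Words derived by the linear rules `S → l S r` and `S → m₀`. -/
inductive Der (D : Set (List A × List A)) (m₀ : List A) : List A → Prop
  | base : Der D m₀ m₀
  | step {l r m} : (l, r) ∈ D → Der D m₀ m → Der D m₀ (l ++ m ++ r)

theorem bal_op {z : A} {st r} : Bal st ((true, z) :: r) ↔ Bal (z :: st) r :=
  ⟨fun h => by cases h; assumption, .op⟩

theorem bal_cl {z : A} {st r} : Bal st ((false, z) :: r) ↔ ∃ s, st = z :: s ∧ Bal s r :=
  ⟨fun h => by cases h; exact ⟨_, rfl, ‹_›⟩, fun ⟨_, e, h⟩ => e ▸ .cl h⟩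

theorem bal_ops {x : List A} {r} : ∀ {st}, Bal st (x.reverse.map (true, ·) ++ r) ↔ Bal (x ++ st) r := by
  induction x generalizing r with
  | nil => rfl
  | cons z x ih => simp only [reverse_cons, map_append, append_assoc, ih]; exact bal_op

theorem bal_cls {x : List A} {r} : ∀ {st}, Bal st (x.map (false, ·) ++ r) ↔ ∃ s, st = x ++ s ∧ Bal s r := by
  induction x with
  | nil => simp
  | cons z x ih => simp [bal_cl, ih]

theorem Bal.cong {m r r' : List (Bool × A)} (h : ∀ st, Bal st r → Bal st r') :
    ∀ st, Bal st (m ++ r) → Bal st (m ++ r') := by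
  induction m with
  | nil => exact h
  | cons x m ih => rintro _ (_ | a | a); exacts [.op (ih _ a), .cl (ih _ a)]

theorem code [Finite A] : ∃ c : Bool × A → List (Bool × Bool), ∀ W, Bal [] W ↔ Bal [] (W.flatMap c) := by
  obtain ⟨e, he⟩ := exists_injective_nat A
  let c := fun z => replicate (e z) true ++ [false]
  have k : ∀ m n (s s' : List Bool), replicate m true ++ false :: s = replicate n true ++ false :: s' →
      m = n ∧ s = s' := fun m => by
    induction m with
    | zero => rintro (_ | n) <;> simp [replicate_succ]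
    | succ m ih => rintro (_ | n) <;> simpa [replicate_succ] using ih n
  let d := fun x : Bool × A => if x.1 then (c x.2).reverse.map (true, ·) else (c x.2).map (false, ·)
  have : ∀ W st, Bal st W ↔ Bal (st.flatMap c) (W.flatMap d) := fun W => by
    induction W with
    | nil =>
      refine fun st => ⟨fun h => by cases h; exact .nil, fun h => ?_⟩
      obtain _ | ⟨z, st⟩ := st
      · exact .nil
      · generalize hs : (z :: st).flatMap c = s at h
        cases h
        simp [c] at hs
    | cons x W ih =>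
      obtain ⟨_ | _, z⟩ := x <;> intro st
      · rw [flatMap_cons, bal_cl]
        refine Iff.trans ⟨?_, fun ⟨s, a, b⟩ => ?_⟩ bal_cls.symm
        · rintro ⟨s, rfl, a⟩
          exact ⟨_, rfl, (ih s).1 a⟩
        obtain _ | ⟨y, st⟩ := st
        · simp [c] at a
        obtain ⟨a', rfl⟩ := k _ _ _ _ (by simpa [c] using a)
        exact ⟨_, he a' ▸ rfl, (ih _).2 b⟩
      · exact bal_op.trans ((ih _).trans bal_ops.symm)
  exact ⟨d, fun W => this W []⟩

theorem geff {T : Type} [Finite T] [Primcodable T] (L : List T → Prop) (hL : REPred L) :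
    ∃ (D : Set (List (Bool × Bool) × List (Bool × Bool))) (u : T → List (Bool × Bool))
      (i₀ i₁ m₀ : List (Bool × Bool)), D.Finite ∧
        ∀ w, L w ↔ ∃ m, Der D m₀ m ∧ Bal [] (i₀ ++ w.reverse.flatMap u ++ i₁ ++ m) := by
  obtain ⟨N, _, S, P, h⟩ := re_lrc L hL
  let lhs := fun i : P => [(Symbol.nonterminal i.1.1 : Symbol T N)]
  let rhs := fun i : P => i.1.2.1
  let okL := fun (i : P) (X : Set (Symbol T N)) => (∀ B ∈ i.1.2.2.1, Symbol.nonterminal B ∈ X) ∧
    ∀ B ∈ i.1.2.2.2, Symbol.nonterminal B ∉ X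
  let δ := Tr Symbol.terminal [Symbol.nonterminal S] lhs rhs okL fun _ _ => True
  have h1 : ∀ w, L w ↔ ∃ a, Gen δ (some .start) a a w := fun w => by
    rw [← h, show LS P = CS lhs rhs okL fun _ _ => True from funext₂ fun _ _ => propext
      ⟨fun ⟨u, v, A, x, U, W, a, b, c, d⟩ => ⟨⟨_, c⟩, u, v, a, b, d, trivial⟩,
        fun ⟨i, u, v, a, b, c, _⟩ => ⟨u, v, _, _, _, _, a, b, i.2, c⟩⟩]
    refine ⟨fun h => ?_, fun ⟨a, h⟩ => ?_⟩
    · obtain ⟨b, hb⟩ := run_blk _ [Symbol.nonterminal S] _ _ _ _ h
      exact ⟨_, by simpa using Gen.step Tr.start hb⟩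
    · obtain ⟨b', h2, h3⟩ := ps_of_gen _ _ _ _ _ _ h
      exact h3 _ h2
  let Z := Option (Symbol T N) ⊕ St P (Symbol T N)
  let D : Set (List (Bool × Z) × List (Bool × Z)) := {x | ∃ q a b q', δ q a b [] (some q') ∧
    x = ((false, inr q') :: (a.map inl).reverse.map (true, ·) ++ [(true, inr q)], (b.map inl).map (false, ·))}
  have fD : D.Finite := by
    obtain ⟨K, hK⟩ := (Set.finite_range fun i => (rhs i).length).bddAbove
    refine ((finite_length_le _ 3).prod (finite_length_le _ (K + 2))).subset ?_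
    rintro _ ⟨q, a, b, q', h, rfl⟩
    generalize ([] : List T) = o at h
    generalize some q' = p at h
    cases h with
    | app i => have := hK ⟨i, rfl⟩; simp [lhs] at this ⊢; omega
    | _ => simp
  have k1 : ∀ m, Der D [(false, inr .start)] m → ∀ p st r, Bal (inr p :: st) (m ++ r) → ∃ a b s,
      a.map inl ++ st = b.map inl ++ s ∧ Bal s r ∧ ∀ a' b' c, Gen δ (some p) a' b' c →
        Gen δ (some .start) (a ++ a') (b ++ b') c := fun m h => by
    induction h with
    | base => rintro p st r (_ | _ | a); exact ⟨[], [], st, rfl, a, fun _ _ _ => id⟩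
    | step a _ ih =>
      obtain ⟨q, a, b, q', d, ⟨⟩⟩ := a
      intro p st r e
      simp only [cons_append, append_assoc, bal_cl, bal_ops, bal_op, nil_append] at e
      obtain ⟨_, ⟨⟩, e⟩ := e
      obtain ⟨x, y, s, e1, e2, e3⟩ := ih _ _ _ e
      obtain ⟨s, rfl, e4⟩ := bal_cls.1 e2
      exact ⟨x ++ a, y ++ b, s, by simpa using e1, e4, fun _ _ _ g => by simpa using e3 _ _ _ (.step d g)⟩
  have k2 : ∀ q a b c, Gen δ q a b c → ∀ p, q = some p → ∀ m (x y : List Z), Der D [(false, inr .start)] m →
      (∀ st s r, x ++ st = y ++ s → Bal s r → Bal (inr p :: st) (m ++ r)) → ∃ m a', Der D [(false, inr .start)] m ∧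
        a = a' ++ ((c.map .terminal).map some ++ [none]) ∧ ∀ st s r, x ++ a'.map inl ++ st = y ++ b.map inl ++ s →
          Bal s r → Bal (inr .fin :: st) (m ++ r) := fun _ _ _ _ h => by
    induction h with
    | stop => nofun
    | @step q a b o q' a' b' c d g ih =>
      rintro _ ⟨⟩ m x y e f
      by_cases t : q = .fin
      · subst t
        obtain ⟨e1, e2⟩ := ps_of_gen _ _ _ _ _ _ (Gen.step d g)
        exact ⟨m, [], e, e1, by simpa [e2] using f⟩
      obtain ⟨rfl, p, rfl⟩ : o = [] ∧ ∃ p, q' = some p := by cases d <;> simp at t ⊢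
      obtain ⟨m, z, c1, rfl, c2⟩ := ih p rfl _ (x ++ a.map inl) (y ++ b.map inl) (.step ⟨_, _, _, _, d, rfl⟩ e)
        fun st s r e1 e2 => by
          simp only [cons_append, append_assoc, bal_cl, bal_ops, bal_op, nil_append] at e1 ⊢
          exact ⟨_, rfl, f _ _ _ e1 (bal_cls.2 ⟨_, rfl, e2⟩)⟩
      exact ⟨m, a ++ z, c1, by simp, by simpa using c2⟩
  obtain ⟨c, hc⟩ := code (A := Z)
  have k3 : ∀ (w : List T) m, Bal [] ([(true, inl none)].flatMap c ++ w.reverse.flatMap
      (fun a => c (true, inl (some (.terminal a)))) ++ [(true, inr .fin)].flatMap c ++ flatMap c m) ↔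
      Bal (inr .fin :: ((w.map Symbol.terminal).map some ++ [none]).map inl) m := fun w m => by
    rw [← bal_op, ← append_nil (map _ _), ← bal_ops, hc]
    simp only [← map_reverse, flatMap_map, flatMap_append, flatMap_cons, reverse_append, map_append,
      append_assoc, reverse_singleton, map_cons, map_nil, flatMap_nil, append_nil]
  refine ⟨(fun x => (x.1.flatMap c, x.2.flatMap c)) '' D, fun a => c (true, inl (some (.terminal a))),
    [(true, inl none)].flatMap c, [(true, inr .fin)].flatMap c, [(false, inr .start)].flatMap c, fD.image _,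
    fun w => (h1 w).trans ⟨fun ⟨a, h⟩ => ?_, fun ⟨m, a, b⟩ => ?_⟩⟩
  · obtain ⟨m, z, c1, e, c2⟩ := k2 _ _ _ _ h _ rfl _ [] [] .base (by rintro _ _ _ rfl a; exact .cl a)
    refine ⟨_, ?_, (k3 w m).2 (by simpa using c2 _ [] [] (by simp [e]) .nil)⟩
    clear c2
    induction c1 with
    | base => exact .base
    | step a _ ih => rw [flatMap_append, flatMap_append]; exact .step ⟨_, a, rfl⟩ ih
  · obtain ⟨m, a', rfl⟩ : ∃ m', Der D [(false, inr .start)] m' ∧ m = m'.flatMap c := by
      clear b
      induction a with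
      | base => exact ⟨_, .base, rfl⟩
      | step a _ ih =>
        obtain ⟨_, a, ⟨⟩⟩ := a
        obtain ⟨m, b, rfl⟩ := ih
        exact ⟨_, .step a b, by simp⟩
    obtain ⟨x, y, s, e1, ⟨⟩, e3⟩ := k1 m a' _ _ [] (append_nil m ▸ (k3 w m).1 b :)
    have := e3 _ _ _ (run_fin _ _ _ _ _ _ w)
    rw [append_nil, ← map_append, List.map_inj_right fun _ _ => inl.inj] at e1
    exact ⟨y, by simpa [← e1] using this⟩

end Pool.Agent.Lib.helper21.Geff
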