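import Pool.Agent.Lib.helper21.Tasks

set_option autoImplicit false

/-! The open colouring principle rules out monotone Borel hulls of measurable sets. -/

open Cardinal Set MeasureTheory TopologicalSpace Filter Topology Metric

namespace Pool.Agent.Lib.helper21.Hull

/-- Todorcevic's open colouring principle. -/
def OCA : Prop := ∀ (X : Type) [TopologicalSpace X] [MetrizableSpace X] [SeparableSpace X]
  (K : Set (X × X)), IsOpen K → (∀ x y, (x, y) ∈ K → (y, x) ∈ K) →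
    (∃ Y : Set X, ¬ Y.Countable ∧ Y.Pairwise fun x y => (x, y) ∈ K) ∨
      ∃ Z : ℕ → Set X, ⋃ n, Z n = Set.univ ∧ ∀ n, (Z n).Pairwise fun x y => (x, y) ∉ K

/-- `ψ` is a monotone Borel hull operation on the family `F`. -/
def MonoHull (F : Set (Set ℝ)) (ψ : Set ℝ → Set ℝ) : Prop :=
  (∀ A ∈ F, MeasurableSet (ψ A) ∧ A ⊆ ψ A ∧ volume (ψ A \ A) = 0) ∧
    ∀ A ∈ F, ∀ B ∈ F, A ⊆ B → ψ A ⊆ ψ B

theorem free (h : OCA) (R : ℝ → NonemptyCompacts ℝ → Prop) (h1 : ∀ z K, R z K → z ∈ K)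
    (h2 : ∀ K : NonemptyCompacts ℝ, volume (K : Set ℝ) ≠ 0 → ∃ z, R z K) :
    ∃ T : Set ℝ, ¬ T.Countable ∧ ∀ z ∈ T, ∃ K, R z K ∧ closure T ∩ K ⊆ {z} := by
  let X := {a : ℝ × NonemptyCompacts ℝ × (ℕ → ℕ) | R a.1 a.2.1}
  have hd : Continuous fun p : ℝ × NonemptyCompacts ℝ => infDist p.1 (p.2 : Set ℝ) :=
    lipschitz_infDist.continuous
  have h0 : ∀ k : ℕ, (0 : ℝ) < 1 / (k + 1) := fun k => Nat.one_div_pos_of_nat
  rcases h X {p | ∃ k : ℕ, k * dist p.1.1.1 p.2.1.1 < 1 ∧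
    1 / (p.1.1.2.2 k + 1 : ℝ) < infDist p.2.1.1 (p.1.1.2.1 : Set ℝ) ∧
    1 / (p.2.1.2.2 k + 1 : ℝ) < infDist p.1.1.1 (p.2.1.2.1 : Set ℝ)} (by
      have hg : Continuous fun k : ℕ => 1 / (k + 1 : ℝ) := continuous_of_discreteTopology
      simp only [setOf_exists, setOf_and]
      exact isOpen_iUnion fun k => (isOpen_lt (by fun_prop) continuous_const).inter
        ((isOpen_lt (hg.comp (by fun_prop)) (hd.comp (f := fun p : X × X => (p.2.1.1, p.1.1.2.1))
          (by fun_prop))).inter (isOpen_lt (hg.comp (by fun_prop))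
            (hd.comp (f := fun p : X × X => (p.1.1.1, p.2.1.2.1)) (by fun_prop)))))
    (fun x y ⟨k, k1, k2, k3⟩ => ⟨k, by rwa [dist_comm], k3, k2⟩) with ⟨Y, k1, k2⟩ | ⟨Z, k1, k2⟩
  · refine ⟨(·.1.1) '' Y, fun k3 => k1 ((countable_of_injective_of_countable_image
      (fun a ha b hb k4 => by_contra fun k5 => ?_) k3)), ?_⟩
    · obtain ⟨k, -, k6, -⟩ := k2 ha hb k5
      rw [← show a.1.1 = b.1.1 from k4, infDist_zero_of_mem (h1 _ _ a.2)] at k6
      exact k6.not_gt (h0 _)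
    rintro _ ⟨a, ha, rfl⟩
    refine ⟨_, a.2, fun x hx => by_contra fun k3 => ?_⟩
    have k4 : 0 < dist x a.1.1 := dist_pos.2 k3
    obtain ⟨m, k5⟩ := exists_nat_gt (2 / dist x a.1.1)
    rcases closure_minimal (t := closedBall a.1.1 (dist x a.1.1 / 2) ∪ ⋃ k < m,
      {y | 1 / (a.1.2.2 k + 1 : ℝ) ≤ infDist y (a.1.2.1 : Set ℝ)}) (image_subset_iff.2 fun b hb =>
        or_iff_not_imp_left.2 fun k6 => by
          rw [mem_closedBall, not_le] at k6
          obtain ⟨k, l1, l2, -⟩ := k2 ha hb fun l => by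
            rw [l, dist_self] at k6; rw [l] at k4; linarith
          refine mem_iUnion₂.2 ⟨k, Nat.cast_lt.1 (lt_trans ?_ k5), l2.le⟩
          rw [dist_comm] at l1
          rw [lt_div_iff₀ k4]
          nlinarith [k.cast_nonneg (α := ℝ)]) (isClosed_closedBall.union
            ((finite_lt_nat m).isClosed_biUnion fun k _ => isClosed_le continuous_const
              (continuous_infDist_pt _))) hx.1 with k6 | k6
    · rw [mem_closedBall] at k6
      linarith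
    · obtain ⟨k, -, k6⟩ := mem_iUnion₂.1 k6
      rw [mem_setOf, infDist_zero_of_mem hx.2] at k6
      exact k6.not_gt (h0 _)
  exfalso
  let P : ℕ × ℚ → NonemptyCompacts ℝ → Set ℝ := fun c K => {z | ∃ h : R z K,
    c.1 * dist z c.2 < 1 / 2 ∧ ∀ j, ∃ g, j ≤ g c.1 ∧ ⟨(z, K, g), h⟩ ∈ Z c.1}
  have l1 : ∀ z K, R z K → ∃ c, z ∈ P c K := fun z K h => by
    obtain ⟨n, l⟩ : ∃ n, ∀ j, ∃ g, j ≤ g n ∧ ⟨(z, K, g), h⟩ ∈ Z n := by
      by_contra! l
      choose j l using l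
      obtain ⟨n, l'⟩ := mem_iUnion.1 (k1.ge (mem_univ (⟨(z, K, j), h⟩ : X)))
      exact l n j le_rfl l'
    obtain ⟨q, l'⟩ := Rat.denseRange_cast.exists_dist_lt z (h0 (2 * n))
    refine ⟨(n, q), h, ?_, l⟩
    rw [lt_div_iff₀ (by positivity)] at l'
    push_cast at l'
    nlinarith [dist_nonneg (x := z) (y := q)]
  have l2 : ∀ c (K L : NonemptyCompacts ℝ), P c K ⊆ L ∨ P c L ⊆ K := fun c K L => by
    by_contra! l
    obtain ⟨⟨z, ⟨m1, m2, m3⟩, m4⟩, y, ⟨n1, n2, n3⟩, n4⟩ := (and_congr not_subset not_subset).1 l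
    obtain ⟨i, m5⟩ := exists_nat_one_div_lt ((K.isCompact.isClosed.notMem_iff_infDist_pos
      K.nonempty).1 n4)
    obtain ⟨j, n5⟩ := exists_nat_one_div_lt ((L.isCompact.isClosed.notMem_iff_infDist_pos
      L.nonempty).1 m4)
    obtain ⟨g, m6, m7⟩ := m3 i
    obtain ⟨f, n6, n7⟩ := n3 j
    refine k2 _ m7 n7 (fun l => m4 ?_) ⟨c.1, ?_, (Nat.one_div_le_one_div m6).trans_lt m5,
      (Nat.one_div_le_one_div n6).trans_lt n5⟩
    · exact (show y = z from congrArg (·.1.1) l.symm) ▸ h1 _ _ n1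
    · nlinarith [dist_triangle_right z y c.2, c.1.cast_nonneg (α := ℝ)]
  have l3 : ∀ c, ∃ C : Set ℝ, C.Countable ∧ ∀ K, (P c K).Nonempty → (C ∩ K).Nonempty := fun c => by
    obtain ⟨T, m1, m2⟩ := isOpen_iUnion_countable (fun K : {K // (P c K).Nonempty} =>
      (K.1 : Set ℝ)ᶜ) fun K => K.1.isCompact.isClosed.isOpen_compl
    by_cases m3 : ∃ x, x ∉ ⋃ K : {K // (P c K).Nonempty}, (K.1 : Set ℝ)ᶜ
    · obtain ⟨x, m3⟩ := m3
      exact ⟨{x}, countable_singleton x, fun K hK => ⟨x, rfl, by_contra fun m4 =>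
        m3 (mem_iUnion.2 ⟨⟨K, hK⟩, m4⟩)⟩⟩
    refine ⟨_, m1.image fun K => K.2.some, fun K ⟨x, hx⟩ => ?_⟩
    obtain ⟨L, m4, m5⟩ := mem_iUnion₂.1 (m2.ge (not_not.1 (not_exists.1 m3 x)))
    exact ⟨_, mem_image_of_mem _ m4, (l2 c K L).resolve_left (fun m6 => m5 (m6 hx)) L.2.some_mem⟩
  choose C l3 l4 using l3
  obtain ⟨K, m1, m2, m3⟩ := (countable_iUnion l3).measurableSet.compl.exists_lt_isCompact
    (μ := volume) (r := 0) (by rw [measure_congr (ae_eq_univ.2 (by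
      simpa using (countable_iUnion l3).measure_zero _))]; simp)
  obtain ⟨z, m4⟩ := h2 ⟨⟨K, m2⟩, nonempty_of_measure_ne_zero m3.ne'⟩ m3.ne'
  obtain ⟨c, m5⟩ := l1 _ _ m4
  obtain ⟨x, m6, m7⟩ := l4 c _ ⟨z, m5⟩
  exact m1 m7 (mem_iUnion.2 ⟨c, m6⟩)

theorem card_borel : #{t : Set ℝ | MeasurableSet t} ≤ 𝔠 := by
  have := MeasurableSpace.cardinal_measurableSet_le_continuum
    ((MeasurableSpace.countable_countableGeneratingSet (α := ℝ)).le_aleph0.trans aleph0_le_continuum)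
  rwa [MeasurableSpace.generateFrom_countableGeneratingSet] at this

theorem noHull (h : OCA) : ¬ ∃ ψ, MonoHull {A | NullMeasurableSet A volume} ψ := by
  rintro ⟨ψ, h1, h2⟩
  let D : Set ℝ → ℝ → Prop := fun S x => Tendsto (fun r => volume (S ∩ closedBall x r) /
    volume (closedBall x r)) (𝓝[>] 0) (𝓝 1)
  have h3 : ∀ S, IsClosed S → volume {x ∈ S | ¬ D S x} = 0 := fun S hS => by
    have := ae_iff.1
      (Besicovitch.ae_tendsto_measure_inter_div_of_measurableSet volume hS.measurableSet)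
    refine measure_mono_null ?_ this
    exact fun x hx k => hx.2 (by rwa [indicator_of_mem hx.1] at k)
  have h4 : ∀ K : NonemptyCompacts ℝ, NullMeasurableSet (K : Set ℝ)ᶜ volume := fun K =>
    K.isCompact.measurableSet.compl.nullMeasurableSet
  obtain ⟨T, k1, k2⟩ := free h (fun z K => z ∈ K ∧ z ∉ ψ (K : Set ℝ)ᶜ ∧ D K z) (fun _ _ h => h.1)
    fun K hK => by_contra fun k => hK (measure_mono_null (fun z hz => or_iff_not_imp_left.2
      fun k' => ⟨hz, fun k3 => k ⟨z, hz, fun k4 => k' ⟨k4, not_not.2 hz⟩, k3⟩⟩)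
        (measure_union_null (h1 _ (h4 K)).2.2 (h3 _ K.isCompact.isClosed)))
  have k3 : volume T = 0 := measure_mono_null (t := {x ∈ closure T | ¬ D (closure T) x})
    (fun z hz => ⟨subset_closure hz, fun k => by
    obtain ⟨K, ⟨-, -, k3⟩, k4⟩ := k2 z hz
    refine absurd (le_of_tendsto' (b := 1) (k.add k3) fun r => ?_) (by norm_num)
    rw [ENNReal.div_add_div_same, ← measure_union₀ (K.isCompact.measurableSet.inter
      measurableSet_closedBall).nullMeasurableSet (measure_mono_null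
        (fun x hx => k4 ⟨hx.1.1, hx.2.1⟩) (measure_singleton z))]
    exact ENNReal.div_le_of_le_mul ((measure_mono (by simp)).trans_eq (one_mul _).symm)⟩)
      (h3 _ isClosed_closure)
  have k4 : ∀ S ⊆ T, MeasurableSet S := fun S hS => by
    have k5 : NullMeasurableSet (closure T \ S) volume :=
      isClosed_closure.nullMeasurableSet.diff (.of_null (measure_mono_null hS k3))
    refine (isClosed_closure.measurableSet.diff (h1 _ k5).1).congr (Subset.antisymm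
      (fun x hx => by_contra fun k => hx.2 ((h1 _ k5).2.1 ⟨hx.1, k⟩)) fun x hx =>
        ⟨subset_closure (hS hx), fun k => ?_⟩)
    obtain ⟨K, ⟨-, k6, -⟩, k7⟩ := k2 x (hS hx)
    exact k6 (h2 _ k5 _ (h4 K) (fun y hy k8 => hy.2 ((k7 ⟨hy.1, k8⟩).symm ▸ hx)) k)
  have := (k4 T subset_rfl).standardBorel
  have k5 := mk_le_mk_of_subset (s := 𝒫 T) (t := {t | MeasurableSet t}) k4
  rw [mk_powerset, mk_congr (PolishSpace.measurableEquivOfNotCountable (β := ℝ)
    (fun k => k1 (countable_coe_iff.1 k)) not_countable).toEquiv, mk_real] at k5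
  exact (k5.trans card_borel).not_gt (cantor _)

/-- Martin's principle MA. -/
def MA : Prop := ∀ (P : Type) [PartialOrder P] [Nonempty P],
  (∀ A : Set P, (A.Pairwise fun p q => ¬ ∃ r, r ≤ p ∧ r ≤ q) → A.Countable) →
    ∀ D : Set (Set P), #D < 𝔠 → (∀ d ∈ D, ∀ p, ∃ q ∈ d, q ≤ p) →
      ∃ G : Set P, (∀ p ∈ G, ∀ q, p ≤ q → q ∈ G) ∧ (∀ p ∈ G, ∀ q ∈ G, ∃ r ∈ G, r ≤ p ∧ r ≤ q) ∧
        ∀ d ∈ D, (G ∩ d).Nonempty

noncomputable def addN : Cardinal :=
  sInf {c | ∃ F : Set (Set ℝ), (∀ A ∈ F, volume A = 0) ∧ volume (⋃₀ F) ≠ 0 ∧ #F = c}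

noncomputable def cofN : Cardinal := sInf {c | ∃ F : Set (Set ℝ), (∀ A ∈ F, volume A = 0) ∧
  (∀ A : Set ℝ, volume A = 0 → ∃ B ∈ F, A ⊆ B) ∧ #F = c}

theorem lt_addN {F : Set (Set ℝ)} (h : ∀ A ∈ F, volume A = 0) (h' : #F < addN) :
    volume (⋃₀ F) = 0 := by_contra fun k => h'.not_ge (csInf_le' ⟨F, h, k, rfl⟩)

theorem cof_spec : ∃ F : Set (Set ℝ), (∀ A ∈ F, volume A = 0) ∧
    (∀ A : Set ℝ, volume A = 0 → ∃ B ∈ F, A ⊆ B) ∧ #F = cofN :=
  csInf_mem (s := {c | ∃ F : Set (Set ℝ), (∀ A ∈ F, volume A = 0) ∧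
    (∀ A : Set ℝ, volume A = 0 → ∃ B ∈ F, A ⊆ B) ∧ #F = c})
      ⟨_, {A | volume A = 0}, fun _ => id, fun A h => ⟨A, h, subset_rfl⟩, rfl⟩

theorem amoeba (h : MA) {F : Set (Set ℝ)} (h1 : ∀ A ∈ F, volume A = 0) (h2 : #F < 𝔠) :
    volume (⋃₀ F) = 0 := by
  refine le_antisymm (le_of_forall_gt_imp_ge_of_dense fun ε hε => ?_) zero_le
  let P := {U : Set ℝ // IsOpen U ∧ volume U < ε}
  have : Nonempty P := ⟨⟨∅, isOpen_empty, by simpa using hε⟩⟩
  obtain ⟨G, -, k1, k2⟩ := h Pᵒᵈ (fun A hA => by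
      have l1 : ∀ U : P, ∃ V ∈ {V | ∃ s ⊆ countableBasis ℝ, s.Finite ∧ ⋃₀ s = V}, V ⊆ U.1 ∧
          volume U.1 + volume (U.1 \ V) < ε := fun U => by
        obtain ⟨δ, l1, l2⟩ := ENNReal.lt_iff_exists_add_pos_lt.1 U.2.2
        obtain ⟨K, l3, l4, l5⟩ := U.2.1.measurableSet.exists_isCompact_diff_lt
          (ne_top_of_lt U.2.2) (ENNReal.coe_pos.2 l1).ne'
        obtain ⟨s, l6, l7, l8⟩ := l4.elim_finite_subcover_image
          (b := {V ∈ countableBasis ℝ | V ⊆ U.1}) (c := id)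
          (fun V hV => isOpen_of_mem_countableBasis hV.1) (l3.trans (by
            simpa only [id, ← sUnion_eq_biUnion] using
              ((isBasis_countableBasis ℝ).open_eq_sUnion' U.2.1).le))
        exact ⟨_, ⟨s, fun V hV => (l6 hV).1, l7, rfl⟩, sUnion_subset fun V hV => (l6 hV).2,
          lt_of_le_of_lt (add_le_add_right ((measure_mono (diff_subset_diff_right
            (by simpa only [id, ← sUnion_eq_biUnion] using l8))).trans l5.le) _) l2⟩
      choose V l1 l2 l3 using l1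
      refine (mapsTo_iff_image_subset.2 ?_ : MapsTo V A _).countable_of_injOn
        (fun p hp q hq l => by_contra fun l' => hA hp hq l' ?_)
        ((countable_setOf_finite_subset (countable_countableBasis ℝ)).image sUnion)
      · rintro _ ⟨p, -, rfl⟩
        obtain ⟨s, l4, l5, l6⟩ := l1 p
        exact ⟨s, ⟨l5, l4⟩, l6⟩
      have l4 : ∀ p q : P, V p = V q → volume (q.1 \ V q) ≤ volume (p.1 \ V p) →
          volume (p.1 ∪ q.1) < ε := fun p q l l' => lt_of_le_of_lt ((measure_mono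
            (t := p.1 ∪ (q.1 \ V q)) (union_subset subset_union_left fun x hx => or_iff_not_imp_right.2
              fun k => l2 p (l ▸ not_not.1 fun k' => k ⟨hx, k'⟩))).trans
                ((measure_union_le _ _).trans (add_le_add_right l' _))) (l3 p)
      exact ⟨⟨p.1 ∪ q.1, p.2.1.union q.2.1, (le_total _ _).elim (l4 p q l)
        fun k => union_comm _ _ ▸ l4 q p l.symm k⟩, subset_union_left, subset_union_right⟩)
    ((fun A => {U | A ⊆ U.1}) '' insert ∅ F) (mk_image_le.trans_lt (mk_insert_le.trans_lt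
      (add_lt_of_lt aleph0_le_continuum h2 (nat_lt_continuum 1)))) (by
      rintro _ ⟨A, hA, rfl⟩ U
      obtain ⟨W, l1, l2, l3⟩ := (U.1 ∪ A).exists_isOpen_lt_of_lt ε (by
        rw [measure_congr (union_ae_eq_left_of_ae_eq_empty (ae_eq_empty.2
          (hA.elim (fun h => h ▸ measure_empty) (h1 A))))]
        exact U.2.2)
      exact ⟨⟨W, l2, l3⟩, subset_union_right.trans l1, subset_union_left.trans l1⟩)
  refine (measure_mono (t := ⋃ U : G, U.1.1) (sUnion_subset fun A hA => ?_)).trans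
    (le_of_forall_lt_imp_le_of_dense fun r hr => ?_)
  · obtain ⟨U, l1, l2⟩ := k2 _ (mem_image_of_mem _ (.inr hA))
    exact subset_iUnion_of_subset ⟨U, l1⟩ l2
  · obtain ⟨K, l1, l2, l3⟩ := (isOpen_iUnion fun U : G => U.1.2.1).exists_lt_isCompact hr
    have := (k2 _ (mem_image_of_mem _ (.inl rfl))).left.to_subtype
    obtain ⟨U, l4⟩ := l2.elim_directed_cover _ (fun U : G => U.1.2.1) l1 fun U V => by
      obtain ⟨W, l4, l5⟩ := k1 _ U.2 _ V.2
      exact ⟨⟨W, l4⟩, l5⟩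
    exact (l3.le.trans (measure_mono l4)).trans U.1.2.2.le

theorem add_eq_cof (h : MA) : addN = cofN := by
  refine le_antisymm (le_of_not_gt fun k => ?_) ((csInf_le' (a := #{A : Set ℝ | MeasurableSet A ∧
    volume A = 0}) ?_).trans ((le_trans
      (mk_le_mk_of_subset fun _ h => by exact h.1) card_borel).trans (le_csInf
        ⟨_, range singleton, by simp, by simp [iUnion_of_singleton], rfl⟩
          fun _ ⟨F, k1, k2, k3⟩ => le_of_not_gt fun k => k2 (amoeba h k1 (k3 ▸ k)))))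
  · obtain ⟨F, k1, k2, k3⟩ := cof_spec
    refine NeZero.ne (volume (Set.univ : Set ℝ)) (measure_mono_null (fun x _ => ?_)
      (lt_addN k1 (k3 ▸ k)))
    obtain ⟨B, k4, k5⟩ := k2 {x} (measure_singleton x)
    exact ⟨B, k4, k5 rfl⟩
  · refine ⟨_, fun _ h => h.2, fun A k => ?_, rfl⟩
    obtain ⟨B, k1, k2⟩ := exists_measurable_superset_of_null k
    exact ⟨B, k2, k1⟩

theorem tower (h : addN = cofN) : ∃ ψ, MonoHull {A | volume A = 0} ψ := by
  obtain ⟨F, k1, k2, k3⟩ := cof_spec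
  let I : Type := (#F).ord.ToType
  obtain ⟨e⟩ : Nonempty (I ≃ F) := Cardinal.eq.1 (mk_ord_toType _)
  obtain ⟨f, hf⟩ := Tasks.trans_rec (W := I) (S := Set ℝ) (fun ξ f T => MeasurableSet T ∧
    volume T = 0 ∧ (e ξ).1 ⊆ T ∧ ∀ η < ξ, f η ⊆ T) (fun ξ f g s h h' => ⟨h'.1, h'.2.1, h'.2.2.1,
      fun η k => h η k ▸ h'.2.2.2 η k⟩) fun ξ f k => by
    obtain ⟨T, l1, l2⟩ := exists_measurable_superset_of_null (measure_union_null (k1 _ (e ξ).2)
      (lt_addN (F := f '' Iio ξ) (forall_mem_image.2 fun η l => (k η l).2.1)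
        (mk_image_le.trans_lt ((mk_Iio_ord_toType ξ).trans_eq (k3.trans h.symm)))))
    exact ⟨T, l2.1, l2.2, subset_union_left.trans l1, fun η l =>
      ((subset_sUnion_of_mem (mem_image_of_mem f (mem_Iio.2 l))).trans subset_union_right).trans l1⟩
  have k4 : ∀ A : Set ℝ, volume A = 0 → {ξ | A ⊆ f ξ}.Nonempty := fun A k => by
    obtain ⟨B, l1, l2⟩ := k2 A k
    exact ⟨e.symm ⟨B, l1⟩, l2.trans (by simpa using (hf (e.symm ⟨B, l1⟩)).2.2.1)⟩
  classical
  refine ⟨fun A => if k : volume A = 0 then f (wellFounded_lt.min _ (k4 A k)) else ∅,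
    fun A (k : _ = _) => ?_, fun A (k : _ = _) B (k' : _ = _) l => ?_⟩
  · simp only [dif_pos k]
    exact ⟨(hf _).1, wellFounded_lt.min_mem _ (k4 A k), measure_mono_null diff_subset (hf _).2.1⟩
  · simp only [dif_pos k, dif_pos k']
    exact (wellFounded_lt.min_le (s := {ξ | A ⊆ f ξ}) (l.trans
      (wellFounded_lt.min_mem _ (k4 B k')))).eq_or_lt.elim
      (fun l => (congrArg f l).le) ((hf _).2.2.2 _)

end Pool.Agent.Lib.helper21.Hull
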