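import Pool.Agent.Lib.helper21.RE
import Pool.Agent.H.MP_c57dc8_lc.C

set_option autoImplicit false

/-! Martin-Loef tests, lower semicomputable functions. -/

namespace Pool.Agent.Lib.helper21.ML

open Pool.Agent.H.MP_d04dff_lc Pool.Agent.H.MP_fa2eca_lc Pool.Agent.H.MP_c57dc8_lc Filter
open MeasureTheory Pool.Agent.Lib.helper21.PR

attribute [local irreducible] Primrec Computable

/-- Martin-Loef randomness for the uniform measure. -/
def Rand (X : ℕ → Bool) : Prop := ∀ W : ℕ → List Bool → Prop,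
  (REPred fun z : ℕ × List Bool => W z.1 z.2) →
    (∀ n, Fn.mu {Y | ∃ m, W n (pre Y m)} ≤ 2⁻¹ ^ n) → ∃ n, ∀ m, ¬ W n (pre X m)

variable {α : Type} [Primcodable α]

@[fun_prop] theorem p_tb {m k : α → ℕ} (hm : Primrec m) (hk : Primrec k) :
    Primrec fun a => pre (Fn.tb (m a)) (k a) := by
  have : Primrec fun z : ℕ × ℕ => Fn.tb z.1 z.2 := Fn.tb_prim
  unfold pre
  fun_prop

theorem pre_congr {X Y : ℕ → Bool} {k : ℕ} (h : ∀ i < k, X i = Y i) : pre X k = pre Y k :=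
  List.map_congr_left fun i hi => h i (List.mem_range.1 hi)

theorem pre_pre (X : ℕ → Bool) {m n : ℕ} (h : m ≤ n) : pre X m <+: pre X n :=
  pre_take X h ▸ List.take_prefix _ _

theorem of_pre {X : ℕ → Bool} {n : ℕ} {σ : Str} (h : σ <+: pre X n) : pre X σ.length = σ := by
  rw [← pre_take X (pre_len X n ▸ h.length_le), ← List.prefix_iff_eq_take.1 h]

def cyl (σ : Str) : Set (ℕ → Bool) := {Y | pre Y σ.length = σ}

theorem cyl_eq (σ : Str) : cyl σ = {Y | ∀ i ∈ Finset.range σ.length, Y i = σ.getD i false} := by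
  ext Y
  refine ⟨fun h i hi => ?_, fun h => List.ext_getElem (pre_len _ _) fun i _ h5 => ?_⟩
  · rw [← show pre Y σ.length = σ from h]
    simp [pre, Finset.mem_range.1 hi]
  · simpa [pre, h5] using h i (Finset.mem_range.2 h5)

theorem mu_cyl (σ : Str) : Fn.mu (cyl σ) = 2⁻¹ ^ σ.length := by
  rw [cyl_eq, Fn.mu_cyl, Finset.card_range]

theorem cyl_loc (σ : Str) : Fn.Loc σ.length (· ∈ cyl σ) := fun _ _ e h =>
  (pre_congr e).symm.trans h

theorem cyl_meas (σ : Str) : MeasurableSet (cyl σ) := (cyl_loc σ).closed.measurableSet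

theorem opn_eq (V : Str → Prop) : {Y | ∃ m, V (pre Y m)} = ⋃ σ ∈ {σ | V σ}, cyl σ := by
  ext Y
  simp only [Set.mem_setOf_eq, Set.mem_iUnion, exists_prop]
  exact ⟨fun ⟨m, h⟩ => ⟨_, h, by rw [cyl, Set.mem_setOf_eq, pre_len]⟩,
    fun ⟨σ, h, e⟩ => ⟨σ.length, by rwa [show pre Y σ.length = σ from e]⟩⟩

theorem opn_meas (V : Str → Prop) : MeasurableSet {Y | ∃ m, V (pre Y m)} :=
  opn_eq V ▸ MeasurableSet.biUnion (Set.to_countable _) fun σ _ => cyl_meas σ

/-- Lower semicomputable. -/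
def Low (f : α → ℝ) : Prop := RE fun z : α × ℕ × ℕ => (z.2.1 : ℝ) / 2 ^ z.2.2 < f z.1

theorem low_mu {V : α → Str → Prop} (hV : RE fun z : α × Str => V z.1 z.2) :
    Low fun a => Fn.mu.real {Y | ∃ m, V a (pre Y m)} := by
  classical
  obtain ⟨N, h1, h2, h3, h4⟩ := re_bool (r_pw hV).re
  let T : α → ℕ → (ℕ → Bool) → Prop := fun a s Y => ∃ m < s, N (a, pre Y m) s = true
  have loc : ∀ a s, Fn.Loc s (T a s) := fun a s Y Y' e ⟨m, g1, g2⟩ =>
    ⟨m, g1, by rwa [← pre_congr fun i hi => e i (hi.trans g1)]⟩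
  have h5 : RE fun z : α × ℕ × ℕ => pw (∃ s, z.2.1 * 2 ^ s <
      ((Finset.range (2 ^ s)).filter fun m => T z.1 s (Fn.tb m)).card * 2 ^ z.2.2) := by
    unfold T; fun_prop
  refine RE.un (h5.re.of_eq fun z => ?_)
  have e : {Y | ∃ m, V z.1 (pre Y m)} = ⋃ s, {Y | T z.1 s Y} := by
    ext Y
    simp only [Set.mem_setOf_eq, Set.mem_iUnion]
    exact ⟨fun ⟨m, h⟩ => let ⟨t, ht⟩ := h4 (z.1, _) h
      ⟨t + m + 1, m, by omega, h3 _ _ _ (by omega) ht⟩, fun ⟨s, m, _, h⟩ => ⟨m, h2 _ _ h⟩⟩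
  dsimp only
  rw [e, Measure.real, ← ENNReal.ofReal_lt_iff_lt_toReal (by positivity) (measure_ne_top _ _),
    Monotone.measure_iUnion (s := fun s => {Y | T z.1 s Y}) fun s t h Y ⟨m, g1, g2⟩ =>
      ⟨m, g1.trans_le h, h3 _ _ _ h g2⟩, lt_iSup_iff]
  refine exists_congr fun s => ?_
  rw [ENNReal.ofReal_lt_iff_lt_toReal (by positivity) (measure_ne_top _ _),
    Fn.mu_loc (loc z.1 s)]
  simp only [ENNReal.toReal_mul, ENNReal.toReal_natCast, ENNReal.toReal_pow, ENNReal.toReal_inv,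
    ENNReal.toReal_ofNat, inv_pow, ← div_eq_mul_inv]
  rw [div_lt_div_iff₀ (by positivity) (by positivity)]
  norm_cast

theorem low_tsum {f : α → ℕ → ℝ} (hf : Low fun z : α × ℕ => f z.1 z.2) (h0 : ∀ a n, 0 ≤ f a n)
    (hs : ∀ a, Summable (f a)) : Low fun a => ∑' n, f a n := by
  let P : (α × ℕ) × ℕ × ℕ → Prop := fun z => (z.2.1 : ℝ) / 2 ^ z.2.2 < f z.1.1 z.1.2
  have hP : RE P := hf
  have h5 : RE fun z : α × ℕ × ℕ => pw (∃ w : ℕ × List ℕ, z.2.1 * 2 ^ w.1 <
      (∑ i ∈ Finset.range w.2.length, w.2.getD i 0) * 2 ^ z.2.2 ∧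
      ∀ i < w.2.length, w.2.getD i 0 = 0 ∨ P ((z.1, i), w.2.getD i 0, w.1)) := by
    clear_value P; fun_prop
  refine RE.un (h5.re.of_eq fun ⟨a, p, k⟩ => ⟨fun ⟨⟨j, L⟩, g1, g2⟩ => ?_, fun h => ?_⟩)
  · refine lt_of_lt_of_le (b := ∑ i ∈ Finset.range L.length, (L.getD i 0 : ℝ) / 2 ^ j) ?_
      ((Finset.sum_le_sum fun i hi => ?_).trans ((hs a).sum_le_tsum _ fun i _ => h0 a i))
    · rw [← Finset.sum_div, div_lt_div_iff₀ (by positivity) (by positivity)]
      exact_mod_cast g1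
    · rcases g2 i (Finset.mem_range.1 hi) with h | h
      · rw [show L.getD i 0 = 0 from h, Nat.cast_zero, zero_div]
        exact h0 a i
      · exact h.le
  · obtain ⟨t, ht⟩ := ((tendsto_order.1 (hs a).hasSum.tendsto_sum_nat).1 _ h).exists
    obtain ⟨j, hj⟩ := pow_unbounded_of_one_lt
      (t / (∑ i ∈ Finset.range t, f a i - p / 2 ^ k)) (one_lt_two (α := ℝ))
    rw [div_lt_iff₀ (sub_pos.2 ht)] at hj
    have e : ∀ i < t, ((List.range t).map fun i => ⌈2 ^ j * f a i⌉₊ - 1).getD i 0 =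
        ⌈2 ^ j * f a i⌉₊ - 1 := fun i hi => by simp [hi]
    refine ⟨(j, (List.range t).map fun i => ⌈2 ^ j * f a i⌉₊ - 1), ?_, fun i hi => ?_⟩
    · simp only [List.length_map, List.length_range]
      rw [Finset.sum_congr rfl fun i hi => e i (Finset.mem_range.1 hi), ← Nat.cast_lt (α := ℝ)]
      have : ∑ i ∈ Finset.range t, (2 ^ j * f a i - 1) ≤
          ∑ i ∈ Finset.range t, ((⌈2 ^ j * f a i⌉₊ - 1 : ℕ) : ℝ) := Finset.sum_le_sum fun i _ => by
        have h1 := Nat.le_ceil (2 ^ j * f a i)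
        have h2 : (⌈2 ^ j * f a i⌉₊ : ℝ) ≤ (⌈2 ^ j * f a i⌉₊ - 1 : ℕ) + 1 := by
          exact_mod_cast (by omega)
        linarith
      rw [Finset.sum_sub_distrib, ← Finset.mul_sum] at this
      simp only [Finset.sum_const, Finset.card_range, nsmul_eq_mul, mul_one] at this
      push_cast
      rw [← div_lt_iff₀ (by positivity), mul_div_right_comm]
      linarith
    · simp only [List.length_map, List.length_range] at hi
      simp only [e i hi, P]
      rcases Nat.eq_zero_or_pos ⌈2 ^ j * f a i⌉₊ with h | h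
      · exact Or.inl (by simp [h])
      · refine Or.inr ?_
        rw [div_lt_iff₀ (by positivity), mul_comm (f a i), ← Nat.lt_ceil]
        omega

theorem rand {M : Str → ℝ} (hU : ∀ N, Semi N → ∃ c > 0, ∀ x, c * N x ≤ M x) {X : ℕ → Bool}
    {B : ℝ} (hB : ∀ m, ∃ n ≥ m, M (pre X n) * 2 ^ n ≤ B) : Rand X := by
  intro W hW hm
  by_contra! hX
  replace hW := RE.un hW
  let V : Str × ℕ → Str → Prop := fun z τ => z.1 <+: τ ∧ ∃ ρ, ρ <+: τ ∧ W (2 * z.2 + 1) ρ
  have e : ∀ σ n, {Y | ∃ m, V (σ, n) (pre Y m)} = {Y | ∃ m, W (2 * n + 1) (pre Y m)} ∩ cyl σ := by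
    refine fun σ n => Set.ext fun Y => ⟨fun ⟨m, h1, ρ, h2, h3⟩ => ⟨⟨_, (of_pre h2).symm ▸ h3⟩,
      of_pre h1⟩, fun ⟨⟨m, h1⟩, h2⟩ => ⟨m + σ.length, ?_, _, pre_pre Y (by omega), h1⟩⟩
    rw [← show pre Y σ.length = σ from h2, pre_len]
    exact pre_pre Y (by omega)
  let f : Str → ℕ → ℝ := fun σ n =>
    2 ^ n * Fn.mu.real ({Y | ∃ m, W (2 * n + 1) (pre Y m)} ∩ cyl σ)
  have h0 : ∀ σ n, 0 ≤ f σ n := fun σ n => mul_nonneg (by positivity) measureReal_nonneg
  have h1 : ∀ σ n, f σ n ≤ 1 / 2 / 2 ^ n := fun σ n => by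
    have := ENNReal.toReal_mono (by simp) ((measure_mono (Set.inter_subset_left (t := cyl σ))).trans
      (hm (2 * n + 1)))
    simp only [ENNReal.toReal_pow, ENNReal.toReal_inv, ENNReal.toReal_ofNat] at this
    refine (mul_le_mul_of_nonneg_left this (by positivity)).trans_eq ?_
    rw [inv_pow, pow_succ, two_mul, pow_add]
    field_simp
  have hs : ∀ σ, Summable (f σ) := fun σ =>
    .of_nonneg_of_le (h0 σ) (h1 σ) (summable_geometric_two' 1)
  have hf : Low fun z : Str × ℕ => f z.1 z.2 := by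
    have h2 := low_mu (V := V) (RE.un (RE.re (by unfold V; fun_prop)))
    refine RE.un ((r_pw (r_comp (f := fun z : (Str × ℕ) × ℕ × ℕ => (z.1, z.2.1, z.2.2 + z.1.2))
      h2 (by fun_prop))).re.of_eq fun ⟨⟨σ, n⟩, a, k⟩ => ?_)
    simp only [e, f]
    rw [pow_add, ← div_div, div_lt_iff₀' (by positivity)]
  refine (hU (fun σ => ∑' n, f σ n) ⟨fun σ => tsum_nonneg (h0 σ),
    ((hs _).tsum_le_tsum (h1 _) (summable_geometric_two' 1)).trans_eq (tsum_geometric_two' 1),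
    fun σ => ?_, (r_pw (low_tsum hf h0 hs)).re⟩).elim fun c ⟨hc, h⟩ => ?_
  swap
  · obtain ⟨n, hn⟩ := pow_unbounded_of_one_lt (B / c) (one_lt_two (α := ℝ))
    obtain ⟨m, h2⟩ := hX (2 * n + 1)
    obtain ⟨k, h3, h4⟩ := hB m
    have h5 := (hs (pre X k)).le_tsum n fun i _ => h0 _ i
    have h6 : f (pre X k) n * 2 ^ k = 2 ^ n := by
      simp only [f]
      have : cyl (pre X k) ⊆ {Y | ∃ m, W (2 * n + 1) (pre Y m)} := fun Y hY => ⟨m, by
        rwa [← pre_take Y h3, ← pre_len X k, show pre Y _ = _ from hY, pre_take X h3]⟩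
      rw [Set.inter_eq_right.2 this, Measure.real, mu_cyl, pre_len]
      simp
    rw [div_lt_iff₀ hc] at hn
    have h7 := mul_le_mul_of_nonneg_right ((mul_le_mul_of_nonneg_left h5 hc.le).trans (h _))
      (show (0 : ℝ) ≤ 2 ^ k by positivity)
    rw [mul_assoc, h6] at h7
    linarith
  · rw [← (hs _).tsum_add (hs _)]
    refine ((hs _).add (hs _)).tsum_le_tsum (fun n => ?_) (hs _)
    have h2 : ∀ b, cyl (σ ++ [b]) ⊆ cyl σ := fun b Y hY =>
      of_pre (hY.symm ▸ List.prefix_append σ [b])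
    simp only [f]
    rw [← mul_add, ← measureReal_union _ ((opn_meas _).inter (cyl_meas _))]
    · exact mul_le_mul_of_nonneg_left (measureReal_mono (Set.union_subset
        (Set.inter_subset_inter_right _ (h2 _)) (Set.inter_subset_inter_right _ (h2 _))))
        (by positivity)
    · refine Set.disjoint_left.2 fun Y a b => ?_
      have h3 : pre Y _ = _ := a.2
      have h4 : pre Y _ = _ := b.2
      simp only [List.length_append, List.length_singleton] at h3 h4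
      simpa using h3.symm.trans h4

end Pool.Agent.Lib.helper21.ML
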