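import Mathlib

set_option autoImplicit false

namespace Pool.Agent.Lib.helper21.RN

open FirstOrder FirstOrder.Language Cardinal Filter Set

/-- Abstract back and forth. -/
theorem baf {A B : Type} [Countable A] [Countable B] (P : Set (A × B) → Prop) (p0 : Set (A × B))
    (h0 : P p0) (hf : ∀ p, P p → ∀ a, ∃ b, P (insert (a, b) p))
    (hb : ∀ p, P p → ∀ b, ∃ a, P (insert (a, b) p)) :
    ∃ R : Set (A × B), p0 ⊆ R ∧ (∀ a, ∃ b, (a, b) ∈ R) ∧ (∀ b, ∃ a, (a, b) ∈ R) ∧
      ∀ q : Set (A × B), q.Finite → q ⊆ R → ∃ p, P p ∧ q ⊆ p := by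
  obtain ⟨e, he⟩ := exists_surjective_nat (Option (A ⊕ B))
  have st : ∀ (n : ℕ) (p : {p // P p}), ∃ p' : {p // P p}, p.1 ⊆ p'.1 ∧
      (∀ a, e n = some (.inl a) → ∃ b, (a, b) ∈ p'.1) ∧
      ∀ b, e n = some (.inr b) → ∃ a, (a, b) ∈ p'.1 := fun n p => by
    rcases e n with _ | a | b
    · exact ⟨p, subset_rfl, by simp⟩
    · obtain ⟨b, h⟩ := hf _ p.2 a
      exact ⟨⟨_, h⟩, subset_insert _ _, by simp⟩
    · obtain ⟨a, h⟩ := hb _ p.2 b
      exact ⟨⟨_, h⟩, subset_insert _ _, by simp⟩
  choose f f1 f2 f3 using st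
  let s : ℕ → {p // P p} := fun n => Nat.rec ⟨p0, h0⟩ f n
  have m : Monotone fun n => (s n).1 := monotone_nat_of_le_succ fun n => f1 n (s n)
  refine ⟨⋃ n, (s n).1, subset_iUnion (fun n => (s n).1) 0, fun a => ?_, fun b => ?_,
    fun q hq h => ?_⟩
  · obtain ⟨n, hn⟩ := he (some (.inl a))
    exact (f2 n (s n) a hn).imp fun b h => mem_iUnion.2 ⟨n + 1, h⟩
  · obtain ⟨n, hn⟩ := he (some (.inr b))
    exact (f3 n (s n) b hn).imp fun b h => mem_iUnion.2 ⟨n + 1, h⟩
  · choose! k hk using fun x hx => mem_iUnion.1 (h (a := x) hx)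
    obtain ⟨N, hN⟩ := (hq.image k).bddAbove
    exact ⟨_, (s N).2, fun x hx => m (hN ⟨x, hx, rfl⟩) (hk x hx)⟩

variable {L : FirstOrder.Language.{0, 0}} {M : Type} [L.Structure M]

theorem transfer {N : Type} [L.Structure N] (h : N ⊨ L.completeTheory M) {α : Type} [Finite α]
    (φ : L.Formula α) (H : ∀ c : α → M, φ.Realize c) (c : α → N) : φ.Realize c := by
  have := h.realize_of_mem ((φ.relabel Sum.inr).iAlls α) (by
    simpa [Sentence.Realize, mem_completeTheory] using H)
  exact (by simpa [Sentence.Realize] using this : ∀ c : α → N, φ.Realize c) c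

/-- Finitely many complete formulas in each arity give countable categoricity. -/
theorem cat_of_atomic (H : ∀ (α : Type) [Finite α], ∃ (κ : Type) (_ : Finite κ)
    (θ : κ → L.Formula α), (∀ c : α → M, ∃ k, (θ k).Realize c) ∧ ∀ k (c c' : α → M),
      (θ k).Realize c → (θ k).Realize c' → ∀ φ : L.Formula α, φ.Realize c → φ.Realize c') :
    Categorical (ℵ₀ : Cardinal.{0}) (L.completeTheory M) := by
  have ext : ∀ (N N' : Type) [L.Structure N] [L.Structure N'], N ⊨ L.completeTheory M →
      N' ⊨ L.completeTheory M → ∀ (α : Type) [Finite α] (x : α → N) (y : α → N'),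
      (∀ φ : L.Formula α, φ.Realize x ↔ φ.Realize y) → ∀ a, ∃ b, ∀ φ : L.Formula (α ⊕ Unit),
        φ.Realize (Sum.elim x fun _ => a) ↔ φ.Realize (Sum.elim y fun _ => b) :=
    fun N N' _ _ hN hN' α _ x y h a => by
      obtain ⟨κ, _, θ, h1, h2⟩ := H (α ⊕ Unit)
      obtain ⟨k, hk⟩ : ∃ k, (θ k).Realize (Sum.elim x fun _ => a) := by
        simpa using transfer hN (Formula.iSup θ) (by simpa using h1) (Sum.elim x fun _ => a)
      obtain ⟨b, hb⟩ : ∃ b : Unit → N', (θ k).Realize (Sum.elim y b) := by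
        simpa using (h ((θ k).iExs Unit)).1 (by simpa using ⟨_, hk⟩)
      refine ⟨b (), fun φ => ?_⟩
      by_cases l : ∃ c : α ⊕ Unit → M, (θ k).Realize c ∧ φ.Realize c
      · obtain ⟨c, l1, l2⟩ := l
        have e : ∀ c' : α ⊕ Unit → M, Formula.Realize (θ k ⟹ φ) c' := fun c' =>
          Formula.realize_imp.2 fun l => h2 k c c' l1 l φ l2
        exact iff_of_true (Formula.realize_imp.1 (transfer hN _ e _) hk)
          (Formula.realize_imp.1 (transfer hN' _ e _) hb)
      · have e : ∀ c' : α ⊕ Unit → M, Formula.Realize (θ k ⟹ ∼φ) c' := fun c' => by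
          simpa using fun a b => l ⟨c', a, b⟩
        exact iff_of_false (Formula.realize_not.1 (Formula.realize_imp.1 (transfer hN _ e _) hk))
          (Formula.realize_not.1 (Formula.realize_imp.1 (transfer hN' _ e _) hb))
  intro N N' h1 h2
  have : Countable N := mk_le_aleph0_iff.1 h1.le
  have : Countable N' := mk_le_aleph0_iff.1 h2.le
  have ins : ∀ (p : Set (N × N')) (a : N) (b : N'), (∀ φ : L.Formula (p ⊕ Unit),
      φ.Realize (Sum.elim (fun i : p => i.1.1) fun _ => a) ↔
        φ.Realize (Sum.elim (fun i : p => i.1.2) fun _ => b)) →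
      ∀ φ : L.Formula (insert (a, b) p : Set _), φ.Realize (fun i => i.1.1) ↔
        φ.Realize (fun i => i.1.2) := fun p a b h φ => by
    have : ∀ i : (insert (a, b) p : Set _), ∃ j : p ⊕ Unit,
        Sum.elim (fun i : p => i.1.1) (fun _ => a) j = i.1.1 ∧
          Sum.elim (fun i : p => i.1.2) (fun _ => b) j = i.1.2 := by
      rintro ⟨i, rfl | hi⟩
      exacts [⟨.inr (), rfl, rfl⟩, ⟨.inl ⟨i, hi⟩, rfl, rfl⟩]
    choose t t1 t2 using this
    simpa [Function.comp_def, t1, t2] using h (φ.relabel t)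
  obtain ⟨R, -, r1, r2, r3⟩ := baf (A := N) (B := N') (fun p => p.Finite ∧
    ∀ φ : L.Formula p, φ.Realize (fun i => i.1.1) ↔ φ.Realize (fun i => i.1.2)) ∅
    ⟨finite_empty, fun φ => by
      by_cases l : φ.Realize (M := M) fun i => i.2.elim
      · have e : ∀ c : (∅ : Set (N × N')) → M, φ.Realize c := fun c => by
          rwa [Subsingleton.elim c fun i => i.2.elim]
        exact iff_of_true (transfer N.is_model _ e _) (transfer N'.is_model _ e _)
      · have e : ∀ c : (∅ : Set (N × N')) → M, Formula.Realize (∼φ) c := fun c => by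
          rwa [Subsingleton.elim c fun i => i.2.elim, Formula.realize_not]
        exact iff_of_false (Formula.realize_not.1 (transfer N.is_model _ e _))
          (Formula.realize_not.1 (transfer N'.is_model _ e _))⟩
    (fun p ⟨h, k⟩ a => by
      have := h.to_subtype
      exact (ext N N' N.is_model N'.is_model p _ _ k a).imp fun b l => ⟨h.insert _, ins p a b l⟩)
    (fun p ⟨h, k⟩ b => by
      have := h.to_subtype
      exact (ext N' N N'.is_model N.is_model p _ _ (fun φ => (k φ).symm) b).imp fun a l =>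
        ⟨h.insert _, ins p a b fun φ => (l φ).symm⟩)
  have r4 : ∀ (α : Type) [Finite α] (t : α → N × N'), (∀ i, t i ∈ R) → ∀ φ : L.Formula α,
      φ.Realize (fun i => (t i).1) ↔ φ.Realize (fun i => (t i).2) := fun α _ t ht φ => by
    obtain ⟨p, ⟨-, k⟩, l⟩ := r3 _ (finite_range t) (range_subset_iff.2 ht)
    simpa [Function.comp_def] using k (φ.relabel fun i => ⟨t i, l ⟨i, rfl⟩⟩)
  choose f hf using r1
  let F : N ↪ₑ[L] N' := ⟨f, fun n φ x => (r4 _ (fun i => (x i, f (x i))) (fun i => hf _) φ).symm⟩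
  have s : Function.Surjective F := fun b => by
    obtain ⟨a, h⟩ := r2 b
    refine ⟨a, show f a = b from ?_⟩
    simpa using r4 Bool (fun i => cond i (a, f a) (a, b)) (by simp [h, hf])
      ((Term.var true).equal (.var false))
  exact ⟨⟨.ofBijective F ⟨F.injective, s⟩, fun g x => F.map_fun g x, fun r x => F.map_rel r x⟩⟩

/-- In a countably categorical structure every ultralimit of types is realised. -/
theorem real [Countable L.Symbols] [Countable M] [Infinite M]
    (hc : Categorical (ℵ₀ : Cardinal.{0}) (L.completeTheory M)) {α ι : Type} [Countable α]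
    (U : Ultrafilter ι) (w : ι → α → M) :
    ∃ v : α → M, ∀ φ : L.Formula α, φ.Realize v ↔ ∀ᶠ s in U, φ.Realize (w s) := by
  have e : M ≅[L] (U : Filter ι).Product fun _ => M := elementarilyEquivalent_iff.2 fun φ => by
    simp [Ultraproduct.sentence_realize]
  have := e.infinite
  let x : α → (U : Filter ι).Product fun _ => M := fun a => ((fun s => w s a : ι → M) : _)
  obtain ⟨S, h1, h2⟩ := L.exists_elementarySubstructure_card_eq (range x) ℵ₀ le_rfl
    (lift_le.2 (le_aleph0_iff_set_countable.2 (countable_range x)))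
    (lift_le.2 (mk_le_aleph0 (α := L.Symbols))) (by simp)
  have h3 := S.elementarilyEquivalent.trans e.symm
  have : Nonempty S := h3.nonempty_iff.2 inferInstance
  have : S ⊨ L.completeTheory M := h3.symm.theory_model
  obtain ⟨j⟩ : Nonempty (S ≃[L] M) :=
    hc (Theory.ModelType.of _ S) (Theory.ModelType.of _ M) (by simpa using h2) (mk_eq_aleph0 M)
  refine ⟨j ∘ fun a => ⟨x a, h1 ⟨a, rfl⟩⟩, fun φ => ?_⟩
  rw [StrongHomClass.realize_formula, ← S.subtype.map_formula]
  exact Ultraproduct.realize_formula_cast φ fun a s => w s a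

end Pool.Agent.Lib.helper21.RN
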