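import Mathlib

set_option autoImplicit false
set_option linter.unusedSimpArgs false
set_option linter.unusedVariables false

/-! Pumping for Petri nets (multiset rewriting), from Higman's lemma. -/

namespace Pool.Agent.Lib.helper21.Vass

open Relation

variable {α : Type} {Tr : Set (Multiset α × Multiset α)}

def St (Tr : Set (Multiset α × Multiset α)) (U V : Multiset α) : Prop :=
  ∃ t ∈ Tr, ∃ W, U = W + t.1 ∧ V = W + t.2

theorem add {U V : Multiset α} (h : ReflTransGen (St Tr) U V) (D : Multiset α) :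
    ReflTransGen (St Tr) (U + D) (V + D) :=
  h.lift (· + D) fun _ _ ⟨t, a, W, b, c⟩ => ⟨t, a, W + D, by simp only [b]; abel, by simp only [c]; abel⟩

theorem pump {U D E : Multiset α} (h : ReflTransGen (St Tr) (U + D) (U + E)) (k : ℕ) :
    ReflTransGen (St Tr) (U + k • D) (U + k • E) := by
  induction k with
  | zero => simp only [zero_nsmul]; rfl
  | succ k ih =>
    rw [succ_nsmul, succ_nsmul, ← add_assoc, ← add_assoc, add_right_comm U (k • E)]
    exact (add ih D).trans (add_right_comm U _ _ ▸ add h _)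

inductive Run (Tr : Set (Multiset α × Multiset α)) :
    Multiset α → List ((Multiset α × Multiset α) × Multiset α) → Multiset α → Prop
  | nil (U) : Run Tr U [] U
  | cons {t W ρ V} : t ∈ Tr → Run Tr (W + t.2) ρ V → Run Tr (W + t.1) ((t, W) :: ρ) V

theorem Run.mem {U ρ V} (h : Run Tr U ρ V) : ReflTransGen (St Tr) U V ∧ ∀ x ∈ ρ, x.1 ∈ Tr := by
  induction h with
  | nil => simp [ReflTransGen.refl]
  | cons a _ ih => exact ⟨.head ⟨_, a, _, rfl, rfl⟩ ih.1, by simpa [a] using ih.2⟩

theorem amal {ρ ρ'} (h : List.SublistForall₂ (fun x y : (Multiset α × Multiset α) × Multiset α =>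
    x.1 = y.1 ∧ x.2 ≤ y.2) ρ ρ') : ∀ {U V X D D'}, Run Tr U ρ V → Run Tr X ρ' (V + D') →
      ReflTransGen (St Tr) (U + D) X → ∀ k : ℕ, ReflTransGen (St Tr) (U + k • D) (V + k • D') := by
  induction h with
  | nil => rintro _ _ _ _ _ ⟨⟩ a b; exact pump (b.trans a.mem.1)
  | cons r _ ih =>
    rintro _ _ _ _ _ (_ | @⟨t, W, _, _, a, b⟩) (_ | ⟨-, c⟩) d k
    obtain ⟨rfl, E, rfl⟩ := r.imp_right exists_add_of_le
    exact (pump (E := E) (by rwa [add_right_comm W _ E]) k).trans (.head ⟨t, a, W + k • E, by abel, add_right_comm ..⟩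
      (ih b c (add_right_comm W _ _ ▸ .refl) k))
  | cons_right _ ih =>
    rintro _ _ _ _ _ a (_ | ⟨b, c⟩) d
    exact ih a c (d.tail ⟨_, b, _, rfl, rfl⟩)

theorem vass [Finite α] (hT : Tr.Finite) {S : Set (Multiset α)} (hS : S.Finite) {U V : ℕ → Multiset α}
    (hU : ∀ i, U i ∈ S) (h : ∀ i, ReflTransGen (St Tr) (U i) (V i)) : ∃ i j, i < j ∧ ∃ D,
      V j = V i + D ∧ ∀ k : ℕ, ReflTransGen (St Tr) (U i) (V i + k • D) := by
  classical
  have m : (Set.univ : Set (Multiset α)).PartiallyWellOrderedOn (· ≤ ·) := fun f =>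
    (wellQuasiOrdered_le (α := α → ℕ) fun n a => (f n).1.count a).imp fun _ => Exists.imp fun _ =>
      And.imp_right Multiset.le_iff_count.2
  have : ∀ i, ∃ ρ, Run Tr (U i) ρ (V i) := fun i => by
    have := h i
    generalize U i = u at this
    induction this using ReflTransGen.head_induction_on with
    | refl => exact ⟨_, .nil _⟩
    | head a _ ih => obtain ⟨t, a, W, rfl, rfl⟩ := a; exact ih.elim fun _ b => ⟨_, .cons a b⟩
  choose ρ hρ using this
  let r := fun x y : (Multiset α × Multiset α) × Multiset α => x.1 = y.1 ∧ x.2 ≤ y.2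
  have : IsPreorder _ r := { refl := fun _ => ⟨rfl, le_rfl⟩
                             trans := fun _ _ _ a b => ⟨a.1.trans b.1, a.2.trans b.2⟩ }
  obtain ⟨i, j, l, a, b, c⟩ := ((hS.partiallyWellOrderedOn (r := Eq)).prod (m.prod
    (((hT.partiallyWellOrderedOn (r := Eq)).prod m).partiallyWellOrderedOn_sublistForall₂ r))).exists_lt
      (f := fun i => (U i, V i, ρ i)) fun i => ⟨hU i, trivial, fun x a => ⟨(hρ i).mem.2 x a, trivial⟩⟩
  obtain ⟨D, e⟩ := exists_add_of_le b
  exact ⟨i, j, l, D, e, fun k => by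
    simpa using amal c (D := 0) (hρ i) (Eq.subst e (hρ j)) (by rw [add_zero, show U i = U j from a]) k⟩

end Pool.Agent.Lib.helper21.Vass
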