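import Pool.Agent.Lib.helper21.Jump

set_option autoImplicit false

/-! Weihrauch reducibility on Baire space. -/

namespace Pool.Agent.Lib.helper21.Wh

open Filter Pool.Agent.Lib.helper21.PR Encodable

attribute [local irreducible] Primrec Computable

/-- initial segment -/
def pr (p : ℕ → ℕ) (k : ℕ) : List ℕ := (List.range k).map p

/-- the Turing functional with set of axioms `W` sends `p` to the total function `q` -/
def Maps (W : List ℕ × ℕ × ℕ → Prop) (p q : ℕ → ℕ) : Prop :=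
  ∀ n v, (∃ k, W (pr p k, n, v)) ↔ q n = v

def jn (p q : ℕ → ℕ) (n : ℕ) : ℕ := if n % 2 = 0 then p (n / 2) else q (n / 2)

/-- A problem; its instances are the points with a nonempty set of solutions. -/
abbrev Pb := (ℕ → ℕ) → Set (ℕ → ℕ)

def Le (f g : Pb) : Prop := ∃ Φ Ψ, REPred Φ ∧ REPred Ψ ∧ ∀ p, (f p).Nonempty →
  ∃ x, Maps Φ p x ∧ (g x).Nonempty ∧ ∀ q ∈ g x, ∃ y ∈ f p, Maps Ψ (jn p q) y

abbrev Gr := ℕ → ℕ → Prop
abbrev Ax := List ℕ × ℕ × ℕ → Prop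

def gr (p : ℕ → ℕ) : Gr := fun i v => p i = v
def fin (σ : List ℕ) : Gr := fun i v => σ[i]? = some v
def Is (G : Gr) (x : ℕ → ℕ) : Prop := ∀ i v, G i v ↔ x i = v
def Ap (W : Ax) (G : Gr) : Gr := fun n v =>
  ∃ σ : List ℕ, (∀ i < σ.length, G i (σ.getD i 0)) ∧ W (σ, n, v)
def Jn (G H : Gr) : Gr := fun n v => n % 2 = 0 ∧ G (n / 2) v ∨ n % 2 = 1 ∧ H (n / 2) v
def Pj (e : ℕ) (G : Gr) : Gr := fun n v => G (2 * n + e) v

variable {G H : Gr} {x y p q : ℕ → ℕ} {W : Ax}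

@[simp] theorem pr_len (p : ℕ → ℕ) (k : ℕ) : (pr p k).length = k := by simp [pr]
theorem pr_getD {k i : ℕ} (h : i < k) : (pr p k).getD i 0 = p i := by simp [pr, h]
theorem pr_congr {k : ℕ} (h : ∀ i < k, p i = q i) : pr p k = pr q k :=
  List.map_congr_left fun i hi => h i (List.mem_range.1 hi)
theorem eq_pr {σ : List ℕ} (h : ∀ i < σ.length, x i = σ.getD i 0) : pr x σ.length = σ :=
  List.ext_getElem (pr_len _ _) fun i _ k => by simpa [pr, k] using h i k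

theorem is_gr (p : ℕ → ℕ) : Is (gr p) p := fun _ _ => Iff.rfl
theorem Is.uniq (h : Is G x) (k : Is G y) : x = y := funext fun i => (h i _).1 ((k i _).2 rfl)
theorem Maps.uniq (h : Maps W p x) (k : Maps W p y) : x = y :=
  funext fun i => (h i _).1 ((k i _).2 rfl)

theorem Is.ap_iff (h : Is G x) {n v : ℕ} : Ap W G n v ↔ ∃ k, W (pr x k, n, v) :=
  ⟨fun ⟨σ, a, b⟩ => ⟨σ.length, by rwa [eq_pr fun i hi => (h _ _).1 (a i hi)]⟩, fun ⟨k, b⟩ =>
    ⟨_, fun i hi => (h _ _).2 (pr_getD (pr_len x k ▸ hi)).symm, b⟩⟩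
theorem Is.ap (h : Is G x) (k : Maps W x y) : Is (Ap W G) y := fun n v => h.ap_iff.trans (k n v)
theorem Is.jn (h : Is G x) (k : Is H y) : Is (Jn G H) (jn x y) := fun n v => by
  rcases Nat.mod_two_eq_zero_or_one n with c | c <;> simp [Jn, Wh.jn, c, h _ v, k _ v]
theorem Is.pj (h : Is G x) (e : ℕ) : Is (Pj e G) fun i => x (2 * i + e) := fun _ _ => h _ _
theorem jn_even (p q : ℕ → ℕ) : (fun i => jn p q (2 * i + 0)) = p := funext fun i => by simp [jn]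
theorem jn_odd (p q : ℕ → ℕ) : (fun i => jn p q (2 * i + 1)) = q := funext fun i => by
  simp [jn, Nat.mul_add_div]
theorem is_l (p q : ℕ → ℕ) : Is (Pj 0 (gr (jn p q))) p := by
  simpa only [jn_even] using (is_gr (jn p q)).pj 0
theorem is_r (p q : ℕ → ℕ) : Is (Pj 1 (gr (jn p q))) q := by
  simpa only [jn_odd] using (is_gr (jn p q)).pj 1

/-- continuity in the oracle -/
def Ct (F : Gr → Prop) : Prop :=
  ∀ p, (∀ k, F (fin (pr p k)) → F (gr p)) ∧ (F (gr p) → ∀ᶠ k in atTop, F (fin (pr p k)))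

theorem c_const {c : Prop} : Ct fun _ => c := fun _ => ⟨fun _ h => h, fun h => .of_forall fun _ => h⟩
theorem c_atom {i v : ℕ} : Ct fun G => G i v := fun p => ⟨fun k h => by
  obtain ⟨a, b⟩ := List.getElem?_eq_some_iff.1 h
  simpa [pr, gr] using b, fun h => (eventually_gt_atTop i).mono fun k a => by
    simpa [fin, pr, a, gr] using h⟩
theorem c_and {P Q : Gr → Prop} (h : Ct P) (k : Ct Q) : Ct fun G => P G ∧ Q G := fun p =>
  ⟨fun n => And.imp ((h p).1 n) ((k p).1 n), fun a => ((h p).2 a.1).and ((k p).2 a.2)⟩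
theorem c_or {P Q : Gr → Prop} (h : Ct P) (k : Ct Q) : Ct fun G => P G ∨ Q G := fun p =>
  ⟨fun n => Or.imp ((h p).1 n) ((k p).1 n), fun a => a.elim
    (fun a => ((h p).2 a).mono fun _ => .inl) fun a => ((k p).2 a).mono fun _ => .inr⟩
theorem c_ex {β : Type} {R : Gr → β → Prop} (h : ∀ w, Ct (R · w)) : Ct fun G => ∃ w, R G w :=
  fun p => ⟨fun n ⟨w, a⟩ => ⟨w, (h w p).1 n a⟩, fun ⟨w, a⟩ => ((h w p).2 a).mono fun _ b => ⟨w, b⟩⟩
theorem c_ball {m : ℕ} {R : Gr → ℕ → Prop} (h : ∀ w, Ct (R · w)) : Ct fun G => ∀ w < m, R G w :=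
  fun p => ⟨fun n a w b => (h w p).1 n (a w b), fun a =>
    (eventually_all_finite (Set.finite_Iio m)).2 fun w b => (h w p).2 (a w b)⟩

/-- computable operators on graphs -/
def Op (Γ : Gr → Gr) : Prop :=
  (RE fun z : List ℕ × ℕ × ℕ => Γ (fin z.1) z.2.1 z.2.2) ∧ ∀ n v, Ct (Γ · n v)

variable {Γ Δ : Gr → Gr}

theorem Op.ex (h : Op Γ) (p : ℕ → ℕ) (n v : ℕ) : (∃ k, Γ (fin (pr p k)) n v) ↔ Γ (gr p) n v :=
  ⟨fun ⟨k, a⟩ => (h.2 n v p).1 k a, fun a => ((h.2 n v p).2 a).exists⟩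

theorem op_id : Op fun G => G := ⟨RE.un (RE.re (by unfold fin; fun_prop)), fun _ _ => c_atom⟩
theorem Op.pj (h : Op Γ) (e : ℕ) : Op fun G => Pj e (Γ G) :=
  ⟨r_comp (f := fun z : List ℕ × ℕ × ℕ => (z.1, 2 * z.2.1 + e, z.2.2)) h.1 (by fun_prop),
    fun _ _ => h.2 _ _⟩
theorem Op.jn (h : Op Γ) (k : Op Δ) : Op fun G => Jn (Γ G) (Δ G) := by
  have a := r_comp (f := fun z : List ℕ × ℕ × ℕ => (z.1, z.2.1 / 2, z.2.2)) h.1 (by fun_prop)
  have b := r_comp (f := fun z : List ℕ × ℕ × ℕ => (z.1, z.2.1 / 2, z.2.2)) k.1 (by fun_prop)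
  exact ⟨RE.un (RE.re (r_or (r_and (by fun_prop) (r_pw a)) (r_and (by fun_prop) (r_pw b)))),
    fun _ _ => c_or (c_and c_const (h.2 _ _)) (c_and c_const (k.2 _ _))⟩
theorem Op.ap (h : Op Γ) (k : REPred W) : Op fun G => Ap W (Γ G) :=
  ⟨RE.un (RE.re (r_exists (r_and (r_ball_lt (r_pw (r_comp
    (f := fun z : ((List ℕ × ℕ × ℕ) × List ℕ) × ℕ => (z.1.1.1, z.2, z.1.2.getD z.2 0)) h.1
      (by fun_prop))) (by fun_prop)) (r_pw (r_comp
        (f := fun z : (List ℕ × ℕ × ℕ) × List ℕ => (z.2, z.1.2.1, z.1.2.2)) (RE.un k)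
          (by fun_prop)))))),
    fun _ _ => c_ex fun _ => c_and (c_ball fun _ => h.2 _ _) c_const⟩

theorem Le.mk {f g : Pb} (h : Op Γ) (k : Op Δ) (e : ∀ p, (f p).Nonempty → ∃ x, Is (Γ (gr p)) x ∧
    (g x).Nonempty ∧ ∀ q ∈ g x, ∃ y ∈ f p, Is (Δ (gr (jn p q))) y) : Le f g :=
  ⟨_, _, (r_pw h.1).re, (r_pw k.1).re, fun p a => (e p a).imp fun _ b =>
    ⟨fun n v => (h.ex p n v).trans (b.1 n v), b.2.1, fun q c => (b.2.2 q c).imp fun _ d =>
      ⟨d.1, fun n v => (k.ex _ n v).trans (d.2 n v)⟩⟩⟩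

theorem Le.refl (f : Pb) : Le f f :=
  .mk op_id (op_id.pj 1) fun p a => ⟨p, is_gr p, a, fun q b => ⟨q, b, is_r p q⟩⟩

theorem Le.trans {f g h : Pb} (a : Le f g) (b : Le g h) : Le f h := by
  obtain ⟨A, B, a1, a2, a3⟩ := a
  obtain ⟨C, D, b1, b2, b3⟩ := b
  refine .mk ((op_id.ap a1).ap b1) (((op_id.pj 0).jn ((((op_id.pj 0).ap a1).jn (op_id.pj 1)).ap
    b2)).ap a2) fun p hp => ?_
  obtain ⟨x, c1, c2, c3⟩ := a3 p hp
  obtain ⟨z, d1, d2, d3⟩ := b3 x c2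
  refine ⟨z, ((is_gr p).ap c1).ap d1, d2, fun q hq => ?_⟩
  obtain ⟨w, e1, e2⟩ := d3 q hq
  obtain ⟨y, e3, e4⟩ := c3 w e1
  exact ⟨y, e3, ((is_l p q).jn ((((is_l p q).ap c1).jn (is_r p q)).ap e2)).ap e4⟩

/-- Weihrauch degrees -/
def st : Setoid Pb := ⟨fun f g => Le f g ∧ Le g f, fun f => ⟨.refl f, .refl f⟩, And.symm,
  fun a b => ⟨a.1.trans b.1, b.2.trans a.2⟩⟩

def U (e : ℕ) : Ax := fun z => ((Denumerable.ofNat Nat.Partrec.Code e).eval (encode z)).Dom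

theorem ex_U (h : REPred W) : ∃ e, W = U e :=
  let ⟨c, hc⟩ := re_code h
  ⟨encode c, funext fun z => propext (by rw [U, Denumerable.ofNat_encode, hc])⟩

def tl (p : ℕ → ℕ) (i : ℕ) : ℕ := p (i + 1)
def cons (c : ℕ) (p : ℕ → ℕ) (i : ℕ) : ℕ := Nat.casesOn i c p
def Tl (G : Gr) : Gr := fun i v => G (i + 1) v
def Cons (C : ℕ → Prop) (G : Gr) : Gr := fun i v => i = 0 ∧ C v ∨ ∃ j, i = j + 1 ∧ G j v

theorem Is.tl (h : Is G x) : Is (Tl G) (tl x) := fun _ _ => h _ _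
theorem Is.cons {C : ℕ → Prop} {c : ℕ} (h : Is G x) (k : ∀ v, C v ↔ c = v) :
    Is (Cons C G) (cons c x) := fun i v => by cases i <;> simp [Cons, Wh.cons, k, h _ v]
theorem Op.tl (h : Op Γ) : Op fun G => Tl (Γ G) :=
  ⟨r_comp (f := fun z : List ℕ × ℕ × ℕ => (z.1, z.2.1 + 1, z.2.2)) h.1 (by fun_prop),
    fun _ _ => h.2 _ _⟩
theorem Op.cons (h : Op Γ) (k : Op Δ) : Op fun G => Cons (Δ G 0) (Γ G) :=
  ⟨RE.un (RE.re (r_or (r_and (by fun_prop) (r_pw (r_comp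
    (f := fun z : List ℕ × ℕ × ℕ => (z.1, 0, z.2.2)) k.1 (by fun_prop)))) (r_exists (r_and
      (by fun_prop) (r_pw (r_comp (f := fun z : (List ℕ × ℕ × ℕ) × ℕ => (z.1.1, z.2, z.1.2.2)) h.1
        (by fun_prop))))))),
    fun _ _ => c_or (c_and c_const (k.2 _ _)) (c_ex fun _ => c_and c_const (h.2 _ _))⟩
theorem op_const (c : ℕ) : Op fun _ _ v => c = v :=
  ⟨RE.un (RE.re (by fun_prop)), fun _ _ => c_const⟩
theorem Op.apU {ι : ℕ → ℕ} (h : Op Γ) (k : Primrec ι) :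
    Op fun G n v => ∃ c, G 0 c ∧ Ap (U (ι c)) (Γ G) n v :=
  ⟨RE.un (RE.re (r_exists (r_and (by unfold fin; fun_prop) (r_exists (r_and (r_ball_lt (r_pw (r_comp
    (f := fun z : (((List ℕ × ℕ × ℕ) × ℕ) × List ℕ) × ℕ => (z.1.1.1.1, z.2, z.1.2.getD z.2 0)) h.1
      (by fun_prop))) (by fun_prop)) (r_pw (r_comp
        (f := fun z : ((List ℕ × ℕ × ℕ) × ℕ) × List ℕ => (ι z.1.2, encode (z.2, z.1.1.2.1, z.1.1.2.2)))
          re_dom (by fun_prop)))))))),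
    fun _ _ => c_ex fun _ => c_and c_atom (c_ex fun _ => c_and (c_ball fun _ => h.2 _ _) c_const)⟩

/-- self-referential listing -/
theorem fix (h : Op Γ) (k : ℕ) : ∃ W, REPred W ∧ ∀ x, ∃ t, Maps W x t ∧ (∀ i < k, t i = 0) ∧
    ∀ j < 4, ∀ c, (∃ s, t (4 * s + j) = c + 1) ↔ Γ (gr (jn x t)) j c := by
  obtain ⟨N, h1, h2, h3, h4⟩ := re_bool (r_pw h.1).re
  let F : (ℕ → ℕ) → List ℕ → ℕ := fun x l => if k ≤ l.length ∧ N (pr (jn x (l.getD · 0))
    (l.length / 4).unpair.2.unpair.1, l.length % 4, (l.length / 4).unpair.1)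
      (l.length / 4).unpair.2.unpair.2 then (l.length / 4).unpair.1 + 1 else 0
  let L : (ℕ → ℕ) → ℕ → List ℕ := fun x m => Nat.rec [] (fun _ l => l ++ [F x l]) m
  have a0 : ∀ m i, i < (m / 4).unpair.2.unpair.1 → i / 2 < m := fun m i hi => by
    have := hi.trans_le ((Nat.unpair_left_le _).trans (Nat.unpair_right_le _)); omega
  have a1 : ∀ x m, L x m = pr (fun i => F x (L x i)) m := fun x m => by
    induction m with
    | zero => rfl
    | succ m ih => rw [pr, List.range_succ, List.map_append, ← pr, ← ih]; rfl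
  have a2 : ∀ x y l, (∀ i < l.length, x i = y i) → F x l = F y l := fun x y l e => by
    simp only [F]
    rw [pr_congr (q := jn y (l.getD · 0)) fun i hi => by simp only [jn, e _ (a0 _ i hi)]]
  have a3 : ∀ x y m, (∀ i < m, x i = y i) → L x m = L y m := fun x y m e => by
    induction m with
    | zero => rfl
    | succ m ih =>
      change L x m ++ [F x (L x m)] = L y m ++ [F y (L y m)]
      rw [a2 x y _ fun i hi => e i (by rw [a1, pr_len] at hi; omega), ih fun i hi => e i (by omega)]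
  have a4 : Primrec fun z : List ℕ × List ℕ => F (z.1.getD · 0) z.2 := by
    unfold F pr jn; fun_prop
  have a5 : Primrec fun σ : List ℕ => F (σ.getD · 0) (L (σ.getD · 0) σ.length) :=
    p_comp (g := fun σ : List ℕ => (σ, L (σ.getD · 0) σ.length)) a4 (p_pair .id (p_rec (by fun_prop)
      (by fun_prop) (p_append (by fun_prop) (p_cons (p_comp
        (g := fun z : List ℕ × ℕ × List ℕ => (z.1, z.2.2)) a4 (by fun_prop)) (by fun_prop)))))
  refine ⟨fun z => z.1.length = z.2.1 ∧ F (z.1.getD · 0) (L (z.1.getD · 0) z.1.length) = z.2.2,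
    RE.re (r_prim (p_dand (by fun_prop) (p_eq (p_comp a5 .fst) (by fun_prop)))), fun x =>
      ⟨fun i => F x (L x i), fun n v => ?_, fun i hi => if_neg fun c => by
        rw [a1, pr_len] at c; omega, fun j hj c => ?_⟩⟩
  · simp only [pr_len, exists_eq_left]
    rw [a3 _ x n fun i => pr_getD, a2 _ x _ fun i hi => pr_getD (by rwa [a1, pr_len] at hi)]
  · have a6 : ∀ s, F x (L x (4 * s + j)) = if k ≤ 4 * s + j ∧ N (pr (jn x fun i => F x (L x i))
        s.unpair.2.unpair.1, j, s.unpair.1) s.unpair.2.unpair.2 then s.unpair.1 + 1 else 0 :=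
      fun s => by
        have e : (4 * s + j) / 4 = s := by omega
        conv_lhs => rw [a1]; simp only [F, pr_len]
        rw [pr_congr (q := jn x fun i => F x (L x i)) fun i hi => by
          simp only [jn, pr_getD (a0 _ i hi)]; rfl, e, show (4 * s + j) % 4 = j by omega]
    simp only [a6, ← h.ex]
    refine ⟨fun ⟨s, b⟩ => ?_, fun ⟨m, b⟩ => ?_⟩
    · split_ifs at b with e
      exact ⟨_, Nat.succ_injective b ▸ h2 _ _ e.2⟩
    · obtain ⟨u, b⟩ := h4 (_, j, c) b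
      have := (Nat.right_le_pair m (u + k)).trans (Nat.right_le_pair c _)
      exact ⟨c.pair (m.pair (u + k)), by
        simp only [Nat.unpair_pair]; exact if_pos ⟨by omega, h3 _ _ _ (Nat.le_add_right _ _) b⟩⟩

end Pool.Agent.Lib.helper21.Wh
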